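import Pool.Agent.MP_59fd2e_ag.dv.Spec

/-! PROJECT DV, row CH: the chain of lower sets. -/

namespace Pool.Agent.MP_59fd2e_ag.DV

namespace Ch

theorem mem_II (n : ℕ) (τ : T3) : τ ∈ II n ↔
    τ.1.2.2.val < 6 ∨ (τ.1.1.val = 0 ∧ τ.1.2.2.val < 8 ∧ pos τ < n) := by
  simp [II]

theorem mem_I0 (τ : T3) : τ ∈ I0 ↔ τ.1.2.2.val < 6 := by simp [I0]

theorem mem_IC (τ : T3) : τ ∈ IC ↔ τ.1.1.val = 0 ∧ τ.1.2.1.val ≤ 5 := by simp [IC]

theorem lt1 (τ : T3) : τ.1.1.val < τ.1.2.1.val := τ.2.1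

theorem lt2 (τ : T3) : τ.1.2.1.val < τ.1.2.2.val := τ.2.2

theorem ext3 {τ τ' : T3} (h1 : τ.1.1.val = τ'.1.1.val) (h2 : τ.1.2.1.val = τ'.1.2.1.val)
    (h3 : τ.1.2.2.val = τ'.1.2.2.val) : τ = τ' :=
  Subtype.ext (Prod.ext (Fin.ext h1) (Prod.ext (Fin.ext h2) (Fin.ext h3)))

theorem step (n : ℕ) (hn : n < 11) (τ : T3) (h0 : τ.1.1.val = 0)
    (h2 : τ.1.2.2.val = (if n < 5 then 6 else 7))
    (h1 : τ.1.2.1.val = (if n < 5 then n + 1 else n - 4)) :
    τ ∉ II n ∧ II (n + 1) = insert τ (II n) := by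
  constructor
  · rw [mem_II, pos]
    split_ifs at h1 h2 ⊢ <;> omega
  · ext ρ
    rw [Finset.mem_insert, mem_II, mem_II]
    have a1 := lt1 ρ
    have a2 := lt2 ρ
    constructor
    · intro h
      by_cases e : pos ρ = n ∧ ¬ ρ.1.2.2.val < 6
      · left
        rw [pos] at e h
        apply ext3 <;> split_ifs at h1 h2 e h <;> omega
      · right
        omega
    · rintro (rfl | h)
      · rw [pos]
        split_ifs at h1 h2 ⊢ <;> omega
      · omega

theorem card_I0 : I0.card = 20 := by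
  have h : I0 = (Finset.univ : Finset T3).filter fun τ => decide (τ.1.2.2.val < 6) = true := by
    ext τ
    simp [mem_I0]
  rw [h]
  decide +kernel

theorem card_IC : IC.card = 30 := by
  have h : IC = (Finset.univ : Finset T3).filter
      fun τ => decide (τ.1.1.val = 0 ∧ τ.1.2.1.val ≤ 5) = true := by
    ext τ
    simp [mem_IC]
  rw [h]
  decide +kernel

theorem zero : II 0 = I0 := by
  ext τ
  rw [mem_II, mem_I0]
  omega

end Ch

open Ch in
theorem chS : ChS where
  zero := zero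
  low := fun n τ h τ' h1 h2 h3 => by
    rw [mem_II, pos] at h ⊢
    have a1 := lt1 τ
    have a2 := lt2 τ
    have b1 := lt1 τ'
    have b2 := lt2 τ'
    rw [Fin.le_def] at h1 h2 h3
    split_ifs at h ⊢ <;> omega
  sub := fun n τ h => by
    rw [mem_I0] at h
    exact (mem_II n τ).2 (Or.inl h)
  card := fun n hn => by
    induction n with
    | zero => rw [zero, card_I0]
    | succ n ih =>
      have h1 : (if n < 5 then n + 1 else n - 4) < 10 := by split_ifs <;> omega
      have h2 : (if n < 5 then 6 else 7) < 10 := by split_ifs <;> omega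
      obtain ⟨a, b⟩ := step n (by omega) ⟨(0, ⟨_, h1⟩, ⟨_, h2⟩), by
        simp only [Fin.lt_def, Fin.val_zero]
        split_ifs <;> omega⟩ rfl rfl rfl
      rw [b, Finset.card_insert_of_notMem a, ih (by omega)]
      omega
  step := step
  lowC := ⟨fun τ h τ' h1 h2 _ => by
    rw [mem_IC] at h ⊢
    rw [Fin.le_def] at h1 h2
    omega, card_IC⟩
  c120 := by decide +kernel

end Pool.Agent.MP_59fd2e_ag.DV
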