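import Pool.Agent.MP_59fd2e_ag.dv.Spec

/-! PROJECT DV, row CHART: coordinates on the strata. -/

noncomputable section

namespace Pool.Agent.MP_59fd2e_ag.DV

open MvPolynomial Matrix Pool.Agent.MP_9207e0_ag.CC
open scoped Classical

namespace Chart

section
variable {R S : Type} [CommRing R] [CommRing S]

theorem nf (w : S10) (y : Fr w → R) : NF w (um w y) := by
  refine ⟨fun i => ⟨?_, fun j hj => ?_⟩, fun i c hc => ?_⟩
  · simp [um]
  · have h1 : w j ≠ w i := fun h => hj.ne (w.injective h)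
    have h2 : ¬(w i < w j ∧ i < w.symm (w j)) := fun h => by
      rw [Equiv.symm_apply_apply] at h
      exact lt_asymm hj h.2
    simp only [um, of_apply, if_neg h1, dif_neg h2]
  · have h2 : ¬(w i < c ∧ i < w.symm c) := fun h => lt_asymm hc h.1
    simp only [um, of_apply, if_neg hc.ne, dif_neg h2]

theorem um_co (w : S10) (g : M10 R) (h : NF w g) : um w (fun x => g x.1.1 x.1.2) = g := by
  ext i c
  simp only [um, of_apply]
  split_ifs with h1 h2
  · rw [h1, (h.1 i).1]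
  · rfl
  · rcases lt_or_gt_of_ne h1 with h3 | h3
    · exact (h.2 i c h3).symm
    · have h4 : w.symm c ≤ i := not_lt.1 fun h5 => h2 ⟨h3, h5⟩
      have h5 : w.symm c ≠ i := fun h6 => h1 (by rw [← h6, Equiv.apply_symm_apply])
      have h6 := (h.1 i).2 _ (lt_of_le_of_ne h4 h5)
      rw [Equiv.apply_symm_apply] at h6
      exact h6.symm

theorem um_apply (w : S10) (y : Fr w → R) (x : Fr w) : um w y x.1.1 x.1.2 = y x := by
  have h1 : x.1.2 ≠ w x.1.1 := x.2.1.ne'
  simp only [um, of_apply, if_neg h1, dif_pos x.2]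

theorem lm_co (I : Finset T3) (l : T3 → R) (h : ∀ τ ∈ I, l τ = 0) :
    lm I (fun τ => l τ.1) = l := by
  funext τ
  simp only [lm]
  split_ifs with h1
  · exact (h τ h1).symm
  · rfl

theorem um_map (φ : R →+* S) (w : S10) (y : Fr w → R) : (um w y).map φ = um w (φ ∘ y) := by
  ext i c
  simp only [um, of_apply, Matrix.map_apply]
  split_ifs with h1 h2
  · exact map_one φ
  · rfl
  · exact map_zero φ

theorem lm_map (φ : R →+* S) (I : Finset T3) (y : {τ : T3 // τ ∉ I} → R) :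
    φ ∘ lm I y = lm I (φ ∘ y) := by
  funext τ
  simp only [lm, Function.comp_apply]
  split_ifs with h1
  · exact map_zero φ
  · rfl

theorem xs_map (φ : R →+* S) (p q : Fin 10) (s : R) : (xs p q s).map φ = xs p q (φ s) := by
  ext i c
  simp only [xs, Matrix.map_apply, Matrix.add_apply, map_add, Matrix.one_apply, Matrix.single,
    of_apply]
  split_ifs <;> simp

theorem unit_det (hN : NfS) {w : S10} {g : M10 R} (h : CF w g) : IsUnit g.det :=
  IsUnit.of_mul_eq_one _ (hN.det R w g h)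

theorem inv_map (φ : R →+* S) {u : M10 R} (h : IsUnit u.det) : (u⁻¹).map φ = (u.map φ)⁻¹ := by
  symm
  apply Matrix.inv_eq_right_inv
  rw [← Matrix.map_mul, Matrix.mul_nonsing_inv _ h, Matrix.map_one _ (map_zero φ) (map_one φ)]

theorem ev (hT : TriS) (φ : R →+* S) (l : T3 → R) {u : M10 R} (h : IsUnit u.det) (σ : T3 → S) :
    (∀ τ, φ (lam l u⁻¹ τ) = σ τ) ↔ lam σ (u.map φ) = φ ∘ l := by
  have h' : IsUnit (u.map φ).det := by
    have h1 := h.map φ
    rw [RingHom.map_det] at h1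
    exact h1
  have e : ∀ τ, φ (lam l u⁻¹ τ) = lam (φ ∘ l) (u.map φ)⁻¹ τ := fun τ => by
    rw [hT.lam_map, inv_map φ h]
  constructor
  · intro h1
    have h2 : lam (φ ∘ l) (u.map φ)⁻¹ = σ := funext fun τ => by rw [← e, h1]
    rw [← h2, ← hT.lam_mul, Matrix.mul_nonsing_inv _ h', hT.one]
  · intro h1 τ
    rw [e, ← h1, ← hT.lam_mul, Matrix.nonsing_inv_mul _ h', hT.one]

end

theorem um_ov {K L : Type} [Field K] [Field L] (P : Plc K L) (w : S10) (y : Fr w → K)
    (z : Fr w → L) (h : Ov P y z) : OvM P (um w y) (um w z) := by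
  intro i c
  simp only [um, of_apply]
  split_ifs with h1 h2
  · exact ⟨P.V.one_mem, P.fn_one⟩
  · exact h _
  · exact ⟨P.V.zero_mem, P.fn_zero⟩

section
variable {k0 R : Type} [Field k0] [CommRing R] [Algebra k0 R]

theorem evI (hT : TriS) (hN : NfS) (w : S10) (I : Finset T3) (σ : T3 → R) (y : Ix w I → R) :
    (∀ τ, aeval y (sI k0 w I τ) = σ τ) ↔ lam σ (um w (y ∘ Sum.inl)) = lm I (y ∘ Sum.inr) := by
  have h := ev hT (aeval y : MvPolynomial (Ix w I) k0 →ₐ[k0] R).toRingHom (lm I (X ∘ Sum.inr))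
    (unit_det hN (nf w (X ∘ Sum.inl)).1) σ
  have e1 : ((aeval y : MvPolynomial (Ix w I) k0 →ₐ[k0] R).toRingHom ∘ (X ∘ Sum.inl) : Fr w → R) =
      y ∘ Sum.inl := funext fun x => by simp
  have e2 : ((aeval y : MvPolynomial (Ix w I) k0 →ₐ[k0] R).toRingHom ∘ (X ∘ Sum.inr) :
      {τ : T3 // τ ∉ I} → R) = y ∘ Sum.inr := funext fun x => by simp
  rw [um_map, lm_map, e1, e2] at h
  exact h

theorem evB (hT : TriS) (hN : NfS) (hC : CovS) (w : S10) (p q : Fin 10) (I : Finset T3)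
    (σ : T3 → R) (y : Option (Ix w I) → R) (hpq : p < q) :
    (∀ τ, aeval y (sB k0 w p q I τ) = σ τ) ↔
      lam σ (xs p q (y none) * um w (y ∘ some ∘ Sum.inl)) = lm I (y ∘ some ∘ Sum.inr) := by
  have h := ev hT (aeval y : MvPolynomial (Option (Ix w I)) k0 →ₐ[k0] R).toRingHom
    (lm I (X ∘ some ∘ Sum.inr))
    (unit_det hN (hC.cf _ w p q (X none) _ hpq (nf w (X ∘ some ∘ Sum.inl)).1)) σ
  have e0 : (aeval y : MvPolynomial (Option (Ix w I)) k0 →ₐ[k0] R).toRingHom (X none) = y none :=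
    aeval_X _ _
  have e1 : ((aeval y : MvPolynomial (Option (Ix w I)) k0 →ₐ[k0] R).toRingHom ∘
      (X ∘ some ∘ Sum.inl) : Fr w → R) = y ∘ some ∘ Sum.inl := funext fun x => by simp
  have e2 : ((aeval y : MvPolynomial (Option (Ix w I)) k0 →ₐ[k0] R).toRingHom ∘
      (X ∘ some ∘ Sum.inr) : {τ : T3 // τ ∉ I} → R) = y ∘ some ∘ Sum.inr :=
    funext fun x => by simp
  rw [Matrix.map_mul, xs_map, um_map, lm_map, e0, e1, e2] at h
  exact h

theorem ps (hT : TriS) (hN : NfS) (w : S10) (I : Finset T3) (σ : T3 → R) (g : M10 R)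
    (h : g ∈ PS σ w I) :
    um w (co w I σ g ∘ Sum.inl) = g ∧ ∀ τ, aeval (co w I σ g) (sI k0 w I τ) = σ τ := by
  have h1 : um w (co w I σ g ∘ Sum.inl) = g := um_co w g h.1
  refine ⟨h1, (evI hT hN w I σ _).2 ?_⟩
  rw [h1]
  exact (lm_co I _ h.2).symm

theorem ps' (hT : TriS) (hN : NfS) (w : S10) (I : Finset T3) (σ : T3 → R) (y : Ix w I → R)
    (h : ∀ τ, aeval y (sI k0 w I τ) = σ τ) :
    um w (y ∘ Sum.inl) ∈ PS σ w I ∧ co w I σ (um w (y ∘ Sum.inl)) = y := by
  have h1 := (evI hT hN w I σ y).1 h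
  refine ⟨⟨nf w _, fun τ hτ => ?_⟩, funext fun x => ?_⟩
  · rw [h1, lm, dif_pos hτ]
  · rcases x with x | τ
    · exact um_apply w _ x
    · show lam σ _ τ.1 = _
      rw [h1, lm, dif_neg τ.2]
      rfl

end

theorem ps_map {R S : Type} [CommRing R] [CommRing S] (hT : TriS) (φ : R →+* S) (w : S10)
    (I : Finset T3) (σ : T3 → R) (g : M10 R) (h : g ∈ PS σ w I) :
    g.map φ ∈ PS (φ ∘ σ) w I ∧ co w I (φ ∘ σ) (g.map φ) = φ ∘ co w I σ g := by
  refine ⟨⟨⟨fun i => ⟨?_, fun j hj => ?_⟩, fun i c hc => ?_⟩, fun τ hτ => ?_⟩, funext fun x => ?_⟩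
  · rw [Matrix.map_apply, (h.1.1 i).1, map_one]
  · rw [Matrix.map_apply, (h.1.1 i).2 j hj, map_zero]
  · rw [Matrix.map_apply, h.1.2 i c hc, map_zero]
  · rw [← hT.lam_map, h.2 τ hτ, map_zero]
  · rcases x with x | τ
    · rfl
    · exact (hT.lam_map _ _ φ σ g τ.1).symm

theorem cnt {k0 K : Type} [Field k0] [Field K] [Algebra k0 K] (hT : TriS) (hN : NfS) (hL : LenS)
    (hH : ChS) (w : S10) (I : Finset T3) (σ : T3 → K) (g : M10 K)
    (hσ : AlgebraicIndependent k0 σ) (h : g ∈ PS σ w I) :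
    len w + I.card ≤ 45 ∧ (len w + I.card = 45 → AlgebraicIndependent k0 (co w I σ g)) ∧
      (120 : ℕ∞) ≤ rk k0 (Set.range (co w I σ g)) := by
  have h1 : Set.range σ ⊆ cl k0 (Set.range (co w I σ g)) := by
    rintro _ ⟨τ, rfl⟩
    rw [← (ps (k0 := k0) hT hN w I σ g h).2 τ]
    exact aeval_mem_cl (fun i => subset_cl _ (Set.mem_range_self i)) _
  have h2 : ((120 : ℕ) : ℕ∞) ≤ rk k0 (Set.range (co w I σ g)) := by
    rw [← hH.c120, ← rk_range_of_indep hσ]
    exact rk_le_of_subset_cl h1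
  have h3 : 120 ≤ Fintype.card (Ix w I) := by
    exact_mod_cast h2.trans (rk_range_le _)
  have h4 := hL.ix w I
  refine ⟨by omega, fun h5 => indep_of_rk ?_, by exact_mod_cast h2⟩
  have h6 : Fintype.card (Ix w I) = 120 := by omega
  rw [h6]
  exact h2

end Chart

theorem chartS (hT : TriS) (hN : NfS) (hC : CovS) (hL : LenS) (hH : ChS) : ChartS where
  nf := fun _ _ => Chart.nf
  um_co := fun _ _ => Chart.um_co
  um_apply := fun _ _ => Chart.um_apply
  lm_co := fun _ _ => Chart.lm_co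
  um_ov := fun _ _ _ _ => Chart.um_ov
  evI := fun _ _ _ _ _ => Chart.evI hT hN
  evB := fun _ _ _ _ _ => Chart.evB hT hN hC
  ps := fun _ _ _ _ _ => Chart.ps hT hN
  ps' := fun _ _ _ _ _ => Chart.ps' hT hN
  ps_map := fun _ _ _ _ => Chart.ps_map hT
  cnt := fun _ _ _ _ _ => Chart.cnt hT hN hL hH

end Pool.Agent.MP_59fd2e_ag.DV
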