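import Pool.Agent.MP_59fd2e_ag.dv.Spec

/-! Row CONJ: conjugate points. -/

noncomputable section

namespace Pool.Agent.MP_59fd2e_ag.DV

open MvPolynomial Matrix Pool.Agent.MP_9207e0_ag.CC
open scoped Classical

namespace Conj

variable {k0 k J ι : Type} [Field k0] [Field k] [Algebra k0 k] {σ : J → k}

theorem clo [IsAlgClosed k] {y : ι → k} {s : J → MvPolynomial ι k0}
    (h : IsTranscendenceBasis k0 σ) (hs : ∀ j, aeval y (s j) = σ j) :
    IsAlgClosure (aeval y : MvPolynomial ι k0 →ₐ[k0] k).range k := by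
  refine ⟨inferInstance, ⟨fun a => (h.isAlgebraic.1 a).tower_top_of_subalgebra_le ?_⟩⟩
  rw [Algebra.adjoin_le_iff]
  rintro _ ⟨j, rfl⟩
  exact ⟨s j, hs j⟩

theorem iso0 {R A B : Type} [CommRing R] [CommRing A] [CommRing B] (f : R →+* A) (g : R →+* B)
    (hf : Function.Surjective f) (hg : Function.Surjective g)
    (h : RingHom.ker f = RingHom.ker g) : ∃ e : A ≃+* B, ∀ r, e (f r) = g r := by
  refine ⟨(RingHom.quotientKerEquivOfSurjective hf).symm.trans ((Ideal.quotEquivOfEq h).trans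
    (RingHom.quotientKerEquivOfSurjective hg)), fun r => ?_⟩
  have e : (RingHom.quotientKerEquivOfSurjective hf).symm (f r) = Ideal.Quotient.mk _ r := by
    rw [RingEquiv.symm_apply_eq]
    rfl
  rw [RingEquiv.trans_apply, e]
  rfl

theorem iso {y y' : ι → k} (h1 : ASp k0 y y') (h2 : ASp k0 y' y) :
    ∃ e : (aeval y : MvPolynomial ι k0 →ₐ[k0] k).range ≃+*
      (aeval y' : MvPolynomial ι k0 →ₐ[k0] k).range,
      ∀ f, (e ⟨aeval y f, f, rfl⟩ : k) = aeval y' f := by
  obtain ⟨e, he⟩ := iso0 (aeval y : MvPolynomial ι k0 →ₐ[k0] k).rangeRestrict.toRingHom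
    (aeval y' : MvPolynomial ι k0 →ₐ[k0] k).rangeRestrict.toRingHom
    (AlgHom.rangeRestrict_surjective _) (AlgHom.rangeRestrict_surjective _)
    (Ideal.ext fun f => ⟨fun h => Subtype.ext (h1 f (congrArg Subtype.val h)),
      fun h => Subtype.ext (h2 f (congrArg Subtype.val h))⟩)
  exact ⟨e, fun f => congrArg Subtype.val (he f)⟩

theorem fin1 (h : IsTranscendenceBasis k0 σ) (a : k) :
    {b | ∃ θ, Fx k0 σ θ ∧ θ a = b}.Finite := by
  obtain ⟨p, p0, p1⟩ := h.isAlgebraic.1 a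
  refine (p.rootSet_finite k).subset ?_
  rintro _ ⟨θ, hθ, rfl⟩
  have fx : ∀ x ∈ Algebra.adjoin k0 (Set.range σ), θ x = x := fun x hx => by
    induction hx using Algebra.adjoin_induction with
    | mem x hx => obtain ⟨j, rfl⟩ := hx; exact hθ j
    | algebraMap r => exact θ.commutes r
    | add x y _ _ a b => rw [map_add, a, b]
    | mul x y _ _ a b => rw [map_mul, a, b]
  let φ : k →ₐ[Algebra.adjoin k0 (Set.range σ)] k := ⟨(θ : k →+* k), fun x => fx x x.2⟩
  rw [Polynomial.mem_rootSet_of_ne p0]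
  exact (Polynomial.aeval_algHom_apply φ a p).trans (by rw [p1, map_zero])

theorem fin [Finite ι] (y : ι → k) (h : IsTranscendenceBasis k0 σ) :
    {y' | ∃ θ, Fx k0 σ θ ∧ θ ∘ y = y'}.Finite := by
  refine (Set.Finite.pi' fun i => fin1 h (y i)).subset ?_
  rintro _ ⟨θ, hθ, rfl⟩ i
  exact ⟨θ, hθ, rfl⟩

end Conj

theorem conjS : ConjS where
  ex k0 k J ι _ _ _ _ σ y y' s h h1 h2 a b := by
    have := Conj.clo h a
    have := Conj.clo h b
    obtain ⟨e, he⟩ := Conj.iso h1 h2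
    have key : ∀ f : MvPolynomial ι k0,
        IsAlgClosure.equivOfEquiv k k e (aeval y f) = aeval y' f := fun f =>
      (IsAlgClosure.equivOfEquiv_algebraMap k k e ⟨aeval y f, f, rfl⟩).trans (he f)
    refine ⟨AlgEquiv.ofRingEquiv (f := IsAlgClosure.equivOfEquiv k k e) fun r => ?_,
      fun j => ?_, fun i => ?_⟩
    · simpa using key (C r)
    · exact (congrArg _ (a j).symm).trans ((key (s j)).trans (b j))
    · simpa using key (X i)
  fin k0 k J ι _ _ _ _ σ y h := Conj.fin y h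
  finP k0 k J ι _ _ _ _ σ x h := by
    refine ((Conj.fin x.rep h).image fun v =>
      if hv : v ≠ 0 then Projectivization.mk k v hv else x).subset ?_
    rintro _ ⟨θ, hθ, rfl⟩
    refine ⟨_, ⟨θ, hθ, rfl⟩, dif_pos fun e => x.rep_nonzero (funext fun j => ?_)⟩
    exact θ.injective ((congrFun e j).trans (map_zero θ).symm)
  symm k0 k J ι _ _ _ σ x y := by
    rintro ⟨θ, hθ, rfl⟩
    refine ⟨θ.symm, fun j => θ.symm_apply_eq.2 (hθ j).symm, ?_⟩
    rw [pmap_pmap, show (θ.symm : k →+* k).comp (θ : k →+* k) = RingHom.id k from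
      RingHom.ext fun a => θ.symm_apply_apply a, pmap_id]
  trans k0 k J ι _ _ _ σ x y z := by
    rintro ⟨θ, hθ, rfl⟩ ⟨η, hη, rfl⟩
    refine ⟨θ.trans η, fun j => by rw [AlgEquiv.trans_apply, hθ, hη], ?_⟩
    rw [pmap_pmap]
    rfl
  refl k0 k J ι _ _ _ σ x := ⟨AlgEquiv.refl, fun _ => rfl, pmap_id x⟩

end Pool.Agent.MP_59fd2e_ag.DV
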