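import Pool.Agent.MP_59fd2e_ag.dv.Spec

/-! Row COV: the boundary divisors of a cell. -/

namespace Pool.Agent.MP_59fd2e_ag.DV

open Matrix

namespace CovL

theorem xm {R : Type} [CommRing R] (p q : Fin 10) (s : R) (u : M10 R) (i c : Fin 10) :
    (xs p q s * u) i c = if i = p then u p c + s * u q c else u i c := by
  rw [xs, Matrix.add_mul, Matrix.one_mul, Matrix.add_apply]
  split_ifs with h
  · rw [h, Matrix.single_mul_apply_same]
  · rw [Matrix.single_mul_apply_of_ne _ _ _ _ _ h, add_zero]

theorem sp (w : S10) (p q : Fin 10) : sw w p q p = w q := by simp [sw]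

theorem sq (w : S10) (p q : Fin 10) : sw w p q q = w p := by simp [sw]

theorem so (w : S10) {p q i : Fin 10} (a : i ≠ p) (b : i ≠ q) : sw w p q i = w i := by
  simp [sw, Equiv.swap_apply_of_ne_of_ne a b]

theorem cf {R : Type} [CommRing R] (w : S10) {p q : Fin 10} (s : R) {u : M10 R} (h : p < q)
    (hu : CF w u) : CF w (xs p q s * u) := by
  intro i
  simp only [xm]
  split_ifs with e
  · subst e
    refine ⟨by rw [(hu i).1, (hu q).2 i h]; ring, fun j hj => ?_⟩
    rw [(hu i).2 j hj, (hu q).2 j (hj.trans h)]
    ring
  · exact hu i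

theorem vm {R : Type} [CommRing R] (p q : Fin 10) (s : R) (g : M10 R) (d : Fin 10) :
    ((Pi.single p 1 + Pi.single q s : Fin 10 → R) ᵥ* g) d = g p d + s * g q d := by
  simp [Matrix.add_vecMul, Matrix.single_vecMul]

end CovL

open CovL in
theorem covS (hR : RkS) (hN : NfS) (hL : LenS) : CovS where
  cf R _ w p q s u h hu := cf w s h hu
  inv R _ p q s h := by
    rw [xs, xs, Matrix.add_mul, Matrix.mul_add, Matrix.mul_add, Matrix.one_mul, Matrix.one_mul,
      Matrix.mul_one, Matrix.single_mul_single_of_ne _ _ _ _ h.symm, add_zero, add_assoc,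
      ← Matrix.single_add, neg_add_cancel, Matrix.single_zero, add_zero]
  to_nf K _ w p q g hc hg hr := by
    obtain ⟨pq, wpq, cov⟩ := hc
    have row : ∀ i c, ¬(p ≤ i ∧ i < q ∧ w p ≤ c ∧ c < w q) → c < sw w p q i →
        ∀ d, d ≤ c → g i d = 0 := by
      intro i c ho hi d hd
      have := hR.sp K (sw w p q) g i c (Pi.single i 1) hg
        (by rw [hL.rk_sw w p q i c pq wpq ho]; exact hr i c)
        (fun j hj => Pi.single_eq_of_ne hj.ne' _) (fun j hj k => by
          rw [Matrix.single_one_vecMul]
          exact (hg i).2 j (hj.lt_of_ne fun e => absurd k (not_le.2 (e ▸ hi)))) d hd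
      rwa [Matrix.single_one_vecMul] at this
    refine ⟨cf _ _ pq hg, fun i c hi => ?_⟩
    rw [xm]
    split_ifs with e
    · subst e
      rw [sp] at hi
      have fst : ∀ d, d < w i → g i d = 0 := fun d hd =>
        row i d (fun k => absurd k.2.2.1 (not_le.2 hd)) (by rw [sp]; exact hd.trans wpq) d le_rfl
      rw [← vm]
      refine hR.sp K (sw w i q) g q c _ hg
        (by rw [hL.rk_sw w i q q c pq wpq fun k => lt_irrefl _ k.2.1]; exact hr q c)
        (fun j hj => by
          rw [Pi.add_apply, Pi.single_eq_of_ne hj.ne', Pi.single_eq_of_ne (pq.trans hj).ne',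
            add_zero]) (fun j hj k => ?_) c le_rfl
      rw [vm]
      rcases hj.eq_or_lt with rfl | hj
      · rw [(hg j).1, sq]
        ring
      · rw [(hg q).2 j hj, mul_zero, add_zero]
        rcases lt_trichotomy j i with a | rfl | a
        · exact (hg i).2 j a
        · rw [sp] at k
          exact absurd k (not_le.2 hi)
        · rw [so w a.ne' hj.ne] at k ⊢
          refine fst _ (lt_of_le_of_ne (not_lt.1 fun b => cov j a hj ⟨b, k.trans_lt hi⟩) ?_)
          exact fun b => a.ne' (w.injective b)
    · by_cases ho : p ≤ i ∧ i < q ∧ w p ≤ c ∧ c < w q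
      · obtain ⟨a, b, x, y⟩ := ho
        have a' : p < i := a.lt_of_ne (Ne.symm e)
        have k := so w e b.ne
        refine row i (w q) (fun k => lt_irrefl _ k.2.2.2) ?_ c y.le
        rw [k] at hi ⊢
        refine lt_of_le_of_ne (not_lt.1 fun z => cov i a' b ⟨x.trans_lt hi, z⟩) ?_
        exact fun z => b.ne' (w.injective z)
      · exact row i c ho hi c le_rfl
  of_nf K _ w p q s u hc hs hu := by
    obtain ⟨pq, wpq, _⟩ := hc
    let b1 : M10 K := Matrix.updateRow 1 q (Pi.single p 1 + Pi.single q (-s))
    have d1 : ∀ i, b1 i i = if i = q then -s else 1 := by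
      intro i
      split_ifs with e
      · subst e
        simp [b1, Pi.single_eq_of_ne pq.ne']
      · simp [b1, Matrix.updateRow_ne e]
    have lo : Lo b1 := by
      refine ⟨fun i j h => ?_, fun i => ?_⟩
      · by_cases e : i = q
        · subst e
          simp [b1, Pi.single_eq_of_ne h.ne', Pi.single_eq_of_ne (pq.trans h).ne']
        · simp [b1, Matrix.updateRow_ne e, Matrix.one_apply_ne h.ne]
      · rw [d1]
        split_ifs
        · exact neg_ne_zero.2 hs
        · exact one_ne_zero
    have m : ∀ i c, (b1 * (xs p q s * u)) i c =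
        if i = q then u p c else if i = p then u p c + s * u q c else u i c := by
      intro i c
      rw [Matrix.updateRow_mul, Matrix.one_mul]
      by_cases e : i = q
      · subst e
        rw [Matrix.updateRow_self, vm, xm, xm, if_pos rfl, if_neg pq.ne', if_pos rfl]
        ring
      · rw [Matrix.updateRow_ne e, xm, if_neg e]
    have lead : ∀ i, (b1 * (xs p q s * u)) i (w i) = if i = p then s else 1 := by
      intro i
      rw [m]
      by_cases e : i = q
      · subst e
        rw [if_pos rfl, if_neg pq.ne', ← sp w p i]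
        exact (hu.1 p).1
      · rw [if_neg e]
        split_ifs with e'
        · subst e'
          rw [hu.2 i (w i) (by rw [sp]; exact wpq), ← sq w i q, (hu.1 q).1]
          ring
        · rw [← so w e' e]
          exact (hu.1 i).1
    have ld : Ld w (b1 * (xs p q s * u)) := by
      refine fun i => ⟨?_, fun c h => ?_⟩
      · rw [lead]
        split_ifs
        · exact hs
        · exact one_ne_zero
      · rw [m]
        split_ifs with e e'
        · subst e
          exact hu.2 p c (by rw [sp]; exact h)
        · subst e'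
          rw [hu.2 i c (by rw [sp]; exact h.trans wpq), hu.2 q c (by rw [sq]; exact h)]
          ring
        · exact hu.2 i c (by rw [so w e' e]; exact h)
    obtain ⟨b2, l2, nf, dg⟩ := hN.ld_nf K w _ ld
    have D : ∀ i, (b2 * b1) i i = b2 i i * b1 i i := fun i => hN.diag K b2 b1 i l2.1 lo.1
    simp only [lead] at dg
    refine ⟨b2 * b1, hN.lo_mul K _ _ l2 lo, by rw [Matrix.mul_assoc]; exact nf, ?_, ?_,
      fun i a b => ?_⟩
    · rw [D, d1, if_neg pq.ne, mul_one]
      simpa using dg p
    · have := dg q
      rw [if_neg pq.ne', mul_one] at this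
      rw [D, d1, if_pos rfl, this, one_mul]
    · have := dg i
      rw [if_neg a, mul_one] at this
      rw [D, d1, if_neg b, this, one_mul]

end Pool.Agent.MP_59fd2e_ag.DV
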