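import Pool.Agent.MP_59fd2e_ag.dv.Spec

/-! PROJECT DV, row CURVE: a curve through a point of an affine space. -/

noncomputable section

namespace Pool.Agent.MP_59fd2e_ag.DV

open MvPolynomial Matrix Pool.Agent.MP_9207e0_ag.CC
open scoped Classical

namespace Curve

/-- The residue field at the kernel of a map to a field. -/
theorem fac {R k : Type} [CommRing R] [Field k] (e : R →+* k) :
    ∃ (K : Type) (_ : Field K) (π : R →+* K), (∀ r, π r = 0 ↔ e r = 0) ∧
      (∀ c : K, ∃ p q, π q ≠ 0 ∧ π q * c = π p) ∧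
      ∀ e' : R →+* k, (∀ r, e' r = 0 ↔ e r = 0) → ∃ j : K →+* k, j.comp π = e' := by
  have : (RingHom.ker e).IsPrime := RingHom.ker_isPrime e
  have hinj := IsFractionRing.injective (R ⧸ RingHom.ker e) (FractionRing (R ⧸ RingHom.ker e))
  have h0 : ∀ r, ((algebraMap (R ⧸ RingHom.ker e) (FractionRing (R ⧸ RingHom.ker e))).comp
      (Ideal.Quotient.mk (RingHom.ker e))) r = 0 ↔ e r = 0 := fun r => by
    rw [RingHom.comp_apply, map_eq_zero_iff _ hinj, Ideal.Quotient.eq_zero_iff_mem,
      RingHom.mem_ker]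
  refine ⟨FractionRing (R ⧸ RingHom.ker e), inferInstance, _, h0, fun c => ?_, fun e' he => ?_⟩
  · obtain ⟨p, q, hq, rfl⟩ := IsFractionRing.div_surjective (A := R ⧸ RingHom.ker e) c
    obtain ⟨p, rfl⟩ := Ideal.Quotient.mk_surjective p
    obtain ⟨q, rfl⟩ := Ideal.Quotient.mk_surjective q
    have h1 : algebraMap (R ⧸ RingHom.ker e) (FractionRing (R ⧸ RingHom.ker e))
        (Ideal.Quotient.mk _ q) ≠ 0 := by
      rw [Ne, map_eq_zero_iff _ hinj]
      exact nonZeroDivisors.ne_zero hq
    exact ⟨p, q, h1, mul_div_cancel₀ _ h1⟩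
  · have hi : Function.Injective
        (Ideal.Quotient.lift (RingHom.ker e) e' fun a ha => (he a).2 ha) := by
      rw [injective_iff_map_eq_zero]
      intro a ha
      obtain ⟨a, rfl⟩ := Ideal.Quotient.mk_surjective a
      rw [Ideal.Quotient.lift_mk] at ha
      exact Ideal.Quotient.eq_zero_iff_mem.2 ((he a).1 ha)
    refine ⟨IsFractionRing.lift hi, RingHom.ext fun r => ?_⟩
    rw [RingHom.comp_apply, RingHom.comp_apply, IsFractionRing.lift_algebraMap,
      Ideal.Quotient.lift_mk]

/-- Clearing denominators. -/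
theorem clear {R K : Type} [CommRing R] [Field K] (π : R →+* K)
    (h : ∀ c : K, ∃ p q, π q ≠ 0 ∧ π q * c = π p) (m : Polynomial K) :
    ∃ (d : R) (a : Polynomial R), π d ≠ 0 ∧ a.map π = Polynomial.C (π d) * m := by
  induction m using Polynomial.induction_on' with
  | add f g hf hg =>
    obtain ⟨d, a, hd, ha⟩ := hf
    obtain ⟨d', a', hd', ha'⟩ := hg
    refine ⟨d * d', Polynomial.C d' * a + Polynomial.C d * a', by
      rw [map_mul]; exact mul_ne_zero hd hd', ?_⟩
    rw [Polynomial.map_add, Polynomial.map_mul, Polynomial.map_mul, ha, ha', Polynomial.map_C,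
      Polynomial.map_C, map_mul, map_mul]
    ring
  | monomial n c =>
    obtain ⟨p, q, hq, e⟩ := h c
    exact ⟨q, Polynomial.monomial n p, hq, by
      rw [Polynomial.map_monomial, Polynomial.C_mul_monomial, e]⟩

/-- The minimal equation of an algebraic element, with a denominator. -/
theorem minEq {R k : Type} [CommRing R] [Field k] (e : R →+* k) (t : k) (q : Polynomial R)
    (hq : q.map e ≠ 0) (hq0 : q.eval₂ e t = 0) :
    ∃ (d : R) (a : Polynomial R), e d ≠ 0 ∧ a.map e ≠ 0 ∧ a.eval₂ e t = 0 ∧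
      ∀ (e' : R →+* k) (t' : k), (∀ r, e' r = 0 ↔ e r = 0) → a.eval₂ e' t' = 0 →
        ∀ g : Polynomial R, g.eval₂ e t = 0 → g.eval₂ e' t' = 0 := by
  obtain ⟨K, _, π, h0, h1, h2⟩ := fac e
  obtain ⟨j, hj⟩ := h2 e fun _ => Iff.rfl
  obtain ⟨m, hm⟩ := (IsPrincipalIdealRing.principal
    (RingHom.ker (Polynomial.eval₂RingHom j t))).principal
  have hd : ∀ g : Polynomial K, g.eval₂ j t = 0 ↔ m ∣ g := fun g => by
    rw [← Ideal.mem_span_singleton]
    change g ∈ RingHom.ker (Polynomial.eval₂RingHom j t) ↔ _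
    rw [hm]
  have hm0 : m ≠ 0 := fun h => hq (by
    have h3 : m ∣ q.map π := (hd _).1 (by rw [Polynomial.eval₂_map, hj, hq0])
    rw [h, zero_dvd_iff] at h3
    rw [← hj, ← Polynomial.map_map, h3, Polynomial.map_zero])
  obtain ⟨d, a, hd0, ha⟩ := clear π h1 m
  refine ⟨d, a, fun h => hd0 ((h0 d).2 h), fun h => ?_, ?_, fun e' t' he h g hg => ?_⟩
  · rw [← hj, ← Polynomial.map_map, Polynomial.map_eq_zero_iff j.injective, ha] at h
    exact mul_ne_zero (Polynomial.C_ne_zero.2 hd0) hm0 h
  · rw [← hj, ← Polynomial.eval₂_map, hd, ha]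
    exact dvd_mul_left _ _
  · obtain ⟨j', hj'⟩ := h2 e' he
    rw [← hj', ← Polynomial.eval₂_map, ha, Polynomial.eval₂_mul, Polynomial.eval₂_C,
      mul_eq_zero, map_eq_zero_iff _ j'.injective] at h
    rw [← hj, ← Polynomial.eval₂_map, hd] at hg
    obtain ⟨c, hc⟩ := hg
    rw [← hj', ← Polynomial.eval₂_map, hc, Polynomial.eval₂_mul, h.resolve_left hd0, zero_mul]

variable {k0 k : Type} [Field k0] [Field k] [Algebra k0 k]

/-- Independence over the closure of a set. -/
theorem ind {J B : Type} [Fintype J] [CommRing B] {W : Set k} {v : J → k} (hW : rk k0 W ≠ ⊤)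
    (h : rk k0 W + Fintype.card J ≤ rk k0 (W ∪ Set.range v)) (E : B →+* k)
    (hE : ∀ b, E b ∈ cl k0 W) (G : MvPolynomial J B) (hG : eval₂ E v G = 0) (d : J →₀ ℕ) :
    E (coeff d G) = 0 := by
  obtain ⟨r, hr⟩ := ENat.ne_top_iff_exists.1 hW
  obtain ⟨t, h1, h2⟩ := exists_indep hr.le
  have h3 : rk k0 (Set.range t) = r := by rw [rk_range_of_indep h2, Fintype.card_fin]
  have h4 : W ⊆ cl k0 (Set.range t) := subset_cl_of_rk_le (by rw [h3]; exact ENat.natCast_ne_top r)
    ((Set.range_subset_iff.2 h1).trans (subset_cl W)) (by rw [h3, hr])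
  have h5 : AlgebraicIndependent k0 (Sum.elim v t) := by
    refine indep_of_rk ?_
    rw [Fintype.card_sum, Fintype.card_fin, Nat.cast_add, add_comm, hr]
    refine h.trans (rk_le_of_subset_cl (Set.union_subset (h4.trans (cl_mono ?_))
      (Set.Subset.trans ?_ (subset_cl _))))
    · rintro _ ⟨l, rfl⟩
      exact ⟨Sum.inr l, rfl⟩
    · rintro _ ⟨l, rfl⟩
      exact ⟨Sum.inl l, rfl⟩
  have h6 := (AlgebraicIndependent.sumElim_iff.1 h5).2.subalgebraAlgebraicClosure
  let D := Subalgebra.algebraicClosure (Algebra.adjoin k0 (Set.range t)) k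
  let E' : B →+* D := E.codRestrict D fun b =>
    (Subalgebra.mem_algebraicClosure _ _).2 (mem_cl_iff.1 (cl_subset_cl h4 (hE b)))
  have h7 : map E' G = 0 := h6.eq_zero_of_aeval_eq_zero _ (by
    rw [aeval_def, eval₂_map]
    exact hG)
  have h8 := congrArg (coeff d) h7
  rw [coeff_map, coeff_zero] at h8
  exact congrArg Subtype.val h8

variable {ι : Type}

/-- The coordinates outside a set are replaced by zero. -/
def tr {L : Type} [Zero L] (C : Set ι) (y : ι → L) (j : ι) : L := if j ∈ C then y j else 0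

theorem tr_cl (C : Set ι) (y : ι → k) (j : ι) : tr C y j ∈ cl k0 (y '' C) := by
  unfold tr
  split_ifs with h
  · exact subset_cl _ ⟨j, h, rfl⟩
  · simpa using algebraMap_mem_cl (k := k0) (y '' C) 0

theorem sub_tr (C : Set ι) (y : ι → k) : y '' C ⊆ Set.range (tr C y) := by
  rintro _ ⟨j, h, rfl⟩
  exact ⟨j, if_pos h⟩

theorem rk_tr (C : Set ι) (y : ι → k) : rk k0 (Set.range (tr C y)) = rk k0 (y '' C) :=
  le_antisymm (rk_le_of_subset_cl (Set.range_subset_iff.2 (tr_cl C y))) (rk_mono (sub_tr C y))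

theorem aeval_tr {L : Type} [CommRing L] [Algebra k0 L] (C : Set ι) (y : ι → L)
    (f : MvPolynomial ι k0) :
    aeval y (aeval (tr C (X : ι → MvPolynomial ι k0)) f) = aeval (tr C y) f := by
  rw [comp_aeval_apply]
  congr 2
  funext j
  unfold tr
  split_ifs <;> simp

/-- The polynomial in all variables that belongs to a polynomial in one variable. -/
def up (C : Set ι) (i : ι) (a : Polynomial (MvPolynomial ι k0)) : MvPolynomial ι k0 :=
  a.eval₂ (aeval (tr C (X : ι → MvPolynomial ι k0)) : MvPolynomial ι k0 →ₐ[k0] _).toRingHom (X i)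

theorem aeval_up {L : Type} [CommRing L] [Algebra k0 L] (C : Set ι) (i : ι) (y : ι → L)
    (a : Polynomial (MvPolynomial ι k0)) :
    aeval y (up C i a) = a.eval₂ (aeval (tr C y) : MvPolynomial ι k0 →ₐ[k0] L).toRingHom (y i) := by
  have h := Polynomial.hom_eval₂ a
    (aeval (tr C (X : ι → MvPolynomial ι k0)) : MvPolynomial ι k0 →ₐ[k0] _).toRingHom
    (aeval y : MvPolynomial ι k0 →ₐ[k0] L).toRingHom (X i)
  refine h.trans ?_
  congr 1
  · exact RingHom.ext fun f => aeval_tr C y f
  · exact aeval_X y i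

/-- The variables are sorted. -/
def srt (S : Finset ι) (i : ι) :
    MvPolynomial ι k0 →ₐ[k0] MvPolynomial S (Polynomial (MvPolynomial ι k0)) :=
  aeval fun j => if h : j ∈ S then X ⟨j, h⟩ else if j = i then C Polynomial.X
    else C (Polynomial.C (X j))

theorem ev_srt (S : Finset ι) (i : ι) (y : ι → k) (f : MvPolynomial ι k0) :
    eval₂ (Polynomial.eval₂RingHom (aeval (tr ((insert i S : Finset ι) : Set ι)ᶜ y) :
      MvPolynomial ι k0 →ₐ[k0] k).toRingHom (y i)) (fun j : S => y j) (srt S i f) = aeval y f := by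
  induction f using MvPolynomial.induction_on with
  | C c =>
    rw [srt, aeval_C, aeval_C, MvPolynomial.algebraMap_apply, eval₂_C, Polynomial.algebraMap_apply]
    simp
  | add f g hf hg => rw [map_add, eval₂_add, hf, hg, map_add]
  | mul_X f j hf =>
    rw [map_mul, eval₂_mul, hf, map_mul, aeval_X, srt, aeval_X]
    congr 1
    split_ifs with h h'
    · rw [eval₂_X]
    · rw [eval₂_C, h']
      simp
    · rw [eval₂_C]
      simp [tr, h, h']

end Curve

open Curve in
theorem curveS : CurveS := by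
  intro k0 k ι _ _ _ _ n z S i hn hi h1 h2
  unfold Cyl at h1 h2
  set C : Set ι := ((insert i S : Finset ι) : Set ι)ᶜ with hC
  have hCS : C ⊆ (S : Set ι)ᶜ := Set.compl_subset_compl.2 (by
    rw [Finset.coe_insert]; exact Set.subset_insert _ _)
  have hcard : ((insert i S).card : ℕ∞) = S.card + 1 := by
    rw [Finset.card_insert_of_notMem hi]; rfl
  have fin : ∀ (y : ι → k) (D : Set ι), rk k0 (y '' D) ≠ ⊤ := fun y D =>
    rk_ne_top ((Set.toFinite D).image y)
  have big : ∀ y : ι → k, ¬ Cyl k0 n (insert i S) y → rk k0 (z '' (S : Set ι)ᶜ) ≤ rk k0 (y '' C) := by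
    intro y hy
    unfold Cyl at hy
    obtain ⟨r, hr⟩ := ENat.ne_top_iff_exists.1 (fin z (S : Set ι)ᶜ)
    obtain ⟨r', hr'⟩ := ENat.ne_top_iff_exists.1 (fin y C)
    rw [← hC, hcard, ← hr'] at hy
    rw [← hr] at h1
    rw [← hr, ← hr']
    have h3 : r + S.card ≤ n := by exact_mod_cast h1
    have h4 : ¬ r' + (S.card + 1) ≤ n := fun h => hy (by exact_mod_cast h)
    exact_mod_cast (by omega : r ≤ r')
  have hzC : rk k0 (z '' C) ≤ rk k0 (z '' (S : Set ι)ᶜ) := rk_mono (Set.image_mono hCS)
  have hzi : z i ∈ cl k0 (Set.range (tr C z)) :=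
    cl_mono (sub_tr C z) (subset_cl_of_rk_le (fin z C)
      ((Set.image_mono hCS).trans (subset_cl _)) (big z h2) ⟨i, hi, rfl⟩)
  have split : ∀ {L : Type} (y : ι → L) (T : Finset ι),
      Set.range y = y '' (T : Set ι)ᶜ ∪ Set.range fun j : T => y j := by
    intro L y T
    ext t
    constructor
    · rintro ⟨j, rfl⟩
      by_cases h : j ∈ T
      · exact Or.inr ⟨⟨j, h⟩, rfl⟩
      · exact Or.inl ⟨j, h, rfl⟩
    · rintro (⟨j, -, rfl⟩ | ⟨j, rfl⟩)
      · exact ⟨j, rfl⟩
      · exact ⟨j, rfl⟩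
  have hzn : rk k0 (Set.range z) ≤ n := by
    rw [split z S]
    refine (rk_union_le _ _).trans (le_trans (add_le_add le_rfl ?_) h1)
    simpa using rk_range_le (k := k0) fun j : S => z j
  -- the equation
  let e : (ι → k) → MvPolynomial ι k0 →+* k := fun y =>
    (aeval (tr C y) : MvPolynomial ι k0 →ₐ[k0] k).toRingHom
  obtain ⟨q, hq, hq0⟩ : ∃ q : Polynomial (MvPolynomial ι k0),
      q.map (e z) ≠ 0 ∧ q.eval₂ (e z) (z i) = 0 := by
    obtain ⟨p, hp, hp0⟩ := mem_cl_iff.1 hzi
    let s : MvPolynomial ι k0 →+* Algebra.adjoin k0 (Set.range (tr C z)) :=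
      (e z).codRestrict _ fun f => by
        rw [Algebra.adjoin_range_eq_range_aeval]
        exact ⟨f, rfl⟩
    have hs : Function.Surjective s := by
      rintro ⟨c, hc⟩
      rw [Algebra.adjoin_range_eq_range_aeval] at hc
      obtain ⟨f, rfl⟩ := hc
      exact ⟨f, rfl⟩
    obtain ⟨q, rfl⟩ := Polynomial.map_surjective s hs p
    have he : e z = (algebraMap (Algebra.adjoin k0 (Set.range (tr C z))) k).comp s := rfl
    refine ⟨q, fun h => hp ?_, ?_⟩
    · rw [he, ← Polynomial.map_map] at h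
      exact (Polynomial.map_eq_zero_iff Subtype.val_injective).1 h
    · rw [he, ← Polynomial.eval₂_map]
      exact hp0
  obtain ⟨d, a, hd, ha, ha0, hmin⟩ := minEq (e z) (z i) q hq hq0
  -- the generic point
  let Ω := FractionRing (MvPolynomial ι k)
  let φ : MvPolynomial ι k →ₐ[k0] Ω := IsScalarTower.toAlgHom k0 _ _
  have hφ : Function.Injective φ := IsFractionRing.injective (MvPolynomial ι k) Ω
  let u : ι → MvPolynomial ι k := fun j => if j ∈ C then MvPolynomial.C (z j) else X j
  have hη : ∀ f : MvPolynomial ι k0, aeval (fun j => φ (u j)) f = 0 ↔ aeval u f = 0 := fun f => by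
    rw [← comp_aeval_apply, map_eq_zero_iff _ hφ]
  let c : k →ₐ[k0] MvPolynomial ι k := IsScalarTower.toAlgHom k0 _ _
  have hu : ∀ f : MvPolynomial ι k0, aeval (tr C u) f = c (e z f) := fun f => by
    change _ = c (aeval (tr C z) f)
    rw [comp_aeval_apply]
    congr 2
    funext j
    unfold tr
    split_ifs with h
    · exact if_pos h
    · exact (map_zero c).symm
  have hiC : i ∉ C := fun h => h (by simp)
  refine ⟨Ω, inferInstance, inferInstance, fun j => φ (u j), up C i a, aeval (tr C X) d, ?_,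
    fun f hf => ?_, ?_, ?_, ?_, fun x hx hxn => ?_⟩
  · rw [split _ (insert i S), ← hC]
    refine (rk_union_le _ _).trans ?_
    have h3 : (fun j => φ (u j)) '' C = (φ.comp c) '' (z '' C) := by
      rw [Set.image_image]
      exact Set.image_congr fun j hj => congrArg φ (if_pos hj)
    have h4 := rk_range_le (k := k0) fun j : (insert i S : Finset ι) => φ (u j)
    rw [Fintype.card_coe, hcard] at h4
    rw [h3, rk_image]
    refine (add_le_add hzC h4).trans ?_
    rw [← add_assoc]
    exact add_le_add h1 le_rfl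
  · have h3 := congrArg ((aeval z : MvPolynomial ι k →ₐ[k] k).restrictScalars k0) ((hη f).1 hf)
    rw [comp_aeval_apply, map_zero] at h3
    refine Eq.trans ?_ h3
    congr 2
    funext j
    by_cases h : j ∈ C <;> simp [u, h]
  · rw [aeval_up]
    exact ha0
  · intro h
    rw [hη, aeval_up] at h
    have h3 := congrArg (aeval fun _ => Polynomial.X :
      MvPolynomial ι k →ₐ[k] Polynomial k).toRingHom h
    rw [Polynomial.hom_eval₂, map_zero] at h3
    refine ha (Eq.trans ?_ h3)
    rw [Polynomial.map]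
    congr 1
    · refine RingHom.ext fun f => ?_
      change _ = (aeval fun _ => Polynomial.X : MvPolynomial ι k →ₐ[k] Polynomial k)
        (aeval (tr C u) f)
      rw [hu]
      exact ((aeval fun _ => Polynomial.X :
        MvPolynomial ι k →ₐ[k] Polynomial k).commutes (e z f)).symm
    · simp [u, hiC]
  · rw [aeval_tr]
    exact hd
  · by_cases hc : Cyl k0 n (insert i S) x
    · exact Or.inl hc
    have h3 : ASp k0 (tr C z) (tr C x) := fun f hf => by
      rw [← aeval_tr]
      refine hx _ ?_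
      rw [hη, aeval_tr, hu]
      change c (aeval (tr C z) f) = 0
      rw [hf, map_zero]
    have h4 : ASp k0 (tr C x) (tr C z) := h3.drop (by
      rw [rk_tr, rk_tr]; exact hzC.trans (big x hc))
    have h5 : ∀ f, e x f = 0 ↔ e z f = 0 := fun f => ⟨h4 f, h3 f⟩
    refine Or.inr ⟨?_, fun h => ?_⟩
    · rw [aeval_tr]
      exact fun h => hd ((h5 d).1 h)
    rw [aeval_up] at h
    have h6 : ASp k0 z x := fun f hf => by
      rw [← ev_srt S i z] at hf
      have h7 := ind (k0 := k0) (W := z '' (S : Set ι)ᶜ) (fin z _)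
        (by rw [← split z S, Fintype.card_coe]; exact h1.trans hn) _ (fun b => by
          induction b using Polynomial.induction_on' with
          | add f g hf hg =>
            rw [map_add]
            exact mem_clF.1 (add_mem (mem_clF.2 hf) (mem_clF.2 hg))
          | monomial m c =>
            rw [Polynomial.coe_eval₂RingHom, Polynomial.eval₂_monomial]
            exact mem_clF.1 (mul_mem (mem_clF.2 (aeval_mem_cl (fun j =>
              cl_mono (Set.image_mono hCS) (tr_cl C z j)) c))
              (pow_mem (mem_clF.2 (subset_cl _ (Set.mem_image_of_mem z hi))) m))) _ hf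
      rw [← ev_srt S i x, eval₂_eq]
      refine Finset.sum_eq_zero fun m _ => ?_
      rw [Polynomial.coe_eval₂RingHom, hmin (e x) (x i) h5 h _ (h7 m), zero_mul]
    exact ⟨h6.drop (hzn.trans hxn), h6⟩

end Pool.Agent.MP_59fd2e_ag.DV
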