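import Pool.Agent.MP_59fd2e_ag.dv.Spec
import Pool.Agent.MP_9207e0_ag.cc.Cnt

/-! PROJECT DV, row EX: places above the origin are conjugate. -/

noncomputable section

namespace Pool.Agent.MP_59fd2e_ag.DV

open Pool.Agent.MP_9207e0_ag.CC Pool.Agent.MP_9207e0_ag.CC.Cnt
open IsDedekindDomain IsDedekindDomain.HeightOneSpectrum IsLocalRing Polynomial

namespace Ex

theorem intg {A L : Type} [CommRing A] [Field L] [Algebra A L] (U : ValuationSubring L)
    (hU : ∀ a : A, algebraMap A L a ∈ U) {x : L} (hx : IsIntegral A x) : x ∈ U := by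
  let : Algebra A U := ((algebraMap A L).codRestrict U.toSubring hU).toAlgebra
  have : IsScalarTower A U L := IsScalarTower.of_algebraMap_eq fun _ => rfl
  obtain ⟨y, hy⟩ := IsIntegrallyClosed.isIntegral_iff.1 (hx.tower_top (A := U))
  exact hy ▸ y.2

variable {K A E F L k : Type} [CommRing A] [IsDedekindDomain A] [Field E] [Algebra A E]
  [IsFractionRing A E] [Field F] [Algebra E F] [Algebra A F] [IsScalarTower A E F]
  [FiniteDimensional E F] [Field L] [IsAlgClosed L] [Algebra E L] [Algebra A L]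
  [IsScalarTower A E L] [Field k] [Field K]

theorem one (P' : Plc F k) (P : Plc L k) (h' : ∀ a, algebraMap A F a ∈ P'.V)
    (h : ∀ a, algebraMap A L a ∈ P.V)
    (e : ∀ a, P.fn (algebraMap A L a) = P'.fn (algebraMap A F a)) {b : F} (hb : IsIntegral A b) :
    ∃ f : F →ₐ[E] L, P.fn (f b) = P'.fn b := by
  let g : A →+* P.V := (algebraMap A L).codRestrict P.V.toSubring h
  let g' : A →+* P'.V := (algebraMap A F).codRestrict P'.V.toSubring h'
  have eg : P.φ.comp g = P'.φ.comp g' := RingHom.ext fun a =>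
    (P.fn_coe (g a)).symm.trans ((e a).trans (P'.fn_coe (g' a)))
  have hm := minpoly.monic hb
  have e1 : ((minpoly A b).map g).map P.V.subtype = (minpoly E b).map (algebraMap E L) := by
    rw [minpoly.isIntegrallyClosed_eq_field_fractions' E hb, Polynomial.map_map,
      Polynomial.map_map, ← IsScalarTower.algebraMap_eq]
    rfl
  have rt : ∀ r ∈ (((minpoly A b).map g).map P.V.subtype).roots, ∃ f : F →ₐ[E] L, f b = r :=
    fun r hr => by
      rw [e1] at hr
      exact (Algebra.IsAlgebraic.range_eval_eq_rootSet_minpoly L b).ge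
        (mem_rootSet'.2 (mem_aroots'.1 hr))
  have sp : ((minpoly A b).map g).Splits := .of_splits_map_of_injective Subtype.val_injective
    (IsAlgClosed.splits _) fun r hr => by
      obtain ⟨f, rfl⟩ := rt r hr
      exact ⟨⟨_, intg P.V h (hb.map (f.restrictScalars A))⟩, rfl⟩
  have h0 : ((minpoly A b).map g).map P.φ ≠ 0 := ((hm.map _).map _).ne_zero
  have h1 : P'.fn b ∈ (((minpoly A b).map g).map P.φ).roots := by
    rw [mem_roots h0, Polynomial.map_map, eg, ← Polynomial.map_map, P'.fn_mem (intg P'.V h' hb)]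
    refine IsRoot.map (IsRoot.of_map (f := P'.V.subtype) ?_ Subtype.val_injective)
    rw [Polynomial.map_map, IsRoot, eval_map]
    exact minpoly.aeval A b
  rw [sp.roots_map_of_ne_zero h0, Multiset.mem_map] at h1
  obtain ⟨r, r1, r2⟩ := h1
  obtain ⟨f, hf⟩ := rt r (by
    rw [sp.roots_map_of_injective Subtype.val_injective]
    exact Multiset.mem_map_of_mem _ r1)
  exact ⟨f, by rw [hf, ← r2]; exact P.fn_coe r⟩

theorem core [CharZero K] (j : K →+* A) (P' : Plc F k) (P : Plc L k)
    (h' : ∀ a, algebraMap A F a ∈ P'.V) (h : ∀ a, algebraMap A L a ∈ P.V)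
    (e : ∀ a, P.fn (algebraMap A L a) = P'.fn (algebraMap A F a)) {π : A} (h0 : π ≠ 0)
    (hπ : P'.fn (algebraMap A F π) = 0) :
    ∃ f : F →ₐ[E] L, ∀ x ∈ P'.V, f x ∈ P.V ∧ P.fn (f x) = P'.fn x := by
  have : CharZero E := (RingHom.charZero_iff ((algebraMap A E).comp j).injective).1 inferInstance
  let B := integralClosure A F
  let : Algebra K B := ((algebraMap A B).comp j).toAlgebra
  have : IsDedekindDomain B := IsIntegralClosure.isDedekindDomain A E F B
  have : IsFractionRing B F := IsIntegralClosure.isFractionRing_of_finite_extension A E F B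
  have m' : ∀ b : B, (b : F) ∈ P'.V := fun b => intg P'.V h' b.2
  have m : ∀ (f : F →ₐ[E] L) (b : B), f b ∈ P.V := fun f b =>
    intg P.V h (IsIntegral.map (f.restrictScalars A) b.2)
  obtain ⟨f, hf⟩ := Subspace.exists_eq_top_of_iUnion_eq_univ (k := K) (E := B)
    (p := fun f : F →ₐ[E] L =>
      { carrier := {b | P.fn (f b) = P'.fn b}
        zero_mem' := by
          change P.fn (f 0) = P'.fn 0
          rw [map_zero, P.fn_zero, P'.fn_zero]
        add_mem' := fun {a b} ha hb => by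
          change P.fn (f (a + b)) = P'.fn (a + b)
          rw [map_add, P.fn_add (m f a) (m f b), P'.fn_add (m' a) (m' b), ha, hb]
        smul_mem' := fun c b hb => by
          change P.fn (f (algebraMap A F (j c) * b)) = P'.fn (algebraMap A F (j c) * b)
          rw [map_mul, show f (algebraMap A F (j c)) = _ from (f.restrictScalars A).commutes _,
            P.fn_mul (h _) (m f b), P'.fn_mul (h' _) (m' b), e, hb] })
    (Set.eq_univ_of_forall fun b => Set.mem_iUnion.2 (one P' P h' h e b.2))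
  have hB : ∀ b : B, P.fn (f b) = P'.fn b := fun b => hf.ge (Submodule.mem_top (x := b))
  let g : B →+* P'.V := (algebraMap B F).codRestrict P'.V.toSubring m'
  have hg : ∀ b, b ∈ (maximalIdeal P'.V).comap g ↔ P'.V.valuation (algebraMap B F b) < 1 :=
    fun b => P'.V.valuation_lt_one_iff (g b)
  let p : HeightOneSpectrum B := ⟨(maximalIdeal P'.V).comap g, inferInstance, fun z => h0 (by
    have q : algebraMap A B π ∈ (maximalIdeal P'.V).comap g :=
      (hg _).2 ((P'.fn_eq_zero (h' π)).1 hπ)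
    rw [z, Ideal.mem_bot] at q
    have q' : algebraMap A F π = 0 := congrArg Subtype.val q
    rwa [IsScalarTower.algebraMap_apply A E F, map_eq_zero,
      map_eq_zero_iff _ (IsFractionRing.injective A E)] at q')⟩
  refine ⟨f, fun x hx => ?_⟩
  rw [← eq_atPrime p P'.V m' fun b hb => (hg b).1 hb] at hx
  obtain ⟨a, s, hs, rfl⟩ := hx
  have s1 : P'.fn (s : F) ≠ 0 := fun z => hs ((hg s).2 ((P'.fn_eq_zero (m' s)).1 z))
  have s2 : P.fn (f s) ≠ 0 := (hB s).symm ▸ s1
  change f (a * (s : F)⁻¹) ∈ P.V ∧ P.fn (f (a * (s : F)⁻¹)) = P'.fn (a * (s : F)⁻¹)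
  rw [map_mul, map_inv₀, P.fn_mul (m f a) (P.inv_mem s2), P'.fn_mul (m' a) (P'.inv_mem s1),
    P.fn_inv s2, P'.fn_inv s1, hB, hB]
  exact ⟨P.V.mul_mem _ _ (m f a) (P.inv_mem s2), rfl⟩

theorem val {F : Type} [Field F] [Algebra K F] [Algebra K k] (φ : RatFunc K →ₐ[K] F) (P : Plc F k)
    (hP : P.Over K) (h1 : φ RatFunc.X ∈ P.V) (h2 : P.fn (φ RatFunc.X) = 0) (p : K[X]) :
    φ (algebraMap _ _ p) ∈ P.V ∧ P.fn (φ (algebraMap _ _ p)) = aeval (0 : k) p := by
  induction p using Polynomial.induction_on' with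
  | add p q hp hq =>
    rw [map_add, map_add, map_add, P.fn_add hp.1 hq.1, hp.2, hq.2]
    exact ⟨add_mem hp.1 hq.1, rfl⟩
  | monomial n c =>
    rw [aeval_monomial, ← C_mul_X_pow_eq_monomial, map_mul, map_pow, RatFunc.algebraMap_X, map_mul,
      map_pow, show φ (algebraMap _ _ (C c)) = _ from φ.commutes c,
      P.fn_mul (hP c).1 (pow_mem h1 n), P.fn_pow h1, h2, (hP c).2]
    exact ⟨mul_mem (hP c).1 (pow_mem h1 n), rfl⟩

theorem val' {F : Type} [Field F] [Algebra K F] [Algebra K k] (φ : RatFunc K →ₐ[K] F) (P : Plc F k)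
    (hP : P.Over K) (h1 : φ RatFunc.X ∈ P.V) (h2 : P.fn (φ RatFunc.X) = 0) (p q : K[X])
    (hq : q ∉ (idealX K).asIdeal) : φ (algebraMap _ _ p * (algebraMap _ _ q)⁻¹) ∈ P.V ∧
      P.fn (φ (algebraMap _ _ p * (algebraMap _ _ q)⁻¹)) = aeval (0 : k) p * (aeval (0 : k) q)⁻¹ := by
  have a := val φ P hP h1 h2 p
  have b := val φ P hP h1 h2 q
  have c : P.fn (φ (algebraMap _ _ q)) ≠ 0 := by
    rw [b.2, ← coeff_zero_eq_aeval_zero', _root_.map_ne_zero]
    exact fun z => hq (Ideal.mem_span_singleton.2 (X_dvd_iff.2 z))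
  rw [map_mul, map_inv₀, P.fn_mul a.1 (P.inv_mem c), P.fn_inv c, a.2, b.2]
  exact ⟨mul_mem a.1 (P.inv_mem c), rfl⟩

end Ex

theorem exS : ExS := by
  intro K F L k _ _ _ _ _ _ _ _ _ h u P' P hF hh hu o' o h1 h2 u1 u2
  let := (emb h hh).toRingHom.toAlgebra
  let := (emb u hu).toRingHom.toAlgebra
  have : IsScalarTower K (RatFunc K) F :=
    IsScalarTower.of_algebraMap_eq fun c => ((emb h hh).commutes c).symm
  have : IsScalarTower K (RatFunc K) L :=
    IsScalarTower.of_algebraMap_eq fun c => ((emb u hu).commutes c).symm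
  have : FiniteDimensional (RatFunc K) F := emb_fin' hF h hh
  have eh := emb_X h hh
  have eu := emb_X u hu
  have a' := Ex.val' (emb h hh) P' o' (eh.symm ▸ h1) (eh.symm ▸ h2)
  have a := Ex.val' (emb u hu) P o (eu.symm ▸ u1) (eu.symm ▸ u2)
  let A := valuationSubringAtPrime (RatFunc K) (idealX K)
  obtain ⟨f, hf⟩ := Ex.core (A := A) (E := RatFunc K) ((algebraMap K[X] A).comp C) P' P
    (fun ⟨_, p, q, hq, rfl⟩ => (a' p q hq).1) (fun ⟨_, p, q, hq, rfl⟩ => (a p q hq).1)
    (fun ⟨_, p, q, hq, rfl⟩ => (a p q hq).2.trans (a' p q hq).2.symm) (π := algebraMap K[X] A X)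
    (fun z => RatFunc.X_ne_zero (congrArg Subtype.val z)) (eh.symm ▸ h2 : P'.fn (emb h hh _) = 0)
  exact ⟨f.restrictScalars K, by rw [← eh, ← eu]; exact f.commutes _, hf⟩

end Pool.Agent.MP_59fd2e_ag.DV
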