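import Pool.Agent.MP_59fd2e_ag.dv.Spec

/-! PROJECT DV: a point lifts to the curve. -/

noncomputable section

namespace Pool.Agent.MP_59fd2e_ag.DV

open MvPolynomial Pool.Agent.MP_9207e0_ag.CC
open scoped Classical

namespace Ext

theorem trans_of_zero {K F k : Type} [Field K] [Field F] [Field k] [Algebra K F] [Algebra K k]
    {P : Plc F k} (hP : P.Over K) {h : F} (h0 : h ≠ 0) (h1 : h ∈ P.V) (h2 : P.fn h = 0) :
    Transcendental K h := fun ha => by
  let _ : Algebra K P.V :=
    ((algebraMap K F).codRestrict P.V.toSubring fun c => (hP c).1).toAlgebra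
  have : IsScalarTower K P.V F := IsScalarTower.of_algebraMap_eq fun _ => rfl
  obtain ⟨y, hy⟩ := IsIntegrallyClosed.isIntegral_iff.1 (ha.inv.isIntegral.tower_top (A := P.V))
  exact P.notMem_inv h0 h1 h2 (hy ▸ y.2)

theorem alg_of_cl {k0 M F : Type} [Field k0] [Field M] [Field F] [Algebra k0 M] [Algebra k0 F]
    [Algebra M F] [IsScalarTower k0 M F] {S : Set F} (hS : S ⊆ Set.range (algebraMap M F)) {x : F}
    (hx : x ∈ cl k0 S) : IsAlgebraic M x := by
  have h1 : IsAlgebraic (IsScalarTower.toAlgHom k0 M F).range x :=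
    (mem_cl_iff.1 hx).tower_top_of_subalgebra_le (Algebra.adjoin_le hS)
  let e := AlgEquiv.ofInjectiveField (IsScalarTower.toAlgHom k0 M F)
  refine h1.ringHom_of_comp_eq e.symm.toRingEquiv.toRingHom (RingHom.id F) e.symm.injective ?_
  refine RingHom.ext fun y => ?_
  obtain ⟨c, rfl⟩ := e.surjective y
  exact congrArg (algebraMap M F) (e.symm_apply_apply c)

theorem curve {k0 K F J ι : Type} [Field k0] [Field K] [Field F] [Algebra k0 K] [Algebra k0 F]
    [Algebra K F] [IsScalarTower k0 K F] [Fintype J] [Finite ι] {η : ι → F}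
    (hη : IntermediateField.adjoin k0 (Set.range η) = ⊤) {x : J → K}
    (hx : AlgebraicIndependent k0 fun j => algebraMap K F (x j))
    (hr : rk k0 (Set.range η) ≤ Fintype.card J + 1) {h : F} (hh : Transcendental K h) :
    Pool.Agent.MP_9207e0_ag.IsCurveFieldOver K F := by
  refine ⟨h, hh, ?_⟩
  have h1 : h ∉ cl k0 (Set.range fun j => algebraMap K F (x j)) := fun a =>
    hh (alg_of_cl (by rintro _ ⟨j, rfl⟩; exact ⟨_, rfl⟩) a)
  have h2 := rk_insert h1
  rw [rk_range_of_indep hx] at h2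
  have h3 : ∀ y : F, y ∈ cl k0 (Set.range η) := fun y => mem_clF.1
    ((IntermediateField.adjoin_le_iff.2 fun t ht => mem_clF.2 (subset_cl _ ht) :
      IntermediateField.adjoin k0 (Set.range η) ≤ clF k0 (Set.range η))
        (hη ▸ IntermediateField.mem_top))
  have h4 := subset_cl_of_rk_le (rk_ne_top ((Set.finite_range _).insert h)) (fun y _ => h3 y)
    (hr.trans h2.ge)
  have : IsScalarTower k0 (IntermediateField.adjoin K {h}) F :=
    ⟨fun c x y => smul_assoc c (x : F) y⟩
  have h5 : ∀ y ∈ Set.range η, IsIntegral (IntermediateField.adjoin K {h}) y := fun y hy => by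
    refine (alg_of_cl (k0 := k0) ?_ (h4 hy)).isIntegral
    rintro _ (rfl | ⟨j, rfl⟩)
    · exact ⟨⟨_, IntermediateField.mem_adjoin_simple_self K _⟩, rfl⟩
    · exact ⟨⟨_, IntermediateField.algebraMap_mem _ _⟩, rfl⟩
  have h6 := IntermediateField.finiteDimensional_adjoin h5
  rw [IntermediateField.adjoin_eq_top_of_adjoin_eq_top k0 hη] at h6
  exact Module.Finite.equiv IntermediateField.topEquiv.toLinearEquiv

theorem mid (hE : ExS) {k0 K F L k J ι : Type} [Field k0] [CharZero k0] [Field K] [Field F]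
    [Field L] [IsAlgClosed L] [Field k] [Algebra k0 K] [Algebra k0 F] [Algebra k0 L] [Algebra k0 k]
    [Algebra k L] [IsScalarTower k0 k L] [Fintype J] [Finite ι] (α : K →ₐ[k0] F) (β : K →ₐ[k0] k)
    {η : ι → F} (hη : IntermediateField.adjoin k0 (Set.range η) = ⊤) {x : J → K}
    (hx : AlgebraicIndependent k0 fun j => α (x j))
    (hr : rk k0 (Set.range η) ≤ Fintype.card J + 1) {P' : Plc F k} {P : Plc L k}
    (hP' : ∀ c, α c ∈ P'.V ∧ P'.fn (α c) = β c) (hP : P.Over k) {h : F} {u : L} (h0 : h ≠ 0)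
    (h1 : h ∈ P'.V) (h2 : P'.fn h = 0) (u0 : u ≠ 0) (u1 : u ∈ P.V) (u2 : P.fn u = 0) :
    ∃ f : F →ₐ[k0] L, f h = u ∧ (∀ c, f (α c) = algebraMap k L (β c)) ∧
      ∀ y ∈ P'.V, f y ∈ P.V ∧ P.fn (f y) = P'.fn y := by
  let _ : Algebra K F := α.toRingHom.toAlgebra
  let _ : Algebra K k := β.toRingHom.toAlgebra
  let _ : Algebra K L := ((algebraMap k L).comp β.toRingHom).toAlgebra
  have : IsScalarTower k0 K F := IsScalarTower.of_algebraMap_eq fun c => (α.commutes c).symm
  have : IsScalarTower k0 K L := IsScalarTower.of_algebraMap_eq fun c =>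
    (IsScalarTower.algebraMap_apply k0 k L c).trans (congrArg (algebraMap k L) (β.commutes c).symm)
  have : CharZero K := charZero_of_injective_algebraMap (algebraMap k0 K).injective
  have a1 : P'.Over K := hP'
  have a2 : P.Over K := fun c => hP (β c)
  have a3 := trans_of_zero a1 h0 h1 h2
  obtain ⟨f, f1, f2⟩ := hE K F L k h u P' P (curve hη hx hr a3) a3 (trans_of_zero a2 u0 u1 u2)
    a1 a2 h1 h2 u1 u2
  exact ⟨f.restrictScalars k0, f1, fun c => f.commutes c, f2⟩

theorem exists_lift {k0 M J : Type} [Field k0] [Field M] [Algebra k0 M] {ξ : J → M}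
    (h : AlgebraicIndependent k0 ξ) : ∃ α : FractionRing (MvPolynomial J k0) →ₐ[k0] M,
      ∀ g : MvPolynomial J k0, α (algebraMap _ _ g) = aeval ξ g := by
  have h' : Function.Injective (aeval ξ : MvPolynomial J k0 →ₐ[k0] M) := h
  exact ⟨IsFractionRing.liftAlgHom h', fun g => by simp⟩

end Ext

open Pool.Agent.MP_59fd2e_ag.DV.Ext in
theorem extS (hE : ExS) : ExtS := by
  intro k0 k Ω J ι _ _ _ _ _ _ _ _ _ σ η z s a b P u hσ hz hr hs ha ha' hb hu hP
  let F := IntermediateField.adjoin k0 (Set.range η)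
  let η' : ι → F := fun i => ⟨η i, IntermediateField.subset_adjoin _ _ ⟨i, rfl⟩⟩
  have e1 : ∀ g : MvPolynomial ι k0, F.val (aeval η' g) = aeval η g := fun g =>
    comp_aeval_apply η' F.val g
  have e2 : ∀ g : MvPolynomial ι k0, aeval η' g = 0 ↔ aeval η g = 0 := fun g => by
    rw [← e1 g]
    exact (map_eq_zero F.val).symm
  have e3 : F.val '' Set.range η' = Set.range η := (Set.range_comp _ _).symm
  have hη : IntermediateField.adjoin k0 (Set.range η') = ⊤ := F.lift_injective (by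
    rw [IntermediateField.lift_top, IntermediateField.lift, IntermediateField.adjoin_map, e3])
  obtain ⟨P', hP', hz'⟩ := ASp.place (k := k0) (z := η') (p := z) fun g hg => hz g ((e2 g).1 hg)
  have ev : ∀ g : MvPolynomial ι k0, aeval η' g ∈ P'.V ∧ P'.fn (aeval η' g) = aeval z g :=
    fun g => by
      have := P'.aeval_fn hP' (fun i => (hz' i).1) g
      rwa [funext fun i => (hz' i).2] at this
  have ev2 : ∀ g : MvPolynomial J k0, aeval (fun j => aeval η' (s j)) g ∈ P'.V ∧
      P'.fn (aeval (fun j => aeval η' (s j)) g) = aeval σ g := fun g => by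
    have := P'.aeval_fn hP' (fun j => (ev (s j)).1) g
    rwa [funext fun j => (ev (s j)).2.trans (hs j)] at this
  have hξ : AlgebraicIndependent k0 fun j => aeval η' (s j) :=
    ASp.indep (fun g hg => by rw [← (ev2 g).2, hg, P'.fn_zero]) hσ.1
  obtain ⟨α, eα⟩ := exists_lift hξ
  obtain ⟨β, eβ⟩ := exists_lift hσ.1
  have hb' : P'.fn (aeval η' b) ≠ 0 := by rwa [(ev b).2]
  have ht : tt k ≠ 0 := fun e => tt_transcendental (e ▸ isAlgebraic_zero)
  obtain ⟨f, f1, f2, f3⟩ := mid hE α β hη (x := fun j => algebraMap (MvPolynomial J k0) _ (X j))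
    (by simpa only [eα, aeval_X] using hξ) (by rwa [← rk_image F.val, e3]) (P' := P') (P := P)
    (fun c => by
      obtain ⟨p, q, hq, rfl⟩ := IsFractionRing.div_surjective (MvPolynomial J k0) c
      have hq' : P'.fn (aeval (fun j => aeval η' (s j)) q) ≠ 0 := by
        rw [(ev2 q).2]
        exact fun e => nonZeroDivisors.ne_zero hq (hσ.1.eq_zero_of_aeval_eq_zero q e)
      rw [map_div₀, map_div₀, eα, eα, eβ, eβ, P'.fn_div (ev2 p).1 hq', (ev2 p).2, (ev2 q).2]
      exact ⟨P'.div_mem (ev2 p).1 hq', rfl⟩)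
    hP.1 (h := aeval η' a / aeval η' b) (u := u)
    (div_ne_zero (fun e => ha' ((e2 a).1 e)) (P'.ne_zero_of_ne hb')) (P'.div_mem (ev a).1 hb')
    (by rw [P'.fn_div (ev a).1 hb', (ev a).2, ha, zero_div])
    (by rcases hu with rfl | rfl; exacts [ht, inv_ne_zero ht]) hP.2.1 hP.2.2
  have e4 : ∀ g : MvPolynomial ι k0, aeval (fun i => f (η' i)) g = f (aeval η' g) := fun g =>
    (comp_aeval_apply η' f g).symm
  refine ⟨fun i => f (η' i), fun g hg => ?_, fun g hg => ?_, fun j => ?_, ?_, fun i => ?_⟩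
  · rw [e4, (e2 g).2 hg, map_zero]
  · rw [e4, map_eq_zero] at hg
    exact (e2 g).1 hg
  · have := f2 (algebraMap (MvPolynomial J k0) _ (X j))
    rw [eα, eβ, aeval_X, aeval_X] at this
    rw [e4, this, sL]
  · rw [e4, e4, ← f1, ← map_mul, div_mul_cancel₀ _ (P'.ne_zero_of_ne hb')]
  · exact ⟨(f3 _ (hz' i).1).1, (f3 _ (hz' i).1).2.trans (hz' i).2⟩

end Pool.Agent.MP_59fd2e_ag.DV
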