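import Pool.Agent.MP_59fd2e_ag.dv.Spec
import Pool.Agent.MP_9207e0_ag.cc.Fam
import Pool.Agent.MP_9207e0_ag.cc.L2
import Pool.Agent.MP_9207e0_ag.cc.Ends
import Pool.Agent.MP_9207e0_ag.cc.Div
import Pool.Agent.MP_9207e0_ag.cc.Cnt
import Pool.Agent.MP_9207e0_ag.cc.Chu

/-! PROJECT DV, row FAM: the two ends of a family of flags. -/

noncomputable section

namespace Pool.Agent.MP_59fd2e_ag.DV

open MvPolynomial Matrix Pool.Agent.MP_9207e0_ag.CC
open scoped Classical

namespace Fam

theorem map_self {α : Type} (T : Finset α) (f : α → α) (hf : Function.Injective f)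
    (hT : ∀ g ∈ T, f g ∈ T) : T.val.map f = T.val := by
  refine Multiset.eq_of_le_of_card_le ?_ (by rw [Multiset.card_map])
  rw [Multiset.le_iff_subset (T.nodup.map hf)]
  intro x hx
  obtain ⟨g, hg, rfl⟩ := Multiset.mem_map.1 hx
  exact hT g hg

theorem det_ne (hN : NfS) {L : Type} [Field L] {w : S10} {z : M10 L} (h : NF w z) :
    z.det ≠ 0 := fun h0 => by
  have := hN.det L w z h.1
  rw [h0, mul_zero] at this
  exact zero_ne_one this

theorem red_rd (hP : PlkS) (hN : NfS) {K L : Type} [Field K] [Field L] {P : Plc K L} {g : M10 K}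
    {w : S10} {z : M10 L} (h : RD P g w z) : P.red (pt g) = pt z := by
  obtain ⟨h1, b, hb, -, h2⟩ := h
  rw [← hP.lo K b g hb]
  exact hP.red K L P _ z h2 (det_ne hN h1)

theorem lo_map {K L : Type} [Field K] [Field L] (f : K →+* L) {b : M10 K} (h : Lo b) :
    Lo (b.map f) :=
  ⟨fun i j hij => by rw [Matrix.map_apply, h.1 i j hij, map_zero],
    fun i => by rw [Matrix.map_apply]; exact (map_ne_zero f).2 (h.2 i)⟩

theorem ee_sum {k : Type} [Field k] (σ : T3 → k) (A : Multiset (PP Pl k)) :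
    (NN σ).mkQ (cq A) = (A.map (ee σ)).sum := by
  unfold cq
  rw [map_multiset_sum, Multiset.map_map]
  rfl

end Fam

theorem famS (hP : PlkS) (hN : NfS) (_hT : TriS) (hI : InvS) : FamS where
  eq := by
    intro k _ _ _ σ T P Q ρ ρ' hT hG hZ hZ' hρ hρ'
    have hg := hP.hg k σ
    have hM : OnM (dvIdeal σ) (T.val.map pt) := fun x hx => by
      obtain ⟨g, hg, rfl⟩ := Multiset.mem_map.1 hx
      exact hP.on k (LL k) σ g (hT g hg).1 (hT g hg).2
    have hGal : Gal (T.val.map pt) := fun φ => by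
      conv_rhs => rw [← Fam.map_self T (fun g => g.map φ) (Matrix.map_injective φ.injective) (hG φ)]
      rw [Multiset.map_map, Multiset.map_map]
      exact Multiset.map_congr rfl fun g _ => hP.map _ _ (φ : LL k →+* LL k) g
    have hs := Pool.Agent.MP_9207e0_ag.CC.famS transferS k k Pl _ _ P Q hg hM hGal hZ hZ'
    have hr := l2S (endsS chuS transferS) orbdecS (divS cntS) cenS k k Pl _ _ _ hg
      ((ratpS transferS k k Pl _ hg).2.1 _ _ hs)
    have e : ∀ (R : Plc (LL k) k) (r : M10 (LL k) → M10 k), (∀ g ∈ T, ∃ w, RD R g w (r g)) →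
        (NN σ).mkQ (cq ((T.val.map pt).map R.red)) = ∑ g ∈ T, ee σ (pt (r g)) := by
      intro R r h
      rw [Fam.ee_sum, Multiset.map_map, Multiset.map_map]
      refine congrArg Multiset.sum (Multiset.map_congr rfl fun g hg => ?_)
      obtain ⟨w, hw⟩ := h g hg
      exact congrArg (ee σ) (Fam.red_rd hP hN hw)
    rw [← e P ρ hρ, ← e Q ρ' hρ', Submodule.mkQ_apply, Submodule.mkQ_apply, Submodule.Quotient.eq]
    exact Submodule.subset_span ⟨_, _, hr, by simp only [Multiset.card_map], rfl⟩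
  inv := by
    intro k0 k _ _ _ _ _ σ T P u ρ hσ hu hZ hT hρ θ hθ
    choose! w hw using hρ
    have hb : ∀ g ∈ T, ∃ b, Lo b ∧ OvM P (b * g) (ρ g) := fun g hg => by
      obtain ⟨-, b, h1, -, h2⟩ := hw g hg
      exact ⟨b, h1, h2⟩
    choose! b hb1 hb2 using hb
    obtain ⟨f, hf1, hf2, hf3⟩ := hI k0 k T3 σ P u θ
      ((fun x : M10 (LL k) × Fin 10 × Fin 10 => (b x.1 * x.1) x.2.1 x.2.2) ''
        ((T : Set (M10 (LL k))) ×ˢ Set.univ)) hσ hu hZ hθ
      ((T.finite_toSet.prod Set.finite_univ).image _)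
    have hfT := hT f hf1 hf2
    conv_rhs => rw [← Fam.map_self T (fun g => g.map f)
      (Matrix.map_injective (f : LL k →+* LL k).injective) hfT]
    rw [Multiset.map_map, Multiset.map_map]
    refine Multiset.map_congr rfl fun g hg => ?_
    have h1 : OvM P ((b g * g).map (f : LL k →+* LL k)) ((ρ g).map (θ : k →+* k)) := fun i j => by
      have h2 := hb2 g hg i j
      have h3 := hf3 _ ⟨(g, i, j), ⟨hg, trivial⟩, rfl⟩ h2.1
      exact ⟨h3.1, h3.2.trans (congrArg θ h2.2)⟩
    have h4 : ((ρ g).map (θ : k →+* k)).det ≠ 0 := by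
      rw [← RingHom.mapMatrix_apply, ← RingHom.map_det]
      exact (map_ne_zero _).2 (Fam.det_ne hN (hw g hg).1)
    have h5 := hP.red _ _ P _ _ h1 h4
    rw [Matrix.map_mul, hP.lo _ _ _ (Fam.lo_map _ (hb1 g hg))] at h5
    exact (hP.map _ _ _ _).trans (h5.symm.trans (Fam.red_rd hP hN (hw _ (hfT g hg))))

end Pool.Agent.MP_59fd2e_ag.DV
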