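import Pool.Agent.MP_59fd2e_ag.dv.Spec

/-! PROJECT DV, row FIN: the generic fibre of the function is finite. -/

noncomputable section

namespace Pool.Agent.MP_59fd2e_ag.DV

open MvPolynomial Pool.Agent.MP_9207e0_ag.CC

namespace FinL

variable {k0 k L ι : Type} [Field k0] [Field k] [Field L] [Algebra k0 L] [Algebra k0 k]

/-- The functions on `T` that are polynomial up to a power of `b`. -/
def D (T : Set (ι → L)) (b : MvPolynomial ι k0) : Subalgebra k0 ((ι → L) → L) where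
  carrier := {φ | ∃ (n : ℕ) (g : MvPolynomial ι k0), ∀ y ∈ T, φ y * aeval y b ^ n = aeval y g}
  mul_mem' := by
    rintro φ ψ ⟨n, g, h⟩ ⟨m, g', h'⟩
    exact ⟨n + m, g * g', fun y hy => by rw [map_mul, ← h y hy, ← h' y hy, Pi.mul_apply]; ring⟩
  add_mem' := by
    rintro φ ψ ⟨n, g, h⟩ ⟨m, g', h'⟩
    exact ⟨n + m, g * b ^ m + g' * b ^ n, fun y hy => by
      rw [map_add, map_mul, map_mul, map_pow, map_pow, ← h y hy, ← h' y hy, Pi.add_apply]; ring⟩
  algebraMap_mem' c := ⟨0, C c, fun y _ => by simp⟩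

theorem root_mem (T : Set (ι → L)) (b : MvPolynomial ι k0) (S : Set L)
    (hS : ∀ c ∈ S, (fun _ => c) ∈ D T b) (p : Polynomial (Algebra.adjoin k0 S)) (i : ι) :
    (fun y : ι → L => Polynomial.aeval (y i) p) ∈ D T b := by
  have h1 : Algebra.adjoin k0 S ≤ (D T b).comap (Pi.constAlgHom k0 (ι → L) L) :=
    Algebra.adjoin_le hS
  have h2 : (fun y : ι → L => y i) ∈ D T b := ⟨0, X i, fun y _ => by simp⟩
  have e : (fun y : ι → L => Polynomial.aeval (y i) p) = ∑ n ∈ Finset.range (p.natDegree + 1),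
      Pi.constAlgHom k0 (ι → L) L (p.coeff n : L) * (fun y : ι → L => y i) ^ n := by
    funext y
    rw [Polynomial.aeval_eq_sum_range, Finset.sum_apply]
    rfl
  rw [e]
  exact sum_mem fun n _ => mul_mem (h1 (p.coeff n).2) (pow_mem h2 n)

theorem tt_notMem {S : Set (LL k)} (hS : S ⊆ Set.range (algebraMap k (LL k))) :
    tt k ∉ cl k0 S := fun h => by
  obtain ⟨p, h0, h1⟩ := mem_cl_iff.1 h
  have h2 : Algebra.adjoin k0 S ≤ (IsScalarTower.toAlgHom k0 k (LL k)).range :=
    Algebra.adjoin_le fun x hx => hS hx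
  have h3 : p.map (algebraMap _ (LL k)) ∈ Polynomial.lifts (algebraMap k (LL k)) :=
    (Polynomial.lifts_iff_coeff_lifts _).2 fun n => by
      rw [Polynomial.coeff_map]
      exact h2 (p.coeff n).2
  obtain ⟨q, hq⟩ := (Polynomial.mem_lifts _).1 h3
  refine tt_transcendental (K := k) ⟨q, fun e => h0 ?_, ?_⟩
  · rw [e, Polynomial.map_zero] at hq
    exact (Polynomial.map_eq_zero_iff Subtype.val_injective).1 hq.symm
  · rw [← Polynomial.eval_map_algebraMap, hq, Polynomial.eval_map_algebraMap, h1]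

end FinL

open FinL

theorem finS : FinS := by
  intro k0 k Ω J ι _ _ _ _ _ _ _ σ η s a b hσ hη
  set T := {y : ι → LL k | ASp k0 η y ∧ (∀ j, aeval y (s j) = sL σ j) ∧
    aeval y a = tt k * aeval y b ∧ aeval y b ≠ 0}
  rcases T.eq_empty_or_nonempty with e | ⟨y0, h0⟩
  · rw [e]; exact Set.finite_empty
  have hi : AlgebraicIndependent k0 (sL σ) :=
    hσ.map' (f := IsScalarTower.toAlgHom k0 k (LL k)) (algebraMap k (LL k)).injective
  have hS : rk k0 (insert (tt k) (Set.range (sL σ))) = Fintype.card J + 1 := by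
    rw [rk_insert (tt_notMem (by rintro _ ⟨j, rfl⟩; exact ⟨_, rfl⟩)), rk_range_of_indep hi]
  have hy : ∀ f, aeval y0 f ∈ cl k0 (Set.range y0) :=
    aeval_mem_cl fun i => subset_cl _ ⟨i, rfl⟩
  have hsub : insert (tt k) (Set.range (sL σ)) ⊆ cl k0 (Set.range y0) := by
    rintro _ (rfl | ⟨j, rfl⟩)
    · rw [← (div_eq_iff h0.2.2.2).2 h0.2.2.1]
      exact div_mem_cl (hy a) (hy b)
    · rw [← h0.2.1 j]
      exact hy _
  have hb : ASp k0 y0 η := h0.1.drop (hη.trans (hS.symm.le.trans (rk_le_of_subset_cl hsub)))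
  have hal : Set.range y0 ⊆ cl k0 (insert (tt k) (Set.range (sL σ))) :=
    subset_cl_of_rk_le (rk_ne_top ((Set.finite_range _).insert _)) hsub
      (h0.1.rk_le.trans (hη.trans hS.symm.le))
  choose p hp hp' using fun i => mem_cl_iff.1 (hal ⟨i, rfl⟩)
  refine (Set.Finite.pi' fun i => (p i).rootSet_finite (LL k)).subset fun y hy i => ?_
  obtain ⟨n, g, hg⟩ := root_mem T b _ (by
    rintro _ (rfl | ⟨j, rfl⟩)
    · exact ⟨1, a, fun y hy => by rw [pow_one, hy.2.2.1]⟩
    · exact ⟨0, s j, fun y hy => by rw [pow_zero, mul_one, hy.2.1 j]⟩) (p i) i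
  have h1 : aeval y0 g = 0 := (hg y0 h0).symm.trans (mul_eq_zero_of_left (hp' i) _)
  have h2 : Polynomial.aeval (y i) (p i) = 0 :=
    (mul_eq_zero.1 ((hg y hy).trans (hy.1 g (hb g h1)))).resolve_right (pow_ne_zero n hy.2.2.2)
  exact Polynomial.mem_rootSet'.2
    ⟨fun e => hp i ((Polynomial.map_eq_zero_iff Subtype.val_injective).1 e), h2⟩

end Pool.Agent.MP_59fd2e_ag.DV
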