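import Pool.Agent.MP_59fd2e_ag.dv.Spec

/-! PROJECT DV, row G2: one step of the generation of the classes of orbits. -/

noncomputable section

namespace Pool.Agent.MP_59fd2e_ag.DV

open MvPolynomial Matrix Pool.Agent.MP_9207e0_ag.CC
open scoped Classical

namespace G2

theorem ov {k0 K L ι : Type} [Field k0] [Field K] [Field L] [Algebra k0 K] [Algebra k0 L]
    {P : Plc K L} (hP : P.Over k0) {y : ι → K} {z : ι → L} (h : Ov P y z) :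
    ASp k0 y z ∧ ∀ f : MvPolynomial ι k0, aeval y f ∈ P.V ∧ P.fn (aeval y f) = aeval z f := by
  obtain rfl : (fun i => P.fn (y i)) = z := funext fun i => (h i).2
  exact ⟨ASp.of_plc hP fun i => (h i).1, P.aeval_fn hP fun i => (h i).1⟩

theorem inj (hC : ChartS) (k0 : Type) {R : Type} [Field k0] [CommRing R] [Algebra k0 R] {w : S10}
    {I : Finset T3} {σ : T3 → R} {g g' : M10 R} (h : g ∈ PS σ w I) (h' : g' ∈ PS σ w I)
    (e : co w I σ g = co w I σ g') : g = g' := by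
  rw [← (hC.ps k0 R w I σ g h).1, e, (hC.ps k0 R w I σ g' h').1]

theorem mp (hC : ChartS) {R : Type} [CommRing R] {w : S10} {I : Finset T3} {σ : T3 → R}
    {g : M10 R} (h : g ∈ PS σ w I) (φ : R →+* R) (e : ∀ j, φ (σ j) = σ j) :
    g.map φ ∈ PS σ w I ∧ co w I σ (g.map φ) = fun i => φ (co w I σ g i) := by
  have := hC.ps_map R R φ w I σ g h
  rwa [show φ ∘ σ = σ from funext e] at this

end G2

theorem g2S (hK : CurveS) (hX : ExtS) (hI : FinS) (hF : FamS) (hO : OrbS) (hJ : ConjS)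
    (hC : ChartS) (hW : IwaS) (h0 : L0S) (hB : BrS) (hN : NfS) (hP : PlkS) (hH : ChS) : G2S := by
  intro k0 k _ _ _ _ _ σ H w S i z hσ hz hi c1 hL hS
  have ei : insert i S = @insert _ _ (@Finset.instInsert _ fun _ _ => Classical.propDecidable _)
      i S := Finset.ext fun _ => by simp only [Finset.mem_insert]
  rw [ei] at hS
  by_contra hn
  have : CharZero k := charZero_of_injective_algebraMap (algebraMap k0 k).injective
  obtain ⟨Ω, _, _, η, a, b, r1, e1, a1, a2, b1, hx⟩ := hK k0 k (Ix w I0) 120 (co w I0 σ z) S i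
    (hC.cnt k0 k w I0 σ z hσ.1 hz).2.2 hi c1 fun c => hn (hS z hz c)
  have r2 : rk k0 (Set.range η) ≤ Fintype.card T3 + 1 := by rw [hH.c120]; exact r1
  obtain ⟨T, hT⟩ : ∃ T : Finset (M10 (LL k)), ∀ g, g ∈ T ↔ g ∈ {g | g ∈ PS (sL σ) w I0 ∧
      ASp k0 η (co w I0 (sL σ) g) ∧
      aeval (co w I0 (sL σ) g) a = tt k * aeval (co w I0 (sL σ) g) b ∧
      aeval (co w I0 (sL σ) g) b ≠ 0} := by
    refine Set.Finite.exists_finset
      (Set.Finite.of_injOn (f := co w I0 (sL σ)) (fun g hg => ?_) (fun g hg g' hg' => ?_)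
        (hI k0 k Ω T3 (Ix w I0) σ η (sI k0 w I0) a b hσ.1 r2))
    · exact ⟨hg.2.1, (hC.ps k0 _ w I0 _ g hg.1).2, hg.2.2⟩
    · exact G2.inj hC k0 hg.1 hg'.1
  have st : ∀ f : LL k →ₐ[k0] LL k, f (tt k) = tt k → (∀ j, f (sL σ j) = sL σ j) →
      ∀ g ∈ T, g.map f ∈ T := fun f f1 f2 g hg => by
    obtain ⟨g1, g2, g3, g4⟩ := (hT g).1 hg
    obtain ⟨m1, m2⟩ := G2.mp hC g1 (f : LL k →+* LL k) f2
    have ev : ∀ p : MvPolynomial (Ix w I0) k0, aeval (co w I0 (sL σ) (g.map f)) p =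
        f (aeval (co w I0 (sL σ) g) p) := fun p =>
      (congrArg (fun y => aeval y p) m2).trans (comp_aeval_apply _ f p).symm
    refine (hT _).2 ⟨m1, fun p hp => ?_, ?_, ?_⟩
    · rw [ev, g2 p hp, map_zero]
    · rw [ev, ev, g3, map_mul, f1]
    · rw [ev]
      exact (map_ne_zero f).2 g4
  have dt : ∀ g ∈ T, g.det ≠ 0 := fun g hg e => by
    simpa [e] using hN.det _ w g ((hT g).1 hg).1.1.1
  have rd : ∀ P : Plc (LL k) k, P.Over k → ∃ ρ : M10 (LL k) → M10 k,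
      ∀ g ∈ T, ∃ w', RD P g w' (ρ g) := fun P o => by
    have : ∀ g ∈ T, ∃ x w', RD P g w' x := fun g hg =>
      let ⟨w', x, h⟩ := hW.ex _ _ P g o (dt g hg); ⟨x, w', h⟩
    choose! ρ h using this
    exact ⟨ρ, h⟩
  have red : ∀ P : Plc (LL k) k, P.Over k → ∀ g ∈ T, ∀ x, (∃ w', RD P g w' x) →
      oc k0 σ (pt x) ∈ H ∨ ∃ α β : LL k, α ∈ P.V ∧ β ∈ P.V ∧ α = tt k * β ∧ P.fn β ≠ 0 ∧
        (P.fn α = 0 → Cj k0 σ (pt z) (pt x)) := fun P o g hg x ⟨w', h⟩ => by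
    obtain ⟨g1, g2, g3, -⟩ := (hT g).1 hg
    obtain ⟨x1, x2, x3⟩ := h0 k σ P w w' I0 g x o (hH.zero ▸ hH.low 0) g1 h
    rcases hB w w' x2 with rfl | l
    · obtain ⟨s, v⟩ := G2.ov (k0 := k0) o.self (x3 rfl).2
      rcases hx _ (g2.trans s) (hC.cnt k0 k _ I0 σ x hσ.1 x1).2.2 with c | ⟨c, d⟩
      · exact Or.inl (hS x x1 c)
      refine Or.inr ⟨_, _, (v a).1, (v b).1, g3, (v b).2 ▸ c, fun e => ?_⟩
      obtain ⟨d1, d2⟩ := d ((v a).2 ▸ e)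
      obtain ⟨θ, t1, t2⟩ := hJ.ex k0 k T3 _ σ _ _ (sI k0 w' I0) hσ d2 d1
        (hC.ps k0 k _ I0 σ z hz).2 (hC.ps k0 k _ I0 σ x x1).2
      obtain ⟨m1, m2⟩ := G2.mp hC hz (θ : k →+* k) t1
      exact ⟨θ, t1, (hP.map _ _ _ _).trans
        (congrArg pt (G2.inj hC k0 m1 x1 (m2.trans (funext t2))))⟩
    · exact Or.inl (hL w' l.1 x x1)
  obtain ⟨⟨P, zP⟩, Q, zQ⟩ := exists_zr (K := k)
  obtain ⟨ρ, hρ⟩ := rd P zP.1
  obtain ⟨ρ', hρ'⟩ := rd Q zQ.1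
  have hq : ∀ x ∈ T.val.map fun g => pt (ρ' g), oc k0 σ x ∈ H := fun x hx => by
    obtain ⟨g, hg, rfl⟩ := Multiset.mem_map.1 hx
    refine (red Q zQ.1 g hg _ (hρ' g hg)).resolve_right fun ⟨α, β, h1, _, h3, h4, _⟩ => h4 ?_
    have t0 : tt k ≠ 0 := fun e => tt_transcendental (e ▸ isAlgebraic_zero)
    rw [(eq_inv_mul_iff_mul_eq₀ t0).2 h3.symm, Q.fn_mul zQ.2.1 h1, zQ.2.2, zero_mul]
  obtain ⟨-, -, -, sQ⟩ := hO k0 k σ H _ (pt z) hσ
    (hF.inv k0 k σ T Q _ ρ' hσ (Or.inr rfl) zQ st hρ') fun x hx => Or.inl (hq x hx)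
  obtain ⟨m, m0, sP, -⟩ := hO k0 k σ H _ (pt z) hσ
    (hF.inv k0 k σ T P _ ρ hσ (Or.inl rfl) zP st hρ) fun x hx => by
      obtain ⟨g, hg, rfl⟩ := Multiset.mem_map.1 hx
      refine (red P zP.1 g hg _ (hρ g hg)).imp_right fun ⟨α, β, _, h2, h3, _, h5⟩ => h5 ?_
      rw [h3, P.fn_mul zP.2.1 h2, zP.2.2, zero_mul]
  have e := hF.eq k σ T P Q ρ ρ' (fun g hg => ⟨dt g hg, ((hT g).1 hg).1.2⟩)
    (fun φ => st (φ.restrictScalars k0) (φ.commutes _) fun j => by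
      rw [sL, IsScalarTower.algebraMap_apply k (RatFunc k) (LL k)]
      exact φ.commutes _) zP zQ hρ hρ'
  obtain ⟨y, y1, -, y2, y3, y4⟩ := hX k0 k Ω T3 _ σ η _ (sI k0 w I0) a b P _ hσ e1 r2
    (hC.ps k0 k w I0 σ z hz).2 a1 a2 b1 (Or.inl rfl) zP
  obtain ⟨g1, g2⟩ := hC.ps' k0 _ w I0 _ y y2
  have hg : um w (y ∘ Sum.inl) ∈ T := by
    rw [hT, Set.mem_ofPred_eq, g2]
    refine ⟨g1, y1, y3, fun c => b1 ?_⟩
    rw [← ((G2.ov (k0 := k0) zP.1.self y4).2 b).2, c, P.fn_zero]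
  obtain ⟨w', n1, b', n2, n3, n4⟩ := hρ _ hg
  have o := hC.um_ov _ _ P w (y ∘ Sum.inl) (co w I0 σ z ∘ Sum.inl) fun x => y4 _
  rw [(hC.ps k0 k w I0 σ z hz).1, ← one_mul (um w _)] at o
  have u := (hW.uniq _ _ P _ _ _ _ _ _ _ (hN.lo_one _) n2 (by rw [one_mul]; exact g1.1.1) n3 o n4
    hz.1 n1).2.2
  have s := H.sub_mem (sQ hq) sP
  rw [Multiset.map_map, Multiset.map_map] at s
  change ∑ g ∈ T, ee σ (pt (ρ' g)) - (∑ g ∈ T, ee σ (pt (ρ g)) - _) ∈ H at s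
  rw [e, sub_sub_cancel, H.smul_mem_iff (Nat.cast_ne_zero.2 (m0
    (Multiset.mem_map.2 ⟨_, hg, congrArg pt u.symm⟩)).ne')] at s
  exact hn s

end Pool.Agent.MP_59fd2e_ag.DV
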