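import Pool.Agent.MP_59fd2e_ag.dv.Spec

/-! PROJECT DV: the last strata generate. -/

noncomputable section

namespace Pool.Agent.MP_59fd2e_ag.DV

open MvPolynomial Matrix Pool.Agent.MP_9207e0_ag.CC
open scoped Classical

namespace Gen

theorem rk_le {k0 k J : Type} [Field k0] [Field k] [Algebra k0 k] [Fintype J] {σ : J → k}
    (h : IsTranscendenceBasis k0 σ) (S : Set k) : rk k0 S ≤ Fintype.card J := by
  refine le_trans (rk_le_of_subset_cl fun x _ => ?_) (rk_range_le σ)
  exact mem_cl_iff.2 (h.isAlgebraic.isAlgebraic x)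

end Gen

theorem genS (hG : G2S) (hF : PsfS) (hC : ChartS) (hL : LenS) (hH : ChS) : GenS := by
  intro k0 k _ _ _ _ _ σ w hσ
  have h0 : I0.card = 20 := by
    have := hH.card 0 (Nat.zero_le _)
    rwa [hH.zero] at this
  suffices H : ∀ n, ∀ w : S10, 25 ≤ len w + n → ∀ z ∈ PS σ w I0, oc k0 σ (pt z) ∈ HS σ from
    H 25 w (Nat.le_add_left _ _)
  have last : ∀ w : S10, 25 ≤ len w → ∀ z ∈ PS σ w I0, oc k0 σ (pt z) ∈ HS σ := by
    intro w hw z hz
    have h1 := (hC.cnt k0 k w I0 σ z hσ.1 hz).1
    have h2 : len w = 25 := by omega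
    obtain ⟨m, hm, e⟩ := (hF k0 k σ w I0 hσ (by omega)).2 z hz
    rw [← Submodule.smul_mem_iff _ hm, ← e]
    exact Submodule.subset_span ⟨w, h2, rfl⟩
  intro n
  induction n with
  | zero => exact last
  | succ n ih =>
    intro w hw
    by_cases h25 : 25 ≤ len w
    · exact last w h25
    have hc := hL.ix w I0
    have key : ∀ m, ∀ S : Finset (Ix w I0), 121 ≤ S.card + m → ∀ z ∈ PS σ w I0,
        Cyl k0 120 S (co w I0 σ z) → oc k0 σ (pt z) ∈ HS σ := by
      have big : ∀ S : Finset (Ix w I0), 121 ≤ S.card → ∀ z : M10 k,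
          ¬ Cyl k0 120 S (co w I0 σ z) := by
        intro S hS z h
        have : ((S.card : ℕ) : ℕ∞) ≤ (120 : ℕ) := le_trans le_add_self h
        have : S.card ≤ 120 := by exact_mod_cast this
        omega
      intro m
      induction m with
      | zero => exact fun S hS z _ h => absurd h (big S hS z)
      | succ m ihm =>
        intro S hS z hz h
        by_cases hb : 121 ≤ S.card
        · exact absurd h (big S hb z)
        obtain ⟨i, hi⟩ : ∃ i, i ∉ S := by
          by_contra hn
          have : S = Finset.univ := Finset.eq_univ_iff_forall.2 fun i => not_not.1 fun k =>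
            hn ⟨i, k⟩
          rw [this, Finset.card_univ] at hb
          omega
        refine hG k0 k σ (HS σ) w S i z hσ hz hi h (fun w' hw' => ih w' (by omega))
          fun x hx hx' => ihm _ ?_ x hx hx'
        rw [Finset.card_insert_of_notMem hi]
        omega
    intro z hz
    refine key 121 ∅ (Nat.le_add_left _ _) z hz ?_
    have := Gen.rk_le hσ (co w I0 σ z '' ((∅ : Finset (Ix w I0)) : Set (Ix w I0))ᶜ)
    rw [hH.c120] at this
    unfold Cyl
    rw [Finset.card_empty, Nat.cast_zero, add_zero]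
    exact this

end Pool.Agent.MP_59fd2e_ag.DV
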