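import Pool.Agent.MP_59fd2e_ag.dv.Spec

/-! PROJECT DV, row IWA: the reduction of a flag at a place exists and is unique. -/

noncomputable section

namespace Pool.Agent.MP_59fd2e_ag.DV

open Matrix Pool.Agent.MP_9207e0_ag.CC

namespace Iwa

variable {K L : Type} [Field K] [Field L]

/-- Row `i` is in normal form at the place. -/
def Row (P : Plc K L) (w : Fin 10 → Fin 10) (u : M10 K) (i : Fin 10) : Prop :=
  u i (w i) = 1 ∧ (∀ j, j < i → u i (w j) = 0) ∧ (∀ c, u i c ∈ P.V) ∧
    ∀ c, c < w i → P.V.valuation (u i c) < 1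

theorem lo_det {b : M10 K} (hb : Lo b) : b.det ≠ 0 := by
  rw [det_of_isLowerTriangular b fun i j h => hb.1 i j h]
  exact Finset.prod_ne_zero_iff.2 fun i _ => hb.2 i

theorem clear (P : Plc K L) {w : Fin 10 → Fin 10} {u : M10 K} {i : Fin 10}
    (h : ∀ j, j < i → Row P w u j) (m : ℕ) : ∃ a : Fin 10 → K, (∀ j, i < j → a j = 0) ∧ a i = 1 ∧
      ∀ j, j < i → j.val < m → (a ᵥ* u) (w j) = 0 := by
  induction m with
  | zero => exact ⟨Pi.single i 1, fun j hj => Pi.single_eq_of_ne hj.ne' _, Pi.single_eq_same _ _,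
      fun j _ hj => absurd hj (Nat.not_lt_zero _)⟩
  | succ m ih =>
    obtain ⟨a, h1, h2, h3⟩ := ih
    by_cases hm : m < i.val
    swap
    · exact ⟨a, h1, h2, fun j hj _ => h3 j hj (by have : j.val < i.val := hj
                                                  omega)⟩
    let l : Fin 10 := ⟨m, hm.trans i.2⟩
    have hl : l < i := hm
    refine ⟨a - Pi.single l ((a ᵥ* u) (w l)), fun j hj => ?_, ?_, fun j hj hjm => ?_⟩
    · rw [Pi.sub_apply, h1 j hj, Pi.single_eq_of_ne (hl.trans hj).ne', sub_zero]
    · rw [Pi.sub_apply, h2, Pi.single_eq_of_ne hl.ne', sub_zero]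
    · rw [sub_vecMul, single_vecMul, Pi.sub_apply, Pi.smul_apply, smul_eq_mul]
      by_cases e : j = l
      · rw [e, show u.row l (w l) = 1 from (h l hl).1, mul_one, sub_self]
      · have hjl : j < l := by
          have : j.val ≠ m := fun e' => e (Fin.ext e')
          show j.val < m
          omega
        rw [h3 j hj hjl, show u.row l (w j) = 0 from (h l hl).2.1 j hjl, mul_zero, sub_zero]

theorem rows (hN : NfS) (P : Plc K L) {g : M10 K} (hg : g.det ≠ 0) (n : ℕ) :
    ∃ (w : Fin 10 → Fin 10) (b : M10 K), Lo b ∧ ∀ i, i.val < n → Row P w (b * g) i := by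
  classical
  induction n with
  | zero => exact ⟨id, 1, hN.lo_one K, fun i hi => absurd hi (Nat.not_lt_zero _)⟩
  | succ n ih =>
    obtain ⟨w, b, hb, h⟩ := ih
    by_cases hn : n < 10
    swap
    · exact ⟨w, b, hb, fun i _ => h i (by omega)⟩
    let i : Fin 10 := ⟨n, hn⟩
    obtain ⟨a, h1, h2, h3⟩ := clear P (i := i) (fun j hj => h j hj) 10
    set r := a ᵥ* (b * g) with hr
    have hr0 : r ≠ 0 := fun e => by
      have := eq_zero_of_vecMul_eq_zero (by rw [det_mul]; exact mul_ne_zero (lo_det hb) hg) e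
      rw [this] at h2
      exact zero_ne_one h2
    obtain ⟨c₁, -, hc₁⟩ := Finset.exists_max_image Finset.univ (fun c => P.V.valuation (r c))
      ⟨0, Finset.mem_univ _⟩
    obtain ⟨c, hc, hmin⟩ := Finset.exists_min_image
      (Finset.univ.filter fun c => ∀ d, P.V.valuation (r d) ≤ P.V.valuation (r c)) id
      ⟨c₁, Finset.mem_filter.2 ⟨Finset.mem_univ _, fun d => hc₁ d (Finset.mem_univ _)⟩⟩
    have hc' := (Finset.mem_filter.1 hc).2
    have hc0 : r c ≠ 0 := fun e => hr0 (funext fun d => by
      have := hc' d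
      rw [e, map_zero, le_zero_iff, map_eq_zero] at this
      exact this)
    have hv : 0 < P.V.valuation (r c) := zero_lt_iff.2 ((map_ne_zero _).2 hc0)
    let e : M10 K := updateRow 1 i ((r c)⁻¹ • a)
    have he : Lo e := by
      refine ⟨fun x y hxy => ?_, fun x => ?_⟩
      · by_cases hx : x = i
        · simp only [e, hx, updateRow_self, Pi.smul_apply, h1 y (hx ▸ hxy), smul_zero]
        · simp only [e, updateRow_ne hx, one_apply_ne hxy.ne]
      · by_cases hx : x = i
        · simp only [e, hx, updateRow_self, Pi.smul_apply, h2, smul_eq_mul, mul_one]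
          exact inv_ne_zero hc0
        · simp only [e, updateRow_ne hx, one_apply_eq]
          exact one_ne_zero
    have e1 : ∀ d, (e * b * g) i d = (r c)⁻¹ * r d := by
      intro d
      have : r d = ∑ x, a x * (b * g) x d := rfl
      rw [Matrix.mul_assoc, mul_apply, this, Finset.mul_sum]
      simp only [e, updateRow_self, Pi.smul_apply, smul_eq_mul, mul_assoc]
    have e2 : ∀ x, x ≠ i → (e * b * g) x = (b * g) x := by
      intro x hx
      funext d
      rw [Matrix.mul_assoc, mul_apply]
      simp only [e, updateRow_ne hx]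
      exact (mul_apply (M := (1 : M10 K)) (N := b * g)).symm.trans (by rw [Matrix.one_mul])
    refine ⟨Function.update w i c, e * b, hN.lo_mul K e b he hb, fun x hx => ?_⟩
    by_cases hxi : x = i
    · rw [hxi]
      refine ⟨?_, fun j hj => ?_, fun d => ?_, fun d hd => ?_⟩
      · rw [e1, Function.update_self, inv_mul_cancel₀ hc0]
      · rw [e1, Function.update_of_ne hj.ne, h3 j hj j.2, mul_zero]
      · rw [e1, ← ValuationSubring.valuation_le_one_iff, map_mul, map_inv₀, inv_mul_le_one₀ hv]
        exact hc' d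
      · rw [Function.update_self] at hd
        rw [e1, map_mul, map_inv₀, inv_mul_lt_one₀ hv]
        refine lt_of_le_of_ne (hc' d) fun e' => ?_
        exact absurd (hmin d (Finset.mem_filter.2 ⟨Finset.mem_univ _, fun x => e' ▸ hc' x⟩))
          (not_le.2 hd)
    · have hxn : x.val < n := by
        have : x.val ≠ n := fun e' => hxi (Fin.ext e')
        omega
      obtain ⟨r1, r2, r3, r4⟩ := h x hxn
      unfold Row
      rw [e2 x hxi, Function.update_of_ne hxi]
      refine ⟨r1, fun j hj => ?_, r3, r4⟩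
      rw [Function.update_of_ne (ne_of_lt (hj.trans (show x < i from hxn)))]
      exact r2 j hj

theorem lift {P : Plc K L} {u : M10 K} {z : M10 L} (h : OvM P u z) :
    ∃ U : M10 P.V, U.map P.V.subtype = u ∧ U.map P.φ = z :=
  ⟨Matrix.of fun i j => ⟨u i j, (h i j).1⟩, rfl, by
    ext i j
    rw [← (h i j).2, P.fn_mem (h i j).1]; rfl⟩

end Iwa

open Iwa in
theorem iwaS (hN : NfS) : IwaS where
  ex := by
    intro K L _ _ _ P g _ hg
    obtain ⟨w, b, hb, h⟩ := rows hN P hg 10
    have h' : ∀ i, Row P w (b * g) i := fun i => h i i.2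
    have hne : ∀ i j, j < i → w i ≠ w j := fun i j hj e => by
      have h1 := (h' i).1
      rw [e, (h' i).2.1 j hj] at h1
      exact zero_ne_one h1
    have hw : Function.Injective w := fun i j e => by
      rcases lt_trichotomy i j with h1 | h1 | h1
      · exact absurd e.symm (hne j i h1)
      · exact h1
      · exact absurd e (hne i j h1)
    refine ⟨Equiv.ofBijective w (Finite.injective_iff_bijective.1 hw),
      Matrix.of fun i c => P.fn ((b * g) i c), ⟨fun i => ⟨?_, fun j hj => ?_⟩, fun i c hc => ?_⟩,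
      b, hb, fun i => ⟨(h' i).1, (h' i).2.1⟩, fun i c => ⟨(h' i).2.2.1 c, rfl⟩⟩
    · show P.fn ((b * g) i (w i)) = 1
      rw [(h' i).1, P.fn_mem P.V.one_mem]
      exact map_one P.φ
    · show P.fn ((b * g) i (w j)) = 0
      rw [(h' i).2.1 j hj, P.fn_zero]
    · show P.fn ((b * g) i c) = 0
      rw [P.fn_mem ((h' i).2.2.1 c), P.ker]
      exact (h' i).2.2.2 c hc
  uniq := by
    intro K L _ _ P g b b' w w' z z' hb hb' hc hc' ho ho' hz hz'
    obtain ⟨U, hU, hUz⟩ := lift ho
    obtain ⟨U', hU', hUz'⟩ := lift ho'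
    have hcU : CF w U := fun i => ⟨Subtype.ext (by
      have := (hc i).1
      rw [← hU] at this
      exact this), fun j hj => Subtype.ext (by
      have := (hc i).2 j hj
      rw [← hU] at this
      exact this)⟩
    have hdU := hN.det _ w U hcU
    obtain ⟨B, hB⟩ : ∃ B : M10 P.V, B * U = U' := ⟨U' * (U.det • U.adjugate), by
      rw [Matrix.mul_assoc, Matrix.smul_mul, adjugate_mul, smul_smul, hdU, one_smul,
        Matrix.mul_one]⟩
    obtain ⟨c, hcl, hc1, -, -⟩ := hN.lo_inv K b hb
    have hu0 : (b * g).det ≠ 0 := fun e => by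
      have := hN.det _ w _ hc
      rw [e, zero_mul] at this
      exact zero_ne_one this
    have e1 : B.map P.V.subtype * (b * g) = b' * g := by rw [← hU, ← hU', ← hB, Matrix.map_mul]
    have e2 : B.map P.V.subtype = b' * c := by
      have : B.map P.V.subtype * (b * g) = b' * c * (b * g) := by
        rw [e1, Matrix.mul_assoc, ← Matrix.mul_assoc c, hc1, Matrix.one_mul]
      exact (IsUnit.mul_left_inj ((isUnit_iff_isUnit_det _).2 (isUnit_iff_ne_zero.2 hu0))).1 this
    have hlo := hN.lo_mul K b' c hb' hcl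
    have e3 : B.map P.φ * z = z' := by rw [← hUz, ← hUz', ← hB, Matrix.map_mul]
    have hlt : Lt (B.map P.φ) := fun i j hij => by
      have h0 := hlo.1 i j hij
      rw [← e2] at h0
      rw [map_apply, show B i j = 0 from Subtype.ext h0, map_zero]
    have hd : (B.map P.φ).det ≠ 0 := fun e => by
      have := hN.det _ w' _ hz'.1
      rw [← e3, det_mul, e, zero_mul, zero_mul] at this
      exact zero_ne_one this
    rw [det_of_isLowerTriangular _ fun i j h => hlt i j h] at hd
    obtain ⟨rfl, h1⟩ := hN.uniq L w w' _ z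
      ⟨hlt, fun i => Finset.prod_ne_zero_iff.1 hd i (Finset.mem_univ _)⟩ hz (e3 ▸ hz')
    have h2 := hN.cf_uniq K w (b' * c) (b * g) hlo.1 hc (by rw [← e2, e1]; exact hc')
    refine ⟨rfl, ?_, by rw [← e3, h1, Matrix.one_mul]⟩
    calc b = b' * c * b := by rw [h2, Matrix.one_mul]
      _ = b' := by rw [Matrix.mul_assoc, hc1, Matrix.mul_one]

end Pool.Agent.MP_59fd2e_ag.DV
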