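import Pool.Agent.MP_59fd2e_ag.dv.Spec

/-! PROJECT DV, rows L0 and L1: the reduction of a point of a stratum. -/

noncomputable section

namespace Pool.Agent.MP_59fd2e_ag.DV

open Matrix Pool.Agent.MP_9207e0_ag.CC
open scoped Classical

namespace L1

theorem ld {K : Type} [Field K] {w : S10} {g : M10 K} (h : NF w g) : Ld w g :=
  fun i => ⟨by rw [(h.1 i).1]; exact one_ne_zero, h.2 i⟩

theorem ov {k : Type} [Field k] {P : Plc (LL k) k} (h : P.Over k) (σ : T3 → k) :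
    Ov P (sL σ) σ := fun j => h (σ j)

theorem xs_apply {R : Type} [CommRing R] (p q : Fin 10) (a : R) (h : M10 R) (i c : Fin 10) :
    (xs p q a * h) i c = h i c + if i = p then a * h q c else 0 := by
  rw [xs, Matrix.add_mul, Matrix.one_mul, Matrix.add_apply]
  split_ifs with e
  · rw [e, Matrix.single_mul_apply_same]
  · rw [Matrix.single_mul_apply_of_ne _ _ _ _ _ e]

theorem ite_in {R : Type} [CommRing R] (p : Fin 10) (τ : T3) (s : R) :
    (if In p τ then s else 1) = (if p = τ.1.1 then s else 1) * (if p = τ.1.2.1 then s else 1) *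
      if p = τ.1.2.2 then s else 1 := by
  obtain ⟨⟨a, b, c⟩, h1, h2⟩ := τ
  simp only [In] at h1 h2 ⊢
  by_cases e1 : p = a
  · have e2 : p ≠ b := e1 ▸ h1.ne
    have e3 : p ≠ c := e1 ▸ (h1.trans h2).ne
    rw [if_pos (Or.inl e1), if_pos e1, if_neg e2, if_neg e3, mul_one, mul_one]
  by_cases e2 : p = b
  · have e3 : p ≠ c := e2 ▸ h2.ne
    rw [if_pos (Or.inr (Or.inl e2)), if_neg e1, if_pos e2, if_neg e3, mul_one, one_mul]
  by_cases e3 : p = c
  · rw [if_pos (Or.inr (Or.inr e3)), if_neg e1, if_neg e2, if_pos e3, mul_one, one_mul]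
  · rw [if_neg (by tauto), if_neg e1, if_neg e2, if_neg e3, mul_one, mul_one]

end L1

open L1

theorem l0S (hT : TriS) (hN : NfS) (hR : RkS) : L0S := by
  rintro k _ σ P w w' I g z hP hI ⟨hg, hv⟩ ⟨hz, b, hb, hc, ho⟩
  refine ⟨⟨hz, fun τ hτ => ?_⟩, fun i c => ?_, fun e => ?_⟩
  · rw [← (hT.ov _ _ P _ _ _ z (ov hP σ) ho τ).2, (hT.low _ _ b g I hb.1 hI hv).1 τ hτ, P.fn_zero]
  · rw [← hR.ld _ w' z i c (ld hz), ← hR.ld _ w g i c (ld hg), ← hR.lo _ b g i c hb]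
    exact hR.red _ _ P _ z i c ho
  · subst e
    rw [hN.cf_uniq _ w' b g hb.1 hg.1 hc, Matrix.one_mul] at ho
    refine ⟨ho, fun x => ?_⟩
    rcases x with x | τ
    · exact ho x.1.1 x.1.2
    · exact hT.ov _ _ P _ _ g z (ov hP σ) ho τ.1

theorem l1S (h0 : L0S) (hT : TriS) (hN : NfS) (hR : RkS) (hB : BrS) (hV : CovS) (hC : ChartS)
    (_hL : LenS) : L1S := by
  intro k0 k _ _ _ σ P w w' I τ g z hσ hu hP hg hd
  obtain ⟨h1, h2, h3⟩ := h0 k σ P w w' I g z hP hu.low hg hd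
  refine ⟨h1, ?_⟩
  obtain ⟨c1, c2, -⟩ := hC.cnt k0 k w' I σ z hσ h1
  have hdim := hu.dim
  rcases hB w w' h2 with e | ⟨hl, h4⟩
  · exact Or.inl ⟨e, (h3 e).1⟩
  obtain ⟨p, q, hc, e⟩ := h4 (by omega)
  refine Or.inr ⟨p, q, hc, e, (c2 (by omega)).ne_zero (Sum.inr ⟨τ, hu.nm⟩), ?_⟩
  obtain ⟨hg, hv⟩ := hg
  obtain ⟨hz, b, hb, hcf, ho⟩ := hd
  have hpq : p ≠ q := hc.1.ne
  have hw : w ≠ w' := fun h => by rw [h] at hl; exact lt_irrefl _ hl
  subst e
  set h : M10 (LL k) := b * g with hh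
  set s : LL k := h p (w p) with hs
  have s1 : s ∈ P.V := (ho p (w p)).1
  have s2 : P.fn s = 0 := (ho p (w p)).2.trans (hz.2 p (w p) (by
    rw [sw, Equiv.Perm.mul_apply, Equiv.swap_apply_left]; exact hc.2.1))
  have u1 : NF (sw w p q) (xs p q (-s) * h) := hV.to_nf _ w p q h hc hcf fun i c => by
    rw [hh, hR.lo _ b g i c hb, hR.ld _ w g i c (ld hg)]
  have u2 : xs p q s * (xs p q (-s) * h) = h := by
    rw [← Matrix.mul_assoc, hV.inv _ p q s hpq, Matrix.one_mul]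
  have u3 : OvM P (xs p q (-s) * h) z := fun i c => by
    have a1 := ho i c
    have a2 := ho q c
    rw [xs_apply]
    split_ifs
    · have m1 := P.V.neg_mem _ s1
      have m2 := P.V.mul_mem _ _ m1 a2.1
      refine ⟨P.V.add_mem _ _ a1.1 m2, ?_⟩
      rw [P.fn_add a1.1 m2, P.fn_mul m1 a2.1, P.fn_neg s1, s2, neg_zero, zero_mul, add_zero]
      exact a1.2
    · rw [add_zero]; exact a1
  have s0 : s ≠ 0 := fun e => by
    have e1 : xs p q (-s) * h = h := by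
      ext i c
      rw [xs_apply, e, neg_zero, zero_mul, ite_self, add_zero]
    rw [e1] at u1
    exact hw (hN.uniq _ w _ b g hb hg u1).1
  obtain ⟨b', hb', n1, d1, d2, d3⟩ := hV.of_nf _ w p q s _ hc s0 u1
  rw [u2] at n1
  have e1 : b' * b = 1 := (hN.uniq _ w w (b' * b) g (hN.lo_mul _ _ _ hb' hb) hg
    (by rw [Matrix.mul_assoc]; exact n1)).2
  have e2 : g = b' * h := by rw [hh, ← Matrix.mul_assoc, e1, Matrix.one_mul]
  have v1 : Van (sL σ) h I := (hT.low _ _ b g I hb.1 hu.low hv).1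
  refine ⟨s, _, b', s0, s1, s2, u1, u3, hb', by rw [u2]; exact e2, by rw [u2]; exact v1, ?_⟩
  have f : ∀ i, b' i i * (if p = i then s else 1) = if q = i then -s else 1 := fun i => by
    by_cases a1 : p = i
    · rw [if_pos a1, if_neg (a1 ▸ hpq.symm), ← a1, d1]
    by_cases a2 : q = i
    · rw [if_neg a1, if_pos a2, ← a2, d2, mul_one]
    · rw [if_neg a1, if_neg a2, d3 i (Ne.symm a1) (Ne.symm a2), mul_one]
  have l1 : lam (sL σ) g τ = b' τ.1.1 τ.1.1 * b' τ.1.2.1 τ.1.2.1 * b' τ.1.2.2 τ.1.2.2 *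
      lam (sL σ) h τ := by
    rw [← (hT.low _ _ b' h I hb'.1 hu.low v1).2 τ hu.low', ← e2]
  rw [u2, l1, ite_in p, ite_in q, ← f, ← f, ← f]
  ring

end Pool.Agent.MP_59fd2e_ag.DV
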