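import Pool.Agent.MP_59fd2e_ag.dv.Spec

/-! PROJECT DV, row L2: the zero inside the cell is simple. -/

noncomputable section

namespace Pool.Agent.MP_59fd2e_ag.DV

open MvPolynomial Matrix Pool.Agent.MP_9207e0_ag.CC
open scoped Classical

namespace L2

theorem gen (k0 ι : Type) [Field k0] : AlgebraicIndependent k0
    (fun i : ι => algebraMap (MvPolynomial ι k0) (FractionRing (MvPolynomial ι k0)) (X i)) :=
  (MvPolynomial.algebraicIndependent_X ι k0).map'
    (f := IsScalarTower.toAlgHom k0 (MvPolynomial ι k0) (FractionRing (MvPolynomial ι k0)))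
    (IsFractionRing.injective _ _)

theorem ovr {k0 k : Type} [Field k0] [Field k] [Algebra k0 k] {P : Plc (LL k) k}
    (h : P.Over k) : P.Over k0 := fun c => by
  rw [IsScalarTower.algebraMap_apply k0 k (LL k)]
  exact h _

end L2

theorem l2S (hC : ChartS) (hX : ExtS) (hF : FinS) (hU : UnqS) (hN : NfS) (h0 : L0S) (hL : LenS)
    (hH : ChS) : L2S := by
  intro k0 k _ _ _ _ _ σ P w I τ hσ hc
  have hη := L2.gen k0 (Ix w I)
  generalize (fun i : Ix w I => algebraMap (MvPolynomial (Ix w I) k0)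
    (FractionRing (MvPolynomial (Ix w I) k0)) (X i)) = η at hη
  have hcard : Fintype.card (Ix w I) = Fintype.card T3 + 1 := by
    have h1 := hL.ix w I
    have h2 := hc.dim
    rw [hH.c120]
    omega
  have hrk : rk k0 (Set.range η) ≤ Fintype.card T3 + 1 :=
    (rk_range_le η).trans (by rw [hcard]; push_cast; exact le_rfl)
  have e0 : ∀ (R : Type) [CommRing R] (s : T3 → R) (g : M10 R),
      co w I s g (Sum.inr ⟨τ, hc.nm⟩) = lam s g τ := fun _ _ _ _ => rfl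
  refine ⟨?_, fun z hz hP => ?_⟩
  · have f := hF k0 k _ T3 (Ix w I) σ η (sI k0 w I) (X (Sum.inr ⟨τ, hc.nm⟩)) 1 hσ.1 hrk
    refine (f.image fun y => um w (y ∘ Sum.inl)).subset fun g hg =>
      ⟨co w I (sL σ) g, ⟨ASp.of_indep hη _, (hC.ps k0 _ w I _ g hg.1).2, ?_, ?_⟩,
        (hC.ps k0 _ w I _ g hg.1).1⟩
    · rw [aeval_X, map_one, mul_one, e0]
      exact hg.2
    · rw [map_one]
      exact one_ne_zero
  · have hz' : z ∈ PS σ w I := ⟨hz.1, fun τ' h => hz.2 τ' (Finset.mem_insert_of_mem h)⟩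
    have hz0 : co w I σ z (Sum.inr ⟨τ, hc.nm⟩) = 0 := hz.2 τ (Finset.mem_insert_self _ _)
    obtain ⟨z1, z2⟩ := hC.ps k0 k w I σ z hz'
    obtain ⟨y, -, -, h3, h4, h5⟩ := hX k0 k _ T3 (Ix w I) σ η (co w I σ z) (sI k0 w I)
      (X (Sum.inr ⟨τ, hc.nm⟩)) 1 P (tt k) hσ (ASp.of_indep hη _) hrk z2
      (by rw [aeval_X]; exact hz0) (by rw [aeval_X]; exact hη.ne_zero _)
      (by rw [map_one]; exact one_ne_zero) (Or.inl rfl) hP
    rw [aeval_X, map_one, mul_one] at h4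
    obtain ⟨g1, g2⟩ := hC.ps' k0 (LL k) w I (sL σ) y h3
    refine ⟨um w (y ∘ Sum.inl), ⟨⟨g1, ?_⟩, hz.1, 1, hN.lo_one _, ?_, ?_⟩, fun g hg => ?_⟩
    · rw [← e0, g2, h4]
    · rw [one_mul]
      exact (hC.nf _ w _).1
    · rw [one_mul, ← z1]
      exact hC.um_ov _ _ P w _ _ fun x => h5 (Sum.inl x)
    · obtain ⟨c1, c2⟩ := hC.ps k0 _ w I _ g hg.1.1
      have c3 := ((h0 k σ P w w I g z hP.1 hc.low hg.1.1 hg.2).2.2 rfl).2
      have c4 := hU k0 k (LL k) T3 (Ix w I) σ (co w I σ z) (sI k0 w I) 1 1 (Sum.inr ⟨τ, hc.nm⟩) P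
        (tt k) (co w I (sL σ) g) y hσ.1 hcard (L2.ovr hP.1) z2 hz0
        (by rw [map_one]; exact one_ne_zero) hP.2.1 hP.2.2 c3 h5
        (fun j => (c2 j).trans (h3 j).symm)
        (by rw [map_one, e0, hg.1.2]) (by rw [map_one, h4])
      rw [← c4, c1]

end Pool.Agent.MP_59fd2e_ag.DV
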