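import Pool.Agent.MP_59fd2e_ag.dv.Spec

/-! PROJECT DV, row L3: zeros and poles at the boundary are simple. -/

noncomputable section

namespace Pool.Agent.MP_59fd2e_ag.DV

open MvPolynomial Matrix Pool.Agent.MP_9207e0_ag.CC
open scoped Classical

namespace L3

/-- The coordinates in the chart at a boundary divisor. -/
def yy {R : Type} [CommRing R] (w : S10) (p q : Fin 10) (I : Finset T3) (σ : T3 → R) (s : R)
    (u : M10 R) : Option (Ix w I) → R
  | none => s
  | some (Sum.inl x) => u x.1.1 x.1.2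
  | some (Sum.inr τ) => lam σ (xs p q s * u) τ.1

theorem xs_zero {R : Type} [CommRing R] (p q : Fin 10) : xs p q (0 : R) = 1 := by simp [xs]

theorem ev (hC : ChartS) (k0 : Type) {R : Type} [Field k0] [CommRing R] [Algebra k0 R] {w : S10}
    {p q : Fin 10} {I : Finset T3} {σ : T3 → R} {s : R} {u : M10 R} (h : p < q) (hu : NF w u)
    (hv : Van σ (xs p q s * u) I) (τ : T3) : aeval (yy w p q I σ s u) (sB k0 w p q I τ) = σ τ := by
  refine (hC.evB k0 R w p q I σ _ h).2 ?_ τ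
  have e : um w (yy w p q I σ s u ∘ some ∘ Sum.inl) = u := hC.um_co R w u hu
  rw [e]
  exact (hC.lm_co R I _ hv).symm

section
variable {K L : Type} [Field K] [Field L] {P : Plc K L}

theorem ov_mul {a b : M10 K} {a' b' : M10 L} (ha : OvM P a a') (hb : OvM P b b') :
    OvM P (a * b) (a' * b') := fun i j => by
  have m : ∀ l ∈ Finset.univ, a i l * b l j ∈ P.V := fun l _ => P.V.mul_mem _ _ (ha i l).1 (hb l j).1
  rw [mul_apply, mul_apply, P.fn_sum m]
  exact ⟨sum_mem m, Finset.sum_congr rfl fun l _ => by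
    rw [P.fn_mul (ha i l).1 (hb l j).1, (ha i l).2, (hb l j).2]⟩

theorem ov_xs (p q : Fin 10) {s : K} (h : s ∈ P.V) (h0 : P.fn s = 0) :
    OvM P (xs p q s) (xs p q 0) := fun i j => by
  have a : (1 : M10 K) i j ∈ P.V ∧ P.fn ((1 : M10 K) i j) = (1 : M10 L) i j := by
    rw [one_apply, one_apply]
    split_ifs
    · exact ⟨P.V.one_mem, P.fn_one⟩
    · exact ⟨P.V.zero_mem, P.fn_zero⟩
  have b : single p q s i j ∈ P.V ∧ P.fn (single p q s i j) = 0 := by
    rw [single_apply]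
    split_ifs
    · exact ⟨h, h0⟩
    · exact ⟨P.V.zero_mem, P.fn_zero⟩
  rw [xs_zero]
  refine ⟨P.V.add_mem _ _ a.1 b.1, ?_⟩
  show P.fn ((1 : M10 K) i j + single p q s i j) = _
  rw [P.fn_add a.1 b.1, a.2, b.2, add_zero]

theorem ov_yy (hT : TriS) {w : S10} {p q : Fin 10} {I : Finset T3} {σ : T3 → K} {σ' : T3 → L}
    {s : K} {u : M10 K} {z : M10 L} (hσ : Ov P σ σ') (h : s ∈ P.V) (h0 : P.fn s = 0)
    (hu : OvM P u z) : Ov P (yy w p q I σ s u) (yy w p q I σ' 0 z)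
  | none => ⟨h, h0⟩
  | some (Sum.inl x) => hu x.1.1 x.1.2
  | some (Sum.inr τ) => hT.ov K L P σ σ' _ _ hσ (ov_mul (ov_xs p q h h0) hu) τ.1

theorem dg (d : Fin 10 → K) (τ : T3) {r : Fin 10} (hr : In r τ)
    (h : ∀ i, In i τ → i ≠ r → d i = 1) : d τ.1.1 * d τ.1.2.1 * d τ.1.2.2 = d r := by
  obtain ⟨a, b⟩ := τ.2
  have c := a.trans b
  have h1 := h _ (Or.inl rfl)
  have h2 := h _ (Or.inr (Or.inl rfl))
  have h3 := h _ (Or.inr (Or.inr rfl))
  rcases hr with e | e | e <;> rw [e] at h1 h2 h3 ⊢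
  · rw [h2 a.ne', h3 c.ne', mul_one, mul_one]
  · rw [h1 a.ne, h3 b.ne', mul_one, one_mul]
  · rw [h1 c.ne, h2 b.ne, one_mul, one_mul]

end

theorem gen (k0 ι : Type) [Field k0] (f : MvPolynomial ι k0) :
    aeval (fun i => algebraMap (MvPolynomial ι k0) (FractionRing (MvPolynomial ι k0)) (X i)) f =
      algebraMap (MvPolynomial ι k0) (FractionRing (MvPolynomial ι k0)) f :=
  (aeval_algebraMap_apply _ X f).trans (by rw [aeval_X_left_apply])

end L3

open L3 in
theorem l3S (hC : ChartS) (hX : ExtS) (hU : UnqS) (hV : CovS) (hT : TriS) (hN : NfS) (h1 : L1S)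
    (hL : LenS) (hH : ChS) : L3S := by
  intro k0 k _ _ _ _ _ σ P w I τ p q z hσ hc hv hz hcase
  have pq : p < q := hv.1
  have l1 := hL.cov w p q hv
  have dim := hc.dim
  have card : Fintype.card (Option (Ix (sw w p q) I)) = Fintype.card T3 + 1 := by
    have := hL.ix (sw w p q) I
    rw [Fintype.card_option, hH.c120]
    omega
  have lz : lam σ z τ ≠ 0 := fun e =>
    ((hC.cnt k0 k _ I σ z hσ.1 hz).2.1 (by omega)).transcendental (Sum.inr ⟨τ, hc.nm⟩)
      (by rw [show co _ I σ z (Sum.inr ⟨τ, hc.nm⟩) = 0 from e]; exact isAlgebraic_zero)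
  have t0 : tt k ≠ 0 := fun e => tt_transcendental (K := k) (e ▸ isAlgebraic_zero)
  set j : Option (Ix (sw w p q) I) := some (Sum.inr ⟨τ, hc.nm⟩) with hj
  set z' := yy (sw w p q) p q I σ 0 z with hz'
  have zj : z' j ≠ 0 := by
    show lam σ (xs p q 0 * z) τ ≠ 0
    rwa [xs_zero, one_mul]
  have ez : ∀ τ', aeval z' (sB k0 (sw w p q) p q I τ') = σ τ' :=
    ev hC k0 pq hz.1 (by rw [xs_zero, one_mul]; exact hz.2)
  obtain ⟨a, b, u, hu, hP, za, zb, key, dia⟩ : ∃ (a b : MvPolynomial (Option (Ix (sw w p q) I)) k0)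
      (u : LL k), (u = tt k ∨ u = (tt k)⁻¹) ∧ Zr P u ∧ aeval z' a ≠ 0 ∧ aeval z' b ≠ 0 ∧
      (∀ (y : Option (Ix (sw w p q) I) → LL k) (l : LL k), y none ≠ 0 →
        l * (if In p τ then y none else 1) = (if In q τ then -y none else 1) * y j →
        (l = tt k ↔ y none * aeval y a = u * aeval y b)) ∧
      ∀ (d : Fin 10 → LL k) (s : LL k), d p * s = 1 → d q = -s → (∀ i, i ≠ p → i ≠ q → d i = 1) →
        d τ.1.1 * d τ.1.2.1 * d τ.1.2.2 * (if In p τ then s else 1) =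
          if In q τ then -s else 1 := by
    rcases hcase with ⟨i1, i2, hP⟩ | ⟨i1, i2, hP⟩
    · refine ⟨-X j, 1, tt k, Or.inl rfl, hP, by simpa using zj, by simp, fun y l _ e => ?_,
        fun d s _ d2 d3 => ?_⟩
      · rw [if_neg i2, if_pos i1, mul_one] at e
        rw [e, map_neg, aeval_X, map_one, mul_one, neg_mul, mul_neg]
      · rw [if_neg i2, if_pos i1, mul_one, dg d τ i1 fun i hi => d3 i fun e => i2 (e ▸ hi), d2]
    · refine ⟨1, X j, (tt k)⁻¹, Or.inr rfl, hP, by simp, by simpa using zj, fun y l y0 e => ?_,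
        fun d s d1 _ d3 => ?_⟩
      · rw [if_neg i2, if_pos i1, one_mul] at e
        rw [aeval_X, map_one, mul_one, ← e, eq_inv_mul_iff_mul_eq₀ t0, mul_left_inj' y0, eq_comm]
      · rw [if_neg i2, if_pos i1, dg d τ i1 fun i hi h => d3 i h fun e => i2 (e ▸ hi), d1]
  have P0 : P.Over k0 := hP.1.tower
  have oσ : Ov P (sL σ) σ := fun i => hP.1 (σ i)
  have u0 : u ≠ 0 := by
    rcases hu with e | e <;> rw [e]
    exacts [t0, inv_ne_zero t0]
  refine existsUnique_of_exists_of_unique ?_ ?_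
  · have inj := IsFractionRing.injective (MvPolynomial (Option (Ix (sw w p q) I)) k0)
      (FractionRing (MvPolynomial (Option (Ix (sw w p q) I)) k0))
    obtain ⟨y, -, -, ys, ya, yo⟩ := hX k0 k _ T3 _ σ
      (fun i => algebraMap _ (FractionRing (MvPolynomial (Option (Ix (sw w p q) I)) k0)) (X i))
      z' (sB k0 (sw w p q) p q I) (X none * a) b P u hσ
      (fun f hf => by rw [gen, map_eq_zero_iff _ inj] at hf; rw [hf, map_zero])
      ((rk_range_le _).trans (by rw [card]; simp)) ez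
      (by rw [map_mul, aeval_X]; exact zero_mul _)
      (by
        rw [gen, Ne, map_eq_zero_iff _ inj]
        exact mul_ne_zero (X_ne_zero _) fun e => za (by rw [e, map_zero])) zb hu hP
    rw [map_mul, aeval_X] at ya
    have yb : aeval y b ≠ 0 := P.ne_zero_of_ne (by
      rw [(P.aeval_fn P0 (fun i => (yo i).1) b).2, funext fun i => (yo i).2]
      exact zb)
    have y0 : y none ≠ 0 := fun e => mul_ne_zero u0 yb (by rw [← ya, e, zero_mul])
    have nf := hC.nf _ (sw w p q) (y ∘ some ∘ Sum.inl)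
    have el := (hC.evB k0 _ _ p q I _ y pq).1 ys
    obtain ⟨c, c1, c2, c3, c4, c5⟩ := hV.of_nf _ w p q _ _ hv y0 nf
    obtain ⟨c', d1, d2, -⟩ := hN.lo_inv _ c c1
    obtain ⟨v1, v2⟩ := hT.low _ (sL σ) c _ I c1.1 hc.low fun τ' h => by rw [el]; exact dif_pos h
    refine ⟨_, ⟨⟨c2, v1⟩, (key y _ y0 ?_).2 ya⟩, hz.1, c', d1, ?_⟩
    · rw [v2 τ hc.low', mul_right_comm, dia (fun i => c i i) _ c3 c4 c5, el]
      exact congrArg _ (dif_neg hc.nm)
    · rw [← mul_assoc, d2, one_mul]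
      refine ⟨hV.cf _ _ p q _ _ pq nf.1, ?_⟩
      have := ov_mul (ov_xs p q (yo none).1 (yo none).2)
        (hC.um_ov _ _ P (sw w p q) (y ∘ some ∘ Sum.inl) (fun x => z x.1.1 x.1.2) fun x => yo _)
      rwa [xs_zero, one_mul, hC.um_co _ _ z hz.1] at this
  · have red : ∀ g, g ∈ TT σ w I τ ∧ RD P g (sw w p q) z → Bd σ P w I τ g p q z := by
      rintro g ⟨g1, g2⟩
      rcases (h1 k0 k σ P w _ I τ g z hσ.1 hc hP.1 g1.1 g2).2 with ⟨e, -⟩ | ⟨p', q', a1, a2, -, a3⟩
      · rw [e] at l1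
        omega
      · obtain ⟨rfl, rfl⟩ := hL.inj w p q p' q' pq a1.1 a2
        exact a3
    intro g g' hg hg'
    obtain ⟨s, v, c, s0, s1, s2, n1, o1, c1, e1, v1, f1⟩ := red g hg
    obtain ⟨s', v', c', s0', s1', s2', n1', o1', c1', e1', v1', f1'⟩ := red g' hg'
    have e := hU k0 k (LL k) T3 _ σ z' (sB k0 (sw w p q) p q I) a b none P u
      (yy _ p q I (sL σ) s v) (yy _ p q I (sL σ) s' v') hσ.1 card P0 ez rfl za hP.2.1 hP.2.2
      (ov_yy hT oσ s1 s2 o1) (ov_yy hT oσ s1' s2' o1')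
      (fun τ' => (ev hC k0 pq n1 v1 τ').trans (ev hC k0 pq n1' v1' τ').symm)
      ((key _ _ s0 f1).1 hg.1.2) ((key _ _ s0' f1').1 hg'.1.2)
    obtain rfl : s = s' := congrFun e none
    obtain rfl : v = v' := by
      rw [← hC.um_co _ _ v n1, ← hC.um_co _ _ v' n1']
      exact congrArg _ (funext fun x => congrFun e (some (Sum.inl x)))
    obtain ⟨d, d1, d2, -⟩ := hN.lo_inv _ c c1
    have e2 : c' * d * g = g' := by rw [e1, e1', mul_assoc, ← mul_assoc d, d2, one_mul]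
    have e3 := (hN.uniq _ w w _ g (hN.lo_mul _ _ _ c1' d1) hg.1.1.1 (e2 ▸ hg'.1.1.1)).2
    rw [← e2, e3, one_mul]

end Pool.Agent.MP_59fd2e_ag.DV
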