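import Pool.Agent.MP_59fd2e_ag.dv.Spec

/-! Row LEN: lengths and rank functions of permutations. -/

namespace Pool.Agent.MP_59fd2e_ag.DV

open Finset

namespace Len

theorem cov (w : S10) (p q : Fin 10) (h : Cov w p q) : len (sw w p q) = len w + 1 := by
  obtain ⟨h1, h2, h3⟩ := h
  have split : ∀ v : S10, len v =
      #(univ.filter fun x : Fin 10 × Fin 10 => (x.1 < x.2 ∧ v x.2 < v x.1) ∧
        Equiv.swap p q x.1 < Equiv.swap p q x.2) +
      #(univ.filter fun x : Fin 10 × Fin 10 => (x.1 < x.2 ∧ v x.2 < v x.1) ∧
        ¬ Equiv.swap p q x.1 < Equiv.swap p q x.2) := by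
    intro v
    have := card_filter_add_card_filter_not
      (s := univ.filter fun x : Fin 10 × Fin 10 => x.1 < x.2 ∧ v x.2 < v x.1)
      (fun x => Equiv.swap p q x.1 < Equiv.swap p q x.2)
    rw [filter_filter, filter_filter] at this
    exact this.symm
  have e1 : #(univ.filter fun x : Fin 10 × Fin 10 => (x.1 < x.2 ∧ sw w p q x.2 < sw w p q x.1) ∧
        Equiv.swap p q x.1 < Equiv.swap p q x.2) =
      #(univ.filter fun x : Fin 10 × Fin 10 => (x.1 < x.2 ∧ w x.2 < w x.1) ∧
        Equiv.swap p q x.1 < Equiv.swap p q x.2) := by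
    refine card_nbij' (fun x => (Equiv.swap p q x.1, Equiv.swap p q x.2))
      (fun x => (Equiv.swap p q x.1, Equiv.swap p q x.2)) ?_ ?_ ?_ ?_
    · intro x hx
      simp only [coe_filter, mem_univ, true_and, Set.mem_ofPred_eq, sw, Equiv.Perm.mul_apply,
        Equiv.swap_apply_self] at hx ⊢
      exact ⟨⟨hx.2, hx.1.2⟩, hx.1.1⟩
    · intro x hx
      simp only [coe_filter, mem_univ, true_and, Set.mem_ofPred_eq, sw, Equiv.Perm.mul_apply,
        Equiv.swap_apply_self] at hx ⊢
      exact ⟨⟨hx.2, hx.1.2⟩, hx.1.1⟩
    · intro x _; simp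
    · intro x _; simp
  have e2 : (univ.filter fun x : Fin 10 × Fin 10 => (x.1 < x.2 ∧ sw w p q x.2 < sw w p q x.1) ∧
        ¬ Equiv.swap p q x.1 < Equiv.swap p q x.2) =
      insert (p, q) (univ.filter fun x : Fin 10 × Fin 10 => (x.1 < x.2 ∧ w x.2 < w x.1) ∧
        ¬ Equiv.swap p q x.1 < Equiv.swap p q x.2) := by
    ext ⟨i, j⟩
    simp only [mem_filter, mem_univ, true_and, mem_insert, Prod.mk.injEq, sw,
      Equiv.Perm.mul_apply]
    have a1 := h3 i
    have a2 := h3 j
    have b1 : w i = w p → i = p := fun e => w.injective e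
    have b2 : w i = w q → i = q := fun e => w.injective e
    have b3 : w j = w p → j = p := fun e => w.injective e
    have b4 : w j = w q → j = q := fun e => w.injective e
    by_cases i1 : i = p
    · subst i1
      by_cases j1 : j = q
      · subst j1
        simp [h1, h2, h1.le]
      · by_cases j2 : j = i
        · subst j2; simp [j1]
        · rw [Equiv.swap_apply_left, Equiv.swap_apply_of_ne_of_ne j2 j1]
          omega
    · by_cases i2 : i = q
      · subst i2
        by_cases j1 : j = p
        · subst j1
          rw [Equiv.swap_apply_left, Equiv.swap_apply_right]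
          omega
        · by_cases j2 : j = i
          · subst j2; simp [j1]
          · rw [Equiv.swap_apply_right, Equiv.swap_apply_of_ne_of_ne j1 j2]
            omega
      · rw [Equiv.swap_apply_of_ne_of_ne i1 i2]
        by_cases j1 : j = p
        · subst j1
          rw [Equiv.swap_apply_left]
          omega
        · by_cases j2 : j = q
          · subst j2
            rw [Equiv.swap_apply_right]
            omega
          · rw [Equiv.swap_apply_of_ne_of_ne j1 j2]
            omega
  rw [split (sw w p q), split w, e1, e2, card_insert_of_notMem, add_assoc]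
  simp only [mem_filter, mem_univ, true_and]
  omega

theorem inj (w : S10) (p q p' q' : Fin 10) (h : p < q) (h' : p' < q')
    (e : sw w p q = sw w p' q') : p = p' ∧ q = q' := by
  have e1 : Equiv.swap p q = Equiv.swap p' q' := mul_left_cancel e
  have a : q = Equiv.swap p' q' p := by rw [← e1, Equiv.swap_apply_left]
  have b : p = Equiv.swap p' q' q := by rw [← e1, Equiv.swap_apply_right]
  rw [Equiv.swap_apply_def] at a b
  split_ifs at a b <;> omega

theorem fr (w : S10) : Fintype.card (Fr w) + len w = 45 := by
  have e1 : Fintype.card (Fr w) =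
      #((univ.filter fun x : Fin 10 × Fin 10 => x.1 < x.2).filter fun x => ¬ w x.2 < w x.1) := by
    rw [Fintype.card_subtype]
    refine card_nbij' (fun x => (x.1, w.symm x.2)) (fun x => (x.1, w x.2)) ?_ ?_ ?_ ?_
    · intro x hx
      simp only [coe_filter, mem_filter, mem_univ, true_and, Set.mem_ofPred_eq,
        Equiv.apply_symm_apply] at hx ⊢
      exact ⟨hx.2, not_lt.2 hx.1.le⟩
    · intro x hx
      simp only [coe_filter, mem_filter, mem_univ, true_and, Set.mem_ofPred_eq,
        Equiv.symm_apply_apply] at hx ⊢
      exact ⟨lt_of_le_of_ne (not_lt.1 hx.2) fun e => hx.1.ne (w.injective e), hx.1⟩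
    · intro x _; simp
    · intro x _; simp
  have e2 : len w =
      #((univ.filter fun x : Fin 10 × Fin 10 => x.1 < x.2).filter fun x => w x.2 < w x.1) := by
    rw [filter_filter]
    rfl
  rw [e1, e2, add_comm, card_filter_add_card_filter_not]
  decide +kernel

theorem c120 : Fintype.card T3 = 120 := by decide +kernel

theorem ix (w : S10) (I : Finset T3) : Fintype.card (Ix w I) + len w + I.card = 165 := by
  have a := fr w
  have b : Fintype.card {τ : T3 // τ ∉ I} + I.card = 120 := by
    have := card_filter_add_card_filter_not (s := (univ : Finset T3)) (fun τ => τ ∈ I)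
    rw [card_univ, c120, filter_mem_eq_inter, univ_inter, add_comm] at this
    rw [Fintype.card_subtype]
    exact this
  rw [Fintype.card_sum]
  omega

theorem rk_step (w : S10) (i c : Fin 10) : rkP w i c =
    #(univ.filter fun j => j < i ∧ w j ≤ c) + if w i ≤ c then 1 else 0 := by
  unfold rkP
  split_ifs with h
  · rw [← card_insert_of_notMem (a := i) (by simp)]
    refine congrArg card ?_
    ext j
    simp only [mem_filter, mem_univ, true_and, mem_insert]
    constructor
    · rintro ⟨a, b⟩
      rcases a.eq_or_lt with a | a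
      · exact Or.inl a
      · exact Or.inr ⟨a, b⟩
    · rintro (rfl | ⟨a, b⟩)
      · exact ⟨le_rfl, h⟩
      · exact ⟨a.le, b⟩
  · rw [add_zero]
    refine congrArg card ?_
    ext j
    simp only [mem_filter, mem_univ, true_and]
    constructor
    · rintro ⟨a, b⟩
      exact ⟨lt_of_le_of_ne a fun e => h (e ▸ b), b⟩
    · rintro ⟨a, b⟩
      exact ⟨a.le, b⟩

theorem rk_inj (w w' : S10) (h : ∀ i c, rkP w i c = rkP w' i c) : w = w' := by
  have key : ∀ n : ℕ, ∀ i : Fin 10, i.val = n → w i = w' i := by
    intro n
    induction n using Nat.strong_induction_on with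
    | _ n ih =>
      intro i hi
      have e : ∀ c, (if w i ≤ c then 1 else 0 : ℕ) = if w' i ≤ c then 1 else 0 := by
        intro c
        have a := h i c
        rw [rk_step, rk_step] at a
        have b : (univ.filter fun j => j < i ∧ w j ≤ c) = univ.filter fun j => j < i ∧ w' j ≤ c := by
          refine filter_congr fun j _ => and_congr_right fun hj => ?_
          rw [ih j.val (hi ▸ hj) j rfl]
        rw [b] at a
        exact add_left_cancel a
      have a := e (w i)
      have b := e (w' i)
      rw [if_pos le_rfl] at a b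
      split_ifs at a b with a1 b1
      exact le_antisymm b1 a1
  exact Equiv.ext fun i => key _ i rfl

theorem rk_sw (w : S10) (p q i c : Fin 10) (h1 : p < q) (h2 : w p < w q)
    (h : ¬(p ≤ i ∧ i < q ∧ w p ≤ c ∧ c < w q)) : rkP (sw w p q) i c = rkP w i c := by
  unfold rkP
  by_cases hi : p ≤ i ∧ i < q
  · refine congrArg card (filter_congr fun j _ => and_congr_right fun _ => ?_)
    simp only [sw, Equiv.Perm.mul_apply, Equiv.swap_apply_def]
    split_ifs with a b
    · subst a; omega
    · subst b; omega
    · rfl
  · have k : ∀ j, j ≤ i → Equiv.swap p q j ≤ i := by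
      intro j hj
      rw [Equiv.swap_apply_def]
      split_ifs <;> omega
    refine card_nbij' (Equiv.swap p q) (Equiv.swap p q) ?_ ?_ ?_ ?_
    · intro j hj
      simp only [coe_filter, mem_univ, true_and, Set.mem_ofPred_eq, sw, Equiv.Perm.mul_apply] at hj ⊢
      exact ⟨k j hj.1, hj.2⟩
    · intro j hj
      simp only [coe_filter, mem_univ, true_and, Set.mem_ofPred_eq, sw, Equiv.Perm.mul_apply,
        Equiv.swap_apply_self] at hj ⊢
      exact ⟨k j hj.1, hj.2⟩
    · intro x _; simp
    · intro x _; simp

end Len

theorem lenS : LenS := ⟨Len.cov, Len.inj, Len.fr, Len.ix, Len.rk_inj, Len.rk_sw⟩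

end Pool.Agent.MP_59fd2e_ag.DV
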