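import Pool.Agent.MP_59fd2e_ag.dv.Spec

/-! PROJECT DV: the computation with the rule of Monk, by reflection on decimal codes. -/

noncomputable section

namespace Pool.Agent.MP_59fd2e_ag.DV

namespace Monk

/-- Search trees of codes with coefficients. -/
inductive Tr
  | nil : Tr
  | node (l : Tr) (k : ℕ) (c : ℤ) (r : Tr) : Tr

abbrev B : Type := List (ℕ × ℤ)

abbrev En : Type := ℕ × ℕ × Bool × List ℕ

def fN (n : ℕ) (f : ℕ → B) : B := Nat.casesOn n (f 0) fun m => f (Nat.succ m)

def fI (c : ℤ) (f : ℤ → B) : B :=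
  Int.casesOn c (fun a => fN a fun a => f (Int.ofNat a)) fun a => fN a fun a => f (Int.negSucc a)

def fL (l : List ℕ) : (List ℕ → B) → B :=
  List.rec (fun κ => κ []) (fun a _ ih κ => fN a fun a => ih fun t => κ (a :: t)) l

def fE (l : List En) : (List En → B) → B :=
  List.rec (fun κ => κ []) (fun e _ ih κ => fN e.1 fun a => fN e.2.1 fun b => fL e.2.2.2 fun r =>
    bif e.2.2.1 then ih fun t => κ ((a, b, true, r) :: t) else ih fun t => κ ((a, b, false, r) :: t)) l

def ins (k : ℕ) (c : ℤ) (t : Tr) : (Tr → B) → B :=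
  Tr.rec (fun κ => κ (.node .nil k c .nil)) (fun l k' c' r il ir κ =>
    bif Nat.blt k k' then il fun l' => κ (.node l' k' c' r) else
    bif Nat.blt k' k then ir fun r' => κ (.node l k' c' r') else
      fI (Int.add c' c) fun s => κ (.node l k' s r)) t

def dg (k P : ℕ) : ℕ := Nat.mod (Nat.div k P) 10

def btw (k a b : ℕ) (l : List ℕ) : Bool :=
  List.rec true (fun R _ ih => bif Nat.blt a (dg k R) && Nat.blt (dg k R) b then false else ih) l

def s6 (k : ℕ) : ℕ := Nat.add (Nat.add (Nat.add (Nat.add (Nat.add (dg k 1) (dg k 10)) (dg k 100))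
  (dg k 1000)) (dg k 10000)) (dg k 100000)

def ex (k : ℕ) (c d : ℤ) (l : List En) : Tr → (Tr → B) → B :=
  List.rec (fun t κ => κ t) (fun e _ ih t κ => fN (dg k e.1) fun a => fN (dg k e.2.1) fun b =>
    bif Nat.blt a b && btw k a b e.2.2.2 then
      fN (Nat.sub (Nat.add k (Nat.mul (Nat.sub b a) e.1)) (Nat.mul (Nat.sub b a) e.2.1)) fun k' =>
        bif Nat.blt 19 (s6 k') then ih t κ else
          ins k' (bif e.2.2.1 then c else d) t fun t' => ih t' κ
    else ih t κ) l

def walk (ps : List En) (t : Tr) : Tr → (Tr → B) → B :=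
  Tr.rec (fun a κ => κ a) (fun _ k c _ il ir a κ => fI c fun c =>
    bif Nat.beq c.natAbs 0 then il a fun a => ir a κ else
      fI (Int.neg c) fun d => ex k c d ps a fun a => il a fun a => ir a κ) t

def inT (n : ℕ) (p : Fin 10) : Bool :=
  p.val == 0 || p.val == (if n < 5 then n + 1 else n - 4) || p.val == (if n < 5 then 6 else 7)

def LF (n : ℕ) : List (Fin 10 × Fin 10) :=
  (List.finRange 10 ×ˢ List.finRange 10).filter fun x => x.1 < x.2 && inT n x.1 != inT n x.2

def toE (n : ℕ) (x : Fin 10 × Fin 10) : En := (10 ^ x.1.val, 10 ^ x.2.val, inT n x.1,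
  ((List.finRange 10).filter fun r => x.1 < r && r < x.2).map fun r => 10 ^ r.val)

def flat (t : Tr) : B → B :=
  Tr.rec (fun a => a) (fun _ k c _ il ir a => il ((k, c) :: ir a)) t

def run (n : ℕ) : Tr → B :=
  Nat.rec (fun t => flat t []) (fun n ih t => fE ((LF n).map (toE n)) fun ps => walk ps t .nil ih) n

theorem r1 : run 11 (.node .nil 8967013452 1 .nil) = [(2789013456, 0), (3689012457, 9),
    (4589012367, -9), (4679012358, -9), (5678012349, 45)] := by decide +kernel

theorem r2 : run 11 (.node .nil 7869123450 1 .nil) = [(2789013456, 8), (3689012457, 3),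
    (4589012367, -5), (4679012358, -10), (5678012349, 50)] := by decide +kernel

theorem r3 : run 11 (.node .nil 8957023461 1 .nil) = [(2789013456, 24), (3689012457, 0),
    (4589012367, -24), (4679012358, 6), (5678012349, 30)] := by decide +kernel

theorem r4 : run 11 (.node .nil 7968023451 1 .nil) = [(2789013456, 15), (3689012457, 8),
    (4589012367, -22), (4679012358, -7), (5678012349, 80)] := by decide +kernel

theorem fN_eq (n : ℕ) (f : ℕ → B) : fN n f = f n := by cases n <;> rfl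

theorem fI_eq (c : ℤ) (f : ℤ → B) : fI c f = f c := by
  cases c with
  | ofNat a => exact fN_eq a fun a => f (Int.ofNat a)
  | negSucc a => exact fN_eq a fun a => f (Int.negSucc a)

theorem fL_eq (l : List ℕ) : ∀ κ, fL l κ = κ l := by
  induction l with
  | nil => exact fun _ => rfl
  | cons a l ih =>
    exact fun κ => (fN_eq a fun a => fL l fun t => κ (a :: t)).trans (ih fun t => κ (a :: t))

theorem fE_eq (l : List En) : ∀ κ, fE l κ = κ l := by
  induction l with
  | nil => exact fun _ => rfl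
  | cons e l ih =>
    obtain ⟨a, b, s, r⟩ := e
    intro κ
    have e : fE ((a, b, s, r) :: l) κ = fN a fun a => fN b fun b => fL r fun r =>
      bif s then fE l fun t => κ ((a, b, true, r) :: t) else
        fE l fun t => κ ((a, b, false, r) :: t) := rfl
    rw [e, fN_eq, fN_eq, fL_eq, ih, ih]
    cases s <;> rfl

/-- The decimal code of a permutation. -/
def enc (w : S10) : ℕ := ∑ i : Fin 10, (w i).val * 10 ^ i.val

theorem dg_enc (w : S10) (i : Fin 10) : dg (enc w) (10 ^ i.val) = (w i).val := by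
  have h := finFunctionFinEquiv_symm_apply_val (finFunctionFinEquiv (w : Fin 10 → Fin 10)) i
  rw [Equiv.symm_apply_apply, finFunctionFinEquiv_apply_val] at h
  exact h.symm

theorem enc_inj : Function.Injective enc := fun w w' h =>
  Equiv.ext fun i => Fin.ext (by rw [← dg_enc, h, dg_enc])

theorem enc_sw (w : S10) {p q : Fin 10} (h : p ≠ q) (k : w p < w q) :
    enc w + ((w q).val - (w p).val) * 10 ^ p.val - ((w q).val - (w p).val) * 10 ^ q.val =
      enc (sw w p q) := by
  have hq : q ∈ Finset.univ.erase p := by simp [h.symm]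
  obtain ⟨e, he⟩ := Nat.exists_eq_add_of_le (Fin.le_def.1 k.le)
  unfold enc sw
  rw [← Finset.add_sum_erase _ _ (Finset.mem_univ p), ← Finset.add_sum_erase _ _ hq,
    ← Finset.add_sum_erase _ _ (Finset.mem_univ p), ← Finset.add_sum_erase _ _ hq,
    Finset.sum_congr rfl (g := fun i => (w i).val * 10 ^ i.val) (f := fun i : Fin 10 =>
      ((w * Equiv.swap p q) i).val * 10 ^ i.val) fun i hi => by
      simp only [Finset.mem_erase] at hi
      rw [Equiv.Perm.mul_apply, Equiv.swap_apply_of_ne_of_ne hi.2.1 hi.1]]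
  simp only [Equiv.Perm.mul_apply, Equiv.swap_apply_left, Equiv.swap_apply_right, he,
    Nat.add_sub_cancel_left]
  refine Nat.sub_eq_of_eq_add ?_
  ring

theorem s6_le (w : S10) : s6 (enc w) ≤ gco w + 15 := by
  obtain ⟨e, he⟩ : ∃ e : Fin 10 → Fin 10 → ℕ, ∀ i j, e i j = if w j < w i then 1 else 0 :=
    ⟨_, fun _ _ => rfl⟩
  have h1 : ∀ i, dg (enc w) (10 ^ i.val) = ∑ j, e i j := fun i => by
    rw [dg_enc, ← Fin.card_Iio]
    simp only [he, ← Finset.card_filter]
    exact (Finset.card_equiv w fun j => by simp).symm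
  have h2 : ∀ i j, e i j + e j i ≤ 1 := fun i j => by
    rw [he, he]; split_ifs with a b
    · exact absurd a b.asymm
    all_goals omega
  have h3 : ∀ i, e i i = 0 := fun i => by simp [he]
  have hg : gco w = ∑ i : Fin 10, ∑ j : Fin 10, if i.val < 6 ∧ 6 ≤ j.val then e i j else 0 := by
    rw [gco, Finset.card_filter, Fintype.sum_prod_type]
    refine Finset.sum_congr rfl fun i _ => Finset.sum_congr rfl fun j _ => ?_
    simp only [he, ← ite_and, and_assoc]
  have a0 := h1 0; have a1 := h1 1; have a2 := h1 2; have a3 := h1 3; have a4 := h1 4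
  have a5 := h1 5
  have := h2 0 1; have := h2 0 2; have := h2 0 3; have := h2 0 4; have := h2 0 5
  have := h2 1 2; have := h2 1 3; have := h2 1 4; have := h2 1 5; have := h2 2 3
  have := h2 2 4; have := h2 2 5; have := h2 3 4; have := h2 3 5; have := h2 4 5
  simp [Fin.sum_univ_succ, h3] at a0 a1 a2 a3 a4 a5 hg
  simp only [s6, Nat.add_eq]
  omega

theorem btw_iff (k a b : ℕ) (l : List ℕ) :
    btw k a b l = true ↔ ∀ R ∈ l, ¬ (a < dg k R ∧ dg k R < b) := by
  induction l with
  | nil => simp [btw]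
  | cons R l ih =>
    have : btw k a b (R :: l) =
      bif Nat.blt a (dg k R) && Nat.blt (dg k R) b then false else btw k a b l := rfl
    rw [this, List.forall_mem_cons, ← ih, ← Nat.blt_eq, ← Nat.blt_eq]
    cases Nat.blt a (dg k R) <;> cases Nat.blt (dg k R) b <;> simp

theorem cov_iff (n : ℕ) (w : S10) (x : Fin 10 × Fin 10) (h : x.1 < x.2) :
    (Nat.blt (w x.1).val (w x.2).val && btw (enc w) (w x.1).val (w x.2).val (toE n x).2.2.2) = true
      ↔ Cov w x.1 x.2 := by
  rw [Bool.and_eq_true, btw_iff, Nat.blt_eq, Cov, toE]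
  simp only [List.forall_mem_map, dg_enc, List.mem_filter, List.mem_finRange, true_and,
    Bool.and_eq_true, decide_eq_true_eq, and_imp, h, Fin.lt_def]

variable {H : Type} [AddCommGroup H] [Module ℚ H]

/-- The value of a tree. -/
def ev (F : ℕ → H) : Tr → H
  | .nil => 0
  | .node l k c r => ev F l + (c : ℚ) • F k + ev F r

/-- All codes are good. -/
def Ok (G : ℕ → Prop) : Tr → Prop
  | .nil => True
  | .node l k _ r => Ok G l ∧ G k ∧ Ok G r

theorem ins_spec (F : ℕ → H) (G : ℕ → Prop) (k : ℕ) (c : ℤ) (hk : G k) (t : Tr) :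
    ∀ κ, Ok G t → ∃ t', ins k c t κ = κ t' ∧ Ok G t' ∧ ev F t' = ev F t + (c : ℚ) • F k := by
  induction t with
  | nil => exact fun κ _ => ⟨_, rfl, ⟨trivial, hk, trivial⟩, by simp [ev]⟩
  | node l k' c' r il ir =>
    intro κ h
    have e : ins k c (.node l k' c' r) κ =
      bif Nat.blt k k' then ins k c l fun l' => κ (.node l' k' c' r) else
      bif Nat.blt k' k then ins k c r fun r' => κ (.node l k' c' r') else
        fI (Int.add c' c) fun s => κ (.node l k' s r) := rfl
    rw [e]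
    cases h1 : Nat.blt k k'
    · cases h2 : Nat.blt k' k
      · obtain rfl : k = k' := by
          rw [← Bool.not_eq_true, Nat.blt_eq] at h1 h2; omega
        refine ⟨.node l k (Int.add c' c) r, fI_eq _ fun s => κ (.node l k s r), h, ?_⟩
        simp only [ev, Int.add_def, Int.cast_add, add_smul]; abel
      · obtain ⟨t', a1, a2, a3⟩ := ir (fun r' => κ (.node l k' c' r')) h.2.2
        exact ⟨_, a1, ⟨h.1, h.2.1, a2⟩, by simp only [ev, a3]; abel⟩
    · obtain ⟨t', a1, a2, a3⟩ := il (fun l' => κ (.node l' k' c' r)) h.1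
      exact ⟨_, a1, ⟨a2, h.2⟩, by simp only [ev, a3]; abel⟩

open scoped Classical in
theorem ex_spec (F : ℕ → H) (G : ℕ → Prop) (n : ℕ) (w : S10) (c d : ℤ)
    (hz : ∀ w, 5 ≤ gco w → F (enc w) = 0) (hG : ∀ p q, Cov w p q → G (enc (sw w p q)))
    (L : List (Fin 10 × Fin 10)) (hL : ∀ x ∈ L, x.1 < x.2) :
    ∀ t κ, Ok G t → ∃ t', ex (enc w) c d (L.map (toE n)) t κ = κ t' ∧ Ok G t' ∧
      ev F t' = ev F t + (L.map fun x => if Cov w x.1 x.2 then
        ((bif inT n x.1 then c else d : ℤ) : ℚ) • F (enc (sw w x.1 x.2)) else 0).sum := by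
  induction L with
  | nil => exact fun t κ h => ⟨t, rfl, h, by simp⟩
  | cons x L ih =>
    intro t κ h
    rw [List.forall_mem_cons] at hL
    have ih := ih hL.2
    have e : ex (enc w) c d ((x :: L).map (toE n)) t κ =
      fN (dg (enc w) (10 ^ x.1.val)) fun a => fN (dg (enc w) (10 ^ x.2.val)) fun b =>
      bif Nat.blt a b && btw (enc w) a b (toE n x).2.2.2 then
        fN (enc w + (b - a) * 10 ^ x.1.val - (b - a) * 10 ^ x.2.val) fun k' =>
          bif Nat.blt 19 (s6 k') then ex (enc w) c d (L.map (toE n)) t κ else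
            ins k' (bif inT n x.1 then c else d) t fun t' => ex (enc w) c d (L.map (toE n)) t' κ
      else ex (enc w) c d (L.map (toE n)) t κ := rfl
    rw [e, fN_eq, fN_eq, fN_eq, dg_enc, dg_enc, List.map_cons, List.sum_cons]
    by_cases hc : Cov w x.1 x.2
    · rw [(cov_iff n w x hL.1).2 hc, if_pos hc, cond_true, enc_sw w hc.1.ne hc.2.1]
      cases h1 : Nat.blt 19 (s6 (enc (sw w x.1 x.2)))
      · obtain ⟨t1, a1, a2, a3⟩ := ins_spec F G _ (bif inT n x.1 then c else d) (hG _ _ hc) t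
          (fun t' => ex (enc w) c d (L.map (toE n)) t' κ) h
        obtain ⟨t2, b1, b2, b3⟩ := ih t1 κ a2
        exact ⟨t2, a1.trans b1, b2, by rw [b3, a3, add_assoc]⟩
      · rw [Nat.blt_eq] at h1
        rw [hz _ (by have := s6_le (sw w x.1 x.2); omega), smul_zero, zero_add]
        exact ih t κ h
    · rw [Bool.eq_false_iff.2 (mt (cov_iff n w x hL.1).1 hc), if_neg hc, zero_add]
      exact ih t κ h

theorem walk_spec (F F' : ℕ → H) (G G' : ℕ → Prop) (ps : List En)
    (hs : ∀ k, G' k → ∀ (c : ℤ) t κ, Ok G t → ∃ t', ex k c (-c) ps t κ = κ t' ∧ Ok G t' ∧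
      ev F t' = ev F t + (c : ℚ) • F' k) (s : Tr) :
    ∀ t κ, Ok G' s → Ok G t → ∃ t', walk ps s t κ = κ t' ∧ Ok G t' ∧
      ev F t' = ev F t + ev F' s := by
  induction s with
  | nil => exact fun t κ _ h => ⟨t, rfl, h, by simp [ev]⟩
  | node l k c r il ir =>
    intro t κ h h'
    have e : walk ps (.node l k c r) t κ = fI c fun c =>
      bif Nat.beq c.natAbs 0 then walk ps l t fun a => walk ps r a κ else
        fI (-c) fun d => ex k c d ps t fun a => walk ps l a fun a => walk ps r a κ := rfl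
    rw [e, fI_eq, fI_eq]
    have key : ∀ t, Ok G t → ∃ t', (walk ps l t fun a => walk ps r a κ) = κ t' ∧ Ok G t' ∧
        ev F t' = ev F t + ev F' l + ev F' r := fun t h' => by
      obtain ⟨t1, a1, a2, a3⟩ := il t (fun a => walk ps r a κ) h.1 h'
      obtain ⟨t2, b1, b2, b3⟩ := ir t1 κ h.2.2 a2
      exact ⟨t2, a1.trans b1, b2, by rw [b3, a3]⟩
    cases h1 : Nat.beq c.natAbs 0
    · obtain ⟨t1, a1, a2, a3⟩ := hs k h.2.1 c t (fun a => walk ps l a fun a => walk ps r a κ) h'
      obtain ⟨t2, b1, b2, b3⟩ := key t1 a2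
      exact ⟨t2, a1.trans b1, b2, by simp only [b3, a3, ev]; abel⟩
    · obtain rfl : c = 0 := Int.natAbs_eq_zero.1 (Nat.eq_of_beq_eq_true h1)
      obtain ⟨t2, b1, b2, b3⟩ := key t h'
      exact ⟨t2, b1, b2, by simp only [b3, ev]; simp [add_assoc]⟩

theorem flat_spec (F : ℕ → H) (t : Tr) : ∀ a, ((flat t a).map fun x => (x.2 : ℚ) • F x.1).sum =
    ev F t + (a.map fun x => (x.2 : ℚ) • F x.1).sum := by
  induction t with
  | nil => intro a; simp [ev, flat]
  | node l k c r il ir =>
    intro a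
    have e : flat (.node l k c r) a = flat l ((k, c) :: flat r a) := rfl
    rw [e, il, List.map_cons, List.sum_cons, ir, ev]; abel

open scoped Classical in
theorem sum_LF (n : ℕ) (τ : T3) (h0 : τ.1.1.val = 0) (h2 : τ.1.2.2.val = (if n < 5 then 6 else 7))
    (h1 : τ.1.2.1.val = (if n < 5 then n + 1 else n - 4)) (w : S10) (c : ℤ)
    (X : Fin 10 × Fin 10 → H) :
    ((LF n).map fun x => if Cov w x.1 x.2 then
      ((bif inT n x.1 then c else -c : ℤ) : ℚ) • X x else 0).sum =
      (c : ℚ) • ∑ x ∈ cvs w, mco τ x.1 x.2 • X x := by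
  have hi : ∀ p, In p τ ↔ inT n p = true := fun p => by
    simp only [In, inT, ← h0, ← h1, ← h2, Bool.or_eq_true, beq_iff_eq, Fin.ext_iff, or_assoc]
  have nd : (LF n).Nodup :=
    ((List.nodup_finRange 10).product (List.nodup_finRange 10)).filter _
  have e : (LF n).toFinset =
      Finset.univ.filter fun x => (x.1 < x.2 && inT n x.1 != inT n x.2) = true := by
    ext ⟨p, q⟩; simp [LF]
  rw [← List.sum_toFinset _ nd, e, cvs, Finset.sum_filter, Finset.sum_filter, Finset.smul_sum]
  refine Finset.sum_congr rfl fun x _ => ?_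
  by_cases hc : Cov w x.1 x.2
  · simp only [hc, if_true, mco, hi, hc.1, decide_true, Bool.true_and]
    cases inT n x.1 <;> cases inT n x.2 <;> simp
  · simp [hc]

theorem ex_tau (n : ℕ) (hn : n < 11) : ∃ τ : T3, τ.1.1.val = 0 ∧
    τ.1.2.2.val = (if n < 5 then 6 else 7) ∧ τ.1.2.1.val = (if n < 5 then n + 1 else n - 4) := by
  revert n
  decide

end Monk

open Monk in
theorem monkS (hS : SortS) (hL : LenS) : MonkS := by
  intro H _ _ C hr hz h11
  obtain ⟨F, hF⟩ : ∃ F : ℕ → ℕ → H, ∀ n w, F n (enc w) = C w n :=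
    ⟨fun n => Function.extend enc (fun w => C w n) 0, fun n w => enc_inj.extend_apply _ _ w⟩
  have key : ∀ n ≤ 11, ∀ t, Ok (fun k => ∃ w, enc w = k ∧ len w + n = 25) t →
      ((run n t).map fun x => (x.2 : ℚ) • F 0 x.1).sum = ev (F n) t := by
    intro n
    induction n with
    | zero => exact fun _ t _ => (flat_spec _ t []).trans (by simp)
    | succ n ih =>
      intro hn t ht
      obtain ⟨τ, h0, h2, h1⟩ := ex_tau n hn
      obtain ⟨t', a1, a2, a3⟩ := walk_spec (F n) (F (n + 1))
        (fun k => ∃ w, enc w = k ∧ len w + n = 25) _ ((LF n).map (toE n)) (by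
          rintro _ ⟨w, rfl, hw⟩ c t κ h
          rw [hF, hr n hn τ h0 h2 h1 w (by omega), ← sum_LF n τ h0 h2 h1]
          simp only [← hF]
          refine ex_spec (F n) _ n w c (-c) (fun w h => (hF n w).trans (hz w n h))
            (fun p q h => ⟨_, rfl, by rw [hL.cov w p q h]; omega⟩) _ (fun x hx => ?_) t κ h
          simp only [LF, List.mem_filter, Bool.and_eq_true, decide_eq_true_eq] at hx
          exact hx.2.1) t .nil (run n) ht trivial
      have e : run (n + 1) t = run n t' := (fE_eq _ _).trans a1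
      rw [e, ih (by omega) t' a2, a3, ev, zero_add]
  have st : ∀ (w : S10) (k : ℕ) (l : B), enc w = k → len w = 14 →
      run 11 (.node .nil k 1 .nil) = l → (l.map fun x => (x.2 : ℚ) • F 0 x.1).sum = 0 := by
    rintro w _ _ rfl hw rfl
    rw [key 11 le_rfl (.node .nil (enc w) 1 .nil) ⟨trivial, ⟨w, rfl, by omega⟩, trivial⟩]
    simp [ev, hF, h11]
  have e1 := st ⟨![2, 5, 4, 3, 1, 0, 7, 6, 9, 8], ![5, 4, 0, 3, 2, 1, 7, 6, 9, 8], by decide,
    by decide⟩ _ _ (by decide +kernel) (by decide +kernel) r1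
  have e2 := st ⟨![0, 5, 4, 3, 2, 1, 9, 6, 8, 7], ![0, 5, 4, 3, 2, 1, 7, 9, 8, 6], by decide,
    by decide⟩ _ _ (by decide +kernel) (by decide +kernel) r2
  have e3 := st ⟨![1, 6, 4, 3, 2, 0, 7, 5, 9, 8], ![5, 0, 4, 3, 2, 7, 1, 6, 9, 8], by decide,
    by decide⟩ _ _ (by decide +kernel) (by decide +kernel) r3
  have e4 := st ⟨![1, 5, 4, 3, 2, 0, 8, 6, 9, 7], ![5, 0, 4, 3, 2, 1, 7, 9, 6, 8], by decide,
    by decide⟩ _ _ (by decide +kernel) (by decide +kernel) r4
  simp only [List.map_cons, List.map_nil, List.sum_cons, List.sum_nil] at e1 e2 e3 e4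
  refine ⟨F 0 5678012349, fun w hw => ?_⟩
  by_cases hg : 5 ≤ gco w
  · exact ⟨0, by rw [hz w 0 hg, zero_smul]⟩
  have h5 := hS.five w hw (by omega)
  have ee : enc w = (List.ofFn fun i => (w i).val).foldr (fun a r => a + 10 * r) 0 := by
    simp [enc, Fin.sum_univ_succ, List.ofFn_succ]; ring
  rw [← hF, ee]
  simp only [List.mem_cons, List.not_mem_nil, or_false] at h5
  push_cast at e1 e2 e3 e4
  rcases h5 with h | h | h | h | h <;> rw [h]
  · exact ⟨1, (one_smul _ _).symm⟩
  · refine ⟨41 / 3, ?_⟩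
    change F 0 4679012358 = _
    linear_combination (norm := module) (2 / 3 : ℚ) • e1 + (2 / 15 : ℚ) • e2 +
      (41 / 90 : ℚ) • e3 - (4 / 5 : ℚ) • e4
  · refine ⟨49 / 3, ?_⟩
    change F 0 4589012367 = _
    linear_combination (norm := module) (17 / 18 : ℚ) • e1 + (11 / 30 : ℚ) • e2 +
      (113 / 180 : ℚ) • e3 - (6 / 5 : ℚ) • e4
  · refine ⟨25, ?_⟩
    change F 0 3689012457 = _
    linear_combination (norm := module) (31 / 18 : ℚ) • e1 + (1 / 2 : ℚ) • e2 +
      (13 / 12 : ℚ) • e3 - (2 : ℚ) • e4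
  · refine ⟨35 / 3, ?_⟩
    change F 0 2789013456 = _
    linear_combination (norm := module) (7 / 9 : ℚ) • e1 + (1 / 3 : ℚ) • e2 +
      (5 / 9 : ℚ) • e3 - (1 : ℚ) • e4

end Pool.Agent.MP_59fd2e_ag.DV
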