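import Pool.Agent.MP_59fd2e_ag.dv.Spec

/-! PROJECT DV, row ND: empty strata. -/

noncomputable section

namespace Pool.Agent.MP_59fd2e_ag.DV

open MvPolynomial Matrix Pool.Agent.MP_9207e0_ag.CC
open scoped Classical

namespace Nd

theorem ld_perm {K : Type} [Field K] {w : S10} {g : M10 K} (h : NF w g) (π : S10) :
    Ld (w * π) (g.submatrix π id) := fun i =>
  ⟨by
    have := (h.1 (π i)).1
    simp only [submatrix_apply, id, Equiv.Perm.coe_mul, Function.comp]
    rw [this]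
    exact one_ne_zero, fun c hc => h.2 (π i) c hc⟩

theorem core (hT : TriS) (hN : NfS) (hC : ChartS) {k0 K : Type} [Field k0] [Field K] [Algebra k0 K]
    {σ : T3 → K} (hσ : AlgebraicIndependent k0 σ) {w : S10} {g : M10 K} {I : Finset T3}
    (hw : Ld w g) (hI : Low I) (hv : Van σ g I) : len w + I.card ≤ 45 := by
  obtain ⟨b, hb, hn, -⟩ := hN.ld_nf K w g hw
  exact (hC.cnt k0 K w I σ (b * g) hσ ⟨hn, (hT.low K σ b g I hb.1 hI hv).1⟩).1

theorem alt (hT : TriS) {K : Type} [Field K] (σ : T3 → K) (g : M10 K) (p : Fin 10 → Fin 10 → Prop)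
    (h : ∀ (b c : Fin 10) (hb : 0 < b) (hc : b < c), p b c ∨ p c b →
      lam σ g ⟨(0, b, c), hb, hc⟩ = 0) (b c : Fin 10) (hp : p b c) :
    tri σ (g 0) (g b) (g c) = 0 := by
  rcases eq_or_ne b 0 with rfl | hb
  · exact (hT.sw1 K σ _ (g 0) _).2
  rcases eq_or_ne c 0 with rfl | hc
  · rw [(hT.sw2 K σ _ _ _).1, (hT.sw1 K σ _ (g 0) _).2, neg_zero]
  rcases lt_trichotomy b c with k | rfl | k
  · exact h b c (Fin.pos_iff_ne_zero.2 hb) k (.inl hp)
  · exact (hT.sw2 K σ _ _ (g 0)).2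
  · rw [(hT.sw2 K σ _ _ _).1, neg_eq_zero]
    exact h c b (Fin.pos_iff_ne_zero.2 hc) k (.inr hp)

theorem ext {K V : Type} [Field K] [AddCommGroup V] [Module K V] {n : ℕ} (v : Fin n → V)
    (hv : LinearIndependent K v) (m : ℕ) (hm : n ≤ m) (h : m ≤ Module.finrank K V) :
    ∃ v' : Fin m → V, LinearIndependent K v' ∧ ∀ i : Fin n, v' (Fin.castLE hm i) = v i := by
  induction m, hm using Nat.le_induction with
  | base => exact ⟨v, hv, fun _ => rfl⟩
  | succ m hm ih =>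
    obtain ⟨v', h1, h2⟩ := ih (by omega)
    obtain ⟨x, hx⟩ := exists_linearIndependent_snoc_of_lt_finrank h1 (by omega)
    refine ⟨Fin.snoc v' x, hx, fun i => ?_⟩
    rw [← h2 i]
    exact Fin.snoc_castSucc (α := fun _ => V) x v' (Fin.castLE hm i)

theorem expand {K : Type} [Field K] (F : (Fin 10 → K) →ₗ[K] K) (y : Fin 10 → K)
    (h : ∀ i, y i = 0 ∨ F ((1 : M10 K) i) = 0) : F y = 0 := by
  rw [LinearMap.pi_apply_eq_sum_univ]
  refine Finset.sum_eq_zero fun i _ => ?_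
  rcases h i with k | k
  · rw [k, zero_smul]
  · have e : (fun j => if i = j then (1 : K) else 0) = (1 : M10 K) i := by
      funext j; rw [Matrix.one_apply]
    rw [e, k, smul_zero]

theorem frame (hT : TriS) {K : Type} [Field K] (l : T3 → K) (hl : ∀ τ ∈ II 11, l τ = 0) :
    ∃ H : M10 K, H.det ≠ 0 ∧ Van l H IC := by
  have h0 : ∀ b c : Fin 10, b.val ≤ 7 ∧ c.val ≤ 7 →
      tri l ((1 : M10 K) 0) ((1 : M10 K) b) ((1 : M10 K) c) = 0 := by
    refine alt hT l 1 (fun b c => b.val ≤ 7 ∧ c.val ≤ 7) fun b c hb hc hp => ?_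
    rw [hT.one]
    refine hl _ (Finset.mem_filter.2 ⟨Finset.mem_univ _, ?_⟩)
    have h1 : b.val < c.val := hc
    simp only [pos, Fin.val_zero, true_and]
    split_ifs <;> omega
  choose f hf using fun z => hT.lin K l ((1 : M10 K) 0) z
  let Φ : (Fin 10 → K) →ₗ[K] (Fin 4 → K) :=
    LinearMap.pi ![LinearMap.proj 8, LinearMap.proj 9, f ((1 : M10 K) 8), f ((1 : M10 K) 9)]
  have hΦ : ∀ y, y ∈ LinearMap.ker Φ ↔
      y 8 = 0 ∧ y 9 = 0 ∧ f ((1 : M10 K) 8) y = 0 ∧ f ((1 : M10 K) 9) y = 0 := by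
    intro y
    rw [LinearMap.mem_ker, funext_iff, Fin.forall_fin_succ, Fin.forall_fin_succ,
      Fin.forall_fin_succ, Fin.forall_fin_one]
    exact Iff.rfl
  have hk : ∀ y ∈ LinearMap.ker Φ, ∀ z, tri l ((1 : M10 K) 0) y z = 0 := by
    intro y hy z
    obtain ⟨a8, a9, b8, b9⟩ := (hΦ y).1 hy
    rw [(hT.sw2 K l _ _ _).1, neg_eq_zero, ← hf]
    refine expand _ _ fun c => .inr ?_
    rw [hf, (hT.sw2 K l _ _ _).1, neg_eq_zero, ← hf]
    by_cases h8 : c = 8
    · rw [h8]; exact b8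
    by_cases h9 : c = 9
    · rw [h9]; exact b9
    refine expand _ _ fun b => ?_
    by_cases k8 : b = 8
    · rw [k8]; exact .inl a8
    by_cases k9 : b = 9
    · rw [k9]; exact .inl a9
    refine .inr ?_
    rw [hf]
    refine h0 b c ⟨?_, ?_⟩
    · have := b.2
      have := Fin.val_ne_of_ne k8
      have := Fin.val_ne_of_ne k9
      simp only [Fin.isValue, Fin.coe_ofNat_eq_mod] at *
      omega
    · have := c.2
      have := Fin.val_ne_of_ne h8
      have := Fin.val_ne_of_ne h9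
      simp only [Fin.isValue, Fin.coe_ofNat_eq_mod] at *
      omega
  have he : (1 : M10 K) 0 ∈ LinearMap.ker Φ := by
    refine (hΦ _).2 ⟨Matrix.one_apply_ne (by decide), Matrix.one_apply_ne (by decide), ?_, ?_⟩ <;>
    · rw [hf]; exact (hT.sw1 K l _ ((1 : M10 K) 0) _).2
  have hr : 6 ≤ Module.finrank K (LinearMap.ker Φ) := by
    have h1 := LinearMap.finrank_range_add_finrank_ker Φ
    have h2 := Submodule.finrank_le (LinearMap.range Φ)
    rw [Module.finrank_fin_fun] at h1 h2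
    omega
  have hne : (⟨_, he⟩ : LinearMap.ker Φ) ≠ 0 := by
    intro h
    have := congrFun (congrArg Subtype.val h) 0
    simp at this
  obtain ⟨v, hv, hv0⟩ := ext (fun _ : Fin 1 => (⟨_, he⟩ : LinearMap.ker Φ))
    (linearIndependent_unique_iff.2 hne) 6 (by omega) hr
  obtain ⟨u, hu, hu0⟩ := ext (fun i => (v i : Fin 10 → K))
    (hv.map' (LinearMap.ker Φ).subtype (Submodule.ker_subtype _)) 10 (by omega)
    (by rw [Module.finrank_fin_fun])
  refine ⟨Matrix.of u, ?_, fun τ hτ => ?_⟩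
  · have : IsUnit (Matrix.of u) := Matrix.linearIndependent_rows_iff_isUnit.1 hu
    exact ((Matrix.isUnit_iff_isUnit_det _).1 this).ne_zero
  · obtain ⟨h1, h2⟩ := (Finset.mem_filter.1 hτ).2
    have e0 : u τ.1.1 = (1 : M10 K) 0 := by
      have a := hu0 0
      have b := congrArg Subtype.val (hv0 0)
      have c : τ.1.1 = 0 := Fin.ext h1
      rw [c]
      exact a.trans b
    have e1 : u τ.1.2.1 ∈ LinearMap.ker Φ := by
      have a : u τ.1.2.1 = _ := hu0 ⟨τ.1.2.1.val, by omega⟩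
      rw [a]
      exact Subtype.property _
    change tri l (u τ.1.1) (u τ.1.2.1) (u τ.1.2.2) = 0
    rw [e0]
    exact hk _ e1 _

end Nd

theorem ndS (hT : TriS) (hN : NfS) (hS : SortS) (hH : ChS) (hC : ChartS) : NdS where
  gr := by
    intro k0 K _ _ _ σ w I hσ h5 hI
    refine Set.eq_empty_of_forall_notMem fun g hg => ?_
    obtain ⟨π, h1, h2⟩ := hS.two w
    have h3 := (hT.kills K σ g).1 fun τ hτ => hg.2 τ (hI hτ)
    have h4 : Van σ (g.submatrix π id) I0 := by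
      refine (hT.kills K σ _).2 fun a b c => ?_
      exact h3 ⟨(π (Fin.castLE (by decide) a)).val, (h1 _).2 a.2⟩
        ⟨(π (Fin.castLE (by decide) b)).val, (h1 _).2 b.2⟩
        ⟨(π (Fin.castLE (by decide) c)).val, (h1 _).2 c.2⟩
    have h6 := Nd.core hT hN hC hσ (Nd.ld_perm hg.1 π) (hH.zero ▸ hH.low 0) h4
    have h7 := hH.card 0 (by omega)
    rw [hH.zero] at h7
    omega
  rk4 := by
    intro k0 K _ _ _ σ w hσ
    refine Set.eq_empty_of_forall_notMem fun g hg => ?_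
    obtain ⟨H, h1, h2⟩ := Nd.frame hT (lam σ g) hg.2
    have h3 : g.det ≠ 0 := left_ne_zero_of_mul_eq_one (hN.det K w g hg.1.1)
    have h4 : (H * g).det ≠ 0 := by
      rw [Matrix.det_mul]; exact mul_ne_zero h1 h3
    have h5 : Van σ (H * g) IC := fun τ hτ => by
      rw [hT.lam_mul]; exact h2 τ hτ
    obtain ⟨w', b, hb, hn⟩ := hN.ex K _ h4
    have h6 := (hT.low K σ b _ IC hb.1 hH.lowC.1 h5).1
    obtain ⟨π, p0, p1, p2⟩ := hS.three w'
    have h7 := Nd.alt hT σ (b * (H * g)) (fun b _ => b.val ≤ 5) fun b c hb hc hp =>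
      h6 _ (Finset.mem_filter.2 ⟨Finset.mem_univ _, rfl, by
        have : b.val < c.val := hc
        change b.val ≤ 5
        omega⟩)
    have h8 : Van σ ((b * (H * g)).submatrix π id) IC := fun τ hτ => by
      obtain ⟨a1, a2⟩ := (Finset.mem_filter.1 hτ).2
      have c : τ.1.1 = 0 := Fin.ext a1
      have := h7 (π τ.1.2.1) (π τ.1.2.2) (Nat.lt_succ_iff.1 ((p1 _).2 (by omega)))
      change tri σ ((b * (H * g)) (π τ.1.1)) ((b * (H * g)) (π τ.1.2.1))
        ((b * (H * g)) (π τ.1.2.2)) = 0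
      rw [c, p0]
      exact this
    have h9 := Nd.core hT hN hC hσ (Nd.ld_perm hn π) hH.lowC.1 h8
    have := hH.lowC.2
    omega

end Pool.Agent.MP_59fd2e_ag.DV
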