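import Pool.Agent.MP_59fd2e_ag.dv.Spec

/-! Normal forms of flags. -/

noncomputable section

namespace Pool.Agent.MP_59fd2e_ag.DV

open Matrix
open scoped Classical

namespace Nf

section ring

variable {R : Type} [CommRing R]

theorem lt_bt {b : M10 R} (h : Lt b) : b.BlockTriangular OrderDual.toDual :=
  fun i j hij => h i j hij

theorem bt_lt {b : M10 R} (h : b.BlockTriangular OrderDual.toDual) : Lt b :=
  fun _ _ hij => h hij

theorem diag (b b' : M10 R) (i : Fin 10) (h : Lt b) (h' : Lt b') :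
    (b * b') i i = b i i * b' i i := by
  rw [Matrix.mul_apply]
  refine Finset.sum_eq_single i (fun j _ hj => ?_) fun hi => absurd (Finset.mem_univ i) hi
  rcases lt_or_gt_of_ne hj with h1 | h1
  · rw [h' j i h1, mul_zero]
  · rw [h i j h1, zero_mul]

theorem cf_bt {w : S10} {g : M10 R} (h : CF w g) : (g.submatrix id w).BlockTriangular id :=
  fun i j hij => (h i).2 j hij

theorem cf_det {w : S10} {g : M10 R} (h : CF w g) : (g.submatrix id w).det = 1 := by
  rw [det_of_isUpperTriangular (cf_bt h)]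
  exact Finset.prod_eq_one fun i _ => (h i).1

theorem det_sq (w : S10) (g : M10 R) (h : CF w g) : g.det * g.det = 1 := by
  have h1 := cf_det h
  rw [det_permute'] at h1
  rcases Int.units_eq_one_or (Equiv.Perm.sign w) with e | e
  · rw [e] at h1
    simp only [Units.val_one, Int.cast_one, one_mul] at h1
    rw [h1, one_mul]
  · rw [e] at h1
    simp only [Units.val_neg, Units.val_one, Int.cast_neg, Int.cast_one] at h1
    linear_combination (1 - g.det) * h1

theorem cf_uniq (w : S10) (b g : M10 R) (hb : Lt b) (h : CF w g) (h' : CF w (b * g)) : b = 1 := by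
  have hu : IsUnit (g.submatrix id w).det := by rw [cf_det h]; exact isUnit_one
  let _ := invertibleOfIsUnitDet _ hu
  have e : (b * g).submatrix id w = b * g.submatrix id w := rfl
  have h1 := (cf_bt h').mul (blockTriangular_inv_of_blockTriangular (cf_bt h))
  rw [e, Matrix.mul_assoc, mul_nonsing_inv _ hu, Matrix.mul_one] at h1
  have h2 : ∀ i j, j ≠ i → b i j = 0 := fun i j hj =>
    (lt_or_gt_of_ne hj).elim (fun h3 => h1 h3) fun h3 => hb i j h3
  ext i j
  by_cases hij : i = j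
  · subst hij
    have h3 := (h' i).1
    rw [Matrix.mul_apply, Finset.sum_eq_single i (fun j _ hj => by rw [h2 i j hj, zero_mul])
      fun hi => absurd (Finset.mem_univ i) hi, (h i).1, mul_one] at h3
    rw [h3, one_apply_eq]
  · rw [h2 i j (Ne.symm hij), one_apply_ne hij]

end ring

variable {K : Type} [Field K]

theorem lo_mul (b b' : M10 K) (h : Lo b) (h' : Lo b') : Lo (b * b') :=
  ⟨bt_lt ((lt_bt h.1).mul (lt_bt h'.1)), fun i => by
    rw [diag b b' i h.1 h'.1]; exact mul_ne_zero (h.2 i) (h'.2 i)⟩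

theorem lo_inv (b : M10 K) (h : Lo b) :
    ∃ b', Lo b' ∧ b' * b = 1 ∧ b * b' = 1 ∧ ∀ i, b' i i * b i i = 1 := by
  have hu : IsUnit b.det := by
    rw [det_of_isLowerTriangular b (lt_bt h.1)]
    exact (Finset.prod_ne_zero_iff.2 fun i _ => h.2 i).isUnit
  let _ := invertibleOfIsUnitDet _ hu
  have h1 : Lt b⁻¹ := bt_lt (blockTriangular_inv_of_blockTriangular (lt_bt h.1))
  have h2 : ∀ i, b⁻¹ i i * b i i = 1 := fun i => by
    rw [← diag _ _ i h1 h.1, nonsing_inv_mul _ hu, one_apply_eq]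
  exact ⟨b⁻¹, ⟨h1, fun i => left_ne_zero_of_mul_eq_one (h2 i)⟩, nonsing_inv_mul _ hu,
    mul_nonsing_inv _ hu, h2⟩

/-- The row `a` of the triangular matrix is good for the index `i`. -/
def Q (w : S10) (g : M10 K) (i : Fin 10) (a : Fin 10 → K) : Prop :=
  (∀ j, i < j → a j = 0) ∧ a i * g i (w i) = 1 ∧ (a ᵥ* g) (w i) = 1 ∧
    (∀ j, j < i → (a ᵥ* g) (w j) = 0) ∧ ∀ c, c < w i → (a ᵥ* g) c = 0

theorem clear (w : S10) (g : M10 K) (h : Ld w g) (i : Fin 10)
    (ih : ∀ j, j < i → ∃ a, Q w g j a) (m : ℕ) (hm : m ≤ i.val) :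
    ∃ a : Fin 10 → K, (∀ j, i < j → a j = 0) ∧ a i = 1 ∧
      (∀ j : Fin 10, j.val < m → (a ᵥ* g) (w j) = 0) ∧ ∀ c, c ≤ w i → (a ᵥ* g) c = g i c := by
  induction m with
  | zero =>
    refine ⟨Pi.single i 1, fun j hj => Pi.single_eq_of_ne hj.ne' _, Pi.single_eq_same _ _,
      fun j hj => absurd hj (Nat.not_lt_zero _), fun c _ => ?_⟩
    rw [single_one_vecMul]
    rfl
  | succ m ihm =>
    obtain ⟨a, a1, a2, a3, a4⟩ := ihm (by omega)
    obtain ⟨k, hk⟩ : ∃ k : Fin 10, k.val = m := ⟨⟨m, by have := i.isLt; omega⟩, rfl⟩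
    have hki : k < i := by rw [Fin.lt_def]; omega
    obtain ⟨u, u1, _, u3, u4, u5⟩ := ih k hki
    have e : ∀ c, ((a - (a ᵥ* g) (w k) • u) ᵥ* g) c =
        (a ᵥ* g) c - (a ᵥ* g) (w k) * (u ᵥ* g) c := fun c => by
      rw [sub_vecMul, smul_vecMul]; rfl
    refine ⟨a - (a ᵥ* g) (w k) • u, fun j hj => ?_, ?_, fun j hj => ?_, fun c hc => ?_⟩
    · rw [Pi.sub_apply, Pi.smul_apply, a1 j hj, u1 j (hki.trans hj), smul_zero, sub_zero]
    · rw [Pi.sub_apply, Pi.smul_apply, a2, u1 i hki, smul_zero, sub_zero]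
    · rw [e]
      by_cases hjk : j = k
      · rw [hjk, u3, mul_one, sub_self]
      · have h1 : j.val ≠ k.val := fun h1 => hjk (Fin.ext h1)
        rw [a3 j (by omega), u4 j (by rw [Fin.lt_def]; omega), mul_zero, sub_zero]
    · rw [e, a4 c hc]
      rcases lt_or_gt_of_ne (w.injective.ne hki.ne) with h1 | h1
      · rw [a4 _ h1.le, (h i).2 _ h1, zero_mul, sub_zero]
      · rw [u5 c (lt_of_le_of_lt hc h1), mul_zero, sub_zero]

theorem row (w : S10) (g : M10 K) (h : Ld w g) (i : Fin 10) : ∃ a, Q w g i a := by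
  induction i using WellFoundedLT.induction with
  | ind i ih =>
    obtain ⟨a, a1, a2, a3, a4⟩ := clear w g h i ih i.val le_rfl
    have e : ∀ c, (((g i (w i))⁻¹ • a) ᵥ* g) c = (g i (w i))⁻¹ * (a ᵥ* g) c := fun c => by
      rw [smul_vecMul]; rfl
    refine ⟨(g i (w i))⁻¹ • a, fun j hj => ?_, ?_, ?_, fun j hj => ?_, fun c hc => ?_⟩
    · rw [Pi.smul_apply, a1 j hj, smul_zero]
    · rw [Pi.smul_apply, a2, smul_eq_mul, mul_one, inv_mul_cancel₀ (h i).1]
    · rw [e, a4 _ le_rfl, inv_mul_cancel₀ (h i).1]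
    · rw [e, a3 j hj, mul_zero]
    · rw [e, a4 c hc.le, (h i).2 c hc, mul_zero]

theorem ld_nf (w : S10) (g : M10 K) (h : Ld w g) :
    ∃ b, Lo b ∧ NF w (b * g) ∧ ∀ i, b i i * g i (w i) = 1 := by
  choose a ha using row w g h
  exact ⟨Matrix.of a, ⟨fun i j hij => (ha i).1 j hij,
    fun i => left_ne_zero_of_mul_eq_one (ha i).2.1⟩,
    ⟨fun i => ⟨(ha i).2.2.1, (ha i).2.2.2.1⟩, fun i => (ha i).2.2.2.2⟩, fun i => (ha i).2.1⟩

/-- The column `c` leads a combination of the rows up to `i`. -/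
def P (g : M10 K) (i c : Fin 10) (a : Fin 10 → K) : Prop :=
  (∀ j, i < j → a j = 0) ∧ a i = 1 ∧ (a ᵥ* g) c ≠ 0 ∧ ∀ d, d < c → (a ᵥ* g) d = 0

theorem lead (g : M10 K) (hg : g.det ≠ 0) (i : Fin 10) (a : Fin 10 → K)
    (a1 : ∀ j, i < j → a j = 0) (a2 : a i = 1) : ∃ c, P g i c a := by
  have h1 : a ᵥ* g ≠ 0 := fun h => by
    rw [eq_zero_of_vecMul_eq_zero hg h] at a2
    exact zero_ne_one a2
  obtain ⟨c, hc, hmin⟩ := Set.exists_min_image {c | (a ᵥ* g) c ≠ 0} id (Set.toFinite _)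
    (Function.ne_iff.1 h1)
  exact ⟨c, a1, a2, hc, fun d hd => by_contra fun h => absurd (hmin d h) (not_le.2 hd)⟩

theorem ex_ld (g : M10 K) (hg : g.det ≠ 0) : ∃ w b, Lo b ∧ Ld w (b * g) := by
  have h1 : ∀ i, ∃ c, (∃ a, P g i c a) ∧ ∀ d, (∃ a, P g i d a) → d ≤ c := by
    intro i
    obtain ⟨c, hc⟩ := lead g hg i (Pi.single i 1) (fun j hj => Pi.single_eq_of_ne hj.ne' _)
      (Pi.single_eq_same _ _)
    exact Set.exists_max_image {c | ∃ a, P g i c a} id (Set.toFinite _) ⟨c, _, hc⟩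
  choose v hv hmax using h1
  choose a ha using hv
  have key : ∀ i j, j < i → v j ≠ v i := by
    intro i j hj h
    obtain ⟨t, ht⟩ : ∃ t, t = (a i ᵥ* g) (v j) / (a j ᵥ* g) (v j) := ⟨_, rfl⟩
    obtain ⟨c, hc⟩ := lead g hg i (a i - t • a j)
      (fun k hk => by
        rw [Pi.sub_apply, Pi.smul_apply, (ha i).1 k hk, (ha j).1 k (hj.trans hk), smul_zero,
          sub_zero])
      (by rw [Pi.sub_apply, Pi.smul_apply, (ha i).2.1, (ha j).1 i hj, smul_zero, sub_zero])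
    have e : ((a i - t • a j) ᵥ* g) c = (a i ᵥ* g) c - t * (a j ᵥ* g) c := by
      rw [sub_vecMul, smul_vecMul]; rfl
    refine hc.2.2.1 ?_
    rw [e]
    rcases (hmax i c ⟨_, hc⟩).lt_or_eq with h2 | h2
    · rw [(ha i).2.2.2 c h2, (ha j).2.2.2 c (h ▸ h2), mul_zero, sub_zero]
    · rw [h2, ← h, ht, div_mul_cancel₀ _ (ha j).2.2.1, sub_self]
  have inj : Function.Injective v := by
    intro i j h
    by_contra hne
    rcases lt_or_gt_of_ne hne with h2 | h2
    · exact key j i h2 h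
    · exact key i j h2 h.symm
  refine ⟨Equiv.ofBijective v inj.bijective_of_finite, Matrix.of a,
    ⟨fun i j hij => (ha i).1 j hij, fun i => ?_⟩, fun i => ⟨(ha i).2.2.1, (ha i).2.2.2⟩⟩
  rw [of_apply, (ha i).2.1]
  exact one_ne_zero

theorem nf_ld {w : S10} {g : M10 K} (h : NF w g) : Ld w g :=
  fun i => ⟨by rw [(h.1 i).1]; exact one_ne_zero, h.2 i⟩

end Nf

theorem nfS (hR : RkS) (hL : LenS) : NfS where
  lo_mul := fun _ _ => Nf.lo_mul
  lo_one := fun _ _ => ⟨fun _ _ h => one_apply_ne h.ne, fun i => by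
    rw [one_apply_eq]; exact one_ne_zero⟩
  lo_inv := fun _ _ => Nf.lo_inv
  diag := fun _ _ => Nf.diag
  det := fun _ _ => Nf.det_sq
  cf_uniq := fun _ _ => Nf.cf_uniq
  ld_nf := fun _ _ => Nf.ld_nf
  ex := fun _ _ g hg => by
    obtain ⟨w, b, h1, h2⟩ := Nf.ex_ld g hg
    obtain ⟨b', h3, h4, _⟩ := Nf.ld_nf w _ h2
    exact ⟨w, b' * b, Nf.lo_mul _ _ h3 h1, by rw [Matrix.mul_assoc]; exact h4⟩
  uniq := fun K _ w w' b g hb h h' => by
    have e : w = w' := hL.rk_inj w w' fun i c => by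
      rw [← hR.ld K w g i c (Nf.nf_ld h), ← hR.ld K w' _ i c (Nf.nf_ld h'), hR.lo K b g i c hb]
    subst e
    exact ⟨rfl, Nf.cf_uniq w b g hb.1 h.1 h'.1⟩

end Pool.Agent.MP_59fd2e_ag.DV
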