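import Pool.Agent.MP_59fd2e_ag.dv.Spec

/-! PROJECT DV, row ORB: invariant cycles are sums of orbits. -/

noncomputable section

namespace Pool.Agent.MP_59fd2e_ag.DV

open Pool.Agent.MP_9207e0_ag.CC
open scoped Classical

namespace Orb

variable {X M : Type} [AddCommGroup M] [Module ℚ M] {O : X → Finset X}

theorem split (e : X → M) {A : Multiset X} (hA : ∀ x, ∀ y ∈ O x, A.count y = A.count x) (z : X) :
    (A.map e).sum = (A.count z : ℚ) • ∑ y ∈ O z, e y + ((A.filter (· ∉ O z)).map e).sum := by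
  have h : A = A.count z • (O z).val + A.filter (· ∉ O z) := by
    ext y
    rw [Multiset.count_add, Multiset.count_nsmul, Multiset.count_filter]
    by_cases hy : y ∈ O z
    · rw [Multiset.count_eq_one_of_mem (O z).nodup hy, if_neg (not_not.2 hy), hA z y hy]
      simp
    · rw [Multiset.count_eq_zero_of_notMem hy, if_pos hy]
      simp
  conv_lhs => rw [h]
  rw [Multiset.map_add, Multiset.sum_add, Multiset.map_nsmul, Multiset.sum_nsmul,
    Nat.cast_smul_eq_nsmul]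
  rfl

theorem inv (r1 : ∀ x, x ∈ O x) (r2 : ∀ x, ∀ y ∈ O x, O y = O x) {A : Multiset X}
    (hA : ∀ x, ∀ y ∈ O x, A.count y = A.count x) (z : X) :
    ∀ x, ∀ y ∈ O x, (A.filter (· ∉ O z)).count y = (A.filter (· ∉ O z)).count x := by
  intro x y hy
  have h : y ∈ O z ↔ x ∈ O z :=
    ⟨fun h => r2 z y h ▸ (r2 x y hy).symm ▸ r1 x, fun h => r2 z x h ▸ hy⟩
  simp only [Multiset.count_filter, h, hA x y hy]

theorem mem (r1 : ∀ x, x ∈ O x) (r2 : ∀ x, ∀ y ∈ O x, O y = O x) (e : X → M) (H : Submodule ℚ M)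
    (A : Multiset X) : (∀ x, ∀ y ∈ O x, A.count y = A.count x) →
      (∀ x ∈ A, ∑ y ∈ O x, e y ∈ H) → (A.map e).sum ∈ H := by
  induction A using Multiset.strongInductionOn with
  | ih A ih =>
    intro hA h
    rcases A.empty_or_exists_mem with rfl | ⟨z, hz⟩
    · simp
    rw [split e hA z]
    refine H.add_mem (H.smul_mem _ (h z hz)) (ih _ ((Multiset.filter_le _ _).lt_of_ne fun e0 => ?_)
      (inv r1 r2 hA z) fun x hx => h x (Multiset.mem_of_mem_filter hx))
    exact (Multiset.of_mem_filter (e0.symm ▸ hz : z ∈ A.filter (· ∉ O z))) (r1 z)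

end Orb

theorem orbS (hJ : ConjS) : OrbS := by
  intro k0 k _ _ _ σ H A z hσ hA h
  let O : PP Pl k → Finset (PP Pl k) := fun x => (hJ.finP k0 k T3 Pl σ x hσ).toFinset
  have hO : ∀ x y, y ∈ O x ↔ Cj k0 σ x y := fun x y => Set.Finite.mem_toFinset _
  have ho : ∀ x, oc k0 σ x = ∑ y ∈ O x, ee σ y := fun x =>
    finsum_mem_eq_finite_toFinset_sum _ _
  have r1 : ∀ x, x ∈ O x := fun x => (hO x x).2 (hJ.refl _ _ _ _ σ x)
  have r2 : ∀ x, ∀ y ∈ O x, O y = O x := fun x y hy => Finset.ext fun t => by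
    rw [hO] at hy
    rw [hO, hO]
    exact ⟨hJ.trans _ _ _ _ σ _ _ _ hy, hJ.trans _ _ _ _ σ _ _ _ (hJ.symm _ _ _ _ σ _ _ hy)⟩
  have hc : ∀ x, ∀ y ∈ O x, A.count y = A.count x := fun x y hy => by
    obtain ⟨θ, h1, rfl⟩ := (hO x y).1 hy
    conv_lhs => rw [← hA θ h1]
    exact Multiset.count_map_eq_count' _ _ (pmap_injective _) _
  refine ⟨A.count z, Multiset.count_pos.2, ?_, fun h' => Orb.mem r1 r2 _ H A hc fun x hx =>
    ho x ▸ h' x hx⟩
  rw [Orb.split _ hc z, ho, add_sub_cancel_left]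
  refine Orb.mem r1 r2 _ H _ (Orb.inv r1 r2 hc z) fun x hx => ?_
  obtain ⟨h1, h2⟩ := Multiset.mem_filter.1 hx
  exact ho x ▸ (h x h1).resolve_right fun h3 => h2 ((hO z x).2 h3)

end Pool.Agent.MP_59fd2e_ag.DV
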