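import Pool.Agent.MP_59fd2e_ag.dv.Spec

/-! PROJECT DV, row PLK: points of the Grassmannian. -/

noncomputable section

namespace Pool.Agent.MP_59fd2e_ag.DV

open MvPolynomial Matrix Pool.Agent.MP_9207e0_ag.CC
open scoped Classical

namespace Plk

section
variable {R S : Type} [CommRing R] [CommRing S]

/-- The upper left corner. -/
def cor (b : M10 R) : Matrix (Fin 6) (Fin 6) R :=
  b.submatrix (Fin.castLE (by decide)) (Fin.castLE (by decide))

theorem plk_mul (b : Matrix (Fin 6) (Fin 6) R) (M : Matrix (Fin 6) (Fin 10) R) :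
    plk (b * M) = b.det • plk M := by
  funext f
  have : (b * M).submatrix id f = b * M.submatrix id f := by
    ext i j
    simp [Matrix.mul_apply]
  simp only [plk, this, Matrix.det_mul, Pi.smul_apply, smul_eq_mul]

theorem top_mul {b : M10 R} (hb : Lt b) (g : M10 R) : top (b * g) = cor b * top g := by
  ext i c
  have h := Fin.sum_univ_add (a := 6) (b := 4)
    (fun j : Fin 10 => b (Fin.castLE (by decide) i) j * g j c)
  have h2 : ∑ j : Fin 4, b (Fin.castLE (by decide) i) (Fin.natAdd 6 j) * g (Fin.natAdd 6 j) c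
      = 0 := Finset.sum_eq_zero fun j _ => by
    rw [hb _ _ (by
      have := i.2
      rw [Fin.lt_def]
      simp only [Fin.val_castLE, Fin.val_natAdd]
      omega), zero_mul]
  rw [h2, add_zero] at h
  exact h

theorem cor_det {b : M10 R} (hb : Lt b) :
    (cor b).det = ∏ i : Fin 6, b (Fin.castLE (by decide) i) (Fin.castLE (by decide) i) :=
  Matrix.det_of_isLowerTriangular _ fun _ _ h => hb _ _ h

theorem plk_map (f : R →+* S) (M : Matrix (Fin 6) (Fin 10) R) (s : Pl) :
    plk (M.map f) s = f (plk M s) := by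
  unfold plk
  rw [RingHom.map_det]
  rfl

theorem tri_smul (σ : T3 → R) (s t u : R) (x y z : Fin 10 → R) :
    tri σ (s • x) (t • y) (u • z) = s * t * u * tri σ x y z := by
  unfold tri
  rw [Finset.mul_sum]
  refine Finset.sum_congr rfl fun τ _ => ?_
  simp [Matrix.det_fin_three]
  ring

theorem cone_smul (σ : T3 → R) (c : R) {v : Pl → R} (hv : v ∈ cone σ) : c • v ∈ cone σ := by
  obtain ⟨M, hM, rfl⟩ := hv
  refine ⟨Matrix.diagonal ![c, 1, 1, 1, 1, 1] * M, fun a b d => ?_, ?_⟩
  · have : ∀ a, (Matrix.diagonal ![c, 1, 1, 1, 1, 1] * M) a = ![c, 1, 1, 1, 1, 1] a • M a :=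
      fun a => funext fun j => by simp [Matrix.diagonal_mul]
    rw [this, this, this, tri_smul, hM, mul_zero]
  · rw [plk_mul, Matrix.det_diagonal]
    simp [Fin.prod_univ_six]

theorem cf_plk {w : S10} {g : M10 R} (h : CF w g) :
    plk (top g) (fun j => w (Fin.castLE (by decide) j)) = 1 := by
  have ht : ((top g).submatrix id fun j => w (Fin.castLE (by decide) j)).IsUpperTriangular :=
    fun i j hij => (h (Fin.castLE (by decide) i)).2 (Fin.castLE (by decide) j) hij
  unfold plk
  rw [Matrix.det_of_isUpperTriangular ht]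
  exact Finset.prod_eq_one fun i _ => (h _).1

end

theorem low_I0 : Low I0 := by
  intro τ hτ τ' _ _ h
  simp only [I0, Finset.mem_filter, Finset.mem_univ, true_and] at hτ ⊢
  exact lt_of_le_of_lt h hτ

variable {K L : Type} [Field K] [Field L]

theorem plk_lo {b : M10 K} (hb : Lo b) (g : M10 K) :
    ∃ c : K, c ≠ 0 ∧ plk (top (b * g)) = c • plk (top g) :=
  ⟨(cor b).det, by
    rw [cor_det hb.1]
    exact Finset.prod_ne_zero_iff.2 fun i _ => hb.2 _, by rw [top_mul hb.1, plk_mul]⟩

theorem pt_eq {g : M10 K} (h : plk (top g) ≠ 0) : pt g = Projectivization.mk K _ h := dif_neg h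

theorem ne (hN : NfS) (g : M10 K) (hg : g.det ≠ 0) : plk (top g) ≠ 0 := by
  obtain ⟨w, b, hb, h⟩ := hN.ex K g hg
  obtain ⟨c, _, hc⟩ := plk_lo hb g
  intro h0
  have := cf_plk h.1
  rw [hc, h0, smul_zero] at this
  exact zero_ne_one this

theorem lo (b g : M10 K) (hb : Lo b) : pt (b * g) = pt g := by
  obtain ⟨c, hc0, hc⟩ := plk_lo hb g
  by_cases h : plk (top g) = 0
  · have h' : plk (top (b * g)) = 0 := by rw [hc, h, smul_zero]
    unfold pt
    rw [dif_pos h, dif_pos h']
  · have h' : plk (top (b * g)) ≠ 0 := by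
      rw [hc]
      exact smul_ne_zero hc0 h
    rw [pt_eq h, pt_eq h', Projectivization.mk_eq_mk_iff']
    exact ⟨c, hc.symm⟩

theorem map (f : K →+* L) (g : M10 K) : pmap f (pt g) = pt (g.map f) := by
  have e : plk (top (g.map f)) = fun s => f (plk (top g) s) :=
    funext fun s => plk_map f (top g) s
  by_cases h : plk (top g) = 0
  · have h' : plk (top (g.map f)) = 0 := by
      rw [e, h]
      exact funext fun s => map_zero f
    have e1 : (fun s : Pl => f ((1 : Pl → K) s)) = 1 := funext fun s => map_one f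
    unfold pt
    rw [dif_pos h, dif_pos h', pmap_mk f _ (by rw [e1]; exact one_ne_zero)]
    congr 1
  · have h' : plk (top (g.map f)) ≠ 0 := fun h0 => h (funext fun s => by
      have := congrFun h0 s
      rw [e] at this
      exact (map_eq_zero f).1 this)
    rw [pt_eq h, pt_eq h', pmap_mk f _ (e ▸ h')]
    congr 1
    exact e.symm

theorem red (hN : NfS) (P : Plc K L) (g : M10 K) (z : M10 L) (h : OvM P g z) (hz : z.det ≠ 0) :
    P.red (pt g) = pt z := by
  let G : Matrix (Fin 6) (Fin 10) P.V := Matrix.of fun i c => ⟨top g i c, (h _ c).1⟩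
  have e1 : top g = G.map P.V.subtype := rfl
  have e2 : top z = G.map P.φ := by
    ext i c
    exact ((h _ c).2.symm).trans (P.fn_mem (h _ c).1)
  have hv : ∀ s, plk (top g) s = ((plk G s : P.V) : K) := fun s => by
    rw [e1]
    exact plk_map P.V.subtype G s
  have e : (fun s => P.fn (plk (top g) s)) = plk (top z) := funext fun s => by
    rw [hv, P.fn_coe, e2, plk_map]
  have h1 := ne hN z hz
  have h0 : plk (top g) ≠ 0 := fun h0 => h1 (by
    rw [← e, h0]
    exact funext fun s => P.fn_zero)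
  rw [pt_eq h0, pt_eq h1, P.red_mk (fun s => by rw [hv]; exact (plk G s).2) h0 (e ▸ h1)]
  congr 1

theorem hg [Infinite K] (σ : T3 → K) : Hg (dvIdeal σ) := by
  intro f hf j v hv
  by_cases hj : f.totalDegree < j
  · rw [homogeneousComponent_eq_zero _ _ hj, map_zero]
  let p : Polynomial K := ∑ i ∈ Finset.range (f.totalDegree + 1),
    Polynomial.monomial i (aeval v (homogeneousComponent i f))
  have hp : p = 0 := Polynomial.funext fun c => by
    have h := hf _ (cone_smul σ c hv)
    rw [← sum_homogeneousComponent f, map_sum] at h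
    rw [Polynomial.eval_zero, Polynomial.eval_finsetSum, ← h]
    refine Finset.sum_congr rfl fun i _ => ?_
    rw [aeval_smul_homog (homogeneousComponent_isHomogeneous i f), Polynomial.eval_monomial,
      mul_comm]
  have h := congrArg (fun q : Polynomial K => q.coeff j) hp
  simp only [p, Polynomial.finsetSum_coeff, Polynomial.coeff_monomial, Polynomial.coeff_zero,
    Finset.sum_ite_eq', Finset.mem_range] at h
  rwa [if_pos (by omega)] at h

/-- The generic matrix. -/
def XM (k : Type) [Field k] : Matrix (Fin 6) (Fin 10) (MvPolynomial (Fin 6 × Fin 10) k) :=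
  Matrix.of fun a c => X (a, c)

theorem onx (hT : TriS) {k : Type} [Field k] [IsAlgClosed k] [Algebra k K] (σ : T3 → k)
    (M : Matrix (Fin 6) (Fin 10) K)
    (hM : ∀ a b c, tri (fun τ => algebraMap k K (σ τ)) (M a) (M b) (M c) = 0) :
    OnX (dvIdeal σ) (plk M) := by
  intro f hf
  have e1 : ∀ (A : Type) [Field A] [Algebra k A] (N : Matrix (Fin 6) (Fin 10) A),
      aeval (fun u : Fin 6 × Fin 10 => N u.1 u.2) (aeval (plk (XM k)) f) = aeval (plk N) f := by
    intro A _ _ N
    rw [comp_aeval_apply]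
    congr 2
    funext s
    have := plk_map (aeval (fun u : Fin 6 × Fin 10 => N u.1 u.2) :
      MvPolynomial (Fin 6 × Fin 10) k →ₐ[k] A).toRingHom (XM k) s
    refine this.symm.trans ?_
    congr 1
    ext a c
    simp [XM]
  have e2 : ∀ (A : Type) [Field A] [Algebra k A] (N : Matrix (Fin 6) (Fin 10) A) (a b c : Fin 6),
      aeval (fun u : Fin 6 × Fin 10 => N u.1 u.2)
        (tri (fun τ => C (σ τ)) (XM k a) (XM k b) (XM k c)) =
      tri (fun τ => algebraMap k A (σ τ)) (N a) (N b) (N c) := by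
    intro A _ _ N a b c
    have := hT.map _ _ (aeval (fun u : Fin 6 × Fin 10 => N u.1 u.2) :
      MvPolynomial (Fin 6 × Fin 10) k →ₐ[k] A).toRingHom (fun τ => C (σ τ))
      (XM k a) (XM k b) (XM k c)
    refine this.trans ?_
    congr 1 <;> funext u <;> simp [XM]
  let J : Ideal (MvPolynomial (Fin 6 × Fin 10) k) :=
    Ideal.span {q | ∃ a b c, q = tri (fun τ => C (σ τ)) (XM k a) (XM k b) (XM k c)}
  have h1 : aeval (plk (XM k)) f ∈ vanishingIdeal k (zeroLocus k J) := by
    intro y hy
    rw [zeroLocus_span] at hy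
    refine (e1 k (Matrix.of fun a c => y (a, c))).trans (hf _ ⟨_, fun a b c => ?_, rfl⟩)
    exact (e2 k (Matrix.of fun a c => y (a, c)) a b c).symm.trans (hy _ ⟨a, b, c, rfl⟩)
  rw [vanishingIdeal_zeroLocus_eq_radical] at h1
  rw [← e1]
  refine radical_le_vanishingIdeal_zeroLocus (K := K) J h1 _ ?_
  rw [zeroLocus_span]
  rintro q ⟨a, b, c, rfl⟩
  rw [e2, hM]

theorem extend {V : Type} [AddCommGroup V] [Module K V] {n : ℕ} {v : Fin n → V}
    (hv : LinearIndependent K v) (m : ℕ) (h : n + m ≤ Module.finrank K V) :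
    ∃ u : Fin (n + m) → V, LinearIndependent K u ∧ ∀ i, u (Fin.castAdd m i) = v i := by
  induction m with
  | zero => exact ⟨v, hv, fun _ => rfl⟩
  | succ m ih =>
    obtain ⟨u, hu, e⟩ := ih (by omega)
    obtain ⟨x, hx⟩ := exists_linearIndependent_snoc_of_lt_finrank hu (by omega)
    refine ⟨Fin.snoc u x, hx, fun i => ?_⟩
    exact (Fin.snoc_castSucc (α := fun _ => V) x u (Fin.castAdd m i)).trans (e i)

theorem ex_top (M : Matrix (Fin 6) (Fin 10) K) (h : plk M ≠ 0) :
    ∃ g : M10 K, g.det ≠ 0 ∧ top g = M := by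
  obtain ⟨s, hs⟩ := Function.ne_iff.1 h
  have h1 : LinearIndependent K (M.submatrix id s).row :=
    Matrix.linearIndependent_rows_iff_isUnit.2
      ((Matrix.isUnit_iff_isUnit_det _).2 (isUnit_iff_ne_zero.2 hs))
  have h2 : LinearIndependent K M.row := LinearIndependent.of_comp (LinearMap.funLeft K K s) h1
  obtain ⟨u, hu, e⟩ := extend h2 4 (by simp)
  refine ⟨Matrix.of u, ?_, Matrix.ext fun i c => congrFun (e i) c⟩
  exact ((Matrix.isUnit_iff_isUnit_det _).1
    (Matrix.linearIndependent_rows_iff_isUnit.1 hu)).ne_zero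

end Plk

theorem plkS (hT : TriS) (hN : NfS) : PlkS where
  ne := fun _ _ g h => Plk.ne hN g h
  lo := fun _ _ b g h => Plk.lo b g h
  map := fun _ _ _ _ f g => Plk.map f g
  red := fun _ _ _ _ P g z h hz => Plk.red hN P g z h hz
  hg := fun _ _ _ σ => Plk.hg σ
  on := fun k K _ _ _ _ σ g hg hV => by
    rw [Plk.pt_eq (Plk.ne hN g hg), on_mk (Plk.hg σ)]
    exact Plk.onx hT σ _ ((hT.kills K _ g).1 hV)
  ex := fun K _ σ x hx => by
    obtain ⟨M, hM, e⟩ := hx
    have h0 : plk M ≠ 0 := e ▸ x.rep_nonzero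
    obtain ⟨g, hg, rfl⟩ := Plk.ex_top M h0
    obtain ⟨w, b, hb, h⟩ := hN.ex K g hg
    refine ⟨w, b * g, ⟨h, (hT.low K σ b g I0 hb.1 Plk.low_I0 ((hT.kills K σ g).2 hM)).1⟩, ?_⟩
    rw [Plk.lo b g hb, Plk.pt_eq h0]
    conv_rhs => rw [← x.mk_rep]
    congr 1
    exact e.symm

end Pool.Agent.MP_59fd2e_ag.DV
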