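import Pool.Agent.MP_59fd2e_ag.dv.Spec

/-! PROJECT DV, row PSF: a stratum of dimension zero is one orbit. -/

noncomputable section

namespace Pool.Agent.MP_59fd2e_ag.DV

open MvPolynomial Matrix Pool.Agent.MP_9207e0_ag.CC
open scoped Classical

namespace Psf

variable {k0 k : Type} [Field k0] [Field k] [Algebra k0 k] {σ : T3 → k} {w : S10} {I : Finset T3}

theorem co_inj (hC : ChartS) (k0 : Type) [Field k0] [Algebra k0 k] {g g' : M10 k}
    (hg : g ∈ PS σ w I) (hg' : g' ∈ PS σ w I) (h : co w I σ g = co w I σ g') : g = g' := by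
  rw [← (hC.ps k0 k w I σ g hg).1, ← (hC.ps k0 k w I σ g' hg').1, h]

theorem map_mem (hC : ChartS) {θ : k ≃ₐ[k0] k} (hθ : Fx k0 σ θ) {g : M10 k}
    (hg : g ∈ PS σ w I) : g.map (θ : k →+* k) ∈ PS σ w I ∧
      co w I σ (g.map (θ : k →+* k)) = (θ : k →+* k) ∘ co w I σ g := by
  have h := hC.ps_map k k (θ : k →+* k) w I σ g hg
  have e : (θ : k →+* k) ∘ σ = σ := funext fun j => hθ j
  rwa [e] at h

theorem conj [IsAlgClosed k] (hC : ChartS) (hJ : ConjS) (hσ : IsTranscendenceBasis k0 σ)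
    (hw : len w + I.card = 45) {g g' : M10 k} (hg : g ∈ PS σ w I) (hg' : g' ∈ PS σ w I) :
    ∃ θ, Fx k0 σ θ ∧ θ ∘ co w I σ g = co w I σ g' ∧ g.map (θ : k →+* k) = g' := by
  have i1 := (hC.cnt k0 k w I σ g hσ.1 hg).2.1 hw
  have i2 := (hC.cnt k0 k w I σ g' hσ.1 hg').2.1 hw
  obtain ⟨θ, h1, h2⟩ := hJ.ex k0 k T3 (Ix w I) σ (co w I σ g) (co w I σ g') (sI k0 w I) hσ
    (ASp.of_indep i1 _) (ASp.of_indep i2 _) (hC.ps k0 k w I σ g hg).2 (hC.ps k0 k w I σ g' hg').2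
  refine ⟨θ, h1, funext h2, co_inj hC k0 (map_mem hC h1 hg).1 hg' ?_⟩
  rw [(map_mem hC h1 hg).2]
  exact funext h2

theorem fin [IsAlgClosed k] (hC : ChartS) (hJ : ConjS) (hσ : IsTranscendenceBasis k0 σ)
    (hw : len w + I.card = 45) : (PS σ w I).Finite := by
  rcases (PS σ w I).eq_empty_or_nonempty with h | ⟨g, hg⟩
  · rw [h]; exact Set.finite_empty
  · refine Set.Finite.of_finite_image (f := co w I σ) ?_ fun a ha b hb h => co_inj hC k0 ha hb h
    refine (hJ.fin k0 k T3 (Ix w I) σ (co w I σ g) hσ).subset ?_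
    rintro _ ⟨g', hg', rfl⟩
    obtain ⟨θ, h1, h2, _⟩ := conj hC hJ hσ hw hg hg'
    exact ⟨θ, h1, h2⟩

theorem inv (hC : ChartS) (hP : PlkS) (T : Finset (M10 k)) (hT : ∀ g, g ∈ T ↔ g ∈ PS σ w I) :
    Inv k0 σ (T.val.map pt) := by
  intro θ hθ
  have hi : Function.Injective fun g : M10 k => g.map (θ : k →+* k) :=
    Matrix.map_injective (θ : k →+* k).injective
  have e : T.image (fun g : M10 k => g.map (θ : k →+* k)) = T := by
    refine Finset.eq_of_subset_of_card_le ?_ (Finset.card_image_of_injective T hi).ge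
    intro x hx
    obtain ⟨g, hg, rfl⟩ := Finset.mem_image.1 hx
    exact (hT _).2 (map_mem hC hθ ((hT g).1 hg)).1
  have e2 : T.val.map (fun g : M10 k => g.map (θ : k →+* k)) = T.val := by
    rw [← Finset.image_val_of_injOn hi.injOn, e]
  calc (T.val.map pt).map (pmap (θ : k →+* k))
      = (T.val.map fun g : M10 k => g.map (θ : k →+* k)).map pt := by
        rw [Multiset.map_map, Multiset.map_map]
        exact Multiset.map_congr rfl fun g _ => hP.map k k (θ : k →+* k) g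
    _ = T.val.map pt := by rw [e2]

end Psf

theorem psfS (hC : ChartS) (hJ : ConjS) (hO : OrbS) (hP : PlkS) : PsfS := by
  intro k0 k _ _ _ _ σ w I hσ hw
  have hf := Psf.fin hC hJ hσ hw
  refine ⟨hf, fun g hg => ?_⟩
  have hT : ∀ x, x ∈ hf.toFinset ↔ x ∈ PS σ w I := fun x => hf.mem_toFinset
  obtain ⟨m, h1, h2, _⟩ := hO k0 k σ ⊥ (hf.toFinset.val.map pt) (pt g) hσ
    (Psf.inv hC hP _ hT) (by
      intro x hx
      obtain ⟨g', hg', rfl⟩ := Multiset.mem_map.1 hx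
      obtain ⟨θ, t1, _, t3⟩ := Psf.conj hC hJ hσ hw hg ((hT g').1 hg')
      exact Or.inr ⟨θ, t1, by rw [hP.map, t3]⟩)
  have hm : 0 < m := h1 (Multiset.mem_map.2 ⟨g, (hT g).2 hg, rfl⟩)
  refine ⟨m, by exact_mod_cast hm.ne', ?_⟩
  rw [← sub_eq_zero.1 ((Submodule.mem_bot ℚ).1 h2), CC, finsum_mem_eq_finite_toFinset_sum _ hf,
    Multiset.map_map]
  rfl

end Pool.Agent.MP_59fd2e_ag.DV
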