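import Pool.Agent.MP_59fd2e_ag.dv.Spec

/-! The rule of Monk for the classes of the strata. -/

noncomputable section

namespace Pool.Agent.MP_59fd2e_ag.DV

open MvPolynomial Matrix Pool.Agent.MP_9207e0_ag.CC
open scoped Classical

namespace Rel

theorem sum_fib {α β γ δ H : Type} [AddCommMonoid H] (T : Finset α) (R : α → δ → β → Prop)
    (ρ : α → β) (J : Finset γ) (W : γ → δ) (A : γ → Set β) (F : β → H)
    (hu : ∀ g w z w' z', R g w z → R g w' z' → w = w' ∧ z = z') (hW : Set.InjOn W J)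
    (ha : ∀ g ∈ T, ∃ j ∈ J, R g (W j) (ρ g) ∧ ρ g ∈ A j)
    (hb : ∀ j ∈ J, ∀ z ∈ A j, ∃! g, g ∈ T ∧ R g (W j) z) :
    ∑ g ∈ T, F (ρ g) = ∑ j ∈ J, ∑ᶠ z ∈ A j, F z := by
  have e : ∀ g ∈ T, F (ρ g) = ∑ j ∈ J, if R g (W j) (ρ g) then F (ρ g) else 0 := by
    intro g hg
    obtain ⟨j, hj, h1, -⟩ := ha g hg
    rw [Finset.sum_eq_single_of_mem j hj, if_pos h1]
    intro i hi hij
    exact if_neg fun h2 => hij (hW hi hj (hu _ _ _ _ _ h2 h1).1)
  rw [Finset.sum_congr rfl e, Finset.sum_comm]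
  refine Finset.sum_congr rfl fun j hj => ?_
  rw [← Finset.sum_filter, ← finsum_mem_coe_finset]
  have hm : ∀ g ∈ T, R g (W j) (ρ g) → ρ g ∈ A j := by
    intro g hg h1
    obtain ⟨i, hi, h2, h3⟩ := ha g hg
    rwa [hW hj hi (hu _ _ _ _ _ h1 h2).1]
  refine finsum_mem_eq_of_bijOn ρ ⟨fun g hg => ?_, fun g hg g' hg' e => ?_, fun z hz => ?_⟩
    fun _ _ => rfl
  · obtain ⟨h1, h2⟩ := Finset.mem_filter.1 hg
    exact hm g h1 h2
  · obtain ⟨h1, h2⟩ := Finset.mem_filter.1 hg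
    obtain ⟨h3, h4⟩ := Finset.mem_filter.1 hg'
    exact (hb j hj _ (hm g h1 h2)).unique ⟨h1, h2⟩ ⟨h3, e ▸ h4⟩
  · obtain ⟨g, ⟨h1, h2⟩, -⟩ := hb j hj z hz
    obtain ⟨i, -, h3, -⟩ := ha g h1
    have h4 := (hu _ _ _ _ _ h2 h3).2
    exact ⟨g, Finset.mem_filter.2 ⟨h1, h4 ▸ h2⟩, h4.symm⟩

theorem rd_uniq (hW : IwaS) {K L : Type} [Field K] [Field L] (P : Plc K L) (g : M10 K) (w : S10)
    (z : M10 L) (w' : S10) (z' : M10 L) (h : RD P g w z) (h' : RD P g w' z') :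
    w = w' ∧ z = z' := by
  obtain ⟨a1, b, a2, a3, a4⟩ := h
  obtain ⟨c1, b', c2, c3, c4⟩ := h'
  have := hW.uniq K L P g b b' w w' z z' a2 c2 a3 c3 a4 c4 a1 c1
  exact ⟨this.1, this.2.2⟩

theorem xs_ov {K L : Type} [Field K] [Field L] (P : Plc K L) (p q : Fin 10) {s : K} {u : M10 K}
    {z : M10 L} (h1 : s ∈ P.V) (h2 : P.fn s = 0) (h : OvM P u z) : OvM P (xs p q s * u) z := by
  intro i j
  have e : (xs p q s * u) i j = u i j + if i = p then s * u q j else 0 := by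
    rw [xs, add_mul, one_mul, Matrix.add_apply]
    split_ifs with hi
    · rw [hi, Matrix.single_mul_apply_same]
    · rw [Matrix.single_mul_apply_of_ne _ _ _ _ _ hi]
  rw [e]
  split_ifs with hi
  · have h3 := P.V.mul_mem _ _ h1 (h q j).1
    refine ⟨P.V.add_mem _ _ (h i j).1 h3, ?_⟩
    rw [P.fn_add (h i j).1 h3, P.fn_mul h1 (h q j).1, h2, zero_mul, add_zero, (h i j).2]
  · rw [add_zero]
    exact h i j

variable {k : Type} [Field k]

theorem ov_sL (σ : T3 → k) {P : Plc (LL k) k} (hP : P.Over k) : Ov P (sL σ) σ := fun j => hP (σ j)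

/-- The relation at a boundary divisor, with the value of the right side. -/
theorem bd (hT : TriS) {σ : T3 → k} {P : Plc (LL k) k} (hP : P.Over k) {w : S10} {I : Finset T3}
    {τ : T3} {g : M10 (LL k)} {p q : Fin 10} {z : M10 k} (hz : lam σ z τ ≠ 0)
    (h : Bd σ P w I τ g p q z) : ∃ s l : LL k, s ≠ 0 ∧ s ∈ P.V ∧ P.fn s = 0 ∧ l ∈ P.V ∧
      P.fn l ≠ 0 ∧ lam (sL σ) g τ * (if In p τ then s else 1) = (if In q τ then -s else 1) * l := by
  obtain ⟨s, u, b, a1, a2, a3, -, a5, -, -, -, a9⟩ := h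
  have := hT.ov _ _ P _ _ _ _ (ov_sL σ hP) (xs_ov P p q a2 a3 a5) τ
  exact ⟨s, _, a1, a2, a3, this.1, this.2 ▸ hz, a9⟩

theorem zero_case {K L : Type} [Field K] [Field L] (P : Plc K L) {t s l : K} {A B : Prop}
    [Decidable A] [Decidable B] (t1 : t ∈ P.V) (t2 : P.fn t = 0) (s0 : s ≠ 0) (s1 : s ∈ P.V)
    (l1 : l ∈ P.V) (l2 : P.fn l ≠ 0)
    (e : t * (if A then s else 1) = (if B then -s else 1) * l) : B ∧ ¬ A := by
  by_cases hA : A <;> by_cases hB : B <;> simp only [hA, hB, if_true, if_false] at e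
  · have : t = -l := mul_right_cancel₀ s0 (by rw [e]; ring)
    rw [this, P.fn_neg l1, neg_eq_zero] at t2
    exact absurd t2 l2
  · rw [one_mul] at e
    rw [← e, P.fn_mul t1 s1, t2, zero_mul] at l2
    exact absurd rfl l2
  · exact ⟨hB, hA⟩
  · rw [one_mul, mul_one] at e
    exact absurd (e ▸ t2) l2

theorem pole_case {K L : Type} [Field K] [Field L] (P : Plc K L) {t s l : K} {A B : Prop}
    [Decidable A] [Decidable B] (t1 : t ∉ P.V) (s0 : s ≠ 0) (s1 : s ∈ P.V) (l1 : l ∈ P.V)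
    (e : t * (if A then s else 1) = (if B then -s else 1) * l) : A ∧ ¬ B := by
  by_cases hA : A <;> by_cases hB : B <;> simp only [hA, hB, if_true, if_false] at e
  · have : t = -l := mul_right_cancel₀ s0 (by rw [e]; ring)
    exact absurd (this ▸ P.V.neg_mem _ l1) t1
  · exact ⟨hA, hB⟩
  · rw [mul_one] at e
    exact absurd (e ▸ P.V.mul_mem _ _ (P.V.neg_mem _ s1) l1) t1
  · rw [one_mul, mul_one] at e
    exact absurd (e ▸ l1) t1

end Rel

theorem relS (h1 : L1S) (h2 : L2S) (h3 : L3S) (hF : FamS) (_hP : PsfS) (hW : IwaS) (hL : LenS)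
    (hT : TriS) (hN : NfS) (hC : ChartS) : RelS := by
  intro k0 k _ _ _ _ _ σ w I τ hσ cu hI
  have : CharZero k := charZero_of_injective_algebraMap (algebraMap k0 k).injective
  obtain ⟨⟨P, hP⟩, Q, hQ⟩ := exists_zr (K := k)
  obtain ⟨T, hT'⟩ := (h2 k0 k σ P w I τ hσ cu).1.exists_finset
  have hdet : ∀ g ∈ T, g.det ≠ 0 := fun g hg h0 => by
    have := hN.det _ w g ((hT' g).1 hg).1.1.1
    rw [h0, zero_mul] at this
    exact zero_ne_one this
  choose! ω ρ hρ using fun g (hg : g ∈ T) => hW.ex _ _ P g hP.1 (hdet g hg)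
  choose! ω' ρ' hρ' using fun g (hg : g ∈ T) => hW.ex _ _ Q g hQ.1 (hdet g hg)
  have mc : ∀ x, x ∈ cvs w ↔ Cov w x.1 x.2 := fun x => by simp [cvs]
  have inj : ∀ x ∈ cvs w, ∀ y ∈ cvs w, sw w x.1 x.2 = sw w y.1 y.2 → x = y := fun x hx y hy e =>
    Prod.ext_iff.2 (hL.inj w _ _ _ _ ((mc x).1 hx).1 ((mc y).1 hy).1 e)
  have ne : ∀ x ∈ cvs w, sw w x.1 x.2 ≠ w := fun x hx e => by
    have := hL.cov w _ _ ((mc x).1 hx)
    rw [e] at this
    omega
  have t0 : tt k ≠ 0 := (map_ne_zero _).2 RatFunc.X_ne_zero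
  have tQ : tt k ∉ Q.V := by
    simpa only [inv_inv] using Q.notMem_inv (inv_ne_zero t0) hQ.2.1 hQ.2.2
  have key := hF.eq k σ T P Q ρ ρ'
    (fun g hg => ⟨hdet g hg, fun j hj => ((hT' g).1 hg).1.2 j (hI hj)⟩)
    (fun φ g hg => by
      have e : (φ : LL k →+* LL k) ∘ sL σ = sL σ := funext fun j => by
        rw [Function.comp_apply, sL, IsScalarTower.algebraMap_apply k (RatFunc k) (LL k)]
        exact φ.commutes _
      obtain ⟨a1, a2⟩ := (hT' g).1 hg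
      have a3 := (hC.ps_map _ _ (φ : LL k →+* LL k) w I _ g a1).1
      have a4 := hT.lam_map _ _ (φ : LL k →+* LL k) (sL σ) g τ
      rw [e] at a3 a4
      rw [a2] at a4
      exact (hT' _).2 ⟨a3, a4.symm.trans (φ.commutes _)⟩)
    hP hQ (fun g hg => ⟨_, hρ g hg⟩) fun g hg => ⟨_, hρ' g hg⟩
  have eP := Rel.sum_fib T (RD P) ρ
    (Finset.insertNone ((cvs w).filter fun x => In x.2 τ ∧ ¬ In x.1 τ))
    (fun j => j.elim w fun x => sw w x.1 x.2)
    (fun j => j.elim (PS σ w (insert τ I)) fun x => PS σ (sw w x.1 x.2) I)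
    (fun z => ee σ (pt z)) (Rel.rd_uniq hW P)
    (by
      rintro (_ | x) hx (_ | y) hy e
      · rfl
      · exact absurd e.symm (ne y (Finset.mem_filter.1 (Finset.some_mem_insertNone.1 hy)).1)
      · exact absurd e (ne x (Finset.mem_filter.1 (Finset.some_mem_insertNone.1 hx)).1)
      · rw [inj x (Finset.mem_filter.1 (Finset.some_mem_insertNone.1 hx)).1 y
          (Finset.mem_filter.1 (Finset.some_mem_insertNone.1 hy)).1 e])
    (fun g hg => by
      obtain ⟨a1, a2⟩ := (hT' g).1 hg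
      have a0 := hρ g hg
      obtain ⟨b1, ⟨b2, b3⟩ | ⟨p, q, b2, b3, b4, b5⟩⟩ :=
        h1 k0 k σ P w _ I τ g _ hσ.1 cu hP.1 a1 a0
      · rw [b2] at a0 b1
        refine ⟨none, Finset.none_mem_insertNone, a0, b1.1, fun j hj => ?_⟩
        rcases Finset.mem_insert.1 hj with rfl | hj
        · rw [← (hT.ov _ _ P _ _ _ _ (Rel.ov_sL σ hP.1) b3 j).2, a2]
          exact hP.2.2
        · exact b1.2 j hj
      · rw [b3] at a0 b1
        obtain ⟨s, l, c1, c2, -, c4, c5, c6⟩ := Rel.bd hT hP.1 b4 b5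
        rw [a2] at c6
        exact ⟨some (p, q), Finset.some_mem_insertNone.2 (Finset.mem_filter.2
          ⟨(mc _).2 b2, Rel.zero_case P hP.2.1 hP.2.2 c1 c2 c4 c5 c6⟩), a0, b1⟩)
    (by
      rintro (_ | x) hx z hz
      · simpa only [hT', Option.elim] using (h2 k0 k σ P w I τ hσ cu).2 z hz hP
      · obtain ⟨a1, a2⟩ := Finset.mem_filter.1 (Finset.some_mem_insertNone.1 hx)
        simpa only [hT', Option.elim] using
          h3 k0 k σ P w I τ x.1 x.2 z hσ cu ((mc x).1 a1) hz (.inl ⟨a2.1, a2.2, hP⟩))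
  have eQ := Rel.sum_fib T (RD Q) ρ' ((cvs w).filter fun x => In x.1 τ ∧ ¬ In x.2 τ)
    (fun x => sw w x.1 x.2) (fun x => PS σ (sw w x.1 x.2) I)
    (fun z => ee σ (pt z)) (Rel.rd_uniq hW Q)
    (fun x hx y hy e => inj x (Finset.mem_filter.1 hx).1 y (Finset.mem_filter.1 hy).1 e)
    (fun g hg => by
      obtain ⟨a1, a2⟩ := (hT' g).1 hg
      have a0 := hρ' g hg
      obtain ⟨b1, ⟨b2, b3⟩ | ⟨p, q, b2, b3, b4, b5⟩⟩ :=
        h1 k0 k σ Q w _ I τ g _ hσ.1 cu hQ.1 a1 a0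
      · exact absurd (a2 ▸ (hT.ov _ _ Q _ _ _ _ (Rel.ov_sL σ hQ.1) b3 τ).1) tQ
      · rw [b3] at a0 b1
        obtain ⟨s, l, c1, c2, -, c4, -, c6⟩ := Rel.bd hT hQ.1 b4 b5
        rw [a2] at c6
        exact ⟨(p, q), Finset.mem_filter.2
          ⟨(mc _).2 b2, Rel.pole_case Q tQ c1 c2 c4 c6⟩, a0, b1⟩)
    (fun x hx z hz => by
      obtain ⟨a1, a2⟩ := Finset.mem_filter.1 hx
      simpa only [hT'] using
        h3 k0 k σ Q w I τ x.1 x.2 z hσ cu ((mc x).1 a1) hz (.inr ⟨a2.1, a2.2, hQ⟩))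
  rw [eP, eQ, Finset.sum_insertNone, Finset.sum_filter, Finset.sum_filter,
    ← eq_sub_iff_add_eq, ← Finset.sum_sub_distrib] at key
  refine key.trans (Finset.sum_congr rfl fun x _ => ?_)
  by_cases hp : In x.1 τ <;> by_cases hq : In x.2 τ <;> simp [mco, CC, hp, hq]

end Pool.Agent.MP_59fd2e_ag.DV
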