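import Pool.Agent.MP_59fd2e_ag.dv.Spec

/-! Row SORT: sorting inside blocks. -/

namespace Pool.Agent.MP_59fd2e_ag.DV

open Finset

namespace Srt

theorem srt (β : Fin 10 → ℕ) (hβ : Monotone β) (w : S10) : ∃ π : S10, (∀ i, β (π i) = β i) ∧
    ∀ i j, i < j → β i = β j → (w * π) j < (w * π) i := by
  let f : Fin 10 → ℕ := fun i => 10 * β i + (9 - (w i).val)
  have hm : Monotone (f ∘ Tuple.sort f) := Tuple.monotone_sort f
  have hb : Monotone (β ∘ Tuple.sort f) := by
    intro i j hij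
    have h1 : 10 * β (Tuple.sort f i) + (9 - (w (Tuple.sort f i)).val) ≤
      10 * β (Tuple.sort f j) + (9 - (w (Tuple.sort f j)).val) := hm hij
    show β (Tuple.sort f i) ≤ β (Tuple.sort f j)
    omega
  have he : β ∘ Tuple.sort f = β ∘ (1 : S10) := Tuple.unique_monotone hb hβ
  have he' : ∀ i, β (Tuple.sort f i) = β i := fun i => congrFun he i
  refine ⟨Tuple.sort f, he', fun i j hij hb2 => ?_⟩
  have h1 : 10 * β (Tuple.sort f i) + (9 - (w (Tuple.sort f i)).val) ≤
    10 * β (Tuple.sort f j) + (9 - (w (Tuple.sort f j)).val) := hm hij.le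
  rw [he', he', hb2] at h1
  have h2 : w (Tuple.sort f i) ≠ w (Tuple.sort f j) := fun h =>
    hij.ne ((Tuple.sort f).injective (w.injective h))
  have h3 : (w (Tuple.sort f i)).val ≠ (w (Tuple.sort f j)).val := fun h => h2 (Fin.ext h)
  have h4 := (w (Tuple.sort f i)).isLt
  have h5 := (w (Tuple.sort f j)).isLt
  show w (Tuple.sort f j) < w (Tuple.sort f i)
  rw [Fin.lt_def]
  omega

def b2 (i : Fin 10) : ℕ := if i.val < 6 then 0 else 1

def b3 (i : Fin 10) : ℕ := if i.val = 0 then 0 else if i.val < 6 then 1 else 2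

def pr (β : Fin 10 → ℕ) : Finset (Fin 10 × Fin 10) :=
  univ.filter fun x => x.1 < x.2 ∧ β x.1 = β x.2

theorem pr2 : (pr b2).card = 21 := by decide +kernel

theorem pr3 : (pr b3).card = 16 := by decide +kernel

theorem m2 : Monotone b2 := by
  intro i j hij
  have : i.val ≤ j.val := hij
  unfold b2
  split_ifs <;> omega

theorem m3 : Monotone b3 := by
  intro i j hij
  have : i.val ≤ j.val := hij
  unfold b3
  split_ifs <;> omega

theorem b2_eq {i j : Fin 10} : b2 i = b2 j ↔ (i.val < 6 ↔ j.val < 6) := by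
  by_cases h1 : i.val < 6 <;> by_cases h2 : j.val < 6 <;> simp [b2, h1, h2]

/-- The inversions split. -/
theorem len_eq (w : S10) : len w = gco w + ((pr b2).filter fun x => w x.2 < w x.1).card := by
  unfold len gco
  rw [← card_union_of_disjoint]
  · congr 1
    ext x
    simp only [mem_filter, mem_univ, true_and, mem_union, pr, b2_eq, Fin.lt_def]
    omega
  · rw [disjoint_left]
    intro x h1 h2
    simp only [mem_filter, mem_univ, true_and, pr, b2_eq, Fin.lt_def] at h1 h2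
    omega

theorem gco_mul (w π : S10) (h : ∀ i, (π i).val < 6 ↔ i.val < 6) : gco (w * π) = gco w := by
  unfold gco
  refine card_bijective (fun x => (π x.1, π x.2)) (Equiv.prodCongr π π).bijective fun x => ?_
  have h1 := h x.1
  have h2 := h x.2
  simp only [mem_filter, mem_univ, true_and, Equiv.Perm.mul_apply, Fin.lt_def]
  omega

theorem two (w : S10) : ∃ π : S10, (∀ i, (π i).val < 6 ↔ i.val < 6) ∧
    gco w + 21 ≤ len (w * π) := by
  obtain ⟨π, h1, h2⟩ := srt b2 m2 w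
  have h3 : ∀ i, (π i).val < 6 ↔ i.val < 6 := fun i => b2_eq.1 (h1 i)
  refine ⟨π, h3, ?_⟩
  rw [len_eq, gco_mul w π h3, filter_true_of_mem, pr2]
  intro x hx
  simp only [pr, mem_filter, mem_univ, true_and] at hx
  exact h2 _ _ hx.1 hx.2

theorem three (w : S10) : ∃ π : S10, π 0 = 0 ∧ (∀ i, (π i).val < 6 ↔ i.val < 6) ∧
    16 ≤ len (w * π) := by
  obtain ⟨π, h1, h2⟩ := srt b3 m3 w
  refine ⟨π, ?_, fun i => ?_, ?_⟩
  · have := h1 0
    apply Fin.ext
    unfold b3 at this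
    simp only [Fin.val_zero, if_true] at this ⊢
    split_ifs at this
    omega
  · have := h1 i
    unfold b3 at this
    split_ifs at this <;> omega
  · rw [← pr3]
    refine card_le_card fun x hx => ?_
    simp only [pr, mem_filter, mem_univ, true_and] at hx ⊢
    exact ⟨hx.1, h2 _ _ hx.1 hx.2⟩

def cn (l m : List ℕ) : ℕ := (l.map fun a => (m.map fun b => if b < a then 1 else 0).sum).sum

def Q2 (l : List ℕ) : Prop := l ∈
    [[9, 4, 3, 2, 1, 0, 8, 7, 6, 5], [8, 5, 3, 2, 1, 0, 9, 7, 6, 4], [7, 6, 3, 2, 1, 0, 9, 8, 5, 4],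
      [7, 5, 4, 2, 1, 0, 9, 8, 6, 3], [6, 5, 4, 3, 1, 0, 9, 8, 7, 2]]

instance (l : List ℕ) : Decidable (Q2 l) := by
  unfold Q2
  infer_instance

def Q1 (l : List ℕ) (a6 a7 a8 : ℕ) : Prop :=
  ∀ a9 < a8, a9 ∉ l → cn l [a6, a7, a8, a9] = 4 → Q2 (l ++ [a6, a7, a8, a9])

instance (l : List ℕ) (a b c : ℕ) : Decidable (Q1 l a b c) := by
  unfold Q1
  infer_instance

def Q0 (l : List ℕ) (a6 a7 : ℕ) : Prop := ∀ a8 < a7, a8 ∉ l → Q1 l a6 a7 a8

instance (l : List ℕ) (a b : ℕ) : Decidable (Q0 l a b) := by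
  unfold Q0
  infer_instance

def Q (l : List ℕ) : Prop := ∀ a6 < 10, a6 ∉ l → ∀ a7 < a6, a7 ∉ l → Q0 l a6 a7

instance (l : List ℕ) : Decidable (Q l) := by
  unfold Q
  infer_instance

theorem fin5 : ∀ a0 < 10, ∀ a1 < a0, ∀ a2 < a1, ∀ a3 < a2, ∀ a4 < a3, ∀ a5 < a4,
    Q [a0, a1, a2, a3, a4, a5] := by
  decide +kernel

theorem gco_cn (w : S10) : gco w = cn [w 0, w 1, w 2, w 3, w 4, w 5] [w 6, w 7, w 8, w 9] := by
  unfold gco cn
  rw [card_filter, Fintype.sum_prod_type]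
  simp only [Fin.lt_def]
  simp [Fin.sum_univ_succ, -Fin.val_fin_lt, -sum_boole]

theorem five (w : S10) (h1 : len w = 25) (h2 : gco w ≤ 4) : List.ofFn (fun i => (w i).val) ∈
    [[9, 4, 3, 2, 1, 0, 8, 7, 6, 5], [8, 5, 3, 2, 1, 0, 9, 7, 6, 4], [7, 6, 3, 2, 1, 0, 9, 8, 5, 4],
      [7, 5, 4, 2, 1, 0, 9, 8, 6, 3], [6, 5, 4, 3, 1, 0, 9, 8, 7, 2]] := by
  have e := len_eq w
  have hs : ((pr b2).filter fun x => w x.2 < w x.1) ⊆ pr b2 := filter_subset _ _
  have hc := card_le_card hs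
  rw [pr2] at hc
  have hq := eq_of_subset_of_card_le hs (by rw [pr2]; omega)
  have hd : ∀ i j : Fin 10, i < j → b2 i = b2 j → (w j).val < (w i).val := by
    intro i j hij hb
    have : (i, j) ∈ pr b2 := by
      simp only [pr, mem_filter, mem_univ, true_and]
      exact ⟨hij, hb⟩
    rw [← hq] at this
    exact (mem_filter.1 this).2
  have hn : ∀ j : Fin 10, 6 ≤ j.val → (w j).val ∉
      [(w 0).val, (w 1).val, (w 2).val, (w 3).val, (w 4).val, (w 5).val] := by
    intro j hj hm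
    simp only [List.mem_cons, List.not_mem_nil, or_false, Fin.val_inj, EmbeddingLike.apply_eq_iff_eq] at hm
    rcases hm with rfl | rfl | rfl | rfl | rfl | rfl <;> exact absurd hj (by decide)
  have hl : List.ofFn (fun i => (w i).val) = [(w 0).val, (w 1).val, (w 2).val, (w 3).val, (w 4).val,
      (w 5).val, (w 6).val, (w 7).val, (w 8).val, (w 9).val] := by
    simp [List.ofFn_succ]
  rw [hl]
  refine fin5 _ (w 0).isLt _ (hd 0 1 (by decide) rfl) _ (hd 1 2 (by decide) rfl) _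
    (hd 2 3 (by decide) rfl) _ (hd 3 4 (by decide) rfl) _ (hd 4 5 (by decide) rfl) _ (w 6).isLt
    (hn 6 (by decide)) _ (hd 6 7 (by decide) rfl) (hn 7 (by decide)) _ (hd 7 8 (by decide) rfl)
    (hn 8 (by decide)) _ (hd 8 9 (by decide) rfl) (hn 9 (by decide)) ?_
  rw [← gco_cn]
  omega

end Srt

theorem sortS : SortS := ⟨Srt.two, Srt.three, Srt.five⟩

end Pool.Agent.MP_59fd2e_ag.DV
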