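import Pool.Agent.MP_59fd2e_ag.dv.Spec

/-! PROJECT DV: the theorem from the rows. -/

noncomputable section

namespace Pool.Agent.MP_59fd2e_ag.DV

open MvPolynomial Matrix Pool.Agent.MP_9207e0_ag.CC
open scoped Classical

namespace TopA

variable {k0 k : Type} [Field k0] [Field k] [Algebra k0 k]

/-- The positive part of a cycle. -/
def ps (Z : PP Pl k →₀ ℤ) : Multiset (PP Pl k) :=
  Finsupp.toMultiset (Z.mapRange Int.toNat Int.toNat_zero)

theorem count_ps (Z : PP Pl k →₀ ℤ) (x : PP Pl k) : (ps Z).count x = (Z x).toNat := by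
  unfold ps
  rw [Finsupp.count_toMultiset, Finsupp.mapRange_apply]

theorem cyc_ps (Z : PP Pl k →₀ ℤ) : cyc (ps Z) - cyc (ps (-Z)) = Z := by
  ext x
  rw [Finsupp.sub_apply, cyc_apply, cyc_apply, count_ps, count_ps, Finsupp.neg_apply]
  omega

theorem mem_ps {Z : PP Pl k →₀ ℤ} {x : PP Pl k} (h : x ∈ ps Z) : x ∈ Z.support := by
  rw [← Multiset.count_pos, count_ps] at h
  rw [Finsupp.mem_support_iff]
  omega

theorem inv_ps {σ : T3 → k} {Z : PP Pl k →₀ ℤ}
    (h : ∀ θ : k ≃ₐ[k0] k, (∀ τ, θ (σ τ) = σ τ) → Z.mapDomain (pmap (θ : k →+* k)) = Z) :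
    Inv k0 σ (ps Z) := fun θ hθ => by
  ext y
  obtain ⟨x, rfl⟩ : ∃ x, pmap (θ : k →+* k) x = y := by
    refine ⟨pmap (θ.symm : k →+* k) y, ?_⟩
    rw [pmap_pmap]
    have : (θ : k →+* k).comp (θ.symm : k →+* k) = RingHom.id k :=
      RingHom.ext fun c => θ.apply_symm_apply c
    rw [this, pmap_id]
  rw [Multiset.count_map_eq_count' _ _ (pmap_injective _), count_ps, count_ps]
  conv_rhs => rw [← h θ hθ, Finsupp.mapDomain_apply (pmap_injective _)]

theorem deg_cyc (A : Multiset (PP Pl k)) : ((cyc A).sum fun _ n => n) = (A.card : ℤ) := by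
  induction A using Multiset.induction_on with
  | empty => rw [cyc_zero]; simp
  | cons x A ih =>
    rw [← Multiset.singleton_add, cyc_add, cyc_singleton,
      Finsupp.sum_add_index' (fun _ => rfl) (fun _ _ _ => rfl), ih, Finsupp.sum_single_index rfl]
    simp [add_comm]

theorem deg_sum {σ : T3 → k} (d : HQ σ →ₗ[ℚ] ℚ) (hd : ∀ x, d (ee σ x) = 1)
    (A : Multiset (PP Pl k)) : d (A.map (ee σ)).sum = A.card := by
  induction A using Multiset.induction_on with
  | empty => simp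
  | cons x A ih =>
    rw [Multiset.map_cons, Multiset.sum_cons, map_add, hd, ih, Multiset.card_cons]
    push_cast
    ring

theorem cc_empty {σ : T3 → k} {w : S10} {I : Finset T3} (h : PS σ w I = ∅) : CC σ w I = 0 := by
  unfold CC
  rw [h, finsum_mem_empty]

theorem cc_zero {σ : T3 → k} (d : HQ σ →ₗ[ℚ] ℚ) (hd : ∀ x, d (ee σ x) = 1) {w : S10}
    {I : Finset T3} (hf : (PS σ w I).Finite) (h : d (CC σ w I) = 0) : CC σ w I = 0 := by
  refine cc_empty ?_
  unfold CC at h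
  rw [finsum_mem_eq_finite_toFinset_sum _ hf, map_sum] at h
  simp only [hd, Finset.sum_const, nsmul_eq_mul, mul_one, Nat.cast_eq_zero, Finset.card_eq_zero,
    Set.Finite.toFinset_eq_empty] at h
  exact h

end TopA

open TopA in
theorem mainS (hG : GenS) (hM : MonkS) (hR : RelS) (hH : ChS) (hD : NdS) (hO : OrbS) (hT : TorsS)
    (hP : PlkS) (hF : PsfS) : MainS := by
  intro k0 k _ _ _ _ _ σ hσ Z hZ hI h0
  obtain ⟨d, hd⟩ := hT.deg k σ
  obtain ⟨o, ho⟩ := hM (HQ σ) (fun w n => CC σ w (II n))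
    (fun n hn τ h1 h2 h3 w hw => by
      obtain ⟨h4, h5⟩ := hH.step n hn τ h1 h2 h3
      have h6 := hH.card n hn.le
      rw [h5]
      exact hR k0 k σ w (II n) τ hσ ⟨by omega, hH.low n, h5 ▸ hH.low (n + 1), h4⟩ (hH.sub n))
    (fun w n hw => cc_empty (hD.gr k0 k σ w _ hσ.1 hw (hH.sub n)))
    (fun w => cc_empty (hD.rk4 k0 k σ w hσ.1))
  simp only [hH.zero] at ho
  have hc : (I0 : Finset T3).card = 20 := by
    have := hH.card 0 (by omega)
    rwa [hH.zero] at this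
  have key : ∀ c ∈ HS σ, d c = 0 → c = 0 := by
    intro c hcH hdc
    by_cases hdo : d o = 0
    · have : HS σ ≤ ⊥ := by
        refine Submodule.span_le.2 ?_
        rintro _ ⟨w, hw, rfl⟩
        obtain ⟨r, hr⟩ := ho w hw
        refine cc_zero d hd (hF k0 k σ w I0 hσ (by omega)).1 ?_
        rw [hr, map_smul, hdo, smul_zero]
      exact this hcH
    · have : HS σ ≤ Submodule.span ℚ {o} := by
        refine Submodule.span_le.2 ?_
        rintro _ ⟨w, hw, rfl⟩
        obtain ⟨r, hr⟩ := ho w hw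
        exact Submodule.mem_span_singleton.2 ⟨r, hr.symm⟩
      obtain ⟨r, rfl⟩ := Submodule.mem_span_singleton.1 (this hcH)
      rw [map_smul, smul_eq_mul, mul_eq_zero] at hdc
      rw [hdc.resolve_right hdo, zero_smul]
  have mem : ∀ Y : PP Pl k →₀ ℤ, (∀ x ∈ Y.support, x.rep ∈ cone σ) →
      (∀ θ : k ≃ₐ[k0] k, (∀ τ, θ (σ τ) = σ τ) → Y.mapDomain (pmap (θ : k →+* k)) = Y) →
      ((ps Y).map (ee σ)).sum ∈ HS σ := fun Y hY hY' => by
    have h1 : ∀ x ∈ ps Y, oc k0 σ x ∈ HS σ := fun x hx => by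
      obtain ⟨w, g, hg, rfl⟩ := hP.ex k σ x (hY x (mem_ps hx))
      exact hG k0 k σ w hσ g hg
    obtain ⟨_, _, _, h⟩ := hO k0 k σ (HS σ) (ps Y) (pt 0) hσ (inv_ps hY') fun x hx =>
      Or.inl (h1 x hx)
    exact h h1
  have hA := mem Z hZ hI
  have hB := mem (-Z) (fun x hx => hZ x (by rwa [Finsupp.support_neg] at hx)) fun θ hθ => by
    rw [← neg_one_smul ℤ Z, Finsupp.mapDomain_smul, hI θ hθ]
  have hcard : ((ps Z).card : ℤ) = (ps (-Z)).card := by
    rw [← cyc_ps Z, Finsupp.sum_sub_index (fun _ _ _ => rfl), deg_cyc, deg_cyc] at h0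
    omega
  have h1 := key _ (Submodule.sub_mem _ hA hB) (by
    rw [map_sub, deg_sum d hd, deg_sum d hd, sub_eq_zero]
    exact_mod_cast hcard)
  have h2 := hT.int k σ _ _ (sub_eq_zero.1 h1)
  rwa [cyc_ps] at h2

end Pool.Agent.MP_59fd2e_ag.DV
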