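import Pool.Agent.MP_59fd2e_ag.dv.Plk

/-! PROJECT DV: from invariant cycles to invariant classes. -/

noncomputable section

namespace Pool.Agent.MP_59fd2e_ag.DV

open MvPolynomial Matrix Pool.Agent.MP_9207e0_ag.CC
open scoped Classical

/-- The theorem for invariant classes. -/
def Main2S : Prop := ∀ (k0 k : Type) [Field k0] [CharZero k0] [Field k] [IsAlgClosed k]
  [Algebra k0 k] (σ : T3 → k), AlgebraicIndependent k0 σ → ∀ Z : PP (Fin 6 → Fin 10) k →₀ ℤ,
  (∀ x ∈ Z.support, x.rep ∈ cone σ) →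
  (∀ θ : k ≃ₐ[k0] k, (∀ τ, θ (σ τ) = σ τ) → ∃ m : ℤ, m ≠ 0 ∧
    RatEq (dvIdeal σ) k (m • Z.mapDomain (pmap (θ : k →+* k))) (m • Z)) →
  (Z.sum fun _ n => n) = 0 → ∃ n : ℤ, n ≠ 0 ∧ RatEq (dvIdeal σ) k (n • Z) 0

namespace TopB

variable {k0 k : Type} [Field k0] [Field k] [Algebra k0 k]

theorem alg_mono {A : Type} [CommRing A] {S T : Subring A} (h : S ≤ T) {x : A}
    (hx : IsAlgebraic S x) : IsAlgebraic T x := by
  obtain ⟨p, hp, hpx⟩ := hx
  have hf : Function.Injective (Subring.inclusion h) := fun a b hab =>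
    Subtype.ext (congrArg (fun y : T => (y : A)) hab)
  refine ⟨p.map (Subring.inclusion h), (Polynomial.map_ne_zero_iff hf).2 hp, ?_⟩
  rw [Polynomial.aeval_def, Polynomial.eval₂_map]
  exact hpx

theorem basis {J : Type} {σ : J → k} (h : AlgebraicIndependent k0 σ) :
    ∃ F : IntermediateField k0 k, IsTranscendenceBasis F σ := by
  obtain ⟨s, hs⟩ := exists_isTranscendenceBasis (Algebra.adjoin k0 (Set.range σ)) k
  have h1 := h.sumElim hs.1
  have h2 : AlgebraicIndependent k0 (Sum.elim σ ((↑) : s → k)) := by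
    have h5 := h1.comp _ (Equiv.sumComm J s).injective
    have e : (Sum.elim ((↑) : s → k) σ) ∘ (Equiv.sumComm J s) = Sum.elim σ ((↑) : s → k) :=
      funext fun x => by rcases x with x | x <;> rfl
    rwa [e] at h5
  have h3 := (AlgebraicIndependent.sumElim_iff.1 h2).2
  rw [Subtype.range_coe] at h3
  refine ⟨IntermediateField.adjoin k0 s, ?_⟩
  rw [isTranscendenceBasis_iff_algebraicIndependent_isAlgebraic]
  refine ⟨IntermediateField.algebraicIndependent_adjoin_iff.2 h3, ⟨fun x => ?_⟩⟩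
  have h4 := hs.isAlgebraic.1 x
  rw [Subtype.range_coe] at h4
  have le : (Algebra.adjoin (Algebra.adjoin k0 (Set.range σ)) s).toSubring ≤
      (Algebra.adjoin (IntermediateField.adjoin k0 s) (Set.range σ)).toSubring := by
    intro y hy
    have hy' : y ∈ (Algebra.adjoin (Algebra.adjoin k0 (Set.range σ)) s).restrictScalars k0 := hy
    rw [Algebra.Subalgebra.restrictScalars_adjoin] at hy'
    have l1 : Algebra.adjoin k0 (Set.range σ) ≤
        (Algebra.adjoin (IntermediateField.adjoin k0 s) (Set.range σ)).restrictScalars k0 :=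
      Algebra.adjoin_le fun y hy =>
        Algebra.subset_adjoin (R := IntermediateField.adjoin k0 s) (s := Set.range σ) hy
    have l2 : Algebra.adjoin k0 s ≤
        (Algebra.adjoin (IntermediateField.adjoin k0 s) (Set.range σ)).restrictScalars k0 :=
      Algebra.adjoin_le fun y hy =>
        (Algebra.adjoin (IntermediateField.adjoin k0 s) (Set.range σ)).algebraMap_mem
          (⟨y, IntermediateField.subset_adjoin k0 s hy⟩ : IntermediateField.adjoin k0 s)
    have l3 : (IsScalarTower.toAlgHom k0 (Algebra.adjoin k0 (Set.range σ)) k).range ≤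
        (Algebra.adjoin (IntermediateField.adjoin k0 s) (Set.range σ)).restrictScalars k0 := by
      rintro _ ⟨r, rfl⟩
      exact l1 r.2
    exact sup_le l3 l2 hy'
  exact alg_mono le h4

/-- The saturation of a subgroup. -/
def sat {A : Type} [AddCommGroup A] (G : AddSubgroup A) : AddSubgroup A where
  carrier := {D | ∃ n : ℤ, n ≠ 0 ∧ n • D ∈ G}
  zero_mem' := ⟨1, one_ne_zero, by simp⟩
  add_mem' := by
    rintro a b ⟨m, hm, ha⟩ ⟨n, hn, hb⟩
    refine ⟨m * n, mul_ne_zero hm hn, ?_⟩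
    rw [smul_add, mul_smul m n b, mul_comm m n, mul_smul n m a]
    exact G.add_mem (G.zsmul_mem ha n) (G.zsmul_mem hb m)
  neg_mem' := by
    rintro a ⟨m, hm, ha⟩
    exact ⟨m, hm, by rw [smul_neg]; exact G.neg_mem ha⟩

theorem cone_map (hT : TriS) {σ : T3 → k} {θ : k ≃ₐ[k0] k} (hθ : Fx k0 σ θ) {x : PP Pl k}
    (hx : x.rep ∈ cone σ) : (pmap (θ : k →+* k) x).rep ∈ cone σ := by
  unfold pmap
  obtain ⟨c, hc⟩ := Projectivization.exists_smul_eq_mk_rep k
    (fun j => (θ : k →+* k) (x.rep j)) fun h =>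
      x.rep_nonzero (funext fun j => (θ : k →+* k).injective
        ((congrFun h j).trans (map_zero (θ : k →+* k)).symm))
  rw [← hc]
  refine Plk.cone_smul σ (c : k) ?_
  obtain ⟨M, hM, e⟩ := hx
  refine ⟨M.map (θ : k →+* k), fun a b d => ?_, funext fun j => ?_⟩
  · have h1 := hT.map k k (θ : k →+* k) σ (M a) (M b) (M d)
    rw [hM, map_zero] at h1
    have h2 : (θ : k →+* k) ∘ σ = σ := funext hθ
    rw [h2] at h1
    exact h1.symm
  · rw [Plk.plk_map, e]

/-- The conjugates of a cycle. -/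
def orb (k0 : Type) [Field k0] [Algebra k0 k] (σ : T3 → k) (Z : PP Pl k →₀ ℤ) :
    Set (PP Pl k →₀ ℤ) := {W | ∃ θ, Fx k0 σ θ ∧ W = Z.mapDomain (pmap (θ : k →+* k))}

theorem orb_fin (hJ : ConjS) {σ : T3 → k} (hσ : IsTranscendenceBasis k0 σ) (Z : PP Pl k →₀ ℤ) :
    (orb k0 σ Z).Finite := by
  have h1 : (Set.pi Set.univ fun x : Z.support => {y | Cj k0 σ x.1 y}).Finite :=
    Set.Finite.pi fun x => hJ.finP k0 k T3 Pl σ x.1 hσ
  refine (h1.image fun φ => ∑ x : Z.support, Finsupp.single (φ x) (Z x)).subset ?_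
  rintro _ ⟨θ, hθ, rfl⟩
  refine ⟨fun x => pmap (θ : k →+* k) x.1, fun x _ => ⟨θ, hθ, rfl⟩, ?_⟩
  rw [Finsupp.mapDomain, Finsupp.sum, ← Finset.sum_coe_sort]

theorem orb_map {σ : T3 → k} {Z W : PP Pl k →₀ ℤ} (hW : W ∈ orb k0 σ Z) {θ : k ≃ₐ[k0] k}
    (hθ : Fx k0 σ θ) : W.mapDomain (pmap (θ : k →+* k)) ∈ orb k0 σ Z := by
  obtain ⟨φ, hφ, rfl⟩ := hW
  refine ⟨φ.trans θ, fun j => by rw [AlgEquiv.trans_apply, hφ, hθ], ?_⟩
  rw [← Finsupp.mapDomain_comp]
  congr 1
  exact funext fun x => pmap_pmap _ _ x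

theorem step (hM : MainS) (hJ : ConjS) (hT : TriS) [CharZero k0] [IsAlgClosed k] {σ : T3 → k}
    (hσ : IsTranscendenceBasis k0 σ) (Z : PP Pl k →₀ ℤ) (hZ : ∀ x ∈ Z.support, x.rep ∈ cone σ)
    (hI : ∀ θ : k ≃ₐ[k0] k, (∀ τ, θ (σ τ) = σ τ) → ∃ m : ℤ, m ≠ 0 ∧
      RatEq (dvIdeal σ) k (m • Z.mapDomain (pmap (θ : k →+* k))) (m • Z))
    (h0 : (Z.sum fun _ n => n) = 0) : ∃ n : ℤ, n ≠ 0 ∧ RatEq (dvIdeal σ) k (n • Z) 0 := by
  set O := (orb_fin hJ hσ Z).toFinset with hO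
  have mO : ∀ W, W ∈ O ↔ W ∈ orb k0 σ Z := fun W => Set.Finite.mem_toFinset _
  set G := AddSubgroup.closure {E | Principal (dvIdeal σ) k E} with hG
  obtain ⟨n, hn, h1⟩ := hM k0 k σ hσ (∑ W ∈ O, W)
    (fun x hx => by
      obtain ⟨W, hW, hx⟩ := Finset.mem_biUnion.1 (Finsupp.support_finsetSum hx)
      obtain ⟨θ, hθ, rfl⟩ := (mO W).1 hW
      obtain ⟨y, hy, rfl⟩ := Finset.mem_image.1 (Finsupp.mapDomain_support hx)
      exact cone_map hT hθ (hZ y hy))
    (fun θ hθ => by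
      rw [Finsupp.mapDomain_finsetSum]
      have hi : Function.Injective fun W : PP Pl k →₀ ℤ => W.mapDomain (pmap (θ : k →+* k)) :=
        Finsupp.mapDomain_injective (pmap_injective _)
      have e : O.image (fun W : PP Pl k →₀ ℤ => W.mapDomain (pmap (θ : k →+* k))) = O := by
        refine Finset.eq_of_subset_of_card_le (fun W hW => ?_) ?_
        · obtain ⟨V, hV, rfl⟩ := Finset.mem_image.1 hW
          exact (mO _).2 (orb_map ((mO V).1 hV) hθ)
        · rw [Finset.card_image_of_injective _ hi]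
      conv_rhs => rw [← e, Finset.sum_image fun a _ b _ h => hi h])
    (by
      rw [← Finsupp.sum_finsetSum_index (fun _ => rfl) fun _ _ _ => rfl]
      refine Finset.sum_eq_zero fun W hW => ?_
      obtain ⟨θ, hθ, rfl⟩ := (mO W).1 hW
      rw [Finsupp.sum_mapDomain_index (fun _ => rfl) fun _ _ _ => rfl, h0])
  have h2 : (∑ W ∈ O, W) ∈ sat G := ⟨n, hn, by simpa [RatEq] using h1⟩
  have h3 : ∑ W ∈ O, (W - Z) ∈ sat G := sum_mem fun W hW => by
    obtain ⟨θ, hθ, rfl⟩ := (mO W).1 hW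
    obtain ⟨m, hm, h⟩ := hI θ hθ
    exact ⟨m, hm, by rw [smul_sub]; exact h⟩
  obtain ⟨m, hm, h4⟩ := (sat G).sub_mem h2 h3
  have h5 : O.card ≠ 0 := Finset.card_ne_zero.2 ⟨_, (mO _).2 ⟨AlgEquiv.refl, fun _ => rfl, rfl⟩⟩
  refine ⟨m * O.card, mul_ne_zero hm (by exact_mod_cast h5), ?_⟩
  rw [Finset.sum_sub_distrib, sub_sub_cancel, Finset.sum_const] at h4
  unfold RatEq
  rw [sub_zero, mul_smul, natCast_zsmul]
  exact h4

end TopB

theorem main2S (hM : MainS) (hJ : ConjS) (hT : TriS) : Main2S := by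
  intro k0 k _ _ _ _ _ σ hσ Z hZ hI h0
  obtain ⟨F, hF⟩ := TopB.basis hσ
  have : CharZero F := algebraRat.charZero F
  exact TopB.step hM hJ hT hF Z hZ (fun θ hθ => hI (θ.restrictScalars k0) hθ) h0

end Pool.Agent.MP_59fd2e_ag.DV
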