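import Pool.Agent.MP_59fd2e_ag.dv.Spec

/-! From rational to integral coefficients, and the degree. -/

noncomputable section

namespace Pool.Agent.MP_59fd2e_ag.DV

open Pool.Agent.MP_9207e0_ag.CC

namespace Tors

variable {α : Type}

/-- The change of coefficients. -/
def cst : (α →₀ ℤ) →+ (α →₀ ℚ) := Finsupp.mapRange.addMonoidHom (Int.castAddHom ℚ)

theorem cst_inj : Function.Injective (cst : (α →₀ ℤ) → α →₀ ℚ) := fun x y h => by
  ext a
  exact Int.cast_injective (α := ℚ) (DFunLike.congr_fun h a)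

theorem cst_sum (A : Multiset α) : cst (A.map fun x => Finsupp.single x (1 : ℤ)).sum =
    (A.map fun x => Finsupp.single x (1 : ℚ)).sum := by
  rw [map_multiset_sum, Multiset.map_map]
  congr 2
  funext x
  simp [cst]

/-- The rational saturation of a group of integral cycles. -/
def sat (G : AddSubgroup (α →₀ ℤ)) : Submodule ℚ (α →₀ ℚ) where
  carrier := {D | ∃ n : ℤ, n ≠ 0 ∧ ∃ E ∈ G, n • D = cst E}
  add_mem' := by
    rintro D D' ⟨n, hn, E, hE, h⟩ ⟨n', hn', E', hE', h'⟩
    refine ⟨n * n', mul_ne_zero hn hn', n' • E + n • E', G.add_mem (G.zsmul_mem hE _)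
      (G.zsmul_mem hE' _), ?_⟩
    rw [map_add, map_zsmul, map_zsmul, ← h, ← h', smul_add, smul_smul, smul_smul, mul_comm n' n]
  zero_mem' := ⟨1, one_ne_zero, 0, G.zero_mem, by simp⟩
  smul_mem' := by
    rintro c D ⟨n, hn, E, hE, h⟩
    refine ⟨c.den * n, mul_ne_zero (Int.natCast_ne_zero.2 c.den_nz) hn, c.num • E,
      G.zsmul_mem hE _, ?_⟩
    rw [map_zsmul, ← h, smul_smul, ← Int.cast_smul_eq_zsmul ℚ, ← Int.cast_smul_eq_zsmul ℚ,
      smul_smul]
    congr 1
    push_cast
    rw [mul_right_comm, Rat.den_mul_eq_num]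

theorem mk_sum {k : Type} [Field k] (σ : T3 → k) (A : Multiset (PP Pl k)) :
    (A.map (ee σ)).sum = (NN σ).mkQ (cq A) := by
  rw [cq, map_multiset_sum, Multiset.map_map]
  rfl

end Tors

open Tors in
theorem torsS : TorsS := by
  refine ⟨fun k _ σ => ?_, fun k _ σ A B h => ?_⟩
  · have key : ∀ A : Multiset (PP Pl k),
        Finsupp.linearCombination ℚ (fun _ => (1 : ℚ)) (cq A) = A.card := fun A => by
      rw [cq, map_multiset_sum, Multiset.map_map]
      simp
    refine ⟨(NN σ).liftQ (Finsupp.linearCombination ℚ fun _ => (1 : ℚ)) (Submodule.span_le.2 ?_),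
      fun x => by simp [ee]⟩
    rintro _ ⟨A, B, -, h, rfl⟩
    rw [SetLike.mem_coe, LinearMap.mem_ker, map_sub, key, key, h, sub_self]
  · rw [mk_sum, mk_sum, ← sub_eq_zero, ← map_sub, Submodule.mkQ_apply,
      Submodule.Quotient.mk_eq_zero] at h
    have h1 : NN σ ≤ sat (AddSubgroup.closure {E | Principal (dvIdeal σ) k E}) := by
      refine Submodule.span_le.2 ?_
      rintro _ ⟨A, B, h, -, rfl⟩
      exact ⟨1, one_ne_zero, _, h, by rw [one_smul, map_sub, cyc, cyc, cst_sum, cst_sum]; rfl⟩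
    obtain ⟨n, hn, E, hE, e⟩ := h1 h
    refine ⟨n, hn, ?_⟩
    rw [RatEq, sub_zero, cst_inj (a₁ := n • (cyc A - cyc B)) (a₂ := E)
      (by rw [← e, map_zsmul, map_sub, cyc, cyc, cst_sum, cst_sum]; rfl)]
    exact hE

end Pool.Agent.MP_59fd2e_ag.DV
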