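import Pool.Agent.MP_59fd2e_ag.dv.Spec

/-! PROJECT DV, row TRI: the algebra of alternating three-forms. -/

noncomputable section

namespace Pool.Agent.MP_59fd2e_ag.DV

open MvPolynomial Matrix Pool.Agent.MP_9207e0_ag.CC
open scoped Classical

namespace Tri

variable {R : Type} [CommRing R]

/-- A three by three minor, expanded. -/
def d3 (x y z : Fin 10 → R) (a b c : Fin 10) : R :=
  x a * y b * z c - x a * y c * z b - x b * y a * z c + x b * y c * z a + x c * y a * z b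
    - x c * y b * z a

theorem tri_eq (σ : T3 → R) (x y z : Fin 10 → R) :
    tri σ x y z = ∑ τ : T3, σ τ * d3 x y z τ.1.1 τ.1.2.1 τ.1.2.2 := by
  unfold tri
  refine Finset.sum_congr rfl fun τ _ => ?_
  rw [Matrix.det_fin_three]
  rfl

theorem sw1 (σ : T3 → R) (x y z : Fin 10 → R) : tri σ x y z = -tri σ y x z := by
  rw [tri_eq, tri_eq, ← Finset.sum_neg_distrib]
  refine Finset.sum_congr rfl fun τ _ => ?_
  unfold d3
  ring

theorem sw2 (σ : T3 → R) (x y z : Fin 10 → R) : tri σ x y z = -tri σ x z y := by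
  rw [tri_eq, tri_eq, ← Finset.sum_neg_distrib]
  refine Finset.sum_congr rfl fun τ _ => ?_
  unfold d3
  ring

theorem z1 (σ : T3 → R) (x z : Fin 10 → R) : tri σ x x z = 0 := by
  rw [tri_eq]
  refine Finset.sum_eq_zero fun τ _ => ?_
  unfold d3
  ring

theorem z2 (σ : T3 → R) (x y : Fin 10 → R) : tri σ x y y = 0 := by
  rw [tri_eq]
  refine Finset.sum_eq_zero fun τ _ => ?_
  unfold d3
  ring

/-- The form as a linear map in its second argument. -/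
def l2 (σ : T3 → R) (x z : Fin 10 → R) : (Fin 10 → R) →ₗ[R] R where
  toFun y := tri σ x y z
  map_add' y y' := by
    rw [tri_eq, tri_eq, tri_eq, ← Finset.sum_add_distrib]
    refine Finset.sum_congr rfl fun τ _ => ?_
    simp only [d3, Pi.add_apply]
    ring
  map_smul' c y := by
    rw [tri_eq, tri_eq, RingHom.id_apply, smul_eq_mul, Finset.mul_sum]
    refine Finset.sum_congr rfl fun τ _ => ?_
    simp only [d3, Pi.smul_apply, smul_eq_mul]
    ring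

theorem e2 (σ : T3 → R) (g : M10 R) (x y z : Fin 10 → R) :
    tri σ x (y ᵥ* g) z = ∑ b, y b * tri σ x (g b) z := by
  have h : l2 σ x z (y ᵥ* g) = ∑ b, y b * l2 σ x z (g b) := by
    rw [Matrix.vecMul_eq_sum, map_sum]
    refine Finset.sum_congr rfl fun b _ => ?_
    rw [map_smul, smul_eq_mul]
  exact h

theorem e1 (σ : T3 → R) (g : M10 R) (x y z : Fin 10 → R) :
    tri σ (x ᵥ* g) y z = ∑ a, x a * tri σ (g a) y z := by
  rw [sw1, e2, ← Finset.sum_neg_distrib]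
  refine Finset.sum_congr rfl fun a _ => ?_
  rw [sw1 σ y]
  ring

theorem e3 (σ : T3 → R) (g : M10 R) (x y z : Fin 10 → R) :
    tri σ x y (z ᵥ* g) = ∑ c, z c * tri σ x y (g c) := by
  rw [sw2, e2, ← Finset.sum_neg_distrib]
  refine Finset.sum_congr rfl fun c _ => ?_
  rw [sw2 σ x (g c)]
  ring

/-- An alternating function that vanishes on increasing triples vanishes. -/
theorem alt {ι : Type} [LinearOrder ι] (F : ι → ι → ι → R) (s1 : ∀ a b c, F a b c = -F b a c)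
    (s2 : ∀ a b c, F a b c = -F a c b) (n1 : ∀ a c, F a a c = 0) (n2 : ∀ a b, F a b b = 0)
    (h : ∀ a b c, a < b → b < c → F a b c = 0) (a b c : ι) : F a b c = 0 := by
  have k : ∀ a b c, a < b → F a b c = 0 := by
    intro a b c hab
    rcases lt_trichotomy b c with hbc | rfl | hcb
    · exact h a b c hab hbc
    · exact n2 a b
    · rw [s2]
      rcases lt_trichotomy a c with hac | rfl | hca
      · rw [h a c b hac hcb, neg_zero]
      · rw [n1, neg_zero]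
      · rw [s1, h c a b hca hab, neg_zero, neg_zero]
  rcases lt_trichotomy a b with hab | rfl | hba
  · exact k a b c hab
  · exact n1 a c
  · rw [s1, k b a c hba, neg_zero]

theorem d3_low {b : M10 R} (hb : Lt b) (τ τ' : T3)
    (h : ¬(τ'.1.1 ≤ τ.1.1 ∧ τ'.1.2.1 ≤ τ.1.2.1 ∧ τ'.1.2.2 ≤ τ.1.2.2)) :
    d3 (b τ.1.1) (b τ.1.2.1) (b τ.1.2.2) τ'.1.1 τ'.1.2.1 τ'.1.2.2 = 0 := by
  obtain ⟨⟨p, q, r⟩, hpq, hqr⟩ := τ
  obtain ⟨⟨p', q', r'⟩, hpq', hqr'⟩ := τ'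
  dsimp only at *
  unfold d3
  by_cases h1 : p' ≤ p
  · by_cases h2 : q' ≤ q
    · have h3 : r < r' := not_le.mp fun h3 => h ⟨h1, h2, h3⟩
      rw [hb p r' (hpq.trans (hqr.trans h3)), hb q r' (hqr.trans h3), hb r r' h3]
      ring
    · have h3 : q < q' := not_le.mp h2
      rw [hb p q' (hpq.trans h3), hb p r' (hpq.trans (h3.trans hqr')), hb q q' h3,
        hb q r' (h3.trans hqr')]
      ring
  · have h3 : p < p' := not_le.mp h1
    rw [hb p p' h3, hb p q' (h3.trans hpq'), hb p r' (h3.trans (hpq'.trans hqr'))]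
    ring

theorem d3_diag {b : M10 R} (hb : Lt b) (τ : T3) :
    d3 (b τ.1.1) (b τ.1.2.1) (b τ.1.2.2) τ.1.1 τ.1.2.1 τ.1.2.2 =
      b τ.1.1 τ.1.1 * b τ.1.2.1 τ.1.2.1 * b τ.1.2.2 τ.1.2.2 := by
  obtain ⟨⟨p, q, r⟩, hpq, hqr⟩ := τ
  dsimp only at *
  unfold d3
  rw [hb p q hpq, hb p r (hpq.trans hqr), hb q r hqr]
  ring

theorem d3_one (τ τ' : T3) (h : τ' ≠ τ) :
    d3 ((1 : M10 R) τ.1.1) ((1 : M10 R) τ.1.2.1) ((1 : M10 R) τ.1.2.2) τ'.1.1 τ'.1.2.1 τ'.1.2.2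
      = 0 := by
  have hl : Lt (1 : M10 R) := fun i j hij => Matrix.one_apply_ne hij.ne
  by_cases hle : τ'.1.1 ≤ τ.1.1 ∧ τ'.1.2.1 ≤ τ.1.2.1 ∧ τ'.1.2.2 ≤ τ.1.2.2
  swap
  · exact d3_low hl τ τ' hle
  obtain ⟨⟨p, q, r⟩, hpq, hqr⟩ := τ
  obtain ⟨⟨p', q', r'⟩, hpq', hqr'⟩ := τ'
  dsimp only at *
  obtain ⟨h1, h2, h3⟩ := hle
  have u : ∀ i j : Fin 10, j < i → (1 : M10 R) i j = 0 := fun i j hij =>
    Matrix.one_apply_ne hij.ne'
  unfold d3
  rw [u q p' (h1.trans_lt hpq), u r p' (h1.trans_lt (hpq.trans hqr)), u r q' (h2.trans_lt hqr)]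
  rcases h1.lt_or_eq with h1 | rfl
  · rw [u p p' h1]
    ring
  rcases h2.lt_or_eq with h2 | rfl
  · rw [u q q' h2]
    ring
  rcases h3.lt_or_eq with h3 | rfl
  · rw [u r r' h3]
    ring
  exact absurd rfl h

theorem one (σ : T3 → R) : lam σ 1 = σ := by
  funext τ
  have hl : Lt (1 : M10 R) := fun i j hij => Matrix.one_apply_ne hij.ne
  unfold lam
  rw [tri_eq, Finset.sum_eq_single τ (fun τ' _ h => by rw [d3_one τ τ' h, mul_zero])
    (fun h => absurd (Finset.mem_univ τ) h), d3_diag hl]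
  simp

theorem basis (σ : T3 → R) (g : M10 R) (a b c : Fin 10) :
    tri σ (g a) (g b) (g c) =
      tri (lam σ g) ((1 : M10 R) a) ((1 : M10 R) b) ((1 : M10 R) c) := by
  refine sub_eq_zero.mp (alt (fun a b c => tri σ (g a) (g b) (g c) -
    tri (lam σ g) ((1 : M10 R) a) ((1 : M10 R) b) ((1 : M10 R) c)) ?_ ?_ ?_ ?_ ?_ a b c)
  · intro a b c
    rw [sw1 σ, sw1 (lam σ g)]
    ring
  · intro a b c
    rw [sw2 σ, sw2 (lam σ g)]
    ring
  · intro a c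
    rw [z1, z1, sub_zero]
  · intro a b
    rw [z2, z2, sub_zero]
  · intro a b c hab hbc
    exact sub_eq_zero.mpr (congrFun (one (lam σ g)) ⟨(a, b, c), hab, hbc⟩).symm

theorem expand (σ : T3 → R) (g : M10 R) (x y z : Fin 10 → R) :
    tri σ (x ᵥ* g) (y ᵥ* g) (z ᵥ* g) =
      ∑ a, x a * ∑ b, y b * ∑ c, z c * tri σ (g a) (g b) (g c) := by
  rw [e1]
  refine Finset.sum_congr rfl fun a _ => ?_
  rw [e2]
  refine congrArg _ (Finset.sum_congr rfl fun b _ => ?_)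
  rw [e3]

theorem mul (σ : T3 → R) (g : M10 R) (x y z : Fin 10 → R) :
    tri σ (x ᵥ* g) (y ᵥ* g) (z ᵥ* g) = tri (lam σ g) x y z := by
  have h := expand (lam σ g) 1 x y z
  rw [Matrix.vecMul_one, Matrix.vecMul_one, Matrix.vecMul_one] at h
  rw [h, expand]
  simp only [basis σ g]

theorem lam_mul (σ : T3 → R) (g h : M10 R) : lam σ (g * h) = lam (lam σ h) g := by
  funext τ
  exact mul σ h (g τ.1.1) (g τ.1.2.1) (g τ.1.2.2)

theorem map {S : Type} [CommRing S] (φ : R →+* S) (σ : T3 → R) (x y z : Fin 10 → R) :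
    φ (tri σ x y z) = tri (φ ∘ σ) (φ ∘ x) (φ ∘ y) (φ ∘ z) := by
  rw [tri_eq, tri_eq, map_sum]
  refine Finset.sum_congr rfl fun τ _ => ?_
  simp only [d3, map_mul, map_add, map_sub, Function.comp_apply]

theorem lam_map {S : Type} [CommRing S] (φ : R →+* S) (σ : T3 → R) (g : M10 R) (τ : T3) :
    φ (lam σ g τ) = lam (φ ∘ σ) (g.map φ) τ :=
  map φ σ _ _ _

theorem lam_eq (σ : T3 → R) (b g : M10 R) (τ : T3) : lam σ (b * g) τ =
    ∑ τ' : T3, lam σ g τ' * d3 (b τ.1.1) (b τ.1.2.1) (b τ.1.2.2) τ'.1.1 τ'.1.2.1 τ'.1.2.2 := by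
  rw [lam_mul]
  exact tri_eq _ _ _ _

theorem low (σ : T3 → R) (b g : M10 R) (I : Finset T3) (hb : Lt b) (hI : Low I)
    (hg : Van σ g I) : Van σ (b * g) I ∧ ∀ τ, Low (insert τ I) →
      lam σ (b * g) τ = b τ.1.1 τ.1.1 * b τ.1.2.1 τ.1.2.1 * b τ.1.2.2 τ.1.2.2 * lam σ g τ := by
  refine ⟨fun τ hτ => ?_, fun τ hτ => ?_⟩
  · rw [lam_eq]
    refine Finset.sum_eq_zero fun τ' _ => ?_
    by_cases h : τ'.1.1 ≤ τ.1.1 ∧ τ'.1.2.1 ≤ τ.1.2.1 ∧ τ'.1.2.2 ≤ τ.1.2.2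
    · rw [hg τ' (hI τ hτ τ' h.1 h.2.1 h.2.2), zero_mul]
    · rw [d3_low hb τ τ' h, mul_zero]
  · rw [lam_eq, Finset.sum_eq_single τ ?_ (fun h => absurd (Finset.mem_univ τ) h), d3_diag hb,
      mul_comm]
    intro τ' _ hne
    by_cases h : τ'.1.1 ≤ τ.1.1 ∧ τ'.1.2.1 ≤ τ.1.2.1 ∧ τ'.1.2.2 ≤ τ.1.2.2
    · have h1 := hτ τ (Finset.mem_insert_self τ I) τ' h.1 h.2.1 h.2.2
      rw [hg τ' ((Finset.mem_insert.mp h1).resolve_left hne), zero_mul]
    · rw [d3_low hb τ τ' h, mul_zero]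

theorem kills (σ : T3 → R) (g : M10 R) :
    Van σ g I0 ↔ ∀ a b c, tri σ (top g a) (top g b) (top g c) = 0 := by
  constructor
  · intro h a b c
    refine alt (fun a b c => tri σ (top g a) (top g b) (top g c)) (fun a b c => sw1 σ _ _ _)
      (fun a b c => sw2 σ _ _ _) (fun a c => z1 σ _ _) (fun a b => z2 σ _ _) ?_ a b c
    intro a b c hab hbc
    exact h ⟨(Fin.castLE (by decide) a, Fin.castLE (by decide) b, Fin.castLE (by decide) c),
      hab, hbc⟩ (Finset.mem_filter.mpr ⟨Finset.mem_univ _, c.2⟩)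
  · intro h τ hτ
    have h3 : τ.1.2.2.val < 6 := (Finset.mem_filter.mp hτ).2
    have h2 : τ.1.2.1.val < 6 := lt_trans τ.2.2 h3
    have h1 : τ.1.1.val < 6 := lt_trans τ.2.1 h2
    exact h ⟨_, h1⟩ ⟨_, h2⟩ ⟨_, h3⟩

theorem ov {K L : Type} [Field K] [Field L] (P : Plc K L) (σ : T3 → K) (σ' : T3 → L) (g : M10 K)
    (z : M10 L) (hσ : Ov P σ σ') (hg : OvM P g z) : Ov P (lam σ g) (lam σ' z) := by
  let σ0 : T3 → P.V := fun τ => ⟨σ τ, (hσ τ).1⟩
  let g0 : M10 P.V := Matrix.of fun i j => ⟨g i j, (hg i j).1⟩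
  have a1 : σ' = P.φ ∘ σ0 := funext fun τ => (hσ τ).2.symm.trans (P.fn_mem _)
  have a2 : z = g0.map P.φ := Matrix.ext fun i j => (hg i j).2.symm.trans (P.fn_mem _)
  intro τ
  have a3 : ((lam σ0 g0 τ : P.V) : K) = lam σ g τ := lam_map P.V.subtype σ0 g0 τ
  rw [← a3, a1, a2, ← lam_map]
  exact ⟨(lam σ0 g0 τ).2, P.fn_coe _⟩

end Tri

theorem triS : TriS where
  mul _ _ := Tri.mul
  lam_mul _ _ := Tri.lam_mul
  one _ _ := Tri.one
  map _ _ _ _ := Tri.map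
  lam_map _ _ _ _ := Tri.lam_map
  sw1 _ _ σ x y z := ⟨Tri.sw1 σ x y z, Tri.z1 σ x z⟩
  sw2 _ _ σ x y z := ⟨Tri.sw2 σ x y z, Tri.z2 σ x y⟩
  lin _ _ σ x z := ⟨Tri.l2 σ x z, fun _ => rfl⟩
  low _ _ := Tri.low
  kills _ _ := Tri.kills
  ov _ _ _ _ := Tri.ov

end Pool.Agent.MP_59fd2e_ag.DV
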