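import Pool.Agent.MP_59fd2e_ag.dv.Spec

/-! PROJECT DV, row UNQ: the lift is unique. -/

noncomputable section

namespace Pool.Agent.MP_59fd2e_ag.DV

open MvPolynomial Pool.Agent.MP_9207e0_ag.CC
open scoped Classical

namespace Unq

variable {k0 k J ι : Type} [Field k0] [Field k] [Algebra k0 k]

/-- A derivation along the evaluation at `z`. -/
structure Der (z : ι → k) (D : MvPolynomial ι k0 → k) : Prop where
  add : ∀ f g, D (f + g) = D f + D g
  mul : ∀ f g, D (f * g) = aeval z f * D g + aeval z g * D f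
  c : ∀ c, D (C c) = 0

theorem split (i0 : ι) (f : MvPolynomial ι k0) : ∃ (g : MvPolynomial ι k0)
    (h : MvPolynomial {i // i ≠ i0} k0), f = X i0 * g + rename Subtype.val h := by
  induction f using MvPolynomial.induction_on with
  | C c => exact ⟨0, C c, by simp⟩
  | add f f' hf hf' =>
    obtain ⟨g, h, rfl⟩ := hf
    obtain ⟨g', h', rfl⟩ := hf'
    exact ⟨g + g', h + h', by rw [map_add]; ring⟩
  | mul_X f i hf =>
    obtain ⟨g, h, rfl⟩ := hf
    by_cases hi : i = i0
    · exact ⟨X i0 * g + rename Subtype.val h, 0, by rw [hi, map_zero]; ring⟩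
    · exact ⟨g * X i, h * X ⟨i, hi⟩, by rw [map_mul, rename_X]; ring⟩

theorem Der.comp {z : ι → k} {D : MvPolynomial ι k0 → k} (h : Der z D)
    {s : J → MvPolynomial ι k0} (hs : ∀ j, D (s j) = 0) (c : MvPolynomial J k0) :
    D (aeval s c) = 0 := by
  induction c using MvPolynomial.induction_on with
  | C c => rw [aeval_C]; exact h.c c
  | add f g hf hg => rw [map_add, h.add, hf, hg, add_zero]
  | mul_X f j hf => rw [map_mul, aeval_X, h.mul, hf, hs, mul_zero, mul_zero, add_zero]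

theorem ev {z : ι → k} {s : J → MvPolynomial ι k0} {σ : J → k} (hσ : ∀ j, aeval z (s j) = σ j)
    (G : Polynomial (MvPolynomial J k0)) (x : MvPolynomial ι k0) :
    aeval z (G.eval₂ (aeval s : MvPolynomial J k0 →ₐ[k0] MvPolynomial ι k0).toRingHom x) =
      G.eval₂ (aeval σ : MvPolynomial J k0 →ₐ[k0] k).toRingHom (aeval z x) := by
  refine (Polynomial.hom_eval₂ G _ (aeval z : MvPolynomial ι k0 →ₐ[k0] k).toRingHom x).trans ?_
  congr 1
  exact congrArg AlgHom.toRingHom ((comp_aeval s (aeval z)).trans (congrArg aeval (funext hσ)))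

theorem Der.chain {z : ι → k} {D : MvPolynomial ι k0 → k} (h : Der z D)
    {s : J → MvPolynomial ι k0} {σ : J → k} (hσ : ∀ j, aeval z (s j) = σ j)
    (hs : ∀ j, D (s j) = 0) (G : Polynomial (MvPolynomial J k0)) (x : MvPolynomial ι k0) :
    D (G.eval₂ (aeval s : MvPolynomial J k0 →ₐ[k0] MvPolynomial ι k0).toRingHom x) =
      G.derivative.eval₂ (aeval σ : MvPolynomial J k0 →ₐ[k0] k).toRingHom (aeval z x) * D x := by
  induction G using Polynomial.recOnHorner with
  | M0 =>
    rw [Polynomial.eval₂_zero, map_zero, Polynomial.eval₂_zero, zero_mul, ← C_0]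
    exact h.c 0
  | MC p a _ _ ih =>
    rw [Polynomial.eval₂_add, Polynomial.eval₂_C, h.add, ih, Polynomial.derivative_add,
      Polynomial.derivative_C, add_zero]
    exact add_eq_left.2 (h.comp hs a)
  | MX p _ ih =>
    rw [Polynomial.eval₂_mul_X, h.mul, ih, ev hσ, Polynomial.derivative_mul,
      Polynomial.derivative_X, mul_one, Polynomial.eval₂_add, Polynomial.eval₂_mul_X]
    ring

theorem sep [CharZero k0] {σ : J → k} (hσ : AlgebraicIndependent k0 σ) {x : k}
    (hx : x ∈ cl k0 (Set.range σ)) : ∃ G : Polynomial (MvPolynomial J k0),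
      G.eval₂ (aeval σ : MvPolynomial J k0 →ₐ[k0] k).toRingHom x = 0 ∧
      G.derivative.eval₂ (aeval σ : MvPolynomial J k0 →ₐ[k0] k).toRingHom x ≠ 0 := by
  have h1 : ∃ n, ∃ G : Polynomial (MvPolynomial J k0), G ≠ 0 ∧
      G.eval₂ (aeval σ : MvPolynomial J k0 →ₐ[k0] k).toRingHom x = 0 ∧ G.natDegree = n := by
    obtain ⟨q, hq, hq0⟩ := mem_cl_iff.1 hx
    let ρ : MvPolynomial J k0 →ₐ[k0] Algebra.adjoin k0 (Set.range σ) :=
      (aeval σ).codRestrict _ fun g => by
        rw [Algebra.adjoin_range_eq_range_aeval]; exact ⟨g, rfl⟩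
    have hρ : Function.Surjective ρ := fun a => by
      obtain ⟨g, hg⟩ := (Algebra.adjoin_range_eq_range_aeval k0 σ).le a.2
      exact ⟨g, Subtype.ext hg⟩
    obtain ⟨Q, rfl⟩ := Polynomial.map_surjective (ρ : MvPolynomial J k0 →+* _) hρ q
    refine ⟨_, Q, fun h => hq (by rw [h, Polynomial.map_zero]), ?_, rfl⟩
    rw [Polynomial.aeval_def, Polynomial.eval₂_map] at hq0
    exact hq0
  obtain ⟨G, h0, h2, h3⟩ := Nat.find_spec h1
  refine ⟨G, h2, fun h4 => ?_⟩
  have h5 : G.natDegree ≠ 0 := fun h5 => by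
    rw [Polynomial.eq_C_of_natDegree_eq_zero h5, Polynomial.eval₂_C] at h2
    rw [Polynomial.eq_C_of_natDegree_eq_zero h5, hσ.eq_zero_of_aeval_eq_zero _ h2, map_zero] at h0
    exact h0 rfl
  exact Nat.find_min h1 (h3 ▸ Polynomial.natDegree_derivative_lt h5)
    ⟨_, fun h6 => h5 (Polynomial.derivative_eq_zero.1 h6), h4, rfl⟩

theorem Der.zero [CharZero k0] [Fintype J] [Fintype ι] {z : ι → k} {D : MvPolynomial ι k0 → k}
    (h : Der z D) {s : J → MvPolynomial ι k0} {σ : J → k} {i0 : ι}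
    (hI : AlgebraicIndependent k0 σ) (hc : Fintype.card ι = Fintype.card J + 1)
    (hσ : ∀ j, aeval z (s j) = σ j) (hz : z i0 = 0) (hs : ∀ j, D (s j) = 0) (h0 : D (X i0) = 0)
    (i : ι) : D (X i) = 0 := by
  have c1 : Fintype.card {i // i ≠ i0} = Fintype.card J := by
    rw [Fintype.card_subtype_compl, Fintype.card_subtype_eq, hc, Nat.add_sub_cancel]
  have c2 : ∀ i, z i ∈ cl k0 (Set.range fun i : {i // i ≠ i0} => z i.1) := fun i => by
    by_cases hi : i = i0
    · rw [hi, hz, ← map_zero (algebraMap k0 k)]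
      exact algebraMap_mem_cl _ _
    · exact subset_cl _ ⟨⟨i, hi⟩, rfl⟩
  have c3 : Set.range σ ⊆ cl k0 (Set.range fun i : {i // i ≠ i0} => z i.1) := by
    rintro _ ⟨j, rfl⟩
    rw [← hσ]
    exact aeval_mem_cl c2 _
  have c4 : AlgebraicIndependent k0 fun i : {i // i ≠ i0} => z i.1 :=
    indep_of_rk (by rw [c1, ← rk_range_of_indep hI]; exact rk_le_of_subset_cl c3)
  have c5 : ∀ f, aeval z f = 0 → D f = 0 := fun f hf => by
    obtain ⟨g, q, rfl⟩ := split i0 f
    rw [map_add, map_mul, aeval_X, hz, zero_mul, zero_add, aeval_rename] at hf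
    rw [c4.eq_zero_of_aeval_eq_zero q hf, map_zero, add_zero, h.mul, aeval_X, hz, h0, zero_mul,
      mul_zero, add_zero]
  have c6 : z i ∈ cl k0 (Set.range σ) :=
    cl_subset_cl (subset_cl_of_rk_le (rk_ne_top (Set.finite_range _)) c3
      (by rw [rk_range_of_indep hI, rk_range_of_indep c4, c1])) (c2 i)
  obtain ⟨G, g1, g2⟩ := sep hI c6
  have c7 := h.chain hσ hs G (X i)
  rw [c5 _ (by rw [ev hσ, aeval_X, g1]), aeval_X] at c7
  exact (mul_eq_zero.1 c7.symm).resolve_left g2

end Unq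

open Unq in
theorem unqS : UnqS := by
  intro k0 k L J ι _ _ _ _ _ _ _ _ σ z s a b i0 P u y y' hI hc hP hσ hz ha hu hu0 hy hy' hs e e'
  by_contra hne
  obtain ⟨i1, -, hm⟩ := Finset.exists_max_image Finset.univ
    (fun i => P.V.valuation (y i - y' i)) ⟨i0, Finset.mem_univ _⟩
  obtain ⟨m, hmd⟩ : ∃ m, m = y i1 - y' i1 := ⟨_, rfl⟩
  rw [← hmd] at hm
  have m0 : m ≠ 0 := fun h => hne (funext fun i => by
    have h1 := hm i (Finset.mem_univ _)
    rwa [h, map_zero, le_zero_iff, map_eq_zero, sub_eq_zero] at h1)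
  have v1 : ∀ f : MvPolynomial ι k0, aeval y f ∈ P.V ∧ P.fn (aeval y f) = aeval z f := fun f => by
    have h1 := P.aeval_fn hP (fun i => (hy i).1) f
    rwa [show (fun i => P.fn (y i)) = z from funext fun i => (hy i).2] at h1
  have v2 : ∀ f : MvPolynomial ι k0, aeval y' f ∈ P.V ∧ P.fn (aeval y' f) = aeval z f := fun f => by
    have h1 := P.aeval_fn hP (fun i => (hy' i).1) f
    rwa [show (fun i => P.fn (y' i)) = z from funext fun i => (hy' i).2] at h1
  have a1 : ∀ f g : MvPolynomial ι k0, (aeval y (f + g) - aeval y' (f + g)) / m =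
      (aeval y f - aeval y' f) / m + (aeval y g - aeval y' g) / m := fun f g => by
    rw [map_add, map_add]; ring
  have a2 : ∀ f g : MvPolynomial ι k0, (aeval y (f * g) - aeval y' (f * g)) / m =
      aeval y f * ((aeval y g - aeval y' g) / m) + aeval y' g * ((aeval y f - aeval y' f) / m) :=
    fun f g => by rw [map_mul, map_mul]; ring
  have a3 : ∀ c : k0, (aeval y (C c : MvPolynomial ι k0) - aeval y' (C c : MvPolynomial ι k0)) / m
      = 0 := fun c => by rw [aeval_C, aeval_C, sub_self, zero_div]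
  have v3 : ∀ f : MvPolynomial ι k0, (aeval y f - aeval y' f) / m ∈ P.V := fun f => by
    induction f using MvPolynomial.induction_on with
    | C c => rw [a3]; exact P.V.zero_mem
    | add f g hf hg => rw [a1]; exact P.V.add_mem _ _ hf hg
    | mul_X f i hf =>
      rw [a2]
      refine P.V.add_mem _ _ (P.V.mul_mem _ _ (v1 f).1 ?_) (P.V.mul_mem _ _ (v2 _).1 hf)
      rw [aeval_X, aeval_X, ← P.V.valuation_le_one_iff, map_div₀,
        div_le_one₀ (zero_lt_iff.2 ((map_ne_zero _).2 m0))]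
      exact hm i (Finset.mem_univ _)
  have hD : Der z fun f : MvPolynomial ι k0 => P.fn ((aeval y f - aeval y' f) / m) :=
    ⟨fun f g => by rw [a1, P.fn_add (v3 f) (v3 g)], fun f g => by
      rw [a2, P.fn_add (P.V.mul_mem _ _ (v1 f).1 (v3 g)) (P.V.mul_mem _ _ (v2 g).1 (v3 f)),
        P.fn_mul (v1 f).1 (v3 g), P.fn_mul (v2 g).1 (v3 f), (v1 f).2, (v2 g).2],
      fun c => by rw [a3, P.fn_zero]⟩
  have h0 := hD.mul (X i0) a
  rw [map_mul, map_mul, aeval_X y, aeval_X y', e, e', ← mul_sub, mul_div_assoc,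
    P.fn_mul hu (v3 b), hu0, aeval_X z, hz, zero_mul, zero_mul, zero_add] at h0
  have h1 := hD.zero hI hc hσ hz (fun j => by rw [hs, sub_self, zero_div, P.fn_zero])
    (by rw [aeval_X, aeval_X]; exact (mul_eq_zero.1 h0.symm).resolve_left ha) i1
  rw [aeval_X, aeval_X, ← hmd, div_self m0, P.fn_one] at h1
  exact one_ne_zero h1

end Pool.Agent.MP_59fd2e_ag.DV
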