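import Pool.Agent.MP_59fd2e_ag.dv.Br
import Pool.Agent.MP_59fd2e_ag.dv.Ch
import Pool.Agent.MP_59fd2e_ag.dv.Chart
import Pool.Agent.MP_59fd2e_ag.dv.Conj
import Pool.Agent.MP_59fd2e_ag.dv.Cov
import Pool.Agent.MP_59fd2e_ag.dv.Curve
import Pool.Agent.MP_59fd2e_ag.dv.Ex
import Pool.Agent.MP_59fd2e_ag.dv.Ext
import Pool.Agent.MP_59fd2e_ag.dv.Fam
import Pool.Agent.MP_59fd2e_ag.dv.Fin
import Pool.Agent.MP_59fd2e_ag.dv.G2
import Pool.Agent.MP_59fd2e_ag.dv.Gen
import Pool.Agent.MP_59fd2e_ag.dv.Inv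
import Pool.Agent.MP_59fd2e_ag.dv.Iwa
import Pool.Agent.MP_59fd2e_ag.dv.L1
import Pool.Agent.MP_59fd2e_ag.dv.L2
import Pool.Agent.MP_59fd2e_ag.dv.L3
import Pool.Agent.MP_59fd2e_ag.dv.Len
import Pool.Agent.MP_59fd2e_ag.dv.Monk
import Pool.Agent.MP_59fd2e_ag.dv.Nd
import Pool.Agent.MP_59fd2e_ag.dv.Nf
import Pool.Agent.MP_59fd2e_ag.dv.Orb
import Pool.Agent.MP_59fd2e_ag.dv.Plk
import Pool.Agent.MP_59fd2e_ag.dv.Psf
import Pool.Agent.MP_59fd2e_ag.dv.Rel
import Pool.Agent.MP_59fd2e_ag.dv.Rk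
import Pool.Agent.MP_59fd2e_ag.dv.Sort
import Pool.Agent.MP_59fd2e_ag.dv.Top
import Pool.Agent.MP_59fd2e_ag.dv.Top2
import Pool.Agent.MP_59fd2e_ag.dv.Tors
import Pool.Agent.MP_59fd2e_ag.dv.Tri
import Pool.Agent.MP_59fd2e_ag.dv.Unq

/-! PROJECT DV: all rows together. -/

namespace Pool.Agent.MP_59fd2e_ag.DV

theorem nfT : NfS := nfS rkS lenS

theorem covT : CovS := covS rkS nfT lenS

theorem chartT : ChartS := chartS triS nfT covT lenS chS

theorem plkT : PlkS := plkS triS nfT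

theorem extT : ExtS := extS exS

theorem famT : FamS := famS plkT nfT triS (invS exS)

theorem orbT : OrbS := orbS conjS

theorem psfT : PsfS := psfS chartT conjS orbT plkT

theorem l0T : L0S := l0S triS nfT rkS

theorem l1T : L1S := l1S l0T triS nfT rkS (brS lenS) covT chartT lenS

theorem l2T : L2S := l2S chartT extT finS unqS nfT l0T lenS chS

theorem l3T : L3S := l3S chartT extT unqS covT triS nfT l1T lenS chS

theorem relT : RelS := relS l1T l2T l3T famT psfT (iwaS nfT) lenS triS nfT chartT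

theorem g2T : G2S :=
  g2S curveS extT finS famT orbT conjS chartT (iwaS nfT) l0T (brS lenS) nfT plkT chS

theorem genT : GenS := genS g2T psfT chartT lenS chS

theorem mainT : MainS := mainS genT (monkS sortS lenS) relT chS (ndS triS nfT sortS chS chartT)
  orbT torsS plkT psfT

theorem main2T : Main2S := main2S mainT conjS triS

end Pool.Agent.MP_59fd2e_ag.DV
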