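import Pool.Agent.MP_59fd2e_ag.dv.Spec

/-! PROJECT DV, row BR: the order of Bruhat from the rank functions. -/

noncomputable section

namespace Pool.Agent.MP_59fd2e_ag.DV

open scoped Classical

namespace Br

theorem exmin (P : Fin 10 → Prop) (h : ∃ x, P x) : ∃ x, P x ∧ ∀ y, y < x → ¬ P y := by
  obtain ⟨x, hx, hm⟩ := (wellFounded_lt (α := Fin 10)).has_min {x | P x} h
  exact ⟨x, hx, fun y hy hP => hm y hP hy⟩

theorem step (hL : LenS) (w w' : S10) (H : ∀ i c, rkP w' i c ≤ rkP w i c) (hne : w' ≠ w) :
    ∃ p q, Cov w p q ∧ ∀ i c, rkP w' i c ≤ rkP (sw w p q) i c := by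
  have h0 : ∃ p, w p ≠ w' p := by
    by_contra h
    push Not at h
    exact hne (Equiv.ext fun x => (h x).symm)
  obtain ⟨p, hp, hm⟩ := exmin _ h0
  have hm' : ∀ j, j < p → w j = w' j := fun j hj => not_not.mp (hm j hj)
  have hlt : w p < w' p := by
    by_contra h
    have h1 : w' p < w p := lt_of_le_of_ne (not_lt.mp h) hp.symm
    have h2 : rkP w p (w' p) < rkP w' p (w' p) := by
      unfold rkP
      apply Finset.card_lt_card
      rw [Finset.ssubset_iff_of_subset]
      · refine ⟨p, by simp, ?_⟩
        simp only [Finset.mem_filter, Finset.mem_univ, true_and, le_refl, not_le]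
        exact h1
      · intro j hj
        simp only [Finset.mem_filter, Finset.mem_univ, true_and] at hj ⊢
        refine ⟨hj.1, ?_⟩
        rcases hj.1.lt_or_eq with h3 | h3
        · rw [← hm' j h3]; exact hj.2
        · rw [h3]
    exact absurd (H p (w' p)) (not_le.mpr h2)
  have h1 : ∃ q, p < q ∧ w p < w q ∧ w q ≤ w' p := by
    have e : w (w.symm (w' p)) = w' p := w.apply_symm_apply _
    refine ⟨w.symm (w' p), ?_, by rw [e]; exact hlt, e.le⟩
    rcases lt_trichotomy p (w.symm (w' p)) with h | h | h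
    · exact h
    · rw [← h] at e
      exact absurd e hp
    · have h2 := hm' _ h
      rw [e] at h2
      exact absurd (w'.injective h2) h.ne'
  obtain ⟨q, ⟨hpq, hw, hq⟩, hmq⟩ := exmin _ h1
  refine ⟨p, q, ⟨hpq, hw, fun r h1 h2 h3 => hmq r h2 ⟨h1, h3.1, h3.2.le.trans hq⟩⟩, fun i c => ?_⟩
  by_cases hin : p ≤ i ∧ i < q ∧ w p ≤ c ∧ c < w q
  swap
  · rw [hL.rk_sw w p q i c hpq hw hin]
    exact H i c
  obtain ⟨hpi, hiq, hpc, hcq⟩ := hin
  have hA : rkP w i c ≤ rkP (sw w p q) i c + 1 := by
    unfold rkP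
    refine le_trans (Finset.card_le_card ?_) (Finset.card_insert_le p _)
    intro j hj
    simp only [Finset.mem_filter, Finset.mem_univ, true_and, Finset.mem_insert] at hj ⊢
    by_cases hjp : j = p
    · exact Or.inl hjp
    · refine Or.inr ⟨hj.1, ?_⟩
      have hjq : j ≠ q := (hj.1.trans_lt hiq).ne
      have e : sw w p q j = w j := by
        simp only [sw, Equiv.Perm.mul_apply, Equiv.swap_apply_of_ne_of_ne hjp hjq]
      rw [e]
      exact hj.2
  have hcd : c < w' p := hcq.trans_le hq
  set N : Finset (Fin 10) := Finset.univ.filter fun j => j < p ∧ c < w j ∧ w j ≤ w' p with hN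
  have hB : rkP w i (w' p) ≤ rkP w i c + N.card := by
    unfold rkP
    refine le_trans (Finset.card_le_card ?_) (Finset.card_union_le _ _)
    intro j hj
    simp only [hN, Finset.mem_filter, Finset.mem_univ, true_and, Finset.mem_union] at hj ⊢
    by_cases hjc : w j ≤ c
    · exact Or.inl ⟨hj.1, hjc⟩
    · have hjc' : c < w j := not_le.mp hjc
      rcases lt_trichotomy j p with h | h | h
      · exact Or.inr ⟨h, hjc', hj.2⟩
      · rw [h] at hjc
        exact absurd hpc hjc
      · exact absurd ⟨h, hpc.trans_lt hjc', hj.2⟩ (hmq j (hj.1.trans_lt hiq))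
  have hC : rkP w' i c + (N.card + 1) ≤ rkP w' i (w' p) := by
    unfold rkP
    have hpN : p ∉ N := by simp [hN]
    rw [← Finset.card_insert_of_notMem hpN, ← Finset.card_union_of_disjoint]
    · apply Finset.card_le_card
      intro j hj
      simp only [hN, Finset.mem_filter, Finset.mem_univ, true_and, Finset.mem_union,
        Finset.mem_insert] at hj ⊢
      rcases hj with h | h | h
      · exact ⟨h.1, h.2.trans hcd.le⟩
      · rw [h]
        exact ⟨hpi, le_rfl⟩
      · refine ⟨h.1.le.trans hpi, ?_⟩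
        rw [← hm' j h.1]
        exact h.2.2
    · rw [Finset.disjoint_left]
      intro j hj hj'
      simp only [hN, Finset.mem_filter, Finset.mem_univ, true_and, Finset.mem_insert] at hj hj'
      rcases hj' with h | h
      · rw [h] at hj
        exact absurd hj.2 (not_le.mpr hcd)
      · rw [← hm' j h.1] at hj
        exact absurd hj.2 (not_le.mpr h.2.1)
  have := H i (w' p)
  omega

theorem main (hL : LenS) (w' : S10) : ∀ (n : ℕ) (w : S10), 45 ≤ len w + n →
    (∀ i c, rkP w' i c ≤ rkP w i c) →
    w' = w ∨ (len w < len w' ∧ (len w' ≤ len w + 1 → ∃ p q, Cov w p q ∧ w' = sw w p q)) := by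
  intro n
  induction n with
  | zero =>
    intro w hn H
    by_cases hne : w' = w
    · exact Or.inl hne
    obtain ⟨p, q, hc, -⟩ := step hL w w' H hne
    have h1 := hL.cov w p q hc
    have h2 := hL.fr (sw w p q)
    omega
  | succ n ih =>
    intro w hn H
    by_cases hne : w' = w
    · exact Or.inl hne
    obtain ⟨p, q, hc, H'⟩ := step hL w w' H hne
    have h1 := hL.cov w p q hc
    rcases ih (sw w p q) (by omega) H' with h | h
    · refine Or.inr ⟨?_, fun _ => ⟨p, q, hc, h⟩⟩
      rw [h]
      omega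
    · refine Or.inr ⟨by omega, fun h2 => ?_⟩
      omega

end Br

theorem brS (hL : LenS) : BrS := fun w w' H => Br.main hL w' 45 w (by omega) H

end Pool.Agent.MP_59fd2e_ag.DV
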