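import Pool.Agent.MP_59fd2e_ag.dv.Spec

/-! PROJECT DV: from invariant cycles to invariant classes. -/

noncomputable section

namespace Pool.Agent.MP_59fd2e_ag.DV

open MvPolynomial Matrix Pool.Agent.MP_9207e0_ag.CC
open scoped Classical

/-- The theorem for cycles whose class is invariant up to torsion. -/
def ClsS : Prop := ∀ (k0 k : Type) [Field k0] [CharZero k0] [Field k] [IsAlgClosed k]
  [Algebra k0 k] (σ : T3 → k), IsTranscendenceBasis k0 σ → ∀ Z : PP (Fin 6 → Fin 10) k →₀ ℤ,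
  (∀ x ∈ Z.support, x.rep ∈ cone σ) →
  (∀ θ : k ≃ₐ[k0] k, (∀ τ, θ (σ τ) = σ τ) → ∃ m : ℤ, m ≠ 0 ∧
    RatEq (dvIdeal σ) k (m • Z.mapDomain (pmap (θ : k →+* k))) (m • Z)) →
  (Z.sum fun _ n => n) = 0 → ∃ n : ℤ, n ≠ 0 ∧ RatEq (dvIdeal σ) k (n • Z) 0

namespace ClsA

variable {k0 k : Type} [Field k0] [Field k] [Algebra k0 k]

theorem tri_smul (hT : TriS) (σ : T3 → k) (x y z : Fin 10 → k) (a b c : k)
    (h : tri σ x y z = 0) : tri σ (a • x) (b • y) (c • z) = 0 := by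
  have m : ∀ (x y z : Fin 10 → k) (b : k), tri σ x y z = 0 → tri σ x (b • y) z = 0 := by
    intro x y z b h
    obtain ⟨f, hf⟩ := hT.lin k σ x z
    rw [← hf, map_smul, hf, h, smul_zero]
  have s1 : ∀ x y z : Fin 10 → k, tri σ x y z = 0 → tri σ y x z = 0 := by
    intro x y z h
    rw [(hT.sw1 k σ y x z).1, h, neg_zero]
  have s2 : ∀ x y z : Fin 10 → k, tri σ x y z = 0 → tri σ x z y = 0 := by
    intro x y z h
    rw [(hT.sw2 k σ x z y).1, h, neg_zero]
  exact s2 _ _ _ (m _ _ _ c (s2 _ _ _ (s1 _ _ _ (m _ _ _ a (s1 _ _ _ (m _ _ _ b h))))))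

theorem cone_smul (hT : TriS) (σ : T3 → k) (v : Pl → k) (c : k) (h : v ∈ cone σ) :
    c • v ∈ cone σ := by
  obtain ⟨M, hM, rfl⟩ := h
  refine ⟨Matrix.of fun a => (if a = 0 then c else 1) • M a, fun a b d => ?_, ?_⟩
  · exact tri_smul hT σ _ _ _ _ _ _ (hM a b d)
  · funext f
    have e : (Matrix.of fun a => (if a = 0 then c else 1) • M a).submatrix id f =
        Matrix.of fun a j => (if a = 0 then c else 1) * (M.submatrix id f) a j := rfl
    unfold plk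
    rw [e, Matrix.det_mul_column, Finset.prod_ite_eq' Finset.univ (0 : Fin 6) (fun _ => c),
      if_pos (Finset.mem_univ _)]
    rfl

theorem cone_map (hT : TriS) (σ : T3 → k) (θ : k →+* k) (hθ : ∀ τ, θ (σ τ) = σ τ) (v : Pl → k)
    (h : v ∈ cone σ) : (fun j => θ (v j)) ∈ cone σ := by
  obtain ⟨M, hM, rfl⟩ := h
  have hσ : θ ∘ σ = σ := funext hθ
  refine ⟨M.map θ, fun a b d => ?_, ?_⟩
  · have := hT.map k k θ σ (M a) (M b) (M d)
    rw [hM, map_zero, hσ] at this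
    exact this.symm
  · funext f
    unfold plk
    rw [RingHom.map_det]
    rfl

theorem cone_pmap (hT : TriS) (σ : T3 → k) (θ : k →+* k) (hθ : ∀ τ, θ (σ τ) = σ τ)
    (x : PP Pl k) (h : x.rep ∈ cone σ) : (pmap θ x).rep ∈ cone σ := by
  unfold pmap
  obtain ⟨c, hc⟩ := Projectivization.exists_smul_eq_mk_rep k (fun j => θ (x.rep j)) fun h =>
    x.rep_nonzero (funext fun j => θ.injective ((congrFun h j).trans (map_zero θ).symm))
  rw [← hc]
  exact cone_smul hT σ _ (c : k) (cone_map hT σ θ hθ _ h)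

/-- The conjugates of a cycle. -/
def cj (k0 : Type) [Field k0] [Algebra k0 k] (σ : T3 → k) (Z : PP Pl k →₀ ℤ) :
    Set (PP Pl k →₀ ℤ) := {W | ∃ θ, Fx k0 σ θ ∧ Z.mapDomain (pmap (θ : k →+* k)) = W}

theorem cj_fin (hC : ConjS) (σ : T3 → k) (hσ : IsTranscendenceBasis k0 σ) (Z : PP Pl k →₀ ℤ) :
    (cj k0 σ Z).Finite := by
  induction Z using Finsupp.induction_linear with
  | zero =>
    refine (Set.finite_singleton 0).subset ?_
    rintro W ⟨θ, _, rfl⟩
    exact Finsupp.mapDomain_zero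
  | add f g hf hg =>
    refine (hf.image2 (· + ·) hg).subset ?_
    rintro W ⟨θ, hθ, rfl⟩
    exact ⟨_, ⟨θ, hθ, rfl⟩, _, ⟨θ, hθ, rfl⟩, Finsupp.mapDomain_add.symm⟩
  | single a n =>
    refine ((hC.finP k0 k T3 Pl σ a hσ).image fun y => Finsupp.single y n).subset ?_
    rintro W ⟨θ, hθ, rfl⟩
    exact ⟨_, ⟨θ, hθ, rfl⟩, Finsupp.mapDomain_single.symm⟩

theorem cj_map {σ : T3 → k} {Z W : PP Pl k →₀ ℤ} (φ : k ≃ₐ[k0] k) (hφ : Fx k0 σ φ)
    (h : W ∈ cj k0 σ Z) : W.mapDomain (pmap (φ : k →+* k)) ∈ cj k0 σ Z := by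
  obtain ⟨θ, hθ, rfl⟩ := h
  refine ⟨θ.trans φ, fun j => ?_, ?_⟩
  · rw [AlgEquiv.trans_apply, hθ j, hφ j]
  · rw [← Finsupp.mapDomain_comp]
    refine congrArg (fun f => Finsupp.mapDomain f Z) (funext fun x => ?_)
    exact (pmap_pmap (θ : k →+* k) (φ : k →+* k) x).symm

theorem cj_self (σ : T3 → k) (Z : PP Pl k →₀ ℤ) : Z ∈ cj k0 σ Z := by
  refine ⟨AlgEquiv.refl, fun _ => rfl, ?_⟩
  have : (pmap ((AlgEquiv.refl : k ≃ₐ[k0] k) : k →+* k) : PP Pl k → PP Pl k) = id :=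
    funext fun x => pmap_id x
  rw [this, Finsupp.mapDomain_id]

/-- The elements of which a multiple lies in a subgroup. -/
def sat {A : Type} [AddCommGroup A] (N : AddSubgroup A) : AddSubgroup A where
  carrier := {D | ∃ m : ℤ, m ≠ 0 ∧ m • D ∈ N}
  zero_mem' := ⟨1, one_ne_zero, by rw [smul_zero]; exact N.zero_mem⟩
  add_mem' := by
    rintro a b ⟨m, hm, ha⟩ ⟨n, hn, hb⟩
    refine ⟨m * n, mul_ne_zero hm hn, ?_⟩
    rw [smul_add]
    refine N.add_mem ?_ ?_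
    · rw [mul_comm, mul_smul]
      exact N.zsmul_mem ha n
    · rw [mul_smul]
      exact N.zsmul_mem hb m
  neg_mem' := by
    rintro a ⟨m, hm, ha⟩
    exact ⟨m, hm, by rw [smul_neg]; exact N.neg_mem ha⟩

end ClsA

open ClsA in
theorem clsS (hM : MainS) (hC : ConjS) (hT : TriS) : ClsS := by
  intro k0 k _ _ _ _ _ σ hσ Z hs hi hd
  have hf := cj_fin hC σ hσ Z
  let N := AddSubgroup.closure {E | Principal (dvIdeal σ) k E}
  let dg : (PP Pl k →₀ ℤ) →+ ℤ := Finsupp.liftAddHom fun _ => AddMonoidHom.id ℤ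
  have hdg : ∀ D, dg D = D.sum fun _ n => n := fun D => rfl
  obtain ⟨n, hn, hW⟩ := hM k0 k σ hσ (∑ W ∈ hf.toFinset, W)
    (fun x hx => by
      obtain ⟨W, hW, hxW⟩ := Finsupp.mem_support_finsetSum x hx
      obtain ⟨θ, hθ, rfl⟩ := hf.mem_toFinset.1 hW
      obtain ⟨y, hy, rfl⟩ := Finset.mem_image.1 (Finsupp.mapDomain_support hxW)
      exact cone_pmap hT σ (θ : k →+* k) (fun τ => hθ τ) y (hs y hy))
    (fun φ hφ => by
      rw [Finsupp.mapDomain_finsetSum]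
      have hinj : Function.Injective
          (Finsupp.mapDomain (pmap (φ : k →+* k)) : (PP Pl k →₀ ℤ) → (PP Pl k →₀ ℤ)) :=
        Finsupp.mapDomain_injective (pmap_injective _)
      have him : hf.toFinset.image (Finsupp.mapDomain (pmap (φ : k →+* k))) = hf.toFinset := by
        refine Finset.eq_of_subset_of_card_le (fun W hW => ?_)
          (Finset.card_image_of_injective _ hinj).ge
        obtain ⟨V, hV, rfl⟩ := Finset.mem_image.1 hW
        exact hf.mem_toFinset.2 (cj_map φ hφ (hf.mem_toFinset.1 hV))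
      conv_rhs => rw [← him, Finset.sum_image fun a _ b _ h => hinj h])
    (by
      rw [← hdg, map_sum]
      refine Finset.sum_eq_zero fun W hW => ?_
      obtain ⟨θ, _, rfl⟩ := hf.mem_toFinset.1 hW
      rw [hdg, Finsupp.sum_mapDomain_index (fun _ => rfl) (fun _ _ _ => rfl), hd])
  have h1 : (∑ W ∈ hf.toFinset, W) ∈ sat N := ⟨n, hn, by
    have := hW
    unfold RatEq at this
    rwa [sub_zero] at this⟩
  have h2 : (∑ W ∈ hf.toFinset, (W - Z)) ∈ sat N := by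
    refine AddSubgroup.sum_mem _ fun W hW => ?_
    obtain ⟨θ, hθ, rfl⟩ := hf.mem_toFinset.1 hW
    obtain ⟨m, hm, h⟩ := hi θ hθ
    exact ⟨m, hm, by rw [smul_sub]; exact h⟩
  have h3 := (sat N).sub_mem h1 h2
  rw [Finset.sum_sub_distrib, sub_sub_cancel, Finset.sum_const] at h3
  obtain ⟨m, hm, h4⟩ := h3
  have hc : hf.toFinset.card ≠ 0 :=
    Finset.card_ne_zero.2 ⟨Z, hf.mem_toFinset.2 (cj_self σ Z)⟩
  refine ⟨m * hf.toFinset.card, mul_ne_zero hm (Nat.cast_ne_zero.2 hc), ?_⟩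
  unfold RatEq
  rw [sub_zero, mul_smul, natCast_zsmul]
  exact h4

end Pool.Agent.MP_59fd2e_ag.DV
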