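import Pool.Agent.MP_9207e0_ag.cc.Defs

/-! The Debarre-Voisin fourfold of an alternating three-form in ten variables. -/

namespace Pool.Agent.MP_59fd2e_ag.DV

/-- Increasing triples of indices. -/
abbrev T3 : Type := {τ : Fin 10 × Fin 10 × Fin 10 // τ.1 < τ.2.1 ∧ τ.2.1 < τ.2.2}

/-- The value at `x, y, z` of the alternating three-form with coefficients `σ`. -/
def tri {R : Type} [CommRing R] (σ : T3 → R) (x y z : Fin 10 → R) : R :=
  ∑ τ : T3, σ τ * ((Matrix.of ![x, y, z]).submatrix id ![τ.1.1, τ.1.2.1, τ.1.2.2]).det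

/-- The Pluecker coordinates of the row space of `M`. -/
def plk {R : Type} [CommRing R] (M : Matrix (Fin 6) (Fin 10) R) (f : Fin 6 → Fin 10) : R :=
  (M.submatrix id f).det

/-- The Pluecker vectors of the six-dimensional spaces on which the form vanishes, and zero. -/
def cone {R : Type} [CommRing R] (σ : T3 → R) : Set ((Fin 6 → Fin 10) → R) :=
  {v | ∃ M : Matrix (Fin 6) (Fin 10) R, (∀ a b c, tri σ (M a) (M b) (M c) = 0) ∧ v = plk M}

/-- The ideal of the fourfold in the Pluecker embedding. -/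
def dvIdeal {k : Type} [Field k] (σ : T3 → k) : Ideal (MvPolynomial (Fin 6 → Fin 10) k) :=
  MvPolynomial.vanishingIdeal k (cone σ)

end Pool.Agent.MP_59fd2e_ag.DV
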