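import Pool.Agent.MP_59fd2e_ag.dv.Spec

/-! PROJECT DV, row INV: an automorphism of the constants lifts to the curve. -/

noncomputable section

namespace Pool.Agent.MP_59fd2e_ag.DV

open Pool.Agent.MP_9207e0_ag.CC IntermediateField

namespace InvAux

theorem alg (K E k : Type) [Field K] [Field E] [Field k] [Algebra K k] [Algebra.IsAlgebraic K k]
    [Algebra K E] [Algebra E (LL k)] [IsScalarTower K E (LL k)] (ht : IsAlgebraic E (tt k)) :
    Algebra.IsAlgebraic E (LL k) := by
  have h0 : ∀ c : k, algebraMap k (LL k) c ∈ algebraicClosure E (LL k) := fun c =>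
    mem_algebraicClosure_iff.2
      ((Algebra.IsAlgebraic.isAlgebraic (R := K) c).algebraMap.tower_top E)
  have h1 : ∀ p : Polynomial k,
      algebraMap (RatFunc k) (LL k) (algebraMap _ _ p) ∈ algebraicClosure E (LL k) := by
    intro p
    rw [← RatFunc.aeval_X_left_eq_algebraMap, ← Polynomial.aeval_algebraMap_apply,
      Polynomial.aeval_eq_sum_range]
    refine sum_mem fun i _ => ?_
    rw [Algebra.smul_def]
    exact mul_mem (h0 _) (pow_mem (mem_algebraicClosure_iff.2 ht) _)
  have h2 : ∀ f : RatFunc k, algebraMap (RatFunc k) (LL k) f ∈ algebraicClosure E (LL k) :=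
    fun f => by
      rw [← f.num_div_denom, map_div₀]
      exact div_mem (h1 _) (h1 _)
  let _ : Algebra (RatFunc k) (algebraicClosure E (LL k)) :=
    ((algebraMap (RatFunc k) (LL k)).codRestrict (algebraicClosure E (LL k)) h2).toAlgebra
  have : IsScalarTower (RatFunc k) (algebraicClosure E (LL k)) (LL k) :=
    IsScalarTower.of_algebraMap_eq fun _ => rfl
  have : Algebra.IsAlgebraic (algebraicClosure E (LL k)) (LL k) :=
    Algebra.IsAlgebraic.tower_top (K := RatFunc k) _
  exact Algebra.IsAlgebraic.trans E (algebraicClosure E (LL k)) (LL k)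

theorem core (hE : ExS) (K k : Type) [Field K] [CharZero K] [Field k] [IsAlgClosed k]
    [Algebra K k] [Algebra.IsAlgebraic K k] (P : Plc (LL k) k) (u : LL k) (θ : k →+* k)
    (A : Set (LL k)) (hu : u = tt k ∨ u = (tt k)⁻¹) (hP : Zr P u)
    (hθ : ∀ c : K, θ (algebraMap K k c) = algebraMap K k c) (hA : A.Finite) :
    ∃ f : LL k →+* LL k, f (tt k) = tt k ∧
      (∀ c : K, f (algebraMap k _ (algebraMap K k c)) = algebraMap k _ (algebraMap K k c)) ∧
      ∀ x ∈ A, x ∈ P.V → f x ∈ P.V ∧ P.fn (f x) = θ (P.fn x) := by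
  have huk : Transcendental k u := by
    rcases hu with rfl | rfl
    · exact tt_transcendental
    · exact fun h => tt_transcendental (IsAlgebraic.inv_iff.1 h)
  have huK : Transcendental K u := huk.of_tower_top K
  let F : IntermediateField K (LL k) := adjoin K (insert u A)
  let h : F := ⟨u, subset_adjoin _ _ (Set.mem_insert _ _)⟩
  have hh : Transcendental K h :=
    (transcendental_algebraMap_iff (algebraMap F (LL k)).injective).1 huK
  have a1 : Algebra.IsAlgebraic K⟮h⟯ (LL k) := by
    have h1 : IsAlgebraic K⟮h⟯ u := isAlgebraic_algebraMap (R := K⟮h⟯) (AdjoinSimple.gen K h)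
    refine alg K _ k ?_
    rcases hu with e | e
    · exact e ▸ h1
    · exact IsAlgebraic.inv_iff.1 (e ▸ h1)
  have a2 : Algebra.IsAlgebraic K⟮h⟯ F := Algebra.IsAlgebraic.tower_bot _ F (LL k)
  have a3 : Algebra.IsAlgebraic F (LL k) := Algebra.IsAlgebraic.tower_top (K := K⟮h⟯) F
  have e1 : Algebra.EssFiniteType K F :=
    essFiniteType_iff.2 (fg_adjoin_of_finite (hA.insert u))
  have e2 : Algebra.EssFiniteType K⟮h⟯ F := Algebra.EssFiniteType.of_comp K _ _
  have hF : Pool.Agent.MP_9207e0_ag.IsCurveFieldOver K F :=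
    ⟨h, hh, Algebra.finite_of_essFiniteType_of_isAlgebraic⟩
  let R : Subring F := P.V.toSubring.comap (algebraMap F (LL k))
  obtain ⟨Q, hQ⟩ := place R.subtype (θ.comp (P.φ.comp
    (((algebraMap F (LL k)).comp R.subtype).codRestrict P.V.toSubring fun a => a.2)))
    fun r hr => by rw [show r = 0 from Subtype.ext hr, map_zero]
  have hQ' : ∀ x : F, (x : LL k) ∈ P.V → x ∈ Q.V ∧ Q.fn x = θ (P.fn x) := fun x hx => by
    have := hQ ⟨x, hx⟩
    refine ⟨this.1, this.2.trans ?_⟩
    rw [P.fn_mem hx]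
    rfl
  have hPK : P.Over K := hP.1.self
  have hQK : Q.Over K := fun c => by
    have := hQ' (algebraMap K F c) (hPK c).1
    exact ⟨this.1, this.2.trans ((congrArg θ (hPK c).2).trans (hθ c))⟩
  have hh' := hQ' h hP.2.1
  obtain ⟨f0, h1, h2⟩ := hE K F (LL k) k h u Q P hF hh huK hQK hPK hh'.1
    (hh'.2.trans ((congrArg θ hP.2.2).trans (map_zero θ))) hP.2.1 hP.2.2
  obtain ⟨f, hf⟩ := IsAlgClosed.surjective_domRestrict_of_isAlgebraic (K := K) (L := F)
    (M := LL k) (E := LL k) f0
  have hf' : ∀ x : F, f x = f0 x := fun x => by rw [← hf]; rfl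
  have hfu : f u = u := (hf' h).trans h1
  refine ⟨f, ?_, fun c => ?_, fun x hx hv => ?_⟩
  · rcases hu with e | e
    · exact e ▸ hfu
    · rw [e, map_inv₀] at hfu
      exact inv_injective hfu
  · rw [← IsScalarTower.algebraMap_apply]
    exact f.commutes c
  · let y : F := ⟨x, subset_adjoin _ _ (Set.mem_insert_of_mem _ hx)⟩
    have h3 := hQ' y hv
    have h4 := h2 y h3.1
    rw [← hf' y] at h4
    exact ⟨h4.1, h4.2.trans h3.2⟩

end InvAux

theorem invS (hE : ExS) : InvS := by
  intro k0 k J _ _ _ _ _ _ σ P u θ A hσ hu hP hθ hA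
  let K : IntermediateField k0 k := adjoin k0 (Set.range σ)
  have : Algebra.IsAlgebraic K k := hσ.isAlgebraic_field
  have : CharZero K := charZero_of_injective_algebraMap (algebraMap k0 K).injective
  obtain ⟨f, h1, h3, h2⟩ := InvAux.core hE K k P u θ A hu hP (by
    rintro ⟨c, hc⟩
    change θ c = c
    induction hc using adjoin_induction with
    | mem x hx => obtain ⟨j, rfl⟩ := hx; exact hθ j
    | algebraMap x => exact θ.commutes x
    | add x y _ _ hx hy => rw [map_add, hx, hy]
    | inv x _ hx => rw [map_inv₀, hx]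
    | mul x y _ _ hx hy => rw [map_mul, hx, hy]) hA
  refine ⟨⟨f, fun c => ?_⟩, h1, fun j => h3 ⟨σ j, subset_adjoin _ _ ⟨j, rfl⟩⟩, h2⟩
  rw [IsScalarTower.algebraMap_apply k0 k (LL k)]
  exact h3 (algebraMap k0 K c)

end Pool.Agent.MP_59fd2e_ag.DV
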