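import Pool.Agent.MP_59fd2e_ag.dv.Spec

/-! PROJECT DV, row RK: ranks of the corners of a matrix. -/

noncomputable section

namespace Pool.Agent.MP_59fd2e_ag.DV

open MvPolynomial Matrix Pool.Agent.MP_9207e0_ag.CC
open scoped Classical

namespace Rk

/-- The upper left corner. -/
def T {R : Type} [CommRing R] (g : M10 R) (i c : Fin 10) : M10 R :=
  Matrix.of fun j d => if j ≤ i ∧ d ≤ c then g j d else 0

theorem rkM_eq {R : Type} [CommRing R] (g : M10 R) (i c : Fin 10) : rkM g i c = (T g i c).rank :=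
  rfl

theorem T_pos {R : Type} [CommRing R] (g : M10 R) {i c j d : Fin 10} (h1 : j ≤ i) (h2 : d ≤ c) :
    T g i c j d = g j d := if_pos ⟨h1, h2⟩

theorem T_neg {R : Type} [CommRing R] (g : M10 R) {i c j d : Fin 10} (h : ¬(j ≤ i ∧ d ≤ c)) :
    T g i c j d = 0 := if_neg h

variable {K : Type} [Field K]

theorem tri_rank {ι : Type} [Fintype ι] (κ : ι → ℕ) (hκ : Function.Injective κ) (B : Matrix ι ι K)
    (h0 : ∀ a b, κ b < κ a → B a b = 0) (h1 : ∀ a, B a a ≠ 0) : B.rank = Fintype.card ι := by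
  let _ : LinearOrder ι := LinearOrder.lift' κ hκ
  refine rank_of_det_ne_zero ?_
  rw [det_of_isUpperTriangular (M := B) fun a b h => h0 a b h]
  exact Finset.prod_ne_zero_iff.2 fun a _ => h1 a

theorem rows {m n : Type} [Fintype m] [Fintype n] (A : Matrix m n K) {k : ℕ} (hk : A.rank = k) :
    ∃ r : Fin k → m, LinearIndependent K (A.submatrix r id).row := by
  rw [rank_eq_finrank_span_row] at hk
  subst hk
  obtain ⟨f, h1, -, h2⟩ := Submodule.exists_fun_fin_finrank_span_eq K (Set.range A.row)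
  choose r hr using h1
  refine ⟨r, ?_⟩
  have h3 : (A.submatrix r id).row = f := funext hr
  rwa [h3]

theorem minor {m n : Type} [Fintype m] [Fintype n] (A : Matrix m n K) :
    ∃ (r : Fin A.rank → m) (c : Fin A.rank → n), (A.submatrix r c).det ≠ 0 := by
  obtain ⟨r, hr⟩ := rows A rfl
  obtain ⟨c, hc⟩ := rows (A.submatrix r id)ᵀ (k := A.rank)
    (by rw [rank_transpose, hr.rank_matrix, Fintype.card_fin])
  refine ⟨r, c, ?_⟩
  have h := (isUnit_iff_isUnit_det _).1 (linearIndependent_rows_iff_isUnit.1 hc)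
  rw [← det_transpose]
  exact h.ne_zero

theorem map_rank {R L m n : Type} [CommRing R] [Field L] [Fintype m] [Fintype n] (f : R →+* K)
    (hf : Function.Injective f) (φ : R →+* L) (G : Matrix m n R) :
    (G.map φ).rank ≤ (G.map f).rank := by
  obtain ⟨r, c, h⟩ := minor (G.map φ)
  have h1 : ((G.map f).submatrix r c).det ≠ 0 := fun h2 => h <| by
    have h3 : (G.submatrix r c).det = 0 := hf (by rw [map_zero, RingHom.map_det]; exact h2)
    have h4 := congrArg φ h3
    rw [map_zero, RingHom.map_det] at h4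
    exact h4
  have h5 := rank_submatrix_le (G.map f) r c
  rwa [rank_of_det_ne_zero h1, Fintype.card_fin] at h5

theorem lo (b g : M10 K) (i c : Fin 10) (hb : Lo b) : rkM (b * g) i c = rkM g i c := by
  let b' : M10 K := Matrix.of fun j k => if j ≤ i then b j k else if j = k then 1 else 0
  have h : T (b * g) i c = b' * T g i c := by
    ext j d
    rw [mul_apply]
    by_cases hj : j ≤ i
    · by_cases hd : d ≤ c
      · rw [T_pos _ hj hd, mul_apply]
        refine Finset.sum_congr rfl fun k _ => ?_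
        have h1 : b' j k = b j k := if_pos hj
        rw [h1]
        by_cases hk : k ≤ i
        · rw [T_pos _ hk hd]
        · rw [hb.1 j k (hj.trans_lt (not_le.1 hk)), zero_mul, zero_mul]
      · rw [T_neg _ fun h => hd h.2]
        exact (Finset.sum_eq_zero fun k _ => by rw [T_neg _ fun h => hd h.2, mul_zero]).symm
    · rw [T_neg _ fun h => hj h.1]
      refine (Finset.sum_eq_zero fun k _ => ?_).symm
      have h1 : b' j k = if j = k then 1 else 0 := if_neg hj
      rw [h1]
      split_ifs with e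
      · rw [← e, T_neg _ fun h => hj h.1, mul_zero]
      · rw [zero_mul]
  rw [rkM_eq, rkM_eq, h]
  refine rank_mul_eq_right_of_isLowerTriangular _ _ (fun j k hjk => ?_) fun j => ?_
  · have h1 : j < k := hjk
    change (if j ≤ i then b j k else if j = k then 1 else 0) = 0
    rw [hb.1 j k h1, if_neg h1.ne, ite_self]
  · change (if j ≤ i then b j j else if j = j then 1 else 0) ≠ 0
    split_ifs with h1 h2
    · exact hb.2 j
    · exact one_ne_zero
    · exact (h2 rfl).elim

theorem card_J (w : S10) (i c : Fin 10) :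
    Fintype.card {j : Fin 10 // j ≤ i ∧ w j ≤ c} = rkP w i c := by
  rw [rkP, Fintype.card_subtype]

theorem ld (w : S10) (g : M10 K) (i c : Fin 10) (h : Ld w g) : rkM g i c = rkP w i c := by
  rw [rkM_eq]
  refine le_antisymm (rank_le_card_of_support_subset _ _ fun j hj => ?_) ?_
  · obtain ⟨d, hd⟩ := Function.ne_iff.1 hj
    have h1 : j ≤ i ∧ d ≤ c := by
      by_contra k
      exact hd (T_neg g k)
    have h2 : g j d ≠ 0 := fun k => hd ((T_pos g h1.1 h1.2).trans k)
    have h3 : w j ≤ d := not_lt.1 fun k => h2 ((h j).2 d k)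
    simpa using ⟨h1.1, h3.trans h1.2⟩
  · have h1 := rank_submatrix_le (T g i c) (fun a : {j : Fin 10 // j ≤ i ∧ w j ≤ c} => a.1)
      fun a : {j : Fin 10 // j ≤ i ∧ w j ≤ c} => w a.1
    rw [tri_rank (fun a => (w a.1).val), card_J] at h1
    · exact h1
    · exact fun a b e => Subtype.ext (w.injective (Fin.ext e))
    · exact fun a b e => (T_pos g a.2.1 b.2.2).trans ((h a.1).2 _ e)
    · exact fun a e => (h a.1).1 ((T_pos g a.2.1 a.2.2).symm.trans e)

theorem red {L : Type} [Field L] (P : Plc K L) (g : M10 K) (z : M10 L) (i c : Fin 10)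
    (h : OvM P g z) : rkM z i c ≤ rkM g i c := by
  let G : M10 P.V := Matrix.of fun j d => ⟨g j d, (h j d).1⟩
  have h1 : T z i c = (T G i c).map P.φ := by
    ext j d
    rw [map_apply]
    by_cases k : j ≤ i ∧ d ≤ c
    · rw [T_pos _ k.1 k.2, T_pos _ k.1 k.2, ← (h j d).2, P.fn_mem (h j d).1]
      rfl
    · rw [T_neg _ k, T_neg _ k, map_zero]
  have h2 : T g i c = (T G i c).map P.V.subtype := by
    ext j d
    rw [map_apply]
    by_cases k : j ≤ i ∧ d ≤ c
    · rw [T_pos _ k.1 k.2, T_pos _ k.1 k.2]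
      rfl
    · rw [T_neg _ k, T_neg _ k, map_zero]
  rw [rkM_eq, rkM_eq, h1, h2]
  exact map_rank _ Subtype.val_injective _ _

theorem sp (w : S10) (g : M10 K) (i c : Fin 10) (a : Fin 10 → K) (h : CF w g)
    (hr : rkM g i c ≤ rkP w i c) (ha : ∀ j, i < j → a j = 0)
    (hz : ∀ j, j ≤ i → w j ≤ c → (a ᵥ* g) (w j) = 0) (d : Fin 10) (hd : d ≤ c) :
    (a ᵥ* g) d = 0 := by
  by_contra hne
  have h1 : ∀ e, e ≤ c → (a ᵥ* T g i c) e = (a ᵥ* g) e := fun e he => by
    change ∑ k, a k * T g i c k e = ∑ k, a k * g k e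
    refine Finset.sum_congr rfl fun k _ => ?_
    by_cases hk : k ≤ i
    · rw [T_pos g hk he]
    · rw [ha k (not_le.1 hk), zero_mul, zero_mul]
  let R : Matrix (Option {j : Fin 10 // j ≤ i ∧ w j ≤ c}) (Fin 10) K :=
    Matrix.of fun x => x.elim a fun j => Pi.single j.1 1
  let C : Option {j : Fin 10 // j ≤ i ∧ w j ≤ c} → Fin 10 := fun x => x.elim d fun j => w j.1
  have h2 : ∀ e, (R * T g i c) none e = (a ᵥ* T g i c) e := fun e => rfl
  have h3 : ∀ j e, (R * T g i c) (some j) e = T g i c j.1 e := fun j e => by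
    change (Pi.single j.1 1 ᵥ* T g i c) e = _
    rw [single_one_vecMul]
    rfl
  have h4 := (rank_submatrix_le (R * T g i c) id C).trans ((rank_mul_le_right _ _).trans hr)
  rw [tri_rank (fun x => x.elim 10 fun j => j.1.val), Fintype.card_option, card_J] at h4
  · omega
  · rintro (_ | x) (_ | y) e
    · rfl
    · exact absurd e y.1.2.ne'
    · exact absurd e x.1.2.ne
    · exact congrArg some (Subtype.ext (Fin.ext e))
  · rintro (_ | x) (_ | y) e
    · exact absurd e (lt_irrefl _)
    · exact (h2 _).trans ((h1 _ y.2.2).trans (hz _ y.2.1 y.2.2))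
    · exact absurd e x.1.2.not_gt
    · exact (h3 _ _).trans ((T_pos g x.2.1 y.2.2).trans ((h x.1).2 y.1 e))
  · rintro (_ | x) e
    · exact hne ((h1 d hd).symm.trans ((h2 _).symm.trans e))
    · exact one_ne_zero ((h x.1).1.symm.trans ((T_pos g x.2.1 x.2.2).symm.trans
        ((h3 _ _).symm.trans e)))

end Rk

theorem rkS : RkS :=
  ⟨fun _ _ => Rk.lo, fun _ _ => Rk.ld, fun _ _ _ _ => Rk.red, fun _ _ => Rk.sp⟩

end Pool.Agent.MP_59fd2e_ag.DV
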