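import Pool.Agent.MP_9207e0_ag.cc.Rk
import Pool.Agent.MP_59fd2e_ag.dv.Defs

/-! PROJECT DV: definitions and the statements of the rows.
Note: /team-store/DV59fd2e_h39.md.  The rows of a matrix are the vectors of a flag. -/

noncomputable section

namespace Pool.Agent.MP_59fd2e_ag.DV

open MvPolynomial Matrix Pool.Agent.MP_9207e0_ag.CC
open scoped Classical

abbrev M10 (R : Type) : Type := Matrix (Fin 10) (Fin 10) R

abbrev S10 : Type := Equiv.Perm (Fin 10)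

abbrev Pl : Type := Fin 6 → Fin 10

/-! ### Permutations -/

/-- The number of inversions. -/
def len (w : S10) : ℕ :=
  (Finset.univ.filter fun x : Fin 10 × Fin 10 => x.1 < x.2 ∧ w x.2 < w x.1).card

/-- The number of inversions between the first six and the last four positions. -/
def gco (w : S10) : ℕ :=
  (Finset.univ.filter fun x : Fin 10 × Fin 10 => x.1.val < 6 ∧ 6 ≤ x.2.val ∧ w x.2 < w x.1).card

def sw (w : S10) (p q : Fin 10) : S10 := w * Equiv.swap p q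

/-- A covering relation of the Bruhat order. -/
def Cov (w : S10) (p q : Fin 10) : Prop :=
  p < q ∧ w p < w q ∧ ∀ r, p < r → r < q → ¬(w p < w r ∧ w r < w q)

/-- The rank function. -/
def rkP (w : S10) (i c : Fin 10) : ℕ := (Finset.univ.filter fun j => j ≤ i ∧ w j ≤ c).card

/-- The index occurs in the triple. -/
def In (p : Fin 10) (τ : T3) : Prop := p = τ.1.1 ∨ p = τ.1.2.1 ∨ p = τ.1.2.2

/-- A lower set of triples. -/
def Low (I : Finset T3) : Prop := ∀ τ ∈ I, ∀ τ' : T3, τ'.1.1 ≤ τ.1.1 → τ'.1.2.1 ≤ τ.1.2.1 →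
  τ'.1.2.2 ≤ τ.1.2.2 → τ' ∈ I

def I0 : Finset T3 := Finset.univ.filter fun τ => τ.1.2.2.val < 6

/-- The position of a triple 0, b, c with c = 6, 7 in the chain. -/
def pos (τ : T3) : ℕ := if τ.1.2.2.val = 6 then τ.1.2.1.val - 1 else τ.1.2.1.val + 4

/-- The chain of lower sets. -/
def II (n : ℕ) : Finset T3 := Finset.univ.filter fun τ =>
  τ.1.2.2.val < 6 ∨ (τ.1.1.val = 0 ∧ τ.1.2.2.val < 8 ∧ pos τ < n)

def IC : Finset T3 := Finset.univ.filter fun τ => τ.1.1.val = 0 ∧ τ.1.2.1.val ≤ 5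

/-- The coefficient in the rule of Monk. -/
def mco (τ : T3) (p q : Fin 10) : ℚ := (if In p τ then 1 else 0) - if In q τ then 1 else 0

/-- The covers. -/
def cvs (w : S10) : Finset (Fin 10 × Fin 10) := Finset.univ.filter fun x => Cov w x.1 x.2

/-- The free positions of a cell. -/
abbrev Fr (w : S10) : Type := {x : Fin 10 × Fin 10 // w x.1 < x.2 ∧ x.1 < w.symm x.2}

/-- The coordinates of a stratum. -/
abbrev Ix (w : S10) (I : Finset T3) : Type := Fr w ⊕ {τ : T3 // τ ∉ I}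

/-! ### Matrices -/

section
variable {R : Type} [CommRing R]

def lam (σ : T3 → R) (g : M10 R) (τ : T3) : R := tri σ (g τ.1.1) (g τ.1.2.1) (g τ.1.2.2)

def Van (σ : T3 → R) (g : M10 R) (I : Finset T3) : Prop := ∀ τ ∈ I, lam σ g τ = 0

/-- Lower triangular. -/
def Lt (b : M10 R) : Prop := ∀ i j, i < j → b i j = 0

/-- Lower triangular with nonzero diagonal. -/
def Lo (b : M10 R) : Prop := Lt b ∧ ∀ i, b i i ≠ 0

/-- The normal form in the chart around `w`. -/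
def CF (w : S10) (g : M10 R) : Prop := ∀ i, g i (w i) = 1 ∧ ∀ j, j < i → g i (w j) = 0

/-- The leading columns are given by `w`. -/
def Ld (w : S10) (g : M10 R) : Prop := ∀ i, g i (w i) ≠ 0 ∧ ∀ c, c < w i → g i c = 0

/-- The normal form in the cell of `w`. -/
def NF (w : S10) (g : M10 R) : Prop := CF w g ∧ ∀ i c, c < w i → g i c = 0

/-- The rank of the upper left corner. -/
def rkM (g : M10 R) (i c : Fin 10) : ℕ :=
  (Matrix.of fun j d => if j ≤ i ∧ d ≤ c then g j d else 0 : M10 R).rank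

def xs (p q : Fin 10) (s : R) : M10 R := 1 + Matrix.single p q s

def top (g : M10 R) : Matrix (Fin 6) (Fin 10) R := g.submatrix (Fin.castLE (by decide)) id

/-- The matrix of the cell with the given coordinates. -/
def um (w : S10) (y : Fr w → R) : M10 R := Matrix.of fun i c =>
  if c = w i then 1 else if h : w i < c ∧ i < w.symm c then y ⟨(i, c), h⟩ else 0

def lm (I : Finset T3) (y : {τ : T3 // τ ∉ I} → R) (τ : T3) : R :=
  if h : τ ∈ I then 0 else y ⟨τ, h⟩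

/-- The coordinates of a point of a stratum. -/
def co (w : S10) (I : Finset T3) (σ : T3 → R) (g : M10 R) : Ix w I → R :=
  Sum.elim (fun x => g x.1.1 x.1.2) fun τ => lam σ g τ.1

/-- The points of a stratum. -/
def PS (σ : T3 → R) (w : S10) (I : Finset T3) : Set (M10 R) := {g | NF w g ∧ Van σ g I}

end

/-- The coefficients of the form as polynomials in the coordinates. -/
def sI (k0 : Type) [Field k0] (w : S10) (I : Finset T3) : T3 → MvPolynomial (Ix w I) k0 :=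
  lam (lm I (X ∘ Sum.inr)) (um w (X ∘ Sum.inl))⁻¹

/-- The same in the chart at a boundary divisor. -/
def sB (k0 : Type) [Field k0] (w : S10) (p q : Fin 10) (I : Finset T3) :
    T3 → MvPolynomial (Option (Ix w I)) k0 :=
  lam (lm I (X ∘ some ∘ Sum.inr)) (xs p q (X none) * um w (X ∘ some ∘ Sum.inl))⁻¹

section
variable {K L : Type} [Field K] [Field L]

/-- The point of the Grassmannian. -/
def pt (g : M10 K) : PP Pl K :=
  if h : plk (top g) = 0 then Projectivization.mk K 1 one_ne_zero else Projectivization.mk K _ h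

/-- The entries are finite with values `z`. -/
def Ov {ι : Type} (P : Plc K L) (y : ι → K) (z : ι → L) : Prop := ∀ i, y i ∈ P.V ∧ P.fn (y i) = z i

/-- The same for matrices. -/
def OvM (P : Plc K L) (g : M10 K) (z : M10 L) : Prop := ∀ i, Ov P (g i) (z i)

/-- The flag of `g` reduces to the point `z` of the cell of `w`. -/
def RD (P : Plc K L) (g : M10 K) (w : S10) (z : M10 L) : Prop :=
  NF w z ∧ ∃ b, Lo b ∧ CF w (b * g) ∧ OvM P (b * g) z

end

/-! ### Cycles -/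

section
variable (k0 : Type) {k : Type} [Field k0] [Field k] [Algebra k0 k]

/-- The coefficients over the field of the parameter. -/
def sL {J : Type} (σ : J → k) (j : J) : LL k := algebraMap k (LL k) (σ j)

/-- The Galois group. -/
def Fx {J : Type} (σ : J → k) (θ : k ≃ₐ[k0] k) : Prop := ∀ j, θ (σ j) = σ j

/-- Conjugate points. -/
def Cj {J ι : Type} (σ : J → k) (x y : PP ι k) : Prop :=
  ∃ θ, Fx k0 σ θ ∧ pmap (θ : k →+* k) x = y

/-- An invariant cycle. -/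
def Inv {J ι : Type} (σ : J → k) (A : Multiset (PP ι k)) : Prop :=
  ∀ θ, Fx k0 σ θ → A.map (pmap (θ : k →+* k)) = A

variable {k0}

def cq (A : Multiset (PP Pl k)) : PP Pl k →₀ ℚ := (A.map fun x => Finsupp.single x (1 : ℚ)).sum

/-- The relations. -/
def NN (σ : T3 → k) : Submodule ℚ (PP Pl k →₀ ℚ) := Submodule.span ℚ
  {D | ∃ A B, RatEq (dvIdeal σ) k (cyc A) (cyc B) ∧ A.card = B.card ∧ D = cq A - cq B}

abbrev HQ (σ : T3 → k) : Type := (PP Pl k →₀ ℚ) ⧸ NN σ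

/-- The class of a point. -/
def ee (σ : T3 → k) (x : PP Pl k) : HQ σ := (NN σ).mkQ (Finsupp.single x 1)

/-- The class of a stratum. -/
def CC (σ : T3 → k) (w : S10) (I : Finset T3) : HQ σ := ∑ᶠ g ∈ PS σ w I, ee σ (pt g)

variable (k0)

/-- The class of an orbit. -/
def oc (σ : T3 → k) (x : PP Pl k) : HQ σ := ∑ᶠ y ∈ {y | Cj k0 σ x y}, ee σ y

/-- The span of the classes of the last strata. -/
def HS (σ : T3 → k) : Submodule ℚ (HQ σ) :=
  Submodule.span ℚ {c | ∃ w, len w = 25 ∧ c = CC σ w I0}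

/-- The curve of a stratum. -/
def TT (σ : T3 → k) (w : S10) (I : Finset T3) (τ : T3) : Set (M10 (LL k)) :=
  {g | g ∈ PS (sL σ) w I ∧ lam (sL σ) g τ = tt k}

/-- The coordinates in `S` are independent over the others. -/
def Cyl {ι : Type} (n : ℕ) (S : Finset ι) (y : ι → k) : Prop :=
  rk k0 (y '' (S : Set ι)ᶜ) + S.card ≤ n

end

/-! ### Rows: forms, permutations, flags -/

/-- TRI -/
structure TriS : Prop where
  mul : ∀ (R : Type) [CommRing R] (σ : T3 → R) (g : M10 R) (x y z : Fin 10 → R),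
    tri σ (x ᵥ* g) (y ᵥ* g) (z ᵥ* g) = tri (lam σ g) x y z
  lam_mul : ∀ (R : Type) [CommRing R] (σ : T3 → R) (g h : M10 R),
    lam σ (g * h) = lam (lam σ h) g
  one : ∀ (R : Type) [CommRing R] (σ : T3 → R), lam σ 1 = σ
  map : ∀ (R S : Type) [CommRing R] [CommRing S] (φ : R →+* S) (σ : T3 → R)
    (x y z : Fin 10 → R), φ (tri σ x y z) = tri (φ ∘ σ) (φ ∘ x) (φ ∘ y) (φ ∘ z)
  lam_map : ∀ (R S : Type) [CommRing R] [CommRing S] (φ : R →+* S) (σ : T3 → R) (g : M10 R)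
    (τ : T3), φ (lam σ g τ) = lam (φ ∘ σ) (g.map φ) τ
  sw1 : ∀ (R : Type) [CommRing R] (σ : T3 → R) (x y z : Fin 10 → R),
    tri σ x y z = -tri σ y x z ∧ tri σ x x z = 0
  sw2 : ∀ (R : Type) [CommRing R] (σ : T3 → R) (x y z : Fin 10 → R),
    tri σ x y z = -tri σ x z y ∧ tri σ x y y = 0
  lin : ∀ (R : Type) [CommRing R] (σ : T3 → R) (x z : Fin 10 → R),
    ∃ f : (Fin 10 → R) →ₗ[R] R, ∀ y, f y = tri σ x y z
  low : ∀ (R : Type) [CommRing R] (σ : T3 → R) (b g : M10 R) (I : Finset T3), Lt b → Low I →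
    Van σ g I → Van σ (b * g) I ∧ ∀ τ, Low (insert τ I) →
      lam σ (b * g) τ = b τ.1.1 τ.1.1 * b τ.1.2.1 τ.1.2.1 * b τ.1.2.2 τ.1.2.2 * lam σ g τ
  kills : ∀ (R : Type) [CommRing R] (σ : T3 → R) (g : M10 R),
    Van σ g I0 ↔ ∀ a b c, tri σ (top g a) (top g b) (top g c) = 0
  ov : ∀ (K L : Type) [Field K] [Field L] (P : Plc K L) (σ : T3 → K) (σ' : T3 → L) (g : M10 K)
    (z : M10 L), Ov P σ σ' → OvM P g z → Ov P (lam σ g) (lam σ' z)

/-- CH: the chain of lower sets. -/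
structure ChS : Prop where
  zero : II 0 = I0
  low : ∀ n, Low (II n)
  sub : ∀ n, I0 ⊆ II n
  card : ∀ n ≤ 11, (II n).card = 20 + n
  step : ∀ n < 11, ∀ τ : T3, τ.1.1.val = 0 → τ.1.2.2.val = (if n < 5 then 6 else 7) →
    τ.1.2.1.val = (if n < 5 then n + 1 else n - 4) → τ ∉ II n ∧ II (n + 1) = insert τ (II n)
  lowC : Low IC ∧ IC.card = 30
  c120 : Fintype.card T3 = 120

/-- LEN -/
structure LenS : Prop where
  cov : ∀ w p q, Cov w p q → len (sw w p q) = len w + 1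
  inj : ∀ (w : S10) (p q p' q' : Fin 10), p < q → p' < q' → sw w p q = sw w p' q' → p = p' ∧ q = q'
  fr : ∀ w, Fintype.card (Fr w) + len w = 45
  ix : ∀ w I, Fintype.card (Ix w I) + len w + I.card = 165
  rk_inj : ∀ w w', (∀ i c, rkP w i c = rkP w' i c) → w = w'
  rk_sw : ∀ w p q i c, p < q → w p < w q → ¬(p ≤ i ∧ i < q ∧ w p ≤ c ∧ c < w q) →
    rkP (sw w p q) i c = rkP w i c

/-- BR: the order of Bruhat. -/
def BrS : Prop := ∀ w w' : S10, (∀ i c, rkP w' i c ≤ rkP w i c) →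
  w' = w ∨ (len w < len w' ∧ (len w' ≤ len w + 1 → ∃ p q, Cov w p q ∧ w' = sw w p q))

/-- SORT -/
structure SortS : Prop where
  two : ∀ w : S10, ∃ π : S10, (∀ i, (π i).val < 6 ↔ i.val < 6) ∧ gco w + 21 ≤ len (w * π)
  three : ∀ w : S10, ∃ π : S10, π 0 = 0 ∧ (∀ i, (π i).val < 6 ↔ i.val < 6) ∧ 16 ≤ len (w * π)
  five : ∀ w : S10, len w = 25 → gco w ≤ 4 → List.ofFn (fun i => (w i).val) ∈
    [[9, 4, 3, 2, 1, 0, 8, 7, 6, 5], [8, 5, 3, 2, 1, 0, 9, 7, 6, 4], [7, 6, 3, 2, 1, 0, 9, 8, 5, 4],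
      [7, 5, 4, 2, 1, 0, 9, 8, 6, 3], [6, 5, 4, 3, 1, 0, 9, 8, 7, 2]]

/-- RK: ranks of corners. -/
structure RkS : Prop where
  lo : ∀ (K : Type) [Field K] (b g : M10 K) (i c : Fin 10), Lo b → rkM (b * g) i c = rkM g i c
  ld : ∀ (K : Type) [Field K] (w : S10) (g : M10 K) (i c : Fin 10), Ld w g → rkM g i c = rkP w i c
  red : ∀ (K L : Type) [Field K] [Field L] (P : Plc K L) (g : M10 K) (z : M10 L) (i c : Fin 10),
    OvM P g z → rkM z i c ≤ rkM g i c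
  sp : ∀ (K : Type) [Field K] (w : S10) (g : M10 K) (i c : Fin 10) (a : Fin 10 → K), CF w g →
    rkM g i c ≤ rkP w i c → (∀ j, i < j → a j = 0) →
    (∀ j, j ≤ i → w j ≤ c → (a ᵥ* g) (w j) = 0) → ∀ d, d ≤ c → (a ᵥ* g) d = 0

/-- NF: normal forms. -/
structure NfS : Prop where
  lo_mul : ∀ (K : Type) [Field K] (b b' : M10 K), Lo b → Lo b' → Lo (b * b')
  lo_one : ∀ (K : Type) [Field K], Lo (1 : M10 K)
  lo_inv : ∀ (K : Type) [Field K] (b : M10 K), Lo b → ∃ b', Lo b' ∧ b' * b = 1 ∧ b * b' = 1 ∧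
    ∀ i, b' i i * b i i = 1
  diag : ∀ (R : Type) [CommRing R] (b b' : M10 R) (i : Fin 10), Lt b → Lt b' →
    (b * b') i i = b i i * b' i i
  det : ∀ (R : Type) [CommRing R] (w : S10) (g : M10 R), CF w g → g.det * g.det = 1
  cf_uniq : ∀ (R : Type) [CommRing R] (w : S10) (b g : M10 R), Lt b → CF w g → CF w (b * g) → b = 1
  ld_nf : ∀ (K : Type) [Field K] (w : S10) (g : M10 K), Ld w g →
    ∃ b, Lo b ∧ NF w (b * g) ∧ ∀ i, b i i * g i (w i) = 1
  ex : ∀ (K : Type) [Field K] (g : M10 K), g.det ≠ 0 → ∃ w b, Lo b ∧ NF w (b * g)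
  uniq : ∀ (K : Type) [Field K] (w w' : S10) (b g : M10 K), Lo b → NF w g → NF w' (b * g) →
    w = w' ∧ b = 1

/-- IWA: reduction of flags. -/
structure IwaS : Prop where
  ex : ∀ (K L : Type) [Field K] [Field L] [Algebra L K] (P : Plc K L) (g : M10 K), P.Over L →
    g.det ≠ 0 → ∃ w z, RD P g w z
  uniq : ∀ (K L : Type) [Field K] [Field L] (P : Plc K L) (g b b' : M10 K) (w w' : S10)
    (z z' : M10 L), Lo b → Lo b' → CF w (b * g) → CF w' (b' * g) → OvM P (b * g) z →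
    OvM P (b' * g) z' → NF w z → NF w' z' → w = w' ∧ b = b' ∧ z = z'

/-- COV: the boundary divisors of a cell. -/
structure CovS : Prop where
  cf : ∀ (R : Type) [CommRing R] (w : S10) (p q : Fin 10) (s : R) (u : M10 R), p < q → CF w u →
    CF w (xs p q s * u)
  inv : ∀ (R : Type) [CommRing R] (p q : Fin 10) (s : R), p ≠ q → xs p q s * xs p q (-s) = 1
  to_nf : ∀ (K : Type) [Field K] (w : S10) (p q : Fin 10) (g : M10 K), Cov w p q →
    CF (sw w p q) g → (∀ i c, rkM g i c ≤ rkP w i c) → NF (sw w p q) (xs p q (-g p (w p)) * g)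
  of_nf : ∀ (K : Type) [Field K] (w : S10) (p q : Fin 10) (s : K) (u : M10 K), Cov w p q →
    s ≠ 0 → NF (sw w p q) u → ∃ b, Lo b ∧ NF w (b * (xs p q s * u)) ∧ b p p * s = 1 ∧
      b q q = -s ∧ ∀ i, i ≠ p → i ≠ q → b i i = 1

/-- CHART: coordinates. -/
structure ChartS : Prop where
  nf : ∀ (R : Type) [CommRing R] (w : S10) (y : Fr w → R), NF w (um w y)
  um_co : ∀ (R : Type) [CommRing R] (w : S10) (g : M10 R), NF w g →
    um w (fun x => g x.1.1 x.1.2) = g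
  um_apply : ∀ (R : Type) [CommRing R] (w : S10) (y : Fr w → R) (x : Fr w),
    um w y x.1.1 x.1.2 = y x
  lm_co : ∀ (R : Type) [CommRing R] (I : Finset T3) (l : T3 → R), (∀ τ ∈ I, l τ = 0) →
    lm I (fun τ => l τ.1) = l
  um_ov : ∀ (K L : Type) [Field K] [Field L] (P : Plc K L) (w : S10) (y : Fr w → K)
    (z : Fr w → L), Ov P y z → OvM P (um w y) (um w z)
  evI : ∀ (k0 R : Type) [Field k0] [CommRing R] [Algebra k0 R] (w : S10) (I : Finset T3)
    (σ : T3 → R) (y : Ix w I → R), (∀ τ, aeval y (sI k0 w I τ) = σ τ) ↔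
      lam σ (um w (y ∘ Sum.inl)) = lm I (y ∘ Sum.inr)
  evB : ∀ (k0 R : Type) [Field k0] [CommRing R] [Algebra k0 R] (w : S10) (p q : Fin 10)
    (I : Finset T3) (σ : T3 → R) (y : Option (Ix w I) → R), p < q →
    ((∀ τ, aeval y (sB k0 w p q I τ) = σ τ) ↔
      lam σ (xs p q (y none) * um w (y ∘ some ∘ Sum.inl)) = lm I (y ∘ some ∘ Sum.inr))
  ps : ∀ (k0 R : Type) [Field k0] [CommRing R] [Algebra k0 R] (w : S10) (I : Finset T3)
    (σ : T3 → R) (g : M10 R), g ∈ PS σ w I → um w (co w I σ g ∘ Sum.inl) = g ∧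
      ∀ τ, aeval (co w I σ g) (sI k0 w I τ) = σ τ
  ps' : ∀ (k0 R : Type) [Field k0] [CommRing R] [Algebra k0 R] (w : S10) (I : Finset T3)
    (σ : T3 → R) (y : Ix w I → R), (∀ τ, aeval y (sI k0 w I τ) = σ τ) →
      um w (y ∘ Sum.inl) ∈ PS σ w I ∧ co w I σ (um w (y ∘ Sum.inl)) = y
  ps_map : ∀ (R S : Type) [CommRing R] [CommRing S] (φ : R →+* S) (w : S10) (I : Finset T3)
    (σ : T3 → R) (g : M10 R), g ∈ PS σ w I →
      g.map φ ∈ PS (φ ∘ σ) w I ∧ co w I (φ ∘ σ) (g.map φ) = φ ∘ co w I σ g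
  cnt : ∀ (k0 K : Type) [Field k0] [Field K] [Algebra k0 K] (w : S10) (I : Finset T3)
    (σ : T3 → K) (g : M10 K), AlgebraicIndependent k0 σ → g ∈ PS σ w I →
      len w + I.card ≤ 45 ∧ (len w + I.card = 45 → AlgebraicIndependent k0 (co w I σ g)) ∧
      (120 : ℕ∞) ≤ rk k0 (Set.range (co w I σ g))

/-- PLK: points of the Grassmannian. -/
structure PlkS : Prop where
  ne : ∀ (K : Type) [Field K] (g : M10 K), g.det ≠ 0 → plk (top g) ≠ 0
  lo : ∀ (K : Type) [Field K] (b g : M10 K), Lo b → pt (b * g) = pt g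
  map : ∀ (K L : Type) [Field K] [Field L] (f : K →+* L) (g : M10 K), pmap f (pt g) = pt (g.map f)
  red : ∀ (K L : Type) [Field K] [Field L] (P : Plc K L) (g : M10 K) (z : M10 L), OvM P g z →
    z.det ≠ 0 → P.red (pt g) = pt z
  hg : ∀ (k : Type) [Field k] [IsAlgClosed k] (σ : T3 → k), Hg (dvIdeal σ)
  on : ∀ (k K : Type) [Field k] [IsAlgClosed k] [Field K] [Algebra k K] (σ : T3 → k) (g : M10 K),
    g.det ≠ 0 → Van (fun τ => algebraMap k K (σ τ)) g I0 → On (dvIdeal σ) (pt g)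
  ex : ∀ (K : Type) [Field K] (σ : T3 → K) (x : PP Pl K), x.rep ∈ cone σ →
    ∃ w g, g ∈ PS σ w I0 ∧ pt g = x

/-- ND: empty strata. -/
structure NdS : Prop where
  gr : ∀ (k0 K : Type) [Field k0] [Field K] [Algebra k0 K] (σ : T3 → K) (w : S10) (I : Finset T3),
    AlgebraicIndependent k0 σ → 5 ≤ gco w → I0 ⊆ I → PS σ w I = ∅
  rk4 : ∀ (k0 K : Type) [Field k0] [Field K] [Algebra k0 K] (σ : T3 → K) (w : S10),
    AlgebraicIndependent k0 σ → PS σ w (II 11) = ∅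

/-! ### Rows: places -/

/-- EX: places above the origin are conjugate. -/
def ExS : Prop := ∀ (K F L k : Type) [Field K] [CharZero K] [Field F] [Field L] [IsAlgClosed L]
  [Field k] [Algebra K F] [Algebra K L] [Algebra K k] (h : F) (u : L) (P' : Plc F k) (P : Plc L k),
  Pool.Agent.MP_9207e0_ag.IsCurveFieldOver K F → Transcendental K h → Transcendental K u →
  P'.Over K → P.Over K → h ∈ P'.V → P'.fn h = 0 → u ∈ P.V → P.fn u = 0 →
  ∃ f : F →ₐ[K] L, f h = u ∧ ∀ x ∈ P'.V, f x ∈ P.V ∧ P.fn (f x) = P'.fn x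

/-- EXT: a point lifts to the curve. -/
def ExtS : Prop := ∀ (k0 k Ω J ι : Type) [Field k0] [CharZero k0] [Field k] [IsAlgClosed k]
  [Field Ω] [Algebra k0 k] [Algebra k0 Ω] [Fintype J] [Finite ι] (σ : J → k) (η : ι → Ω)
  (z : ι → k) (s : J → MvPolynomial ι k0) (a b : MvPolynomial ι k0) (P : Plc (LL k) k) (u : LL k),
  IsTranscendenceBasis k0 σ → ASp k0 η z → rk k0 (Set.range η) ≤ Fintype.card J + 1 →
  (∀ j, aeval z (s j) = σ j) → aeval z a = 0 → aeval η a ≠ 0 → aeval z b ≠ 0 →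
  (u = tt k ∨ u = (tt k)⁻¹) → Zr P u →
  ∃ y : ι → LL k, ASp k0 η y ∧ ASp k0 y η ∧ (∀ j, aeval y (s j) = sL σ j) ∧
    aeval y a = u * aeval y b ∧ Ov P y z

/-- FIN: the generic fibre of the function is finite. -/
def FinS : Prop := ∀ (k0 k Ω J ι : Type) [Field k0] [Field k] [Field Ω] [Algebra k0 k]
  [Algebra k0 Ω] [Fintype J] [Finite ι] (σ : J → k) (η : ι → Ω) (s : J → MvPolynomial ι k0)
  (a b : MvPolynomial ι k0), AlgebraicIndependent k0 σ →
  rk k0 (Set.range η) ≤ Fintype.card J + 1 →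
  {y : ι → LL k | ASp k0 η y ∧ (∀ j, aeval y (s j) = sL σ j) ∧ aeval y a = tt k * aeval y b ∧
    aeval y b ≠ 0}.Finite

/-- UNQ: the lift is unique. -/
def UnqS : Prop := ∀ (k0 k L J ι : Type) [Field k0] [CharZero k0] [Field k] [Field L]
  [Algebra k0 k] [Algebra k0 L] [Fintype J] [Fintype ι] (σ : J → k) (z : ι → k)
  (s : J → MvPolynomial ι k0) (a b : MvPolynomial ι k0) (i0 : ι) (P : Plc L k) (u : L)
  (y y' : ι → L), AlgebraicIndependent k0 σ → Fintype.card ι = Fintype.card J + 1 → P.Over k0 →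
  (∀ j, aeval z (s j) = σ j) → z i0 = 0 → aeval z a ≠ 0 → u ∈ P.V → P.fn u = 0 → Ov P y z →
  Ov P y' z → (∀ j, aeval y (s j) = aeval y' (s j)) → y i0 * aeval y a = u * aeval y b →
  y' i0 * aeval y' a = u * aeval y' b → y = y'

/-- INV: the reduction commutes with the Galois group. -/
def InvS : Prop := ∀ (k0 k J : Type) [Field k0] [CharZero k0] [Field k] [IsAlgClosed k]
  [Algebra k0 k] [Fintype J] (σ : J → k) (P : Plc (LL k) k) (u : LL k) (θ : k ≃ₐ[k0] k)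
  (A : Set (LL k)), IsTranscendenceBasis k0 σ → (u = tt k ∨ u = (tt k)⁻¹) → Zr P u → Fx k0 σ θ →
  A.Finite → ∃ f : LL k →ₐ[k0] LL k, f (tt k) = tt k ∧ (∀ j, f (sL σ j) = sL σ j) ∧
    ∀ x ∈ A, x ∈ P.V → f x ∈ P.V ∧ P.fn (f x) = θ (P.fn x)

/-- CONJ: conjugate points. -/
structure ConjS : Prop where
  ex : ∀ (k0 k J ι : Type) [Field k0] [Field k] [IsAlgClosed k] [Algebra k0 k] (σ : J → k)
    (y y' : ι → k) (s : J → MvPolynomial ι k0), IsTranscendenceBasis k0 σ → ASp k0 y y' →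
    ASp k0 y' y → (∀ j, aeval y (s j) = σ j) → (∀ j, aeval y' (s j) = σ j) →
    ∃ θ, Fx k0 σ θ ∧ ∀ i, θ (y i) = y' i
  fin : ∀ (k0 k J ι : Type) [Field k0] [Field k] [Algebra k0 k] [Finite ι] (σ : J → k)
    (y : ι → k), IsTranscendenceBasis k0 σ → {y' | ∃ θ, Fx k0 σ θ ∧ θ ∘ y = y'}.Finite
  finP : ∀ (k0 k J ι : Type) [Field k0] [Field k] [Algebra k0 k] [Finite ι] (σ : J → k)
    (x : PP ι k), IsTranscendenceBasis k0 σ → {y | Cj k0 σ x y}.Finite
  symm : ∀ (k0 k J ι : Type) [Field k0] [Field k] [Algebra k0 k] (σ : J → k) (x y : PP ι k),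
    Cj k0 σ x y → Cj k0 σ y x
  trans : ∀ (k0 k J ι : Type) [Field k0] [Field k] [Algebra k0 k] (σ : J → k) (x y z : PP ι k),
    Cj k0 σ x y → Cj k0 σ y z → Cj k0 σ x z
  refl : ∀ (k0 k J ι : Type) [Field k0] [Field k] [Algebra k0 k] (σ : J → k) (x : PP ι k),
    Cj k0 σ x x

/-- CURVE: a curve through a point of an affine space. -/
def CurveS : Prop := ∀ (k0 k ι : Type) [Field k0] [Field k] [Algebra k0 k] [Fintype ι] (n : ℕ)
  (z : ι → k) (S : Finset ι) (i : ι), (n : ℕ∞) ≤ rk k0 (Set.range z) → i ∉ S → Cyl k0 n S z →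
  ¬ Cyl k0 n (insert i S) z → ∃ (Ω : Type) (_ : Field Ω) (_ : Algebra k0 Ω) (η : ι → Ω)
    (a b : MvPolynomial ι k0), rk k0 (Set.range η) ≤ n + 1 ∧ ASp k0 η z ∧ aeval z a = 0 ∧
    aeval η a ≠ 0 ∧ aeval z b ≠ 0 ∧ ∀ x : ι → k, ASp k0 η x → (n : ℕ∞) ≤ rk k0 (Set.range x) →
      Cyl k0 n (insert i S) x ∨ (aeval x b ≠ 0 ∧ (aeval x a = 0 → ASp k0 x z ∧ ASp k0 z x))

/-! ### Rows: cycles -/

/-- ORB: invariant cycles are sums of orbits. -/
def OrbS : Prop := ∀ (k0 k : Type) [Field k0] [Field k] [Algebra k0 k] (σ : T3 → k)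
  (H : Submodule ℚ (HQ σ)) (A : Multiset (PP Pl k)) (z : PP Pl k), IsTranscendenceBasis k0 σ →
  Inv k0 σ A → (∀ x ∈ A, oc k0 σ x ∈ H ∨ Cj k0 σ z x) →
  ∃ m : ℕ, (z ∈ A → 0 < m) ∧ (A.map (ee σ)).sum - (m : ℚ) • oc k0 σ z ∈ H ∧
    ((∀ x ∈ A, oc k0 σ x ∈ H) → (A.map (ee σ)).sum ∈ H)

/-- FAM: the two ends of a family of flags. -/
structure FamS : Prop where
  eq : ∀ (k : Type) [Field k] [IsAlgClosed k] [CharZero k] (σ : T3 → k)
    (T : Finset (M10 (LL k))) (P Q : Plc (LL k) k) (ρ ρ' : M10 (LL k) → M10 k),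
    (∀ g ∈ T, g.det ≠ 0 ∧ Van (sL σ) g I0) →
    (∀ (φ : LL k ≃ₐ[RatFunc k] LL k), ∀ g ∈ T, g.map φ ∈ T) → Zr P (tt k) → Zr Q (tt k)⁻¹ →
    (∀ g ∈ T, ∃ w, RD P g w (ρ g)) → (∀ g ∈ T, ∃ w, RD Q g w (ρ' g)) →
    ∑ g ∈ T, ee σ (pt (ρ g)) = ∑ g ∈ T, ee σ (pt (ρ' g))
  inv : ∀ (k0 k : Type) [Field k0] [CharZero k0] [Field k] [IsAlgClosed k] [Algebra k0 k]
    (σ : T3 → k) (T : Finset (M10 (LL k))) (P : Plc (LL k) k) (u : LL k) (ρ : M10 (LL k) → M10 k),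
    IsTranscendenceBasis k0 σ → (u = tt k ∨ u = (tt k)⁻¹) → Zr P u →
    (∀ f : LL k →ₐ[k0] LL k, f (tt k) = tt k → (∀ j, f (sL σ j) = sL σ j) →
      ∀ g ∈ T, g.map f ∈ T) → (∀ g ∈ T, ∃ w, RD P g w (ρ g)) →
    Inv k0 σ (T.val.map fun g => pt (ρ g))

/-- PSF: a stratum of dimension zero is one orbit. -/
def PsfS : Prop := ∀ (k0 k : Type) [Field k0] [Field k] [IsAlgClosed k] [Algebra k0 k]
  (σ : T3 → k) (w : S10) (I : Finset T3), IsTranscendenceBasis k0 σ → len w + I.card = 45 →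
  (PS σ w I).Finite ∧ ∀ g ∈ PS σ w I, ∃ m : ℚ, m ≠ 0 ∧ CC σ w I = m • oc k0 σ (pt g)

/-- The hypotheses on a curve. -/
structure Cu (w : S10) (I : Finset T3) (τ : T3) : Prop where
  dim : len w + I.card = 44
  low : Low I
  low' : Low (insert τ I)
  nm : τ ∉ I

/-- The data at a boundary divisor. -/
def Bd {k : Type} [Field k] (σ : T3 → k) (P : Plc (LL k) k) (w : S10) (I : Finset T3) (τ : T3)
    (g : M10 (LL k)) (p q : Fin 10) (z : M10 k) : Prop :=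
  ∃ (s : LL k) (u b : M10 (LL k)), s ≠ 0 ∧ s ∈ P.V ∧ P.fn s = 0 ∧ NF (sw w p q) u ∧ OvM P u z ∧
    Lo b ∧ g = b * (xs p q s * u) ∧ Van (sL σ) (xs p q s * u) I ∧
    lam (sL σ) g τ * (if In p τ then s else 1) =
      (if In q τ then -s else 1) * lam (sL σ) (xs p q s * u) τ

/-- L0: the reduction of a point of a stratum. -/
def L0S : Prop := ∀ (k : Type) [Field k] (σ : T3 → k) (P : Plc (LL k) k) (w w' : S10)
  (I : Finset T3) (g : M10 (LL k)) (z : M10 k), P.Over k → Low I → g ∈ PS (sL σ) w I →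
  RD P g w' z → z ∈ PS σ w' I ∧ (∀ i c, rkP w' i c ≤ rkP w i c) ∧
    (w' = w → OvM P g z ∧ Ov P (co w I (sL σ) g) (co w I σ z))

/-- L1: the reductions of the points of a curve. -/
def L1S : Prop := ∀ (k0 k : Type) [Field k0] [Field k] [Algebra k0 k] (σ : T3 → k)
  (P : Plc (LL k) k) (w w' : S10) (I : Finset T3) (τ : T3) (g : M10 (LL k)) (z : M10 k),
  AlgebraicIndependent k0 σ → Cu w I τ → P.Over k → g ∈ PS (sL σ) w I → RD P g w' z →
  z ∈ PS σ w' I ∧ ((w' = w ∧ OvM P g z) ∨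
    ∃ p q, Cov w p q ∧ w' = sw w p q ∧ lam σ z τ ≠ 0 ∧ Bd σ P w I τ g p q z)

/-- L2: the zero inside the cell is simple. -/
def L2S : Prop := ∀ (k0 k : Type) [Field k0] [CharZero k0] [Field k] [IsAlgClosed k]
  [Algebra k0 k] (σ : T3 → k) (P : Plc (LL k) k) (w : S10) (I : Finset T3) (τ : T3),
  IsTranscendenceBasis k0 σ → Cu w I τ → (TT σ w I τ).Finite ∧
    ∀ z ∈ PS σ w (insert τ I), Zr P (tt k) → ∃! g, g ∈ TT σ w I τ ∧ RD P g w z

/-- L3: zeros and poles at the boundary are simple. -/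
def L3S : Prop := ∀ (k0 k : Type) [Field k0] [CharZero k0] [Field k] [IsAlgClosed k]
  [Algebra k0 k] (σ : T3 → k) (P : Plc (LL k) k) (w : S10) (I : Finset T3) (τ : T3)
  (p q : Fin 10) (z : M10 k), IsTranscendenceBasis k0 σ → Cu w I τ → Cov w p q →
  z ∈ PS σ (sw w p q) I →
  ((In q τ ∧ ¬ In p τ ∧ Zr P (tt k)) ∨ (In p τ ∧ ¬ In q τ ∧ Zr P (tt k)⁻¹)) →
  ∃! g, g ∈ TT σ w I τ ∧ RD P g (sw w p q) z

/-- REL: the rule of Monk. -/
def RelS : Prop := ∀ (k0 k : Type) [Field k0] [CharZero k0] [Field k] [IsAlgClosed k]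
  [Algebra k0 k] (σ : T3 → k) (w : S10) (I : Finset T3) (τ : T3), IsTranscendenceBasis k0 σ →
  Cu w I τ → I0 ⊆ I →
  CC σ w (insert τ I) = ∑ x ∈ cvs w, mco τ x.1 x.2 • CC σ (sw w x.1 x.2) I

/-- G2: one step of the generation. -/
def G2S : Prop := ∀ (k0 k : Type) [Field k0] [CharZero k0] [Field k] [IsAlgClosed k]
  [Algebra k0 k] (σ : T3 → k) (H : Submodule ℚ (HQ σ)) (w : S10) (S : Finset (Ix w I0))
  (i : Ix w I0) (z : M10 k), IsTranscendenceBasis k0 σ → z ∈ PS σ w I0 → i ∉ S →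
  Cyl k0 120 S (co w I0 σ z) →
  (∀ w', len w < len w' → ∀ x ∈ PS σ w' I0, oc k0 σ (pt x) ∈ H) →
  (∀ x ∈ PS σ w I0, Cyl k0 120 (insert i S) (co w I0 σ x) → oc k0 σ (pt x) ∈ H) →
  oc k0 σ (pt z) ∈ H

/-- GEN: the last strata generate. -/
def GenS : Prop := ∀ (k0 k : Type) [Field k0] [CharZero k0] [Field k] [IsAlgClosed k]
  [Algebra k0 k] (σ : T3 → k) (w : S10), IsTranscendenceBasis k0 σ →
  ∀ z ∈ PS σ w I0, oc k0 σ (pt z) ∈ HS σ

/-- MONK: the computation. -/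
def MonkS : Prop := ∀ (H : Type) [AddCommGroup H] [Module ℚ H] (C : S10 → ℕ → H),
  (∀ n < 11, ∀ τ : T3, τ.1.1.val = 0 → τ.1.2.2.val = (if n < 5 then 6 else 7) →
    τ.1.2.1.val = (if n < 5 then n + 1 else n - 4) → ∀ w, len w + n = 24 →
      C w (n + 1) = ∑ x ∈ cvs w, mco τ x.1 x.2 • C (sw w x.1 x.2) n) →
  (∀ w n, 5 ≤ gco w → C w n = 0) → (∀ w, C w 11 = 0) →
  ∃ o : H, ∀ w, len w = 25 → ∃ r : ℚ, C w 0 = r • o

/-- TORS: from rational to integral coefficients, and the degree. -/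
structure TorsS : Prop where
  deg : ∀ (k : Type) [Field k] (σ : T3 → k), ∃ d : HQ σ →ₗ[ℚ] ℚ, ∀ x, d (ee σ x) = 1
  int : ∀ (k : Type) [Field k] (σ : T3 → k) (A B : Multiset (PP Pl k)),
    (A.map (ee σ)).sum = (B.map (ee σ)).sum →
    ∃ n : ℤ, n ≠ 0 ∧ RatEq (dvIdeal σ) k (n • (cyc A - cyc B)) 0

/-- The theorem. -/
def MainS : Prop := ∀ (k0 k : Type) [Field k0] [CharZero k0] [Field k] [IsAlgClosed k]
  [Algebra k0 k] (σ : T3 → k), IsTranscendenceBasis k0 σ → ∀ Z : PP (Fin 6 → Fin 10) k →₀ ℤ,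
  (∀ x ∈ Z.support, x.rep ∈ cone σ) →
  (∀ θ : k ≃ₐ[k0] k, (∀ τ, θ (σ τ) = σ τ) → Z.mapDomain (pmap (θ : k →+* k)) = Z) →
  (Z.sum fun _ n => n) = 0 → ∃ n : ℤ, n ≠ 0 ∧ RatEq (dvIdeal σ) k (n • Z) 0

end Pool.Agent.MP_59fd2e_ag.DV
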